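import Pool.Agent.Helper18.HA.Meas

/-! Project HA: classes of data with common constants. -/

set_option autoImplicit false
open MeasureTheory Real Set Filter Topology
open scoped ENNReal

namespace Pool.Agent.Helper18.HA

open Pool.Agent.Helper18.HY
open Pool.Agent.Helper72.AP (Rs mx Lc Kk Ent2)
open Pool.Agent.Helper18.UC (T2 rep toT nn)
open Pool.Agent.Helper18.FD (NN rr pr cl uu lm Bump k1 k2 NN_pos NN_ge)
open Pool.Agent.Helper95.PV (Ix Om PP lv rp tc inn out cel upd mv mu Pt rv)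

/-- the amplitudes are not small: `log (1 / k l) = o(l^(1/3))` -/
def LowK (k : ℕ → ℝ) : Prop := ∀ δ : ℝ, 0 < δ → ∀ᶠ l : ℕ in atTop, Real.exp (-(δ * (l : ℝ) ^ (1 / 3 : ℝ))) ≤ k l

/-- data with the amplitudes `k`, parameter of absolute value `A`, coupling at least `κ₀` -/
structure Cls (k : ℕ → ℝ) (A κ₀ : ℝ) (d : Dat) : Prop where
  ok : d.Ok
  k : d.k = k
  a : |d.a| = A
  κ : κ₀ ≤ d.κ

/-- the noise coordinates of the levels `≥ lo` can be resampled under the law `W` -/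
def Fr (W : Measure Om) (lo : ℕ) : Prop := ∀ i : Ix, lo ≤ i.1 → Rs W i

/-- mean growth for a fixed noise -/
noncomputable def un (d : Dat) (ω : Om) (m : ℕ) : ℝ := ∫ z : T2, Real.log (nn (Mm d m (ω, z)))

/-- the integrand of the growth functional at the time `2^i`, at least one on `{nn ≤ exp (2^(i/2))}` -/
noncomputable def gi (d : Dat) (i : ℕ) (p : Pt) : ℝ :=
  min 1 (Real.exp ((2 : ℝ) ^ ((i : ℝ) / 2)) * (nn (Mm d (2 ^ i) p))⁻¹)

/-- the growth functional for a fixed noise -/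
noncomputable def gr (d : Dat) (ω : Om) (i : ℕ) : ℝ := ∫ z : T2, gi d i (ω, z)

/-- the doubling defect for a fixed noise -/
noncomputable def ff (d : Dat) (ω : Om) (m : ℕ) : ℝ := 2 * un d ω m - un d ω (2 * m)

/-- the datum with parameter `a`, coupling `κ`, amplitudes `k`, background `g` -/
noncomputable def dt (R : ℝ) (χ : ℝ → ℝ) (k : ℕ → ℝ) (a κ : ℝ) (g : Kk) : Dat := ⟨a, κ, k, R, χ, g.1, g.2⟩

/-- tail of the amplitudes -/
noncomputable def tl (k : ℕ → ℝ) (n : ℕ) : ℝ := ∑' l : ℕ, k (l + n)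

/-- a box of data: fixed parameter, couplings in `[κ₀, κ₁]`, backgrounds in `𝒢` -/
structure Box (χ : ℝ → ℝ) (k : ℕ → ℝ) (a R κ₀ κ₁ : ℝ) (𝒢 : Set Kk) : Prop where
  κ0 : 0 < κ₀
  κ1 : κ₁ ≤ 1
  hχ : Bump χ
  hk : ∀ l, 1 / (NN l : ℝ) ≤ k l
  hs : Summable k
  low : LowK k
  up : ∃ γ : ℝ, 0 < γ ∧ ∀ᶠ l : ℕ in atTop, k l ≤ Real.exp (-(l : ℝ) ^ γ)
  ha : 100 ≤ |a|
  hR : 1 ≤ R
  ok : ∀ (κ : ℝ) (g : Kk), κ₀ ≤ κ → κ ≤ κ₁ → g ∈ 𝒢 → (dt R χ k a κ g).Ok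
  md : ∃ L γ : ℝ, 0 ≤ L ∧ 0 < γ ∧ ∀ g ∈ 𝒢, ∀ (x y : ℝ) (n : ℕ),
    |g.2 x - g.2 y| ≤ L * ((NN n : ℝ) * |x - y| + Real.exp (-(n : ℝ) ^ γ))
  ent : ∃ (Q : ℝ) (j : ℕ), Ent2 Q j 𝒢

end Pool.Agent.Helper18.HA
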