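import Pool.Agent.Helper18.HY.Qrec
import Pool.Agent.Helper18.AL.Kick
import Pool.Agent.Helper72.AP.Defs

/-! Project HA: closeness of orbits for laws `W` of the noise which are invariant under resampling of the coordinates used: double kick, double return, recursion with the true density. Port of `Helper18/PV/Dec.lean`, `Helper18/PV/Q.lean`. -/

set_option autoImplicit false
open MeasureTheory Real Set
open scoped ENNReal

namespace Pool.Agent.Helper18.HA

section abs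

open Pool.Agent.Helper18.FD (NN NN_pos NN_ge uu cl lm cl_of_mem)
open Pool.Agent.Helper18.PV (Sy Ci T2 law wd tw pm pm_mp tw_snd meas_tw meas_wd meas_dist dn rand' Sd meas_Sd Sd_congr wd_congr iter_eq wd_tw wd_rev wd_iter tw_iter_mp vol_ball sk sk_iter)
open Pool.Agent.Helper18.AL (Rs mu res1 res2 qq qq_mono qq_nonneg stat_set stat2 stat3 kick1)

variable {ι : Type} [DecidableEq ι] {K : Sy ι} {B s : ℝ} {W : Measure (ι → ℝ)} [IsProbabilityMeasure W]

omit [DecidableEq ι] in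
/-- change of the order of integration -/
lemma pm_int {G : (ι → ℝ) × (T2 × T2) → ℝ≥0∞} (hG : Measurable G) :
    ∫⁻ z : T2, ∫⁻ ω, (∫⁻ w : T2, G (ω, ((w.1, z.2), (w.2, z.1)))) ∂W =
      ∫⁻ p, G p ∂(W.prod (volume : Measure (T2 × T2))) := by
  have h1 : Measurable fun q : T2 × ((ι → ℝ) × T2) => G (q.2.1, ((q.2.2.1, q.1.2), (q.2.2.2, q.1.1))) := by
    apply hG.comp
    fun_prop
  have h2 : Measurable fun q : T2 × (ι → ℝ) => ∫⁻ w : T2, G (q.2, ((w.1, q.1.2), (w.2, q.1.1))) := by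
    have h3 : Measurable fun r : (T2 × (ι → ℝ)) × T2 => G (r.1.2, ((r.2.1, r.1.1.2), (r.2.2, r.1.1.1))) := by
      apply hG.comp
      fun_prop
    exact h3.lintegral_prod_right'
  rw [lintegral_lintegral_swap h2.aemeasurable, lintegral_prod _ hG.aemeasurable]
  refine lintegral_congr fun ω => ?_
  have h4 : Measurable fun w : T2 × T2 => G (ω, w) := hG.comp (measurable_const.prodMk measurable_id)
  rw [← pm_mp.lintegral_comp h4]
  exact (lintegral_prod (μ := (volume : Measure T2)) (ν := (volume : Measure T2)) (fun w : T2 × T2 => G (ω, pm w))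
    (h4.comp pm_mp.measurable).aemeasurable).symm

/-- the double kick -/
theorem dec (hK : K.Ok B s) (l : ℕ) (hR : ∀ c, Rs W (K.idx l c)) {S' : Set ((ι → ℝ) × (T2 × T2))} (hS : MeasurableSet S')
    (hsep : ∀ (ω : ι → ℝ) (α β : T2), (ω, (α, β)) ∈ S' → 2 / (NN l : ℝ) ≤ dist α.2 β.2)
    (h1 : ∀ (ω : ι → ℝ) (α β : T2) (u : ℝ), (ω, (α, β)) ∈ S' →
      (Function.update ω (K.idx l (K.cel l α.2)) u, (α, β)) ∈ S')
    (h2 : ∀ (ω : ι → ℝ) (α β : T2) (u : ℝ), (ω, (α, β)) ∈ S' →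
      (Function.update ω (K.idx l (K.cel l β.2)) u, (α, β)) ∈ S') :
    mu W {p | (p.1, (tw K p.1 p.2.swap, tw K p.1 p.2)) ∈ S'} ≤
      dn K l ^ 2 * (W.prod (volume : Measure (T2 × T2))) S' := by
  obtain ⟨G, hGd⟩ : ∃ G : (ι → ℝ) × (T2 × T2) → ℝ≥0∞, G = S'.indicator 1 := ⟨_, rfl⟩
  have hG : Measurable G := by rw [hGd]; exact measurable_one.indicator hS
  have hm : Measurable fun p : (ι → ℝ) × T2 => (p.1, (tw K p.1 p.2.swap, tw K p.1 p.2)) := by
    have e1 : Measurable fun p : (ι → ℝ) × T2 => (p.1, p.2.swap) :=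
      measurable_fst.prodMk (measurable_swap.comp measurable_snd)
    exact measurable_fst.prodMk (((meas_tw hK).comp e1).prodMk (meas_tw hK))
  have hpre : MeasurableSet {p : (ι → ℝ) × T2 | (p.1, (tw K p.1 p.2.swap, tw K p.1 p.2)) ∈ S'} := hm hS
  have hA : K.amp l ≠ 0 := hK.amp_ne l
  -- the main estimate for a fixed pair
  have key : ∀ z : T2, ∫⁻ ω, G (ω, (tw K ω z.swap, tw K ω z)) ∂W ≤
      dn K l ^ 2 * ∫⁻ ω, (∫⁻ w : T2, G (ω, ((w.1, z.2), (w.2, z.1)))) ∂W := by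
    intro z
    by_cases hd : 2 / (NN l : ℝ) ≤ dist z.2 z.1
    swap
    · have h0 : ∀ ω, G (ω, (tw K ω z.swap, tw K ω z)) = 0 := by
        intro ω
        rw [hGd]
        apply indicator_of_notMem
        intro h
        have h3 := hsep ω (tw K ω z.swap) (tw K ω z) h
        rw [tw_snd, tw_snd] at h3
        exact hd h3
      simp only [h0, lintegral_zero]
      exact zero_le
    obtain ⟨i, hi⟩ : ∃ i, i = K.idx l (K.cel l z.2) := ⟨_, rfl⟩
    obtain ⟨j, hj⟩ : ∃ j, j = K.idx l (K.cel l z.1) := ⟨_, rfl⟩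
    have hij : i ≠ j := by rw [hi, hj]; exact hK.ne l _ _ hd
    have hRi : Rs W i := by rw [hi]; exact hR _
    have hRj : Rs W j := by rw [hj]; exact hR _
    have hoff1 : ∀ (ω : ι → ℝ) (u : ℝ), K.F (Function.update ω i u) z.1 = K.F ω z.1 := by
      intro ω u; rw [hi]; exact hK.off l ω u _ _ hd
    have hoff2 : ∀ (ω : ι → ℝ) (u : ℝ), K.F (Function.update ω j u) z.2 = K.F ω z.2 := by
      intro ω u; rw [hj]; exact hK.off l ω u _ _ (by rwa [dist_comm])
    have hon1 : ∀ (ω : ι → ℝ) (u : ℝ), K.F (Function.update ω i u) z.2 =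
        K.F (Function.update ω i 0) z.2 + ((K.amp l * cl u : ℝ) : Ci) := by
      intro ω u; rw [hi]; exact hK.on l ω u _
    have hon2 : ∀ (ω : ι → ℝ) (u : ℝ), K.F (Function.update ω j u) z.1 =
        K.F (Function.update ω j 0) z.1 + ((K.amp l * cl u : ℝ) : Ci) := by
      intro ω u; rw [hj]; exact hK.on l ω u _
    -- the function of the noise and the two new positions
    obtain ⟨f, hfd⟩ : ∃ f : (ι → ℝ) → Ci → Ci → ℝ≥0∞, f = fun ω a b => G (ω, ((a, z.2), (b, z.1))) := ⟨_, rfl⟩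
    have hinv1 : ∀ (ω : ι → ℝ) (u : ℝ) (a b : Ci), f (Function.update ω i u) a b = f ω a b := by
      intro ω u a b
      have e1 : ((Function.update ω i u, ((a, z.2), (b, z.1))) ∈ S') ↔ ((ω, ((a, z.2), (b, z.1))) ∈ S') := by
        constructor
        · intro h
          have h3 := h1 _ _ _ (ω i) h
          rw [← hi, Function.update_idem, Function.update_eq_self] at h3
          exact h3
        · intro h
          have h3 := h1 _ _ _ u h
          rw [← hi] at h3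
          exact h3
      rw [hfd]
      show G _ = G _
      rw [hGd]
      by_cases h : (ω, ((a, z.2), (b, z.1))) ∈ S'
      · rw [indicator_of_mem h, indicator_of_mem (e1.2 h)]; rfl
      · rw [indicator_of_notMem h, indicator_of_notMem (fun h' => h (e1.1 h'))]
    have hinv2 : ∀ (ω : ι → ℝ) (u : ℝ) (a b : Ci), f (Function.update ω j u) a b = f ω a b := by
      intro ω u a b
      have e1 : ((Function.update ω j u, ((a, z.2), (b, z.1))) ∈ S') ↔ ((ω, ((a, z.2), (b, z.1))) ∈ S') := by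
        constructor
        · intro h
          have h3 := h2 _ _ _ (ω j) h
          rw [← hj, Function.update_idem, Function.update_eq_self] at h3
          exact h3
        · intro h
          have h3 := h2 _ _ _ u h
          rw [← hj] at h3
          exact h3
      rw [hfd]
      show G _ = G _
      rw [hGd]
      by_cases h : (ω, ((a, z.2), (b, z.1))) ∈ S'
      · rw [indicator_of_mem h, indicator_of_mem (e1.2 h)]; rfl
      · rw [indicator_of_notMem h, indicator_of_notMem (fun h' => h (e1.1 h'))]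
    have hfm : Measurable fun q : (ι → ℝ) × (Ci × Ci) => f q.1 q.2.1 q.2.2 := by
      rw [hfd]
      apply hG.comp
      fun_prop
    have hH : Measurable fun ω => G (ω, (tw K ω z.swap, tw K ω z)) :=
      (hG.comp hm).comp (measurable_id.prodMk measurable_const)
    rw [res2 (W := W) hRi hRj hH, ← lintegral_const_mul' _ _ (by unfold dn; exact ENNReal.pow_ne_top ENNReal.ofReal_ne_top)]
    refine lintegral_mono fun ω => ?_
    obtain ⟨g1, hg1⟩ : ∃ g1, g1 = z.2 + z.2 - z.1 + K.F (Function.update ω i 0) z.2 := ⟨_, rfl⟩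
    obtain ⟨g2, hg2⟩ : ∃ g2, g2 = z.1 + z.1 - z.2 + K.F (Function.update ω j 0) z.1 := ⟨_, rfl⟩
    have hval : ∀ u v : ℝ, G (Function.update (Function.update ω i u) j v,
        (tw K (Function.update (Function.update ω i u) j v) z.swap,
          tw K (Function.update (Function.update ω i u) j v) z)) =
        f ω (g1 + ((K.amp l * cl u : ℝ) : Ci)) (g2 + ((K.amp l * cl v : ℝ) : Ci)) := by
      intro u v
      have e1 : tw K (Function.update (Function.update ω i u) j v) z.swap =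
          (g1 + ((K.amp l * cl u : ℝ) : Ci), z.2) := by
        refine Prod.ext ?_ rfl
        show z.2 + z.2 - z.1 + K.F (Function.update (Function.update ω i u) j v) z.2 = _
        rw [hoff2, hon1, ← add_assoc, hg1]
      have e2 : tw K (Function.update (Function.update ω i u) j v) z =
          (g2 + ((K.amp l * cl v : ℝ) : Ci), z.1) := by
        refine Prod.ext ?_ rfl
        show z.1 + z.1 - z.2 + K.F (Function.update (Function.update ω i u) j v) z.1 = _
        rw [hon2, Function.update_comm hij, hoff1, ← add_assoc, hg2]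
      rw [e1, e2]
      have e3 : G (Function.update (Function.update ω i u) j v,
          ((g1 + ((K.amp l * cl u : ℝ) : Ci), z.2), (g2 + ((K.amp l * cl v : ℝ) : Ci), z.1))) =
          f (Function.update (Function.update ω i u) j v) (g1 + ((K.amp l * cl u : ℝ) : Ci))
            (g2 + ((K.amp l * cl v : ℝ) : Ci)) := by rw [hfd]
      rw [e3, hinv2, hinv1]
    have hfa : ∀ a, Measurable fun b => f ω a b := fun a =>
      hfm.comp (measurable_const.prodMk (measurable_const.prodMk measurable_id))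
    have hfi : Measurable fun a => ∫⁻ b, f ω a b := by
      have h3 : Measurable fun q : Ci × Ci => f ω q.1 q.2 := hfm.comp (measurable_const.prodMk measurable_id)
      exact h3.lintegral_prod_right'
    calc ∫⁻ u, ∫⁻ v, G (Function.update (Function.update ω i u) j v,
        (tw K (Function.update (Function.update ω i u) j v) z.swap,
          tw K (Function.update (Function.update ω i u) j v) z)) ∂uu ∂uu
        = ∫⁻ u, ∫⁻ v, f ω (g1 + ((K.amp l * cl u : ℝ) : Ci)) (g2 + ((K.amp l * cl v : ℝ) : Ci)) ∂uu ∂uu := by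
          simp only [hval]
      _ ≤ ∫⁻ u, dn K l * (∫⁻ b, f ω (g1 + ((K.amp l * cl u : ℝ) : Ci)) b) ∂uu :=
          lintegral_mono fun u => rand' hA g2 (hfa _)
      _ = dn K l * ∫⁻ u, (∫⁻ b, f ω (g1 + ((K.amp l * cl u : ℝ) : Ci)) b) ∂uu :=
          lintegral_const_mul' _ _ ENNReal.ofReal_ne_top
      _ ≤ dn K l * (dn K l * ∫⁻ a, ∫⁻ b, f ω a b) := by
          gcongr
          exact rand' hA g1 hfi
      _ = dn K l ^ 2 * ∫⁻ w : T2, G (ω, ((w.1, z.2), (w.2, z.1))) := by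
          rw [← mul_assoc, ← sq]
          congr 1
          have h3 : Measurable fun q : T2 => f ω q.1 q.2 := hfm.comp (measurable_const.prodMk measurable_id)
          rw [Measure.volume_eq_prod]
          have h4 := lintegral_prod (μ := (volume : Measure Ci)) (ν := (volume : Measure Ci))
            (fun q : T2 => f ω q.1 q.2) h3.aemeasurable
          rw [← h4, hfd]
  calc mu W {p | (p.1, (tw K p.1 p.2.swap, tw K p.1 p.2)) ∈ S'}
      = ∫⁻ p, G (p.1, (tw K p.1 p.2.swap, tw K p.1 p.2)) ∂(mu W) := by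
        rw [← lintegral_indicator_one hpre, hGd]
        rfl
    _ = ∫⁻ z : T2, ∫⁻ ω, G (ω, (tw K ω z.swap, tw K ω z)) ∂W := by
        rw [mu]
        exact lintegral_prod_symm (fun p : (ι → ℝ) × T2 => G (p.1, (tw K p.1 p.2.swap, tw K p.1 p.2)))
          (hG.comp hm).aemeasurable
    _ ≤ ∫⁻ z : T2, dn K l ^ 2 * ∫⁻ ω, (∫⁻ w : T2, G (ω, ((w.1, z.2), (w.2, z.1)))) ∂W :=
        lintegral_mono key
    _ = dn K l ^ 2 * ∫⁻ z : T2, ∫⁻ ω, (∫⁻ w : T2, G (ω, ((w.1, z.2), (w.2, z.1)))) ∂W :=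
        lintegral_const_mul' _ _ (by unfold dn; exact ENNReal.pow_ne_top ENNReal.ofReal_ne_top)
    _ = dn K l ^ 2 * (W.prod (volume : Measure (T2 × T2))) S' := by
        rw [pm_int hG, hGd, lintegral_indicator_one hS]

/-- measure of the condition for independent uniform pairs -/
lemma vol_Sd (hK : K.Ok B s) (m n j l : ℕ) {ρ σ : ℝ} (hρ : 0 < ρ) :
    (W.prod (volume : Measure (T2 × T2))) (Sd K m n j l ρ σ) ≤ ENNReal.ofReal (4 * ρ * σ) := by
  rw [Measure.prod_apply (meas_Sd hK m n j l ρ σ)]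
  have h1 : ∀ ω : ι → ℝ, (volume : Measure (T2 × T2)) (Prod.mk ω ⁻¹' Sd K m n j l ρ σ) ≤
      ENNReal.ofReal (4 * ρ * σ) := by
    intro ω
    have hm : MeasurableSet (Prod.mk ω ⁻¹' Sd K m n j l ρ σ) := measurable_prodMk_left (meas_Sd hK m n j l ρ σ)
    rw [Measure.volume_eq_prod, Measure.prod_apply hm]
    have h2 : ∀ α : T2, (volume : Measure T2) (Prod.mk α ⁻¹' (Prod.mk ω ⁻¹' Sd K m n j l ρ σ)) ≤
        ENNReal.ofReal (4 * ρ * σ) := by
      intro α
      have h3 : Prod.mk α ⁻¹' (Prod.mk ω ⁻¹' Sd K m n j l ρ σ) ⊆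
          (tw K ω)^[n] ⁻¹' (Metric.ball (wd K ω α m) ρ ×ˢ Metric.ball (wd K ω α (m - j)) σ) := by
        intro β hβ
        obtain ⟨_, h4, h5⟩ := hβ
        rw [mem_preimage, iter_eq]
        exact ⟨h4, h5⟩
      refine (measure_mono h3).trans ?_
      rw [(tw_iter_mp hK ω n).measure_preimage
        (measurableSet_ball.prod measurableSet_ball).nullMeasurableSet, Measure.volume_eq_prod,
        Measure.prod_prod]
      calc volume (Metric.ball (wd K ω α m) ρ) * volume (Metric.ball (wd K ω α (m - j)) σ)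
          ≤ ENNReal.ofReal (2 * ρ) * ENNReal.ofReal (2 * σ) := mul_le_mul' (vol_ball _ _) (vol_ball _ _)
        _ = ENNReal.ofReal (4 * ρ * σ) := by
          rw [← ENNReal.ofReal_mul (by positivity)]
          congr 1
          ring
    calc ∫⁻ α : T2, (volume : Measure T2) (Prod.mk α ⁻¹' (Prod.mk ω ⁻¹' Sd K m n j l ρ σ))
        ≤ ∫⁻ _α : T2, ENNReal.ofReal (4 * ρ * σ) := lintegral_mono h2
      _ = _ := by rw [lintegral_const, measure_univ, mul_one]
  calc ∫⁻ ω, (volume : Measure (T2 × T2)) (Prod.mk ω ⁻¹' Sd K m n j l ρ σ) ∂W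
      ≤ ∫⁻ _ω, ENNReal.ofReal (4 * ρ * σ) ∂W := lintegral_mono h1
    _ = _ := by rw [lintegral_const, measure_univ, mul_one]

/-- double return across an isolated pair -/
theorem double (hK : K.Ok B s) {m n j : ℕ} (l : ℕ) (hR : ∀ c, Rs W (K.idx l c)) {ρ σ : ℝ} (hj : j ≤ m) (hρ : 0 < ρ) :
    mu W {p | dist (wd K p.1 p.2 (m + n + 2)) (wd K p.1 p.2 0) < ρ ∧
        dist (wd K p.1 p.2 (m + n + 1)) (wd K p.1 p.2 j) < σ ∧
        ∀ i, 1 ≤ i → i < m + n + 2 →
          (i ≠ m → 2 / (NN l : ℝ) ≤ dist (wd K p.1 p.2 m) (wd K p.1 p.2 i)) ∧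
          (i ≠ m + 1 → 2 / (NN l : ℝ) ≤ dist (wd K p.1 p.2 (m + 1)) (wd K p.1 p.2 i))} ≤
      dn K l ^ 2 * ENNReal.ofReal (4 * ρ * σ) := by
  have hS := meas_Sd hK m n j l ρ σ
  have hpre : MeasurableSet {p : (ι → ℝ) × T2 | (p.1, (tw K p.1 p.2.swap, tw K p.1 p.2)) ∈ Sd K m n j l ρ σ} := by
    have e1 : Measurable fun p : (ι → ℝ) × T2 => (p.1, p.2.swap) :=
      measurable_fst.prodMk (measurable_swap.comp measurable_snd)
    exact (measurable_fst.prodMk (((meas_tw hK).comp e1).prodMk (meas_tw hK))) hS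
  have hsub : {p | dist (wd K p.1 p.2 (m + n + 2)) (wd K p.1 p.2 0) < ρ ∧
        dist (wd K p.1 p.2 (m + n + 1)) (wd K p.1 p.2 j) < σ ∧
        ∀ i, 1 ≤ i → i < m + n + 2 →
          (i ≠ m → 2 / (NN l : ℝ) ≤ dist (wd K p.1 p.2 m) (wd K p.1 p.2 i)) ∧
          (i ≠ m + 1 → 2 / (NN l : ℝ) ≤ dist (wd K p.1 p.2 (m + 1)) (wd K p.1 p.2 i))} ⊆
      ((sk K)^[m]) ⁻¹' {p : (ι → ℝ) × T2 | (p.1, (tw K p.1 p.2.swap, tw K p.1 p.2)) ∈ Sd K m n j l ρ σ} := by
    rintro ⟨ω, z⟩ ⟨h1, h2, h3⟩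
    simp only at h1 h2 h3
    rw [mem_preimage, sk_iter, iter_eq]
    have ea : ∀ i ≤ m, wd K ω (tw K ω (wd K ω z m, wd K ω z (m + 1))) i = wd K ω z (m - i) := by
      intro i hi
      rw [wd_tw, wd_rev ω z m (i + 1) (by omega)]
      congr 1
      omega
    have eb : ∀ i, wd K ω (tw K ω (wd K ω z (m + 1), wd K ω z m)) i = wd K ω z (m + 1 + i) := by
      intro i
      have h4 := wd_iter (K := K) ω z m (i + 1)
      rw [iter_eq] at h4
      rw [wd_tw, h4]
      congr 1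
      omega
    have hsw : Prod.swap (wd K ω z (m + 1), wd K ω z m) = (wd K ω z m, wd K ω z (m + 1)) := rfl
    show (ω, (tw K ω (Prod.swap (wd K ω z (m + 1), wd K ω z m)), tw K ω (wd K ω z (m + 1), wd K ω z m))) ∈
      Sd K m n j l ρ σ
    rw [hsw]
    refine ⟨⟨?_, fun i hi hi' => ?_, fun i hi hi' => ?_⟩, ?_, ?_⟩
    · show 2 / (NN l : ℝ) ≤ dist (wd K ω z m) (wd K ω z (m + 1))
      exact (h3 (m + 1) (by omega) (by omega)).1 (by omega)
    · show 2 / (NN l : ℝ) ≤ dist (wd K ω z m) (wd K ω (tw K ω (wd K ω z m, wd K ω z (m + 1))) i) ∧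
        2 / (NN l : ℝ) ≤ dist (wd K ω z (m + 1)) (wd K ω (tw K ω (wd K ω z m, wd K ω z (m + 1))) i)
      rw [ea i hi'.le]
      have h5 := h3 (m - i) (by omega) (by omega)
      exact ⟨h5.1 (by omega), h5.2 (by omega)⟩
    · show 2 / (NN l : ℝ) ≤ dist (wd K ω z m) (wd K ω (tw K ω (wd K ω z (m + 1), wd K ω z m)) i) ∧
        2 / (NN l : ℝ) ≤ dist (wd K ω z (m + 1)) (wd K ω (tw K ω (wd K ω z (m + 1), wd K ω z m)) i)
      rw [eb i]
      have h5 := h3 (m + 1 + i) (by omega) (by omega)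
      exact ⟨h5.1 (by omega), h5.2 (by omega)⟩
    · show dist (wd K ω (tw K ω (wd K ω z (m + 1), wd K ω z m)) (n + 1))
        (wd K ω (tw K ω (wd K ω z m, wd K ω z (m + 1))) m) < ρ
      rw [ea m le_rfl, eb, Nat.sub_self]
      rw [show m + 1 + (n + 1) = m + n + 2 by ring]
      exact h1
    · show dist (wd K ω (tw K ω (wd K ω z (m + 1), wd K ω z m)) n)
        (wd K ω (tw K ω (wd K ω z m, wd K ω z (m + 1))) (m - j)) < σ
      rw [ea (m - j) (Nat.sub_le _ _), eb, Nat.sub_sub_self hj]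
      rw [show m + 1 + n = m + n + 1 by ring]
      exact h2
  refine (measure_mono hsub).trans ?_
  rw [stat_set hK m hpre]
  refine (dec hK l hR hS (fun ω α β h => h.1.1) ?_ ?_).trans ?_
  · intro ω α β u h
    refine Sd_congr ?_ ?_ h
    · intro i hi hi'
      exact hK.off l ω u _ _ (h.1.2.1 i hi hi').1
    · intro i hi hi'
      exact hK.off l ω u _ _ (h.1.2.2 i hi hi').1
  · intro ω α β u h
    refine Sd_congr ?_ ?_ h
    · intro i hi hi'
      exact hK.off l ω u _ _ (h.1.2.1 i hi hi').2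
    · intro i hi hi'
      exact hK.off l ω u _ _ (h.1.2.2 i hi hi').2
  · gcongr
    exact vol_Sd hK m n j l hρ

omit [DecidableEq ι] in
private lemma union_le {J : Finset ℕ} {k : ℕ} (hJ : J ⊆ Finset.range k) {S : ℕ → Set ((ι → ℝ) × T2)} {c : ℝ}
    (h : ∀ j ∈ J, mu W (S j) ≤ ENNReal.ofReal c) :
    mu W (⋃ j ∈ J, S j) ≤ ENNReal.ofReal (k * c) := by
  calc mu W (⋃ j ∈ J, S j) ≤ ∑ j ∈ J, mu W (S j) := measure_biUnion_finset_le _ _
    _ ≤ ∑ _j ∈ J, ENNReal.ofReal c := Finset.sum_le_sum h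
    _ = J.card * ENNReal.ofReal c := by rw [Finset.sum_const, nsmul_eq_mul]
    _ ≤ k * ENNReal.ofReal c := by
      gcongr
      have := Finset.card_le_card hJ
      rwa [Finset.card_range] at this
    _ = ENNReal.ofReal (k * c) := by
      rw [ENNReal.ofReal_mul (Nat.cast_nonneg k), ENNReal.ofReal_natCast]

/-- the recursion -/
theorem qrec (hK : K.Ok B s) {k : ℕ} (hk : 3 ≤ k) (l l' : ℕ) (hR : ∀ c, Rs W (K.idx l c)) (hR' : ∀ c, Rs W (K.idx l' c)) {ρ : ℝ} (hρ : 0 < ρ) :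
    ∃ g g' : ℕ, 1 ≤ g ∧ g ≤ k / 2 + 1 ∧ 1 ≤ g' ∧ g' ≤ k / 2 + 1 ∧
      qq W K k ρ ≤ 2 * ρ * (1 + 1 / (2 * |K.amp l|)) +
        8 * k * ρ * (1 + 1 / (2 * |K.amp l'|)) ^ 2 / NN l +
        k * qq W K g (2 / NN l) + 2 * k * qq W K g' (2 / NN l') := by
  have hne : (Finset.Icc 1 (k / 2 + 1)).Nonempty := ⟨1, by rw [Finset.mem_Icc]; omega⟩
  obtain ⟨g, hg, hgm⟩ := Finset.exists_max_image (Finset.Icc 1 (k / 2 + 1)) (fun g => qq W K g (2 / NN l)) hne
  obtain ⟨g', hg', hgm'⟩ := Finset.exists_max_image (Finset.Icc 1 (k / 2 + 1)) (fun g => qq W K g (2 / NN l')) hne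
  rw [Finset.mem_Icc] at hg hg'
  refine ⟨g, g', hg.1, hg.2, hg'.1, hg'.2, ?_⟩
  have hb : ∀ i, 1 ≤ i → i ≤ k / 2 + 1 → qq W K i (2 / NN l) ≤ qq W K g (2 / NN l) := fun i h1 h2 =>
    hgm i (Finset.mem_Icc.2 ⟨h1, h2⟩)
  have hb' : ∀ i, 1 ≤ i → i ≤ k / 2 + 1 → qq W K i (2 / NN l') ≤ qq W K g' (2 / NN l') := fun i h1 h2 =>
    hgm' i (Finset.mem_Icc.2 ⟨h1, h2⟩)
  have hB0 : 0 < B := lt_of_lt_of_le one_pos hK.hB
  have hN : (0 : ℝ) < NN l := by exact_mod_cast NN_pos l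
  have hN' : (0 : ℝ) < NN l' := by exact_mod_cast NN_pos l'
  have hq := qq_nonneg (W := W) (K := K) g (2 / NN l)
  have hq' := qq_nonneg (W := W) (K := K) g' (2 / NN l')
  obtain ⟨M, hM⟩ : ∃ M, M = (k - 1) / 2 := ⟨_, rfl⟩
  obtain ⟨n, hn⟩ : ∃ n, n = k - M - 2 := ⟨_, rfl⟩
  have hkn : M + n + 2 = k := by omega
  have hM1 : 1 ≤ M := by omega
  -- the events
  obtain ⟨U1, hU1⟩ : ∃ U1 : Set ((ι → ℝ) × T2), U1 = {p | dist (wd K p.1 p.2 ((k - 2) + 2)) (wd K p.1 p.2 0) < ρ ∧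
      ∀ j, 1 ≤ j → j < (k - 2) + 1 → 2 / (NN l : ℝ) ≤ dist (wd K p.1 p.2 ((k - 2) + 1)) (wd K p.1 p.2 j)} := ⟨_, rfl⟩
  obtain ⟨U2, hU2⟩ : ∃ U2 : Set ((ι → ℝ) × T2), U2 = ⋃ j ∈ (Finset.range k).filter (fun j => M < j ∧ j < k - 1),
      {p | dist (wd K p.1 p.2 (k - 1)) (wd K p.1 p.2 j) < 2 / NN l} := ⟨_, rfl⟩
  obtain ⟨U3, hU3⟩ : ∃ U3 : Set ((ι → ℝ) × T2), U3 = ⋃ j ∈ (Finset.range k).filter (fun j => 1 ≤ j ∧ j ≠ M),
      {p | dist (wd K p.1 p.2 M) (wd K p.1 p.2 j) < 2 / NN l'} := ⟨_, rfl⟩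
  obtain ⟨U4, hU4⟩ : ∃ U4 : Set ((ι → ℝ) × T2), U4 = ⋃ j ∈ (Finset.range k).filter (fun j => 1 ≤ j ∧ j ≠ M + 1),
      {p | dist (wd K p.1 p.2 (M + 1)) (wd K p.1 p.2 j) < 2 / NN l'} := ⟨_, rfl⟩
  obtain ⟨U5, hU5⟩ : ∃ U5 : Set ((ι → ℝ) × T2), U5 = ⋃ j ∈ (Finset.range k).filter (fun j => j ≤ M),
      {p | dist (wd K p.1 p.2 (M + n + 2)) (wd K p.1 p.2 0) < ρ ∧
        dist (wd K p.1 p.2 (M + n + 1)) (wd K p.1 p.2 j) < 2 / NN l ∧
        ∀ i, 1 ≤ i → i < M + n + 2 →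
          (i ≠ M → 2 / (NN l' : ℝ) ≤ dist (wd K p.1 p.2 M) (wd K p.1 p.2 i)) ∧
          (i ≠ M + 1 → 2 / (NN l' : ℝ) ≤ dist (wd K p.1 p.2 (M + 1)) (wd K p.1 p.2 i))} := ⟨_, rfl⟩
  have m1 : mu W U1 ≤ ENNReal.ofReal (2 * ρ * (1 + 1 / (2 * |K.amp l|))) := by
    rw [hU1]
    refine (kick1 (W := W) hK (k - 2) l hR ρ).trans ?_
    have e := ENNReal.ofReal_mul (p := 1 + 1 / (2 * |K.amp l|)) (q := 2 * ρ) (by positivity)
    rw [mul_comm (2 * ρ), e]
    exact le_rfl
  have m2 : mu W U2 ≤ ENNReal.ofReal (k * qq W K g (2 / NN l)) := by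
    rw [hU2]
    refine union_le (Finset.filter_subset _ _) fun j hj => ?_
    obtain ⟨h1, h2, h3⟩ := Finset.mem_filter.1 hj
    exact stat3 hK (by omega) (G := k / 2 + 1) (by omega) (by omega) hb
  have m3 : mu W U3 ≤ ENNReal.ofReal (k * qq W K g' (2 / NN l')) := by
    rw [hU3]
    refine union_le (Finset.filter_subset _ _) fun j hj => ?_
    obtain ⟨h1, h2, h3⟩ := Finset.mem_filter.1 hj
    rw [Finset.mem_range] at h1
    exact stat3 hK (by omega) (G := k / 2 + 1) (by omega) (by omega) hb'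
  have m4 : mu W U4 ≤ ENNReal.ofReal (k * qq W K g' (2 / NN l')) := by
    rw [hU4]
    refine union_le (Finset.filter_subset _ _) fun j hj => ?_
    obtain ⟨h1, h2, h3⟩ := Finset.mem_filter.1 hj
    rw [Finset.mem_range] at h1
    exact stat3 hK (by omega) (G := k / 2 + 1) (by omega) (by omega) hb'
  have m5 : mu W U5 ≤ ENNReal.ofReal (k * (8 * ρ * (1 + 1 / (2 * |K.amp l'|)) ^ 2 / NN l)) := by
    rw [hU5]
    refine union_le (Finset.filter_subset _ _) fun j hj => ?_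
    obtain ⟨h1, h2⟩ := Finset.mem_filter.1 hj
    refine (double (W := W) hK l' hR' (σ := 2 / NN l) h2 hρ).trans ?_
    have e : 8 * ρ * (1 + 1 / (2 * |K.amp l'|)) ^ 2 / NN l =
        (1 + 1 / (2 * |K.amp l'|)) ^ 2 * (4 * ρ * (2 / NN l)) := by
      field_simp
      ring
    have e2 := ENNReal.ofReal_mul (p := (1 + 1 / (2 * |K.amp l'|)) ^ 2) (q := 4 * ρ * (2 / NN l)) (by positivity)
    rw [e, e2, ENNReal.ofReal_pow (by positivity)]
    exact le_rfl
  have hcov : {p : (ι → ℝ) × T2 | dist (wd K p.1 p.2 k) (wd K p.1 p.2 0) < ρ} ⊆ U1 ∪ (U2 ∪ (U3 ∪ (U4 ∪ U5))) := by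
    rintro ⟨ω, z⟩ hp
    simp only [mem_ofPred_eq] at hp
    by_contra hc
    simp only [mem_union, not_or] at hc
    obtain ⟨c1, c2, c3, c4, c5⟩ := hc
    have d1 : ∃ j, 1 ≤ j ∧ j < k - 1 ∧ dist (wd K ω z (k - 1)) (wd K ω z j) < 2 / NN l := by
      by_contra hd
      push Not at hd
      apply c1
      rw [hU1]
      refine ⟨?_, fun j h1 h2 => ?_⟩
      · show dist (wd K ω z ((k - 2) + 2)) (wd K ω z 0) < ρ
        rw [show k - 2 + 2 = k by omega]
        exact hp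
      · show 2 / (NN l : ℝ) ≤ dist (wd K ω z ((k - 2) + 1)) (wd K ω z j)
        rw [show k - 2 + 1 = k - 1 by omega]
        exact hd j h1 (by omega)
    obtain ⟨j, hj1, hj2, hj3⟩ := d1
    have hjM : j ≤ M := by
      by_contra hjM
      apply c2
      rw [hU2]
      simp only [mem_iUnion]
      exact ⟨j, Finset.mem_filter.2 ⟨Finset.mem_range.2 (by omega), by omega, hj2⟩, hj3⟩
    apply c5
    rw [hU5]
    simp only [mem_iUnion]
    refine ⟨j, Finset.mem_filter.2 ⟨Finset.mem_range.2 (by omega), hjM⟩, ?_, ?_, fun i hi1 hi2 => ⟨fun hi3 => ?_, fun hi3 => ?_⟩⟩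
    · show dist (wd K ω z (M + n + 2)) (wd K ω z 0) < ρ
      rw [hkn]
      exact hp
    · show dist (wd K ω z (M + n + 1)) (wd K ω z j) < 2 / NN l
      rw [show M + n + 1 = k - 1 by omega]
      exact hj3
    · show 2 / (NN l' : ℝ) ≤ dist (wd K ω z M) (wd K ω z i)
      by_contra hd
      push Not at hd
      apply c3
      rw [hU3]
      simp only [mem_iUnion]
      exact ⟨i, Finset.mem_filter.2 ⟨Finset.mem_range.2 (by omega), hi1, hi3⟩, hd⟩
    · show 2 / (NN l' : ℝ) ≤ dist (wd K ω z (M + 1)) (wd K ω z i)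
      by_contra hd
      push Not at hd
      apply c4
      rw [hU4]
      simp only [mem_iUnion]
      exact ⟨i, Finset.mem_filter.2 ⟨Finset.mem_range.2 (by omega), hi1, hi3⟩, hd⟩
  refine ENNReal.toReal_le_of_le_ofReal (by positivity) ?_
  calc mu W {p : (ι → ℝ) × T2 | dist (wd K p.1 p.2 k) (wd K p.1 p.2 0) < ρ}
      ≤ mu W (U1 ∪ (U2 ∪ (U3 ∪ (U4 ∪ U5)))) := measure_mono hcov
    _ ≤ mu W U1 + (mu W U2 + (mu W U3 + (mu W U4 + mu W U5))) :=
        (measure_union_le _ _).trans (by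
          gcongr
          exact (measure_union_le _ _).trans (by
            gcongr
            exact (measure_union_le _ _).trans (by
              gcongr
              exact measure_union_le _ _)))
    _ ≤ ENNReal.ofReal (2 * ρ * (1 + 1 / (2 * |K.amp l|))) + (ENNReal.ofReal (k * qq W K g (2 / NN l)) +
        (ENNReal.ofReal (k * qq W K g' (2 / NN l')) + (ENNReal.ofReal (k * qq W K g' (2 / NN l')) +
          ENNReal.ofReal (k * (8 * ρ * (1 + 1 / (2 * |K.amp l'|)) ^ 2 / NN l))))) := by gcongr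
    _ = ENNReal.ofReal (2 * ρ * (1 + 1 / (2 * |K.amp l|)) + (k * qq W K g (2 / NN l) +
        (k * qq W K g' (2 / NN l') + (k * qq W K g' (2 / NN l') +
          k * (8 * ρ * (1 + 1 / (2 * |K.amp l'|)) ^ 2 / NN l))))) := by
        rw [ENNReal.ofReal_add (by positivity) (by positivity), ENNReal.ofReal_add (by positivity) (by positivity),
          ENNReal.ofReal_add (by positivity) (by positivity), ENNReal.ofReal_add (by positivity) (by positivity)]
    _ = _ := by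
        congr 1
        ring


end abs

open Pool.Agent.Helper18.HY
open Pool.Agent.Helper72.AP (Rs mx Lc)
open Pool.Agent.Helper18.UC (T2 rep toT nn)
open Pool.Agent.Helper18.FD (NN rr pr cl uu lm Bump k1 k2 NN_pos NN_ge)
open Pool.Agent.Helper95.PV (Ix Om PP lv rp tc inn out cel upd mv Pt rv)

/-- the probability that two positions at the distance `k` in time are close -/
noncomputable def qdL (W : Measure Om) (d : Dat) (k : ℕ) (ρ : ℝ) : ℝ := Pool.Agent.Helper18.AL.qq W (Ks d) k ρ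

variable {W : Measure Om} [IsProbabilityMeasure W]

theorem qdL_mono (d : Dat) (k : ℕ) : Monotone (qdL W d k) := Pool.Agent.Helper18.AL.qq_mono k

theorem qdL_nonneg (d : Dat) (k : ℕ) (ρ : ℝ) : 0 ≤ qdL W d k ρ := Pool.Agent.Helper18.AL.qq_nonneg k ρ

theorem qdL_one {d : Dat} (hd : d.Ok) {ρ : ℝ} (hρ : 0 < ρ) : qdL W d 1 ρ ≤ 3 * ρ :=
  Pool.Agent.Helper18.AL.qq_one (Ks_ok hd) hρ

theorem qdL_two {d : Dat} (hd : d.Ok) {ρ : ℝ} (hρ : 0 < ρ) : qdL W d 2 ρ ≤ 3 * ρ :=
  Pool.Agent.Helper18.AL.qq_two (Ks_ok hd) hρ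

theorem qdL_rec {d : Dat} (hd : d.Ok) {lo : ℕ} (hR : ∀ i : Ix, lo ≤ i.1 → Rs W i) {k : ℕ} (hk : 3 ≤ k) (l : ℕ) (hl : lo ≤ l) {ρ : ℝ} (hρ : 0 < ρ) :
    ∃ g g' : ℕ, 1 ≤ g ∧ g ≤ k / 2 + 1 ∧ 1 ≤ g' ∧ g' ≤ k / 2 + 1 ∧
      qdL W d k ρ ≤ 2 * ρ * De d l + 8 * k * ρ * De d l ^ 2 / NN l +
        k * qdL W d g (2 / NN l) + 2 * k * qdL W d g' (2 / NN l) := by
  have e : |(Ks d).amp l| = |d.a| * d.κ * (d.k l / NN l) := by
    have h1 : (0 : ℝ) < NN l := by exact_mod_cast NN_pos l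
    show |d.a * d.κ * (d.k l / NN l)| = _
    rw [abs_mul, abs_mul, abs_of_pos hd.hκ, abs_of_pos (div_pos (hd.hk0 l) h1)]
  have hR' : ∀ c, Pool.Agent.Helper18.AL.Rs W ((Ks d).idx l c) := fun c => hR (l, c, false) hl
  have h := qrec (W := W) (Ks_ok hd) hk l l hR' hR' hρ
  rw [e] at h
  exact h

/-- closeness of two positions -/
theorem qdL_px {d : Dat} (hd : d.Ok) {i j : ℕ} (h : i ≠ j) (ρ : ℝ) :
    (W.prod (volume : Measure T2)) {p | dist (px d i p) (px d j p) < ρ} =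
      ENNReal.ofReal (qdL W d ((i - j) + (j - i)) ρ) := by
  have key : ∀ i j : ℕ, i < j → (W.prod (volume : Measure T2)) {p | dist (px d i p) (px d j p) < ρ} =
      ENNReal.ofReal (qdL W d (j - i) ρ) := by
    intro i j hij
    have h1 := Pool.Agent.Helper18.AL.stat2 (W := W) (Ks_ok hd) (i := i + 1) (j := j + 1) (by omega) ρ
    rw [show j + 1 - (i + 1) = j - i by omega] at h1
    rw [qdL, ← h1]
    refine congrArg (W.prod (volume : Measure T2)) ?_
    ext p
    simp only [mem_ofPred_eq, wd_eq]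
  rcases Nat.lt_or_gt_of_ne h with h1 | h1
  · rw [key i j h1]
    congr 2
    omega
  · have h2 : {p : Pt | dist (px d i p) (px d j p) < ρ} = {p | dist (px d j p) (px d i p) < ρ} := by
      ext p
      simp only [mem_ofPred_eq]
      rw [dist_comm]
    rw [h2, key j i h1]
    congr 2
    omega

end Pool.Agent.Helper18.HA
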