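import Mathlib

/-! Project HA: the recursion for the closeness probabilities with levels `≥ lo` only (port of `HY/Rec.lean` of helper4), with an explicit constant. -/

set_option autoImplicit false
open Real

namespace Pool.Agent.Helper18.HA

private lemma base_h4 {A T ρ s : ℝ} (hA : 2 ≤ A) (hs : 1 ≤ s) (hT : 0 ≤ T)
    (hρ : ρ ≤ (2 : ℝ) ^ (-(A * s * (T + A * s ^ 2)))) : 3 * ρ ≤ (2 : ℝ) ^ (-T) := by
  have h0 : 2 ≤ A * s := by nlinarith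
  have h2 : 2 ≤ A * s ^ 2 := by nlinarith
  have h1 : T + 2 ≤ A * s * (T + A * s ^ 2) := by nlinarith
  have h3 : (2 : ℝ) ^ (-(A * s * (T + A * s ^ 2))) ≤ 2 ^ (-(T + 2)) :=
    Real.rpow_le_rpow_of_exponent_le (by norm_num) (by linarith)
  have h4 : (4 : ℝ) * 2 ^ (-(T + 2)) = 2 ^ (-T) := by
    rw [neg_add, Real.rpow_add two_pos]
    have : (2 : ℝ) ^ (-2 : ℝ) = 1 / 4 := by
      rw [Real.rpow_neg two_pos.le]; norm_num
    rw [this]; ring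
  have h5 : (0 : ℝ) < 2 ^ (-(T + 2)) := Real.rpow_pos_of_pos two_pos _
  linarith

private lemma cube_h4 {A T s b : ℝ} (hA : 30 + 2 * b ≤ A) (hb : 0 ≤ b) (hs : 1 ≤ s) (hT : 0 ≤ T) {l : ℕ}
    (hl : (l : ℝ) ≤ A * s * (T + (s + 4) + A * s ^ 2) + 1) :
    (l : ℝ) ^ (1 / 3 : ℝ) ≤ T + 3 * A * (s + 1) := by
  have hA1 : 1 ≤ A := by linarith
  have hAs : 1 ≤ A * (s + 1) := by nlinarith
  have hy : 0 ≤ T + 3 * A * (s + 1) := by nlinarith
  have h1 : (l : ℝ) ≤ (T + 3 * A * (s + 1)) ^ 3 := by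
    set v := A * (s + 1) with hv
    have e1 : T + 3 * A * (s + 1) = T + 3 * v := by rw [hv]; ring
    rw [e1]
    have e2 : (T + 3 * v) ^ 3 = T ^ 3 + 9 * T ^ 2 * v + 27 * T * v ^ 2 + 27 * v ^ 3 := by ring
    rw [e2]
    have f1 : A * s ≤ v := by rw [hv]; nlinarith
    have f0 : 0 ≤ A * s := by positivity
    have f2 : s ≤ v := by nlinarith
    have f3 : v ≤ v ^ 2 := by nlinarith
    have f4 : v ^ 2 ≤ v ^ 3 := by nlinarith [sq_nonneg v]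
    have g1 : A * s * T ≤ 27 * T * v ^ 2 := by nlinarith
    have g2 : A * s * (s + 4) ≤ 5 * v ^ 2 := by nlinarith
    have g3 : A * s * (A * s ^ 2) ≤ v ^ 3 := by
      have : A * s * (A * s ^ 2) = (A * s) ^ 2 * s := by ring
      rw [this]
      calc (A * s) ^ 2 * s ≤ v ^ 2 * v := by gcongr
        _ = v ^ 3 := by ring
    have g4 : 0 ≤ T ^ 3 := by positivity
    have g5 : 0 ≤ 9 * T ^ 2 * v := by positivity
    nlinarith
  have h2 : (l : ℝ) ^ (1 / 3 : ℝ) ≤ ((T + 3 * A * (s + 1)) ^ 3) ^ (1 / 3 : ℝ) :=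
    Real.rpow_le_rpow (Nat.cast_nonneg l) h1 (by norm_num)
  have h3 : ((T + 3 * A * (s + 1)) ^ 3) ^ (1 / 3 : ℝ) = T + 3 * A * (s + 1) := by
    rw [← Real.rpow_natCast, ← Real.rpow_mul hy]
    norm_num
  rwa [h3] at h2

private lemma expo_h4 {A T s b : ℝ} (hA : 30 + 2 * b ≤ A) (hb : 0 ≤ b) (hs : 1 ≤ s) (hT : 0 ≤ T) {l : ℕ}
    (hl : (l : ℝ) ≤ A * s * (T + (s + 4) + A * s ^ 2) + 1) :
    (l : ℝ) + T + s + 9 + 2 * b + 3 * (l : ℝ) ^ (1 / 3 : ℝ) ≤ A * (s + 1) * (T + A * (s + 1) ^ 2) := by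
  have h1 := cube_h4 hA hb hs hT hl
  have hA30 : 30 ≤ A := by linarith
  have e1 : A * (s + 1) * (T + A * (s + 1) ^ 2) = A * s * (T + (s + 4) + A * s ^ 2) + A * T +
      A * (A * (3 * s ^ 2 + 3 * s + 1)) - A * (s * (s + 4)) := by ring
  rw [e1]
  have h2 : 4 * T ≤ A * T := by nlinarith
  have hs2 : s ≤ s ^ 2 := by nlinarith
  have h3 : s * (s + 4) + 9 * (s + 1) + 1 + s + 10 + 2 * b ≤ A * (3 * s ^ 2 + 3 * s + 1) := by
    have : (30 + 2 * b) * (3 * s ^ 2 + 3 * s + 1) ≤ A * (3 * s ^ 2 + 3 * s + 1) := by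
      gcongr
    nlinarith
  have h4 : A * (s * (s + 4)) + 9 * A * (s + 1) + (1 + s + 10 + 2 * b) ≤
      A * (A * (3 * s ^ 2 + 3 * s + 1)) := by
    have h5 : A * (s * (s + 4) + 9 * (s + 1) + 1 + s + 10 + 2 * b) ≤ A * (A * (3 * s ^ 2 + 3 * s + 1)) := by
      gcongr
    have h6 : (1 + s + 10 + 2 * b) ≤ A * (1 + s + 10 + 2 * b) := by nlinarith
    nlinarith
  nlinarith

private lemma first_h4 {A T s b B D N ρ K : ℝ} (hA : 30 + 2 * b ≤ A) (hb : 0 ≤ b) (hs : 1 ≤ s) (hT : 0 ≤ T) {l : ℕ}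
    (hl : (l : ℝ) ≤ A * s * (T + (s + 4) + A * s ^ 2) + 1) (hN : N = 2 ^ (l + 3)) (hB : B = 2 ^ b) (hD0 : 0 ≤ D)
    (hD : D ≤ B * N * Real.exp ((l : ℝ) ^ (1 / 3 : ℝ))) (hρ0 : 0 < ρ)
    (hρ : ρ ≤ (2 : ℝ) ^ (-(A * (s + 1) * (T + A * (s + 1) ^ 2)))) (hK1 : 1 ≤ K) (hK : K ≤ 2 ^ (s + 1)) :
    2 * ρ * D + 8 * K * ρ * D ^ 2 / N ≤ 1 / 2 * (2 : ℝ) ^ (-T) := by
  have h1 := expo_h4 hA hb hs hT hl
  set x := (l : ℝ) ^ (1 / 3 : ℝ) with hx
  have hx0 : 0 ≤ x := by positivity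
  have hN0 : 0 < N := by rw [hN]; positivity
  have hB1 : 1 ≤ B := by rw [hB]; exact Real.one_le_rpow (by norm_num) hb
  have hE1 : 1 ≤ Real.exp x := Real.one_le_exp hx0
  have hM : D ≤ B ^ 2 * N * Real.exp x ^ 2 := by
    refine hD.trans ?_
    have : B * N * Real.exp x = 1 * (B * N * Real.exp x) := by ring
    calc B * N * Real.exp x = (B * N * Real.exp x) * 1 := by ring
      _ ≤ (B * N * Real.exp x) * (B * Real.exp x) := by
        gcongr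
        nlinarith
      _ = B ^ 2 * N * Real.exp x ^ 2 := by ring
  have hM2 : D ^ 2 / N ≤ B ^ 2 * N * Real.exp x ^ 2 := by
    rw [div_le_iff₀ hN0]
    calc D ^ 2 ≤ (B * N * Real.exp x) ^ 2 := by gcongr
      _ = B ^ 2 * N * Real.exp x ^ 2 * N := by ring
  have hM0 : 0 ≤ B ^ 2 * N * Real.exp x ^ 2 := by positivity
  have h2 : 2 * ρ * D + 8 * K * ρ * D ^ 2 / N ≤ 10 * K * ρ * (B ^ 2 * N * Real.exp x ^ 2) := by
    have a1 : 2 * ρ * D ≤ 2 * K * ρ * (B ^ 2 * N * Real.exp x ^ 2) := by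
      calc 2 * ρ * D ≤ 2 * ρ * (B ^ 2 * N * Real.exp x ^ 2) := by gcongr
        _ = 2 * 1 * ρ * (B ^ 2 * N * Real.exp x ^ 2) := by ring
        _ ≤ _ := by gcongr
    have a2 : 8 * K * ρ * D ^ 2 / N ≤ 8 * K * ρ * (B ^ 2 * N * Real.exp x ^ 2) := by
      rw [mul_div_assoc]
      gcongr
    linarith
  refine h2.trans ?_
  have e1 : Real.exp x ^ 2 ≤ (2 : ℝ) ^ (3 * x) := by
    have : Real.exp x ^ 2 = Real.exp (2 * x) := by
      rw [← Real.exp_nat_mul]; norm_num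
    rw [this, Real.rpow_def_of_pos two_pos]
    apply Real.exp_le_exp.mpr
    have := Real.log_two_gt_d9
    nlinarith
  have e2 : B ^ 2 = (2 : ℝ) ^ (2 * b) := by
    rw [hB, ← Real.rpow_natCast, ← Real.rpow_mul two_pos.le]
    congr 1
    push_cast
    ring
  have e3 : N = (2 : ℝ) ^ ((l : ℝ) + 3) := by
    rw [hN, ← Real.rpow_natCast]
    push_cast
    rfl
  have e4 : (10 : ℝ) ≤ (2 : ℝ) ^ (4 : ℝ) := by norm_num
  calc 10 * K * ρ * (B ^ 2 * N * Real.exp x ^ 2) ≤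
      (2 : ℝ) ^ (4 : ℝ) * (2 : ℝ) ^ (s + 1) * (2 : ℝ) ^ (-(A * (s + 1) * (T + A * (s + 1) ^ 2))) *
        ((2 : ℝ) ^ (2 * b) * (2 : ℝ) ^ ((l : ℝ) + 3) * (2 : ℝ) ^ (3 * x)) := by
        rw [e2, e3]
        gcongr
    _ = (2 : ℝ) ^ (4 + (s + 1) + -(A * (s + 1) * (T + A * (s + 1) ^ 2)) + (2 * b + ((l : ℝ) + 3) + 3 * x)) := by
        rw [← Real.rpow_add two_pos, ← Real.rpow_add two_pos, ← Real.rpow_add two_pos,
          ← Real.rpow_add two_pos, ← Real.rpow_add two_pos]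
    _ ≤ (2 : ℝ) ^ (-1 + -T) := by
        apply Real.rpow_le_rpow_of_exponent_le (by norm_num)
        linarith
    _ = 1 / 2 * (2 : ℝ) ^ (-T) := by
        rw [Real.rpow_add two_pos, Real.rpow_neg_one]
        norm_num

theorem rec_cubeL (lo : ℕ) {q : ℕ → ℝ → ℝ} {D N : ℕ → ℝ} (hN : ∀ l, N l = 2 ^ (l + 3)) (mono : ∀ k, Monotone (q k))
    (q1 : ∀ ρ, 0 < ρ → q 1 ρ ≤ 3 * ρ) (q2 : ∀ ρ, 0 < ρ → q 2 ρ ≤ 3 * ρ) (hD0 : ∀ l, 0 ≤ D l) {B : ℝ} (hB : 1 ≤ B)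
    (hD : ∀ l, D l ≤ B * N l * Real.exp ((l : ℝ) ^ (1 / 3 : ℝ)))
    (hrec : ∀ k : ℕ, 3 ≤ k → ∀ (l : ℕ) (ρ : ℝ), lo ≤ l → 0 < ρ → ∃ g g' : ℕ, 1 ≤ g ∧ g ≤ k / 2 + 1 ∧ 1 ≤ g' ∧ g' ≤ k / 2 + 1 ∧
      q k ρ ≤ 2 * ρ * D l + 8 * k * ρ * D l ^ 2 / N l + k * q g (2 / N l) + 2 * k * q g' (2 / N l)) :
    ∀ j k : ℕ, 1 ≤ k → k ≤ 2 ^ j → ∀ T : ℝ, (lo : ℝ) ≤ T → ∀ ρ : ℝ, 0 < ρ →
      ρ ≤ (2 : ℝ) ^ (-((30 + 2 * Real.logb 2 B) * (j + 2) * (T + (30 + 2 * Real.logb 2 B) * (j + 2) ^ 2))) →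
      q k ρ ≤ (2 : ℝ) ^ (-T) := by
  set b : ℝ := Real.logb 2 B with hb
  have hb0 : 0 ≤ b := Real.logb_nonneg (by norm_num) hB
  have hBb : B = 2 ^ b := by rw [hb, Real.rpow_logb two_pos (by norm_num) (by linarith)]
  set A : ℝ := 30 + 2 * b with hA
  have hA1 : 1 ≤ A := by linarith
  have hlo0 : (0 : ℝ) ≤ lo := Nat.cast_nonneg lo
  have claim : ∀ j k : ℕ, 1 ≤ k → 2 * k ≤ 2 ^ j + 4 → ∀ T : ℝ, (lo : ℝ) ≤ T → ∀ ρ : ℝ, 0 < ρ →
      ρ ≤ (2 : ℝ) ^ (-(A * (j + 1) * (T + A * (j + 1) ^ 2))) → q k ρ ≤ (2 : ℝ) ^ (-T) := by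
    intro j
    induction j with
    | zero =>
      intro k hk1 hk T hTlo ρ hρ0 hρ
      have hT : 0 ≤ T := hlo0.trans hTlo
      have h3 := base_h4 (A := A) (T := T) (ρ := ρ) (s := ((0 : ℕ) : ℝ) + 1) (by linarith) (by norm_num) hT hρ
      have hk2 : k = 1 ∨ k = 2 := by norm_num at hk; omega
      rcases hk2 with rfl | rfl
      · exact (q1 ρ hρ0).trans h3
      · exact (q2 ρ hρ0).trans h3
    | succ j ih =>
      intro k hk1 hk T hTlo ρ hρ0 hρ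
      have hT : 0 ≤ T := hlo0.trans hTlo
      have hj0 : (0 : ℝ) ≤ j := Nat.cast_nonneg j
      have h3 := base_h4 (A := A) (T := T) (ρ := ρ) (s := ((j + 1 : ℕ) : ℝ) + 1) (by linarith)
        (by push_cast; linarith) hT hρ
      rcases Nat.lt_or_ge k 3 with hk3 | hk3
      · have hk2 : k = 1 ∨ k = 2 := by omega
        rcases hk2 with rfl | rfl
        · exact (q1 ρ hρ0).trans h3
        · exact (q2 ρ hρ0).trans h3
      -- the main step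
      have hkj : k ≤ 2 ^ j + 2 := by rw [pow_succ] at hk; omega
      set s : ℝ := (j : ℝ) + 1 with hs
      have hs1 : 1 ≤ s := by linarith
      have hρ' : ρ ≤ (2 : ℝ) ^ (-(A * (s + 1) * (T + A * (s + 1) ^ 2))) := by
        rw [Nat.cast_succ] at hρ
        exact hρ
      set X : ℝ := A * s * (T + (s + 4) + A * s ^ 2) with hX
      have hX0 : 0 ≤ X := by positivity
      set l : ℕ := ⌈X⌉₊ with hl
      have hl1 : (l : ℝ) ≤ X + 1 := (Nat.ceil_lt_add_one hX0).le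
      have hl2 : X ≤ l := Nat.le_ceil X
      have hT' : (lo : ℝ) ≤ T + (s + 4) := by linarith
      have hlol : lo ≤ l := by
        have h0 : 1 ≤ A * s := by nlinarith
        have h1 : 0 ≤ A * s ^ 2 := by positivity
        have h2 : (lo : ℝ) ≤ X := by
          rw [hX]
          nlinarith
        have h3 : (lo : ℝ) ≤ l := h2.trans hl2
        exact_mod_cast h3
      have hr : 2 / N l ≤ (2 : ℝ) ^ (-(A * (j + 1) * (T + (s + 4) + A * (j + 1) ^ 2))) := by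
        have e1 : 2 / N l = (2 : ℝ) ^ (-((l : ℝ) + 2)) := by
          rw [hN, Real.rpow_neg two_pos.le, Real.rpow_add two_pos, Real.rpow_natCast]
          have : (2 : ℝ) ^ (2 : ℝ) = 4 := by norm_num
          rw [this, pow_add]
          have h2l : (2 : ℝ) ^ l ≠ 0 := by positivity
          field_simp
          norm_num
        rw [e1]
        apply Real.rpow_le_rpow_of_exponent_le (by norm_num)
        linarith
      have hr0 : 0 < 2 / N l := by rw [hN]; positivity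
      obtain ⟨g, g', hg1, hg, hg1', hg', hq⟩ := hrec k hk3 l ρ hlol hρ0
      have i1 := ih g hg1 (by omega) (T + (s + 4)) hT' (2 / N l) hr0 hr
      have i2 := ih g' hg1' (by omega) (T + (s + 4)) hT' (2 / N l) hr0 hr
      have hK : (k : ℝ) ≤ 2 ^ (s + 1) := by
        have : (k : ℝ) ≤ 2 ^ j + 2 := by exact_mod_cast hkj
        have e : (2 : ℝ) ^ (s + 1) = 4 * 2 ^ j := by
          rw [hs, Real.rpow_add two_pos, Real.rpow_add two_pos, Real.rpow_natCast, Real.rpow_one]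
          ring
        have h1j : (1 : ℝ) ≤ 2 ^ j := one_le_pow₀ (by norm_num)
        rw [e]
        linarith
      have i3 := first_h4 (K := (k : ℝ)) hA.symm.le.ge.le hb0 hs1 hT hl1 (hN l) hBb (hD0 l) (hD l) hρ0 hρ'
        (by exact_mod_cast hk1) hK
      have i4 : 3 * (k : ℝ) * (2 : ℝ) ^ (-(T + (s + 4))) ≤ 3 / 8 * (2 : ℝ) ^ (-T) := by
        calc 3 * (k : ℝ) * (2 : ℝ) ^ (-(T + (s + 4))) ≤ 3 * (2 : ℝ) ^ (s + 1) * (2 : ℝ) ^ (-(T + (s + 4))) := by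
              gcongr
          _ = 3 * (2 : ℝ) ^ (-3 + -T) := by
              rw [mul_assoc, ← Real.rpow_add two_pos]
              congr 2
              ring
          _ = 3 / 8 * (2 : ℝ) ^ (-T) := by
              rw [Real.rpow_add two_pos, Real.rpow_neg two_pos.le]
              have : (2 : ℝ) ^ (3 : ℝ) = 8 := by norm_num
              rw [this]; ring
      have hk0 : (0 : ℝ) ≤ k := Nat.cast_nonneg k
      have i5 : (k : ℝ) * q g (2 / N l) ≤ k * (2 : ℝ) ^ (-(T + (s + 4))) := by gcongr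
      have i6 : 2 * (k : ℝ) * q g' (2 / N l) ≤ 2 * k * (2 : ℝ) ^ (-(T + (s + 4))) := by gcongr
      have h0 : (0 : ℝ) < 2 ^ (-T) := Real.rpow_pos_of_pos two_pos _
      nlinarith
  intro j k hk1 hk T hT ρ hρ0 hρ
  refine claim (j + 1) k hk1 (by rw [pow_succ]; omega) T hT ρ hρ0 ?_
  rw [Nat.cast_succ]
  have e : (j : ℝ) + 1 + 1 = j + 2 := by ring
  rw [e]
  exact hρ

end Pool.Agent.Helper18.HA
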