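import Pool.Agent.Helper18.HA.Cls
import Pool.Agent.Helper18.HA.Rec
import Pool.Agent.Helper18.HA.Qrec
import Pool.Agent.Helper18.HY.Sep

/-! Block HA-SEP: mean of `-log` of the separation and isolation of a window, for every law under which the levels `≥ lo` can be resampled, `lo ≤ K (i+1)`, uniformly in the class. Port of `HY/Sep.lean` (`rec_cubeL` instead of `rec_cube`, `T ≥ lo`; thresholds `T = i + 1 + lo + m`, so `a = log 2 * A (i+2)(i + 1 + lo + A (i+2)^2)`; `isoL`: `T = 3 i + lo`).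
`De d l ≤ B * NN l * exp (l^(1/3))` with `B` depending on `k`, `κ₀` only (`|d.a| ≥ 100`). -/

set_option autoImplicit false
open MeasureTheory Real Set Filter Topology
open scoped ENNReal

namespace Pool.Agent.Helper18.HA

open Pool.Agent.Helper18.HY
open Pool.Agent.Helper72.AP (Rs mx Lc Kk Ent2)
open Pool.Agent.Helper18.UC (T2 rep toT nn)
open Pool.Agent.Helper18.FD (NN rr pr cl uu lm Bump k1 k2 NN_pos NN_ge)
open Pool.Agent.Helper95.PV (Ix Om PP lv rp tc inn out cel upd mv mu Pt rv)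

theorem closeL {k : ℕ → ℝ} {A κ₀ : ℝ} (hκ : 0 < κ₀) (hk : ∀ l, 1 / (NN l : ℝ) ≤ k l) (hl : LowK k) :
    ∃ A' : ℝ, 1 ≤ A' ∧ ∀ d : Dat, Cls k A κ₀ d → ∀ W : Measure Om, IsProbabilityMeasure W → ∀ lo : ℕ, Fr W lo →
      ∀ j k : ℕ, 1 ≤ k → k ≤ 2 ^ j → ∀ T : ℝ, (lo : ℝ) ≤ T → ∀ ρ : ℝ, 0 < ρ →
      ρ ≤ (2 : ℝ) ^ (-(A' * (j + 2) * (T + A' * (j + 2) ^ 2))) → qdL W d k ρ ≤ (2 : ℝ) ^ (-T) := by
  have hκ2 : 0 < 100 * κ₀ := by linarith
  obtain ⟨l0, hl0⟩ := Filter.eventually_atTop.1 (hl 1 one_pos)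
  obtain ⟨B', hB'⟩ : ∃ B' : ℝ, B' = NN l0 := ⟨_, rfl⟩
  have hB'1 : 1 ≤ B' := by rw [hB']; exact le_trans (by norm_num) (NN_ge l0)
  have hE : ∀ l : ℕ, 1 ≤ Real.exp ((l : ℝ) ^ (1 / 3 : ℝ)) := fun l =>
    Real.one_le_exp (Real.rpow_nonneg (Nat.cast_nonneg l) _)
  have hk1 : ∀ l : ℕ, 1 / k l ≤ B' * Real.exp ((l : ℝ) ^ (1 / 3 : ℝ)) := by
    intro l
    rcases le_total l0 l with h | h
    · have h1 := hl0 l h
      rw [one_mul, Real.exp_neg] at h1
      have h2 : 1 / k l ≤ Real.exp ((l : ℝ) ^ (1 / 3 : ℝ)) := by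
        rw [one_div]
        exact inv_le_of_inv_le₀ (Real.exp_pos _) h1
      exact h2.trans (le_mul_of_one_le_left (Real.exp_pos _).le hB'1)
    · have h1 : 1 / k l ≤ NN l := by
        have h2 := hk l
        rw [one_div] at h2 ⊢
        exact inv_le_of_inv_le₀ (NN_pos l) h2
      have h3 : (NN l : ℝ) ≤ B' := by
        rw [hB']
        unfold NN
        push_cast
        exact pow_le_pow_right₀ (by norm_num) (by omega)
      exact (h1.trans h3).trans (le_mul_of_one_le_right (by linarith) (hE l))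
  have hBp : 0 ≤ B' / (2 * (100 * κ₀)) := div_nonneg (by linarith) (by linarith)
  have hB1 : 1 ≤ 1 + B' / (2 * (100 * κ₀)) := by linarith
  have hlb : 0 ≤ Real.logb 2 (1 + B' / (2 * (100 * κ₀))) := Real.logb_nonneg (by norm_num) hB1
  refine ⟨30 + 2 * Real.logb 2 (1 + B' / (2 * (100 * κ₀))), by linarith, ?_⟩
  intro d hC W hW lo hFr
  have hd := hC.ok
  have ha : 100 ≤ |d.a| := hd.ha
  have haκ : 100 * κ₀ ≤ |d.a| * d.κ := mul_le_mul ha hC.κ hκ.le (abs_nonneg _)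
  have hDe : ∀ l, De d l = 1 + NN l * (1 / k l) / (2 * (|d.a| * d.κ)) := by
    intro l
    unfold De
    rw [← hC.k]
    have h1 := (NN_pos l).ne'
    have h2 := (hd.hk0 l).ne'
    have h3 : |d.a| ≠ 0 := by linarith
    have h4 := hd.hκ.ne'
    field_simp
  refine rec_cubeL lo (q := qdL W d) (D := De d) (N := fun l => (NN l : ℝ)) (B := 1 + B' / (2 * (100 * κ₀)))
    (fun l => by unfold NN; push_cast; rfl) (qdL_mono d) (fun ρ hρ => qdL_one hd hρ)
    (fun ρ hρ => qdL_two hd hρ) ?_ hB1 ?_ (fun k hk l ρ hlo hρ => qdL_rec hd hFr hk l hlo hρ)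
  · intro l
    unfold De
    have h1 : 0 ≤ 1 / (2 * (|d.a| * d.κ * (d.k l / NN l))) := by
      apply one_div_nonneg.2
      exact mul_nonneg (by norm_num) (mul_nonneg (by linarith) (div_nonneg (hd.hk0' l) (NN_pos l).le))
    linarith
  · intro l
    rw [hDe l]
    have h1 : NN l * (1 / k l) / (2 * (|d.a| * d.κ)) ≤
        NN l * (B' * Real.exp ((l : ℝ) ^ (1 / 3 : ℝ))) / (2 * (100 * κ₀)) := by
      apply div_le_div₀ _ _ (by linarith) (by linarith)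
      · exact mul_nonneg (NN_pos l).le (mul_nonneg (by linarith) (Real.exp_pos _).le)
      · exact mul_le_mul_of_nonneg_left (hk1 l) (NN_pos l).le
    have h2 : (1 : ℝ) ≤ NN l * Real.exp ((l : ℝ) ^ (1 / 3 : ℝ)) := by
      have h3 := NN_ge l
      have h4 := hE l
      nlinarith
    calc 1 + NN l * (1 / k l) / (2 * (|d.a| * d.κ))
        ≤ NN l * Real.exp ((l : ℝ) ^ (1 / 3 : ℝ)) +
          NN l * (B' * Real.exp ((l : ℝ) ^ (1 / 3 : ℝ))) / (2 * (100 * κ₀)) := add_le_add h2 h1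
      _ = (1 + B' / (2 * (100 * κ₀))) * NN l * Real.exp ((l : ℝ) ^ (1 / 3 : ℝ)) := by ring

private theorem lm_meas34 : Measurable lm := by
  unfold lm
  exact Measurable.ite measurableSet_Iic measurable_const
    (ENNReal.measurable_ofReal.comp Real.measurable_log.neg)

private theorem lt_of_lm34 {x α : ℝ} (hα : 0 ≤ α) (h : ENNReal.ofReal α < lm x) : x < Real.exp (-α) := by
  unfold lm at h
  split_ifs at h with hx
  · exact lt_of_le_of_lt hx (Real.exp_pos _)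
  · rw [not_le] at hx
    have h1 : α < -Real.log x := (ENNReal.ofReal_lt_ofReal_iff_of_nonneg hα).1 h
    rw [← Real.exp_log hx]
    exact Real.exp_lt_exp.2 (by linarith)

private theorem px_le34 {d : Dat} {W : Measure Om} [IsProbabilityMeasure W] {lo : ℕ} (hd : d.Ok) {A : ℝ}
    (hA : ∀ j k : ℕ, 1 ≤ k → k ≤ 2 ^ j → ∀ T : ℝ, (lo : ℝ) ≤ T → ∀ ρ : ℝ, 0 < ρ →
      ρ ≤ (2 : ℝ) ^ (-(A * (j + 2) * (T + A * (j + 2) ^ 2))) → qdL W d k ρ ≤ (2 : ℝ) ^ (-T))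
    {i a b : ℕ} (hab : a ≠ b) (ha : a ≤ 2 ^ i) (hb : b ≤ 2 ^ i) {S T ρ : ℝ} (hT : (lo : ℝ) ≤ T) (hST : S ≤ T)
    (hρ : 0 < ρ) (h : ρ ≤ (2 : ℝ) ^ (-(A * (i + 2) * (T + A * (i + 2) ^ 2)))) :
    (W.prod (volume : Measure T2)) {p | dist (px d a p) (px d b p) < ρ} ≤ ENNReal.ofReal ((2 : ℝ) ^ (-S)) := by
  rw [qdL_px hd hab]
  apply ENNReal.ofReal_le_ofReal
  refine (hA i _ (by omega) (by omega) T hT ρ hρ h).trans ?_
  exact Real.rpow_le_rpow_of_exponent_le (by norm_num) (by linarith)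

theorem sepL3 {k : ℕ → ℝ} {A κ₀ : ℝ} (hκ : 0 < κ₀) (hk : ∀ l, 1 / (NN l : ℝ) ≤ k l) (hl : LowK k) (K : ℕ) :
    ∃ C : ℝ, 0 < C ∧ ∀ d : Dat, Cls k A κ₀ d → ∀ W : Measure Om, IsProbabilityMeasure W → ∀ i lo : ℕ,
      lo ≤ K * (i + 1) → Fr W lo → ∀ k n : ℕ, k ≤ n → n ≤ 2 ^ i →
      ∫⁻ p, lm (sepd d k n p) ∂(W.prod (volume : Measure T2)) ≤ ENNReal.ofReal (C * ((i : ℝ) + 1) ^ 3) := by
  classical
  obtain ⟨A', hA1, hA'⟩ := closeL (A := A) hκ hk hl
  have hA0 : 0 < A' := lt_of_lt_of_le one_pos hA1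
  have hK : (0 : ℝ) ≤ K := Nat.cast_nonneg K
  refine ⟨2 * A' * (2 + K) + 8 * A' ^ 2, by positivity, ?_⟩
  intro d hC W hW i lo hlo hFr k n hk hn
  have hd := hC.ok
  have hA := hA' d hC W hW lo hFr
  have hlog : 0 < Real.log 2 := Real.log_pos (by norm_num)
  have hlog1 : Real.log 2 ≤ 1 := by linarith [Real.log_two_lt_d9]
  have hi : (0 : ℝ) ≤ i := Nat.cast_nonneg i
  have hlo0 : (0 : ℝ) ≤ lo := Nat.cast_nonneg lo
  obtain ⟨b, hb⟩ : ∃ b : ℝ, b = Real.log 2 * (A' * (i + 2)) := ⟨_, rfl⟩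
  obtain ⟨a, ha⟩ : ∃ a : ℝ, a = Real.log 2 * (A' * (i + 2) * (i + lo + A' * (i + 2) ^ 2)) := ⟨_, rfl⟩
  have hb0 : 0 ≤ b := by rw [hb]; positivity
  have ha0 : 0 ≤ a := by rw [ha]; positivity
  have hmeas : Measurable fun p => lm (sepd d k n p) := lm_meas34.comp (meas_sepd hd k n)
  have h1 : ∀ m : ℕ, (W.prod (volume : Measure T2)) {p | ENNReal.ofReal (a + b * m) < lm (sepd d k n p)}
      ≤ (2 : ℝ≥0∞)⁻¹ ^ m := by
    intro m
    have hm0 : (0 : ℝ) ≤ m := Nat.cast_nonneg m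
    obtain ⟨ρ, hρ⟩ : ∃ ρ : ℝ, ρ = Real.exp (-(a + b * m)) := ⟨_, rfl⟩
    have hρ0 : 0 < ρ := by rw [hρ]; exact Real.exp_pos _
    have hρ1 : ρ ≤ 1 := by
      rw [hρ]
      apply Real.exp_le_one_iff.2
      have : 0 ≤ b * m := mul_nonneg hb0 (Nat.cast_nonneg m)
      linarith
    have hρ2 : ρ ≤ (2 : ℝ) ^ (-(A' * (i + 2) * (((i : ℝ) + m + lo) + A' * (i + 2) ^ 2))) := by
      rw [hρ, Real.rpow_def_of_pos (by norm_num : (0 : ℝ) < 2)]
      apply Real.exp_le_exp.2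
      rw [ha, hb]
      apply le_of_eq
      ring
    have hsub : {p | ENNReal.ofReal (a + b * m) < lm (sepd d k n p)} ⊆
        ⋃ j ∈ (Finset.range (n + 1)).erase k, {p | dist (px d j p) (px d k p) < ρ} := by
      intro p hp
      have h2 : sepd d k n p < ρ := by
        rw [hρ]
        exact lt_of_lm34 (add_nonneg ha0 (mul_nonneg hb0 (Nat.cast_nonneg m))) hp
      unfold sepd at h2
      obtain ⟨j, hj, hjl⟩ := (Finset.inf'_lt_iff _).1 h2
      have hjk : j ≠ k := by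
        rintro rfl
        rw [if_pos rfl] at hjl
        linarith
      rw [if_neg hjk] at hjl
      simp only [mem_iUnion]
      exact ⟨j, Finset.mem_erase.2 ⟨hjk, hj⟩, hjl⟩
    have hcard : ((Finset.range (n + 1)).erase k).card = n := by
      rw [Finset.card_erase_of_mem (Finset.mem_range.2 (by omega)), Finset.card_range]
      rfl
    calc (W.prod (volume : Measure T2)) {p | ENNReal.ofReal (a + b * m) < lm (sepd d k n p)}
        ≤ (W.prod (volume : Measure T2))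
            (⋃ j ∈ (Finset.range (n + 1)).erase k, {p | dist (px d j p) (px d k p) < ρ}) :=
          measure_mono hsub
      _ ≤ ∑ j ∈ (Finset.range (n + 1)).erase k,
            (W.prod (volume : Measure T2)) {p | dist (px d j p) (px d k p) < ρ} :=
          measure_biUnion_finset_le _ _
      _ ≤ ∑ _j ∈ (Finset.range (n + 1)).erase k, ENNReal.ofReal ((2 : ℝ) ^ (-((i : ℝ) + m))) := by
          apply Finset.sum_le_sum
          intro j hj
          rw [Finset.mem_erase, Finset.mem_range] at hj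
          exact px_le34 (T := (i : ℝ) + m + lo) hd hA hj.1 (by omega) (by omega) (by linarith) (by linarith) hρ0 hρ2
      _ = n * ENNReal.ofReal ((2 : ℝ) ^ (-((i : ℝ) + m))) := by
          rw [Finset.sum_const, hcard, nsmul_eq_mul]
      _ ≤ ((2 : ℝ≥0∞) ^ i) * ((2 : ℝ≥0∞)⁻¹ ^ i * (2 : ℝ≥0∞)⁻¹ ^ m) := by
          have e1 : ENNReal.ofReal ((2 : ℝ) ^ (-((i : ℝ) + m))) =
              (2 : ℝ≥0∞)⁻¹ ^ i * (2 : ℝ≥0∞)⁻¹ ^ m := by
            have e2 : (2 : ℝ) ^ (-((i : ℝ) + m)) = ((2 : ℝ) ^ (i + m))⁻¹ := by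
              rw [Real.rpow_neg (by norm_num), ← Nat.cast_add, Real.rpow_natCast]
            rw [e2, ENNReal.ofReal_inv_of_pos (by positivity), ENNReal.ofReal_pow (by norm_num),
              ← pow_add, ENNReal.inv_pow]
            norm_num
          rw [e1]
          gcongr
          exact_mod_cast hn
      _ = (2 : ℝ≥0∞)⁻¹ ^ m := by
          rw [← mul_assoc, ← mul_pow, ENNReal.mul_inv_cancel (by norm_num) (by norm_num), one_pow,
            one_mul]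
  refine (lint_le hmeas ha0 hb0 h1).trans (ENNReal.ofReal_le_ofReal ?_)
  have hlo1 : (lo : ℝ) ≤ K * (i + 1) := by exact_mod_cast hlo
  have e : a + 2 * b = Real.log 2 * (A' * (i + 2) * ((i + 2 + lo) + A' * (i + 2) ^ 2)) := by
    rw [ha, hb]
    ring
  rw [e]
  calc Real.log 2 * (A' * (i + 2) * ((i + 2 + lo) + A' * (i + 2) ^ 2))
      ≤ 1 * (A' * (i + 2) * ((i + 2 + lo) + A' * (i + 2) ^ 2)) := by gcongr
    _ ≤ (2 * A' * (2 + K) + 8 * A' ^ 2) * ((i : ℝ) + 1) ^ 3 := by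
      have h2 : (i : ℝ) + 2 ≤ 2 * (i + 1) := by linarith
      have h2' : (i : ℝ) + 2 + lo ≤ (2 + K) * (i + 1) := by linarith
      have h3 : (1 : ℝ) ≤ i + 1 := by linarith
      calc 1 * (A' * ((i : ℝ) + 2) * ((i + 2 + lo) + A' * (i + 2) ^ 2))
          ≤ 1 * (A' * (2 * (i + 1)) * ((2 + K) * (i + 1) + A' * (2 * (i + 1)) ^ 2)) := by gcongr
        _ = 2 * A' * (2 + K) * ((i : ℝ) + 1) ^ 2 + 8 * A' ^ 2 * ((i : ℝ) + 1) ^ 3 := by ring
        _ ≤ 2 * A' * (2 + K) * ((i : ℝ) + 1) ^ 3 + 8 * A' ^ 2 * ((i : ℝ) + 1) ^ 3 := by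
          gcongr ?_ * ?_ + _
          exact pow_le_pow_right₀ h3 (by norm_num)
        _ = _ := by ring

theorem isoL {k : ℕ → ℝ} {A κ₀ : ℝ} (hκ : 0 < κ₀) (hk : ∀ l, 1 / (NN l : ℝ) ≤ k l) (hl : LowK k) (K : ℕ) :
    ∃ C : ℝ, 0 < C ∧ ∀ d : Dat, Cls k A κ₀ d → ∀ W : Measure Om, IsProbabilityMeasure W → ∀ i lo l : ℕ,
      lo ≤ K * (i + 1) → Fr W lo → C * ((i : ℝ) + 1) ^ 3 ≤ l →
      (W.prod (volume : Measure T2)) {p | ¬ iso d l (2 ^ i) p} ≤ ENNReal.ofReal ((2 : ℝ) ^ (-(i : ℝ))) := by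
  classical
  obtain ⟨A', hA1, hA'⟩ := closeL (A := A) hκ hk hl
  have hA0 : 0 < A' := lt_of_lt_of_le one_pos hA1
  have hK : (0 : ℝ) ≤ K := Nat.cast_nonneg K
  refine ⟨2 * A' * (3 + K) + 8 * A' ^ 2, by positivity, ?_⟩
  intro d hC W hW i lo l hlo hFr hil
  have hd := hC.ok
  have hA := hA' d hC W hW lo hFr
  have hi : (0 : ℝ) ≤ i := Nat.cast_nonneg i
  have hlo0 : (0 : ℝ) ≤ lo := Nat.cast_nonneg lo
  have hlo1 : (lo : ℝ) ≤ K * (i + 1) := by exact_mod_cast hlo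
  have h3 : (1 : ℝ) ≤ i + 1 := by linarith
  have hle : A' * (i + 2) * ((3 * (i : ℝ) + lo) + A' * (i + 2) ^ 2) ≤ l := by
    refine le_trans ?_ hil
    have h2 : (i : ℝ) + 2 ≤ 2 * (i + 1) := by linarith
    have h2' : 3 * (i : ℝ) + lo ≤ (3 + K) * (i + 1) := by linarith
    calc A' * ((i : ℝ) + 2) * ((3 * (i : ℝ) + lo) + A' * (i + 2) ^ 2)
        ≤ A' * (2 * (i + 1)) * ((3 + K) * (i + 1) + A' * (2 * (i + 1)) ^ 2) := by gcongr
      _ = 2 * A' * (3 + K) * ((i : ℝ) + 1) ^ 2 + 8 * A' ^ 2 * ((i : ℝ) + 1) ^ 3 := by ring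
      _ ≤ 2 * A' * (3 + K) * ((i : ℝ) + 1) ^ 3 + 8 * A' ^ 2 * ((i : ℝ) + 1) ^ 3 := by
        gcongr ?_ * ?_ + _
        exact pow_le_pow_right₀ h3 (by norm_num)
      _ = _ := by ring
  have hρ0 : (0 : ℝ) < 2 / NN l := div_pos (by norm_num) (NN_pos l)
  have hρ : 2 / (NN l : ℝ) ≤ (2 : ℝ) ^ (-(A' * (i + 2) * ((3 * (i : ℝ) + lo) + A' * (i + 2) ^ 2))) := by
    have e : 2 / (NN l : ℝ) = (2 : ℝ) ^ (-((l : ℝ) + 2)) := by
      have e2 : (2 : ℝ) ^ (-((l : ℝ) + 2)) = ((2 : ℝ) ^ (l + 2))⁻¹ := by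
        rw [Real.rpow_neg (by norm_num)]
        congr 1
        rw [← Real.rpow_natCast]
        push_cast
        rfl
      rw [e2]
      unfold NN
      push_cast
      rw [show l + 3 = (l + 2) + 1 from rfl, pow_succ (2 : ℝ) (l + 2)]
      field_simp
    rw [e]
    exact Real.rpow_le_rpow_of_exponent_le (by norm_num) (by linarith)
  have hsub : {p | ¬ iso d l (2 ^ i) p} ⊆ ⋃ x ∈ (Finset.range (2 ^ i) ×ˢ Finset.range (2 ^ i)).filter
      (fun x => x.1 ≠ x.2), {p | dist (px d x.1 p) (px d x.2 p) < 2 / NN l} := by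
    intro p hp
    have h4 : ¬ iso d l (2 ^ i) p := hp
    unfold iso at h4
    push Not at h4
    obtain ⟨a, ha, b, hb, hab, h5⟩ := h4
    simp only [mem_iUnion]
    exact ⟨(a, b), Finset.mem_filter.2 ⟨Finset.mem_product.2
      ⟨Finset.mem_range.2 ha, Finset.mem_range.2 hb⟩, hab⟩, h5⟩
  calc (W.prod (volume : Measure T2)) {p | ¬ iso d l (2 ^ i) p}
      ≤ (W.prod (volume : Measure T2)) (⋃ x ∈ (Finset.range (2 ^ i) ×ˢ Finset.range (2 ^ i)).filter
        (fun x => x.1 ≠ x.2), {p | dist (px d x.1 p) (px d x.2 p) < 2 / NN l}) := measure_mono hsub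
    _ ≤ ∑ x ∈ (Finset.range (2 ^ i) ×ˢ Finset.range (2 ^ i)).filter
        (fun x => x.1 ≠ x.2), (W.prod (volume : Measure T2)) {p | dist (px d x.1 p) (px d x.2 p) < 2 / NN l} :=
        measure_biUnion_finset_le _ _
    _ ≤ ∑ _x ∈ (Finset.range (2 ^ i) ×ˢ Finset.range (2 ^ i)).filter
        (fun x => x.1 ≠ x.2), ENNReal.ofReal ((2 : ℝ) ^ (-(3 * (i : ℝ)))) := by
        apply Finset.sum_le_sum
        intro x hx
        rw [Finset.mem_filter, Finset.mem_product, Finset.mem_range, Finset.mem_range] at hx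
        exact px_le34 (T := 3 * (i : ℝ) + lo) hd hA hx.2 hx.1.1.le hx.1.2.le (by linarith) (by linarith) hρ0 hρ
    _ ≤ ((2 ^ i * 2 ^ i : ℕ) : ℝ≥0∞) * ENNReal.ofReal ((2 : ℝ) ^ (-(3 * (i : ℝ)))) := by
        rw [Finset.sum_const, nsmul_eq_mul]
        gcongr
        refine (Finset.card_filter_le _ _).trans (le_of_eq ?_)
        rw [Finset.card_product, Finset.card_range]
    _ = ENNReal.ofReal ((2 : ℝ) ^ (-(i : ℝ))) := by
        rw [← ENNReal.ofReal_natCast, ← ENNReal.ofReal_mul (Nat.cast_nonneg _)]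
        congr 1
        have e1 : ((2 ^ i * 2 ^ i : ℕ) : ℝ) = (2 : ℝ) ^ (2 * (i : ℝ)) := by
          push_cast
          rw [← pow_add, ← Real.rpow_natCast]
          congr 1
          push_cast
          ring
        rw [e1, ← Real.rpow_add (by norm_num)]
        congr 1
        ring

end Pool.Agent.Helper18.HA
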