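import Pool.Agent.Helper18.HA.GrowA
import Pool.Agent.Helper18.HA.Sep
import Pool.Agent.Helper18.HY.GrowB

/-! Block HA-GROWB: growth on windows of length `2^i`, uniformly in the class and in the law.

`C` from `isoL` for `K`, replaced by `max C K`; `l = ⌈C (i+1)^3⌉ ≥ K (i+1) ≥ lo`, so the level `l` can be resampled (`Fr`); `LowK` gives `sg d l = |d.a| d.κ k_l ≥ 100 κ₀ k_l ≥ 2^(-i/8)` for large `i` and `sg d l ≤ A * k l ≤ 1` (`d.κ ≤ 1`, `k` summable). `i = (i - 1) + 1`, window `2^i = 2 * 2^(i-1)`.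
`gi d i p ≤ 1_{not iso} + exp (2^(i/2)) (if iso then nn⁻¹ else 0)`, so the integral is at most `2^(-i) + exp (2^(i/2)) (1 - σ^2/200000)^(2^(i-1)) ≤ 2 * 2^(-i)` for large `i`. As in `HY/GrowB.lean`. -/

set_option autoImplicit false
open MeasureTheory Real Set Filter Topology
open scoped ENNReal

namespace Pool.Agent.Helper18.HA

open Pool.Agent.Helper18.HY
open Pool.Agent.Helper72.AP (Rs mx Lc Kk Ent2)
open Pool.Agent.Helper18.UC (T2 rep toT nn)
open Pool.Agent.Helper18.FD (NN rr pr cl uu lm Bump k1 k2 NN_pos NN_ge)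
open Pool.Agent.Helper95.PV (Ix Om PP lv rp tc inn out cel upd mv mu Pt rv)

private lemma cube54 : Filter.Tendsto (fun i : ℕ => ((i : ℝ) + 1) ^ 3) Filter.atTop Filter.atTop :=
  (Filter.tendsto_pow_atTop three_ne_zero).comp
    (Filter.tendsto_atTop_add_const_right _ _ tendsto_natCast_atTop_atTop)

private lemma lev54 {C : ℝ} (hC : 0 < C) :
    Filter.Tendsto (fun i : ℕ => ⌈C * ((i : ℝ) + 1) ^ 3⌉₊) Filter.atTop Filter.atTop :=
  tendsto_nat_ceil_atTop.comp (Filter.Tendsto.const_mul_atTop hC cube54)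

/-- the size of the flips at the level `⌈C (i+1)^3⌉` -/
private lemma sg54 {k : ℕ → ℝ} {A κ₀ : ℝ} (hκ : 0 < κ₀) (hk : ∀ l, 1 / (NN l : ℝ) ≤ k l) (hs : Summable k) (hl : LowK k) {C : ℝ} (hC : 0 < C) :
    ∀ᶠ i : ℕ in Filter.atTop, ∀ d : Dat, Cls k A κ₀ d → (2 : ℝ) ^ (-((i : ℝ) / 8)) ≤ sg d ⌈C * ((i : ℝ) + 1) ^ 3⌉₊ ∧
      sg d ⌈C * ((i : ℝ) + 1) ^ 3⌉₊ ≤ 1 := by
  have hlog : 0 < Real.log 2 := Real.log_pos one_lt_two
  have hC1 : 0 < (C + 1) ^ (1 / 3 : ℝ) := Real.rpow_pos_of_pos (by linarith) _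
  have hk0 : ∀ l, 0 ≤ k l := fun l => (by positivity : (0 : ℝ) ≤ 1 / (NN l : ℝ)).trans (hk l)
  set δ : ℝ := Real.log 2 / (16 * (C + 1) ^ (1 / 3 : ℝ)) with hδ
  have hδ0 : 0 < δ := by positivity
  have e1 := (lev54 hC).eventually (hl δ hδ0)
  have hz : Filter.Tendsto (fun l => A * k l) Filter.atTop (nhds (A * 0)) := hs.tendsto_atTop_zero.const_mul _
  rw [mul_zero] at hz
  have e2 := (lev54 hC).eventually (hz.eventually (ge_mem_nhds (zero_lt_one)))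
  have h3 : Filter.Tendsto (fun i : ℕ => Real.exp (Real.log 2 / 16 * ((i : ℝ) + (-1)))) Filter.atTop
      Filter.atTop := by
    refine Real.tendsto_exp_atTop.comp (Filter.Tendsto.const_mul_atTop (by positivity) ?_)
    exact Filter.tendsto_atTop_add_const_right _ _ tendsto_natCast_atTop_atTop
  have e3 := h3.eventually (Filter.eventually_ge_atTop (1 / (100 * κ₀)))
  filter_upwards [e1, e2, e3] with i h1 h2 h4
  intro d hd
  have hi0 : (0 : ℝ) ≤ i := Nat.cast_nonneg i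
  have hc : (⌈C * ((i : ℝ) + 1) ^ 3⌉₊ : ℝ) ≤ (C + 1) * ((i : ℝ) + 1) ^ 3 := by
    have h5 : (⌈C * ((i : ℝ) + 1) ^ 3⌉₊ : ℝ) < C * ((i : ℝ) + 1) ^ 3 + 1 :=
      Nat.ceil_lt_add_one (by positivity)
    have h6 : (1 : ℝ) ≤ ((i : ℝ) + 1) ^ 3 := one_le_pow₀ (by linarith)
    nlinarith
  have hr : (⌈C * ((i : ℝ) + 1) ^ 3⌉₊ : ℝ) ^ (1 / 3 : ℝ) ≤
      (C + 1) ^ (1 / 3 : ℝ) * ((i : ℝ) + 1) := by
    calc (⌈C * ((i : ℝ) + 1) ^ 3⌉₊ : ℝ) ^ (1 / 3 : ℝ)
        ≤ ((C + 1) * ((i : ℝ) + 1) ^ 3) ^ (1 / 3 : ℝ) :=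
          Real.rpow_le_rpow (Nat.cast_nonneg _) hc (by norm_num)
      _ = (C + 1) ^ (1 / 3 : ℝ) * ((i : ℝ) + 1) := by
          rw [Real.mul_rpow (by linarith) (by positivity)]
          congr 1
          rw [← Real.rpow_natCast, ← Real.rpow_mul (by positivity)]
          norm_num
  have hdl : δ * (⌈C * ((i : ℝ) + 1) ^ 3⌉₊ : ℝ) ^ (1 / 3 : ℝ) ≤
      Real.log 2 / 16 * ((i : ℝ) + 1) := by
    calc δ * (⌈C * ((i : ℝ) + 1) ^ 3⌉₊ : ℝ) ^ (1 / 3 : ℝ)
        ≤ δ * ((C + 1) ^ (1 / 3 : ℝ) * ((i : ℝ) + 1)) := mul_le_mul_of_nonneg_left hr hδ0.le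
      _ = Real.log 2 / 16 * ((i : ℝ) + 1) := by
          rw [hδ]
          field_simp
  have hkk : Real.exp (-(Real.log 2 / 16 * ((i : ℝ) + 1))) ≤ k ⌈C * ((i : ℝ) + 1) ^ 3⌉₊ :=
    le_trans (Real.exp_le_exp.mpr (neg_le_neg hdl)) h1
  have h7 : 1 ≤ 100 * κ₀ * Real.exp (Real.log 2 / 16 * ((i : ℝ) + (-1))) := by
    rw [div_le_iff₀ (by positivity)] at h4
    linarith
  have h8 : (2 : ℝ) ^ (-((i : ℝ) / 8)) =
      Real.exp (-(Real.log 2 / 16 * ((i : ℝ) + (-1)))) *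
        Real.exp (-(Real.log 2 / 16 * ((i : ℝ) + 1))) := by
    rw [← Real.exp_add, Real.rpow_def_of_pos two_pos]
    congr 1
    ring
  have hA : |d.a| * d.κ ≤ A := by
    rw [hd.a]
    have h9 : 0 ≤ A := by rw [← hd.a]; exact abs_nonneg _
    calc A * d.κ ≤ A * 1 := mul_le_mul_of_nonneg_left hd.ok.hκ1 h9
      _ = A := mul_one A
  constructor
  · rw [h8]
    unfold sg
    rw [hd.k]
    have h9 : Real.exp (-(Real.log 2 / 16 * ((i : ℝ) + (-1)))) ≤ |d.a| * d.κ := by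
      rw [Real.exp_neg]
      rw [inv_le_iff_one_le_mul₀ (Real.exp_pos _)]
      refine le_trans h7 ?_
      have h10 : 100 * κ₀ ≤ |d.a| * d.κ := mul_le_mul hd.ok.ha hd.κ hκ.le (abs_nonneg _)
      exact mul_le_mul_of_nonneg_right h10 (Real.exp_pos _).le
    exact mul_le_mul h9 hkk (Real.exp_pos _).le (mul_nonneg (abs_nonneg _) hd.ok.hκ.le)
  · unfold sg
    rw [hd.k]
    exact (mul_le_mul_of_nonneg_right hA (hk0 _)).trans h2

private lemma asy54 : ∀ᶠ i : ℕ in Filter.atTop,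
    Real.exp ((2 : ℝ) ^ ((i : ℝ) / 2)) * Real.exp (-((2 : ℝ) ^ (3 * (i : ℝ) / 4) / 400000)) ≤ (2 : ℝ) ^ (-(i : ℝ)) := by
  have h1 : Filter.Tendsto (fun i : ℕ => (2 : ℝ) ^ ((i : ℝ) / 4)) Filter.atTop Filter.atTop := by
    have h2 : (fun i : ℕ => (2 : ℝ) ^ ((i : ℝ) / 4)) = fun i : ℕ => ((2 : ℝ) ^ (1 / 4 : ℝ)) ^ i := by
      funext i
      rw [← Real.rpow_natCast, ← Real.rpow_mul (by norm_num)]
      congr 1
      ring
    rw [h2]
    exact tendsto_pow_atTop_atTop_of_one_lt (Real.one_lt_rpow one_lt_two (by norm_num))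
  have h3 := (Real.tendsto_pow_mul_exp_neg_atTop_nhds_zero 4).comp h1
  filter_upwards [h1.eventually (Filter.eventually_ge_atTop 800000),
    h3.eventually (ge_mem_nhds (zero_lt_one))] with i k1 k2
  obtain ⟨x, hx⟩ : ∃ x : ℝ, x = (2 : ℝ) ^ ((i : ℝ) / 4) := ⟨_, rfl⟩
  have e1 : (2 : ℝ) ^ ((i : ℝ) / 2) = x ^ 2 := by
    rw [hx, ← Real.rpow_natCast, ← Real.rpow_mul (by norm_num)]
    congr 1
    push_cast
    ring
  have e2 : (2 : ℝ) ^ (3 * (i : ℝ) / 4) = x ^ 3 := by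
    rw [hx, ← Real.rpow_natCast, ← Real.rpow_mul (by norm_num)]
    congr 1
    push_cast
    ring
  have e3 : (2 : ℝ) ^ (-(i : ℝ)) = (x ^ 4)⁻¹ := by
    rw [hx, ← Real.rpow_natCast, ← Real.rpow_mul (by norm_num), Real.rpow_neg (by norm_num)]
    congr 2
    push_cast
    ring
  have k3 : x ^ 4 * Real.exp (-x) ≤ 1 := by
    rw [hx]
    exact k2
  rw [e1, e2, e3, ← Real.exp_add]
  rw [← hx] at k1
  have hx0 : 0 < x := by linarith
  have f1 : x ^ 2 + -(x ^ 3 / 400000) ≤ -x := by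
    have : x ^ 2 * (x - 800000) ≥ 0 := mul_nonneg (sq_nonneg x) (by linarith)
    nlinarith
  refine (Real.exp_le_exp.mpr f1).trans ?_
  rw [le_inv_comm₀ (Real.exp_pos _) (by positivity), ← one_div, le_div_iff₀ (Real.exp_pos _)]
  exact k3

theorem growL {k : ℕ → ℝ} {A κ₀ : ℝ} (hκ : 0 < κ₀) (hk : ∀ l, 1 / (NN l : ℝ) ≤ k l) (hs : Summable k) (hl : LowK k) (K : ℕ) :
    ∃ i₀ : ℕ, ∀ d : Dat, Cls k A κ₀ d → ∀ W : Measure Om, IsProbabilityMeasure W → ∀ i lo : ℕ, i₀ ≤ i →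
      lo ≤ K * (i + 1) → Fr W lo → ∫ p, gi d i p ∂(W.prod (volume : Measure T2)) ≤ 2 * (2 : ℝ) ^ (-(i : ℝ)) := by
  classical
  obtain ⟨C₀, hC₀, hiso⟩ := isoL (A := A) hκ hk hl K
  obtain ⟨C, hCd⟩ : ∃ C : ℝ, C = max C₀ K := ⟨_, rfl⟩
  have hC : 0 < C := by rw [hCd]; exact lt_of_lt_of_le hC₀ (le_max_left _ _)
  have hCC : C₀ ≤ C := by rw [hCd]; exact le_max_left _ _
  have hCK : (K : ℝ) ≤ C := by rw [hCd]; exact le_max_right _ _
  obtain ⟨i₀, hi₀⟩ := Filter.eventually_atTop.mp ((sg54 (A := A) hκ hk hs hl hC).and asy54)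
  refine ⟨max i₀ 1, fun d hdc W hW i lo hi hlo hFr => ?_⟩
  have hd := hdc.ok
  obtain ⟨hsg, hasy⟩ := hi₀ i (le_trans (le_max_left _ _) hi)
  obtain ⟨hs1, hs2⟩ := hsg d hdc
  have hi1 : 1 ≤ i := le_trans (le_max_right _ _) hi
  set l : ℕ := ⌈C * ((i : ℝ) + 1) ^ 3⌉₊ with hl'
  have hi0 : (0 : ℝ) ≤ i := Nat.cast_nonneg i
  have hlC : C * ((i : ℝ) + 1) ^ 3 ≤ l := Nat.le_ceil _
  have hlo' : lo ≤ l := by
    have h1 : (lo : ℝ) ≤ K * ((i : ℝ) + 1) := by exact_mod_cast hlo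
    have h2 : (K : ℝ) * ((i : ℝ) + 1) ≤ C * ((i : ℝ) + 1) ^ 3 := by
      refine mul_le_mul hCK ?_ (by positivity) hC.le
      calc (i : ℝ) + 1 = ((i : ℝ) + 1) ^ 1 := (pow_one _).symm
        _ ≤ ((i : ℝ) + 1) ^ 3 := pow_le_pow_right₀ (by linarith) (by norm_num)
    exact_mod_cast (h1.trans h2).trans hlC
  have hR : ∀ (c : ℕ) (b : Bool), Rs W (l, c, b) := fun c b => hFr (l, c, b) hlo'
  have hln : 2 * 2 ^ (i - 1) = 2 ^ i := by
    rw [← pow_succ']
    congr 1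
    omega
  have hnn : ∀ p, 2 ≤ nn (Mm d (2 ^ i) p) := fun p =>
    Pool.Agent.Helper95.PV.nn_ge_two (det_Mm (d := d) (2 ^ i) p)
  set μ : Measure Pt := W.prod (volume : Measure T2) with hμ
  set f : Pt → ℝ := fun p => if iso d l (2 ^ i) p then (nn (Mm d (2 ^ i) p))⁻¹ else 0 with hf
  have hf0 : ∀ p, 0 ≤ f p := by
    intro p
    rw [hf]
    dsimp only
    split_ifs
    · exact inv_nonneg.mpr (by linarith [hnn p])
    · exact le_rfl
  have hf1 : ∀ p, f p ≤ 1 := by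
    intro p
    rw [hf]
    dsimp only
    split_ifs
    · exact inv_le_one_of_one_le₀ (by linarith [hnn p])
    · exact zero_le_one
  have hfm : Measurable f := Measurable.ite (meas_iso hd l (2 ^ i)) (meas_nn hd (2 ^ i)).inv
    measurable_const
  have hfi : Integrable f μ := by
    refine Integrable.of_bound hfm.aestronglyMeasurable 1 (Filter.Eventually.of_forall fun p => ?_)
    rw [Real.norm_eq_abs, abs_of_nonneg (hf0 p)]
    exact hf1 p
  have hint : ∫ p, f p ∂μ ≤ Real.exp (-((2 : ℝ) ^ (3 * (i : ℝ) / 4) / 400000)) := by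
    have h1 := grow_intL (W := W) hd hR (2 ^ (i - 1)) hs2
    rw [hln] at h1
    refine le_trans h1 ?_
    have h2 : 1 - sg d l ^ 2 / 200000 ≤ Real.exp (-(sg d l ^ 2 / 200000)) := by
      have := Real.add_one_le_exp (-(sg d l ^ 2 / 200000))
      linarith
    have h3 : 0 ≤ 1 - sg d l ^ 2 / 200000 := by
      have h4 := sg_pos hd l
      have : sg d l ^ 2 ≤ 1 := by nlinarith
      linarith
    refine le_trans (pow_le_pow_left₀ h3 h2 _) ?_
    rw [← Real.exp_nat_mul]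
    apply Real.exp_le_exp.mpr
    have h5 : ((2 : ℝ) ^ (-((i : ℝ) / 8))) ^ 2 ≤ sg d l ^ 2 :=
      pow_le_pow_left₀ (Real.rpow_nonneg (by norm_num) _) hs1 2
    have h6 : (2 : ℝ) ^ (3 * (i : ℝ) / 4) / 400000 =
        ((2 ^ (i - 1) : ℕ) : ℝ) * (((2 : ℝ) ^ (-((i : ℝ) / 8))) ^ 2 / 200000) := by
      have h7 : ((2 ^ (i - 1) : ℕ) : ℝ) = (2 : ℝ) ^ (i : ℝ) / 2 := by
        rw [Real.rpow_natCast]
        have : ((2 ^ i : ℕ) : ℝ) = 2 * ((2 ^ (i - 1) : ℕ) : ℝ) := by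
          rw [← hln]
          push_cast
          ring
        push_cast at this ⊢
        linarith
      rw [h7]
      have h8 : (2 : ℝ) ^ (3 * (i : ℝ) / 4) =
          (2 : ℝ) ^ (i : ℝ) * ((2 : ℝ) ^ (-((i : ℝ) / 8))) ^ 2 := by
        rw [← Real.rpow_natCast, ← Real.rpow_mul (by norm_num), ← Real.rpow_add (by norm_num)]
        congr 1
        push_cast
        ring
      rw [h8]
      ring
    rw [h6, ← mul_neg]
    apply mul_le_mul_of_nonneg_left _ (Nat.cast_nonneg _)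
    linarith
  have hisom : MeasurableSet {p | ¬ iso d l (2 ^ i) p} := (meas_iso hd l (2 ^ i)).compl
  have hni : μ.real {p | ¬ iso d l (2 ^ i) p} ≤ (2 : ℝ) ^ (-(i : ℝ)) :=
    ENNReal.toReal_le_of_le_ofReal (Real.rpow_nonneg (by norm_num) _)
      (hiso d hdc W hW i lo l hlo hFr ((mul_le_mul_of_nonneg_right hCC (by positivity)).trans hlC))
  obtain ⟨E, hE⟩ : ∃ E : ℝ, E = Real.exp ((2 : ℝ) ^ ((i : ℝ) / 2)) := ⟨_, rfl⟩
  have hE0 : 0 < E := by rw [hE]; exact Real.exp_pos _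
  have hind : Integrable ({p | ¬ iso d l (2 ^ i) p}.indicator (fun _ => (1 : ℝ))) μ :=
    (integrable_const (1 : ℝ)).indicator hisom
  have hgm : Measurable (gi d i) := by
    unfold gi
    exact measurable_const.min ((meas_nn hd (2 ^ i)).inv.const_mul _)
  have hg0 : ∀ p, 0 ≤ gi d i p := by
    intro p
    unfold gi
    exact le_min zero_le_one (mul_nonneg (Real.exp_pos _).le (inv_nonneg.mpr (by linarith [hnn p])))
  have hgi : Integrable (gi d i) μ := by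
    refine Integrable.of_bound hgm.aestronglyMeasurable 1 (Filter.Eventually.of_forall fun p => ?_)
    rw [Real.norm_eq_abs, abs_of_nonneg (hg0 p)]
    unfold gi
    exact min_le_left _ _
  calc ∫ p, gi d i p ∂μ
      ≤ ∫ p, (({p | ¬ iso d l (2 ^ i) p}.indicator (fun _ => (1 : ℝ))) p + E * f p) ∂μ := by
        refine integral_mono hgi (hind.add (hfi.const_mul E)) fun p => ?_
        show gi d i p ≤ ({p | ¬ iso d l (2 ^ i) p}.indicator (fun _ => (1 : ℝ))) p + E * f p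
        by_cases h : iso d l (2 ^ i) p
        · rw [indicator_of_notMem (by simpa using h), zero_add, hf]
          dsimp only
          rw [if_pos h, hE]
          unfold gi
          exact min_le_right _ _
        · rw [indicator_of_mem (by exact h)]
          have h1 : gi d i p ≤ 1 := by
            unfold gi
            exact min_le_left _ _
          have h2 : 0 ≤ E * f p := mul_nonneg hE0.le (hf0 p)
          linarith
    _ = μ.real {p | ¬ iso d l (2 ^ i) p} + E * ∫ p, f p ∂μ := by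
        rw [integral_add hind (hfi.const_mul E), integral_indicator_const (1 : ℝ) hisom, integral_const_mul, smul_eq_mul, mul_one]
    _ ≤ (2 : ℝ) ^ (-(i : ℝ)) + E * Real.exp (-((2 : ℝ) ^ (3 * (i : ℝ) / 4) / 400000)) :=
        add_le_add hni (mul_le_mul_of_nonneg_left hint hE0.le)
    _ ≤ (2 : ℝ) ^ (-(i : ℝ)) + (2 : ℝ) ^ (-(i : ℝ)) := by
        rw [hE]
        exact add_le_add le_rfl hasy
    _ = 2 * (2 : ℝ) ^ (-(i : ℝ)) := by ring

end Pool.Agent.Helper18.HA
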