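import Pool.Agent.Helper18.HA.Cls
import Pool.Agent.Helper18.AN.Trunc

/-! Block HA-FLD: modulus of continuity of the second derivative of the noise and truncation of the noise.

Levels `< n`: the functions `deriv (deriv (k1 χ))`, `deriv (deriv (k2 χ))` are of class `C^1` with support in `[-1, 1]`, so Lipschitz; the factor at the level `l` is `NN l`, and `Σ_{l<n} k l NN l ≤ (sup k) NN n`. Levels `≥ n`: bounded by `C k l` (`lv_bdT` in `AN/Trunc.lean`). For `h1` the amplitudes are `k l / NN l`, so the tail is at most `C (Σ k) / NN n`. Pattern: `AN/Trunc.lean`, `HY/Field.lean`. -/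

set_option autoImplicit false
open MeasureTheory Real Set Filter Topology
open scoped ENNReal

namespace Pool.Agent.Helper18.HA

open Pool.Agent.Helper18.HY
open Pool.Agent.Helper72.AP (Rs mx Lc Kk Ent2)
open Pool.Agent.Helper18.UC (T2 rep toT nn)
open Pool.Agent.Helper18.FD (NN rr pr cl uu lm Bump k1 k2 NN_pos NN_ge)
open Pool.Agent.Helper95.PV (Ix Om PP lv rp tc inn out cel upd mv mu Pt rv)
open Pool.Agent.Helper18.FD (CB bump_cb bump_cd deriv_off pr_sum pr_deriv abs_cl_le)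

/-! ### one level -/

private theorem cb_bd83 {f : ℝ → ℝ} (hf : CB f) : ∃ B : ℝ, 0 ≤ B ∧ ∀ t, |f t| ≤ B := by
  obtain ⟨C, hC⟩ := (isCompact_Icc (a := (-1 : ℝ)) (b := 1)).exists_bound_of_continuousOn hf.cont.continuousOn
  refine ⟨max C 0, le_max_right _ _, fun t => ?_⟩
  rcases le_total 1 |t| with h | h
  · rw [hf.zero t h, abs_zero]
    exact le_max_right _ _
  · exact (hC t (abs_le.1 h)).trans (le_max_left _ _)

private theorem cb_deriv83 {f : ℝ → ℝ} (hf : CB f) (h1 : ContDiff ℝ 1 f) : CB (deriv f) :=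
  ⟨(contDiff_one_iff_deriv.1 h1).2, deriv_off (contDiff_one_iff_deriv.1 h1).1 hf.zero⟩

private theorem NN_four83 (l : ℕ) : 4 ≤ NN l := by
  unfold NN
  calc 4 ≤ 2 ^ 3 := by norm_num
    _ ≤ 2 ^ (l + 3) := Nat.pow_le_pow_right (by norm_num) (by omega)

private theorem NN_mono83 {l n : ℕ} (h : l ≤ n) : (NN l : ℝ) ≤ NN n := by
  unfold NN
  exact_mod_cast Nat.pow_le_pow_right (by norm_num) (by omega)

private theorem lv_bd83 {g₁ g₂ : ℝ → ℝ} (h1 : CB g₁) (h2 : CB g₂) {B₁ B₂ : ℝ}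
    (hB1 : ∀ t, |g₁ t| ≤ B₁) (hB2 : ∀ t, |g₂ t| ≤ B₂) (ω : Om) (l : ℕ) (x : ℝ) :
    |lv g₁ g₂ ω l x| ≤ 2 * B₁ + 2 * B₂ := by
  have s2 := pr_sum (NN_four83 l) hB1 h1.zero x
  have s3 := pr_sum (NN_four83 l) hB2 h2.zero x
  unfold lv
  calc _ ≤ ∑ i ∈ Finset.range (NN l), (|pr (NN l) g₁ (x - i / NN l)| + |pr (NN l) g₂ (x - i / NN l)|) := by
        refine (Finset.abs_sum_le_sum_abs _ _).trans (Finset.sum_le_sum fun c _ => ?_)
        refine (abs_add_le _ _).trans (add_le_add ?_ ?_)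
        · rw [abs_mul]
          exact mul_le_of_le_one_left (abs_nonneg _) (abs_cl_le _)
        · rw [abs_mul]
          exact mul_le_of_le_one_left (abs_nonneg _) (abs_cl_le _)
    _ ≤ _ := by
        rw [Finset.sum_add_distrib]
        exact add_le_add s2 s3

private theorem lv_congr83 (g₁ g₂ : ℝ → ℝ) {ω ω' : Om} {l : ℕ} (h : ∀ i < NN l, ∀ b, ω (l, i, b) = ω' (l, i, b))
    (x : ℝ) : lv g₁ g₂ ω l x = lv g₁ g₂ ω' l x := by
  unfold lv
  refine Finset.sum_congr rfl fun i hi => ?_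
  rw [h i (Finset.mem_range.1 hi) false, h i (Finset.mem_range.1 hi) true]

private theorem lv_der83 {g₁ g₂ : ℝ → ℝ} (h1 : CB g₁) (h2 : CB g₂) (h11 : ContDiff ℝ 1 g₁)
    (h21 : ContDiff ℝ 1 g₂) (ω : Om) (l : ℕ) (x : ℝ) :
    HasDerivAt (lv g₁ g₂ ω l) (NN l * lv (deriv g₁) (deriv g₂) ω l x) x := by
  have hN := NN_four83 l
  have e : lv g₁ g₂ ω l = fun x : ℝ => ∑ i ∈ Finset.range (NN l), (cl (ω (l, i, false)) * pr (NN l) g₁ (x - i / NN l) +
    cl (ω (l, i, true)) * pr (NN l) g₂ (x - i / NN l)) := rfl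
  rw [e]
  unfold lv
  rw [Finset.mul_sum]
  refine HasDerivAt.fun_sum fun i _ => ?_
  have ha := (pr_deriv hN (h11.differentiable one_ne_zero) h1.zero (x - i / NN l)).comp_sub_const x (i / NN l)
  have hb := (pr_deriv hN (h21.differentiable one_ne_zero) h2.zero (x - i / NN l)).comp_sub_const x (i / NN l)
  have h' := (ha.const_mul (cl (ω (l, i, false)))).add (hb.const_mul (cl (ω (l, i, true))))
  refine h'.congr_deriv ?_
  ring

/-- bound and Lipschitz constant of a level -/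
private theorem lv_both83 {g₁ g₂ : ℝ → ℝ} (h1 : CB g₁) (h2 : CB g₂) (h11 : ContDiff ℝ 1 g₁) (h21 : ContDiff ℝ 1 g₂) :
    ∃ D : ℝ, 0 ≤ D ∧ (∀ (ω : Om) (l : ℕ) (x : ℝ), |lv g₁ g₂ ω l x| ≤ D) ∧
      ∀ (ω : Om) (l : ℕ) (x y : ℝ), |lv g₁ g₂ ω l x - lv g₁ g₂ ω l y| ≤ D * (NN l * |x - y|) := by
  obtain ⟨B₁, hB10, hB1⟩ := cb_bd83 h1
  obtain ⟨B₂, hB20, hB2⟩ := cb_bd83 h2
  obtain ⟨E₁, hE10, hE1⟩ := cb_bd83 (cb_deriv83 h1 h11)
  obtain ⟨E₂, hE20, hE2⟩ := cb_bd83 (cb_deriv83 h2 h21)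
  refine ⟨2 * B₁ + 2 * B₂ + (2 * E₁ + 2 * E₂), by positivity, fun ω l x => ?_, fun ω l x y => ?_⟩
  · exact (lv_bd83 h1 h2 hB1 hB2 ω l x).trans (by linarith)
  · have hN : (0 : ℝ) ≤ NN l := Nat.cast_nonneg _
    have key := Convex.norm_image_sub_le_of_norm_hasDerivWithin_le (f := lv g₁ g₂ ω l)
      (f' := fun z => NN l * lv (deriv g₁) (deriv g₂) ω l z) (s := Set.univ)
      (C := NN l * (2 * E₁ + 2 * E₂)) (x := y) (y := x)
      (fun z _ => (lv_der83 h1 h2 h11 h21 ω l z).hasDerivWithinAt)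
      (fun z _ => by
        rw [norm_mul, Real.norm_eq_abs, Real.norm_eq_abs, abs_of_nonneg hN]
        exact mul_le_mul_of_nonneg_left (lv_bd83 (cb_deriv83 h1 h11) (cb_deriv83 h2 h21) hE1 hE2 ω l z) hN)
      convex_univ (Set.mem_univ y) (Set.mem_univ x)
    rw [Real.norm_eq_abs, Real.norm_eq_abs] at key
    refine key.trans ?_
    have h3 : 0 ≤ (NN l : ℝ) * |x - y| := by positivity
    have h4 : 0 ≤ (2 * B₁ + 2 * B₂) * ((NN l : ℝ) * |x - y|) := by positivity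
    calc (NN l : ℝ) * (2 * E₁ + 2 * E₂) * |x - y| = (2 * E₁ + 2 * E₂) * (NN l * |x - y|) := by ring
      _ ≤ (2 * B₁ + 2 * B₂ + (2 * E₁ + 2 * E₂)) * (NN l * |x - y|) := by
        rw [add_mul (2 * B₁ + 2 * B₂)]
        linarith

/-! ### the series -/

/-- the tail of a difference of two series -/
private theorem tail83 {c : ℕ → ℝ} (hc : ∀ l, 0 ≤ c l) (hs : Summable c) {u v : ℕ → ℝ} {D : ℝ}
    (hu : ∀ l, |u l| ≤ D) (hv : ∀ l, |v l| ≤ D) (n : ℕ) :
    |(∑' l, c l * u l) - ∑' l, c l * v l| ≤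
      (∑ l ∈ Finset.range n, c l * |u l - v l|) + 2 * D * ∑' l, c (l + n) := by
  have su : Summable fun l => c l * u l := by
    refine Summable.of_norm_bounded (g := fun l => c l * D) (hs.mul_right _) fun l => ?_
    rw [norm_mul, Real.norm_eq_abs, Real.norm_eq_abs, abs_of_nonneg (hc l)]
    exact mul_le_mul_of_nonneg_left (hu l) (hc l)
  have sv : Summable fun l => c l * v l := by
    refine Summable.of_norm_bounded (g := fun l => c l * D) (hs.mul_right _) fun l => ?_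
    rw [norm_mul, Real.norm_eq_abs, Real.norm_eq_abs, abs_of_nonneg (hc l)]
    exact mul_le_mul_of_nonneg_left (hv l) (hc l)
  rw [← su.tsum_sub sv, ← (su.sub sv).sum_add_tsum_nat_add n]
  refine (abs_add_le _ _).trans (add_le_add ?_ ?_)
  · refine (Finset.abs_sum_le_sum_abs _ _).trans (Finset.sum_le_sum fun l _ => le_of_eq ?_)
    rw [← mul_sub, abs_mul, abs_of_nonneg (hc l)]
  · have ht : HasSum (fun l => 2 * D * c (l + n)) (2 * D * ∑' l, c (l + n)) :=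
      ((summable_nat_add_iff n).2 hs).hasSum.mul_left _
    rw [← Real.norm_eq_abs]
    refine tsum_of_norm_bounded ht fun l => ?_
    rw [← mul_sub, norm_mul, Real.norm_eq_abs, Real.norm_eq_abs, abs_of_nonneg (hc _)]
    have h1 : |u (l + n) - v (l + n)| ≤ 2 * D := by
      refine (abs_sub _ _).trans ?_
      rw [two_mul]
      exact add_le_add (hu _) (hv _)
    calc c (l + n) * |u (l + n) - v (l + n)| ≤ c (l + n) * (2 * D) := mul_le_mul_of_nonneg_left h1 (hc _)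
      _ = 2 * D * c (l + n) := by ring

private theorem fs_mod83 {g₁ g₂ : ℝ → ℝ} (h1 : CB g₁) (h2 : CB g₂) (h11 : ContDiff ℝ 1 g₁) (h21 : ContDiff ℝ 1 g₂)
    {c : ℕ → ℝ} (hc : ∀ l, 0 ≤ c l) (hs : Summable c) : ∃ C : ℝ, 0 ≤ C ∧
    (∀ (ω : Om) (x y : ℝ) (n : ℕ), |fs g₁ g₂ c ω x - fs g₁ g₂ c ω y| ≤ C * ((NN n : ℝ) * |x - y| + ∑' l, c (l + n))) ∧
    ∀ (ω ω' : Om) (n : ℕ), (∀ i : Ix, i.1 < n → i.2.1 < NN i.1 → ω i = ω' i) → ∀ x,
      |fs g₁ g₂ c ω x - fs g₁ g₂ c ω' x| ≤ C * ∑' l, c (l + n) := by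
  obtain ⟨D, hD0, hD1, hD2⟩ := lv_both83 h1 h2 h11 h21
  have hS0 : 0 ≤ ∑' l, c l := tsum_nonneg hc
  refine ⟨2 * D + D * ∑' l, c l, by positivity, fun ω x y n => ?_, fun ω ω' n h x => ?_⟩
  · have key := tail83 hc hs (fun l => hD1 ω l x) (fun l => hD1 ω l y) n
    have hT : 0 ≤ ∑' l, c (l + n) := tsum_nonneg fun l => hc _
    have hN : (0 : ℝ) ≤ NN n := Nat.cast_nonneg _
    have h3 : ∑ l ∈ Finset.range n, c l * |lv g₁ g₂ ω l x - lv g₁ g₂ ω l y| ≤
        D * (∑' l, c l) * ((NN n : ℝ) * |x - y|) := by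
      calc ∑ l ∈ Finset.range n, c l * |lv g₁ g₂ ω l x - lv g₁ g₂ ω l y|
          ≤ ∑ l ∈ Finset.range n, c l * (D * (NN n * |x - y|)) := by
            refine Finset.sum_le_sum fun l hl => mul_le_mul_of_nonneg_left ((hD2 ω l x y).trans ?_) (hc l)
            have h4 := NN_mono83 (Finset.mem_range.1 hl).le
            exact mul_le_mul_of_nonneg_left (mul_le_mul_of_nonneg_right h4 (abs_nonneg _)) hD0
        _ = (∑ l ∈ Finset.range n, c l) * (D * (NN n * |x - y|)) := by rw [Finset.sum_mul]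
        _ ≤ (∑' l, c l) * (D * (NN n * |x - y|)) :=
            mul_le_mul_of_nonneg_right (hs.sum_le_tsum _ fun l _ => hc l) (by positivity)
        _ = D * (∑' l, c l) * ((NN n : ℝ) * |x - y|) := by ring
    have h5 : |fs g₁ g₂ c ω x - fs g₁ g₂ c ω y| ≤ D * (∑' l, c l) * ((NN n : ℝ) * |x - y|) + 2 * D * ∑' l, c (l + n) :=
      key.trans (by linarith)
    refine h5.trans ?_
    have h6 : 0 ≤ (NN n : ℝ) * |x - y| := by positivity
    have h7 : 0 ≤ 2 * D * ((NN n : ℝ) * |x - y|) := by positivity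
    have h8 : 0 ≤ D * (∑' l, c l) * ∑' l, c (l + n) := by positivity
    rw [mul_add, add_mul, add_mul]
    linarith
  · have key := tail83 hc hs (fun l => hD1 ω l x) (fun l => hD1 ω' l x) n
    have hT : 0 ≤ ∑' l, c (l + n) := tsum_nonneg fun l => hc _
    have h3 : ∑ l ∈ Finset.range n, c l * |lv g₁ g₂ ω l x - lv g₁ g₂ ω' l x| = 0 := by
      refine Finset.sum_eq_zero fun l hl => ?_
      rw [lv_congr83 g₁ g₂ (fun i hi' b => h (l, i, b) (Finset.mem_range.1 hl) hi') x, sub_self, abs_zero, mul_zero]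
    rw [h3, zero_add] at key
    refine key.trans ?_
    have h8 : 0 ≤ D * (∑' l, c l) * ∑' l, c (l + n) := by positivity
    rw [add_mul]
    linarith

theorem modul {χ : ℝ → ℝ} (hχ : Bump χ) {k : ℕ → ℝ} (hk : ∀ l, 0 ≤ k l) (hs : Summable k) : ∃ C : ℝ, 1 ≤ C ∧
    (∀ (ω : Om) (x y : ℝ) (n : ℕ), |h2 χ k ω x - h2 χ k ω y| ≤ C * ((NN n : ℝ) * |x - y| + tl k n)) ∧
    ∀ (ω ω' : Om) (n : ℕ), (∀ i : Ix, i.1 < n → i.2.1 < NN i.1 → ω i = ω' i) → ∀ x,
      |h1 χ k ω x - h1 χ k ω' x| ≤ C / NN n ∧ |h2 χ k ω x - h2 χ k ω' x| ≤ C * tl k n := by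
  obtain ⟨-, -, -, -, c3, c4, -, c5, c6⟩ := bump_cb hχ
  obtain ⟨-, -, -, -, d3, d4, -, d5, d6⟩ := bump_cd hχ
  have hk0 : ∀ l, 0 ≤ k l / (NN l : ℝ) := fun l => div_nonneg (hk l) (Nat.cast_nonneg _)
  have hk1 : ∀ l, k l / (NN l : ℝ) ≤ k l := fun l => div_le_self (hk l) (by linarith [NN_ge l])
  have hs1 : Summable fun l => k l / (NN l : ℝ) := Summable.of_nonneg_of_le hk0 hk1 hs
  obtain ⟨C1, hC1, -, H1⟩ := fs_mod83 c3 c4 d3 d4 hk0 hs1
  obtain ⟨C2, hC2, H2, H3⟩ := fs_mod83 c5 c6 d5 d6 hk hs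
  have hS0 : 0 ≤ ∑' l, k l := tsum_nonneg hk
  have hCS : 0 ≤ C1 * ∑' l, k l := mul_nonneg hC1 hS0
  refine ⟨1 + C1 * (∑' l, k l) + C2, by linarith, fun ω x y n => ?_, fun ω ω' n h x => ⟨?_, ?_⟩⟩
  · have hT : 0 ≤ tl k n := tsum_nonneg fun l => hk _
    have hN : (0 : ℝ) ≤ NN n := Nat.cast_nonneg _
    refine (H2 ω x y n).trans ?_
    exact mul_le_mul_of_nonneg_right (by linarith) (by positivity)
  · have hN : (0 : ℝ) < NN n := NN_pos n
    have h4 : ∑' l, k (l + n) / (NN (l + n) : ℝ) ≤ (∑' l, k l) / NN n := by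
      have h5 : ∀ l, k (l + n) / (NN (l + n) : ℝ) ≤ k (l + n) / NN n := fun l =>
        div_le_div_of_nonneg_left (hk _) hN (NN_mono83 (Nat.le_add_left n l))
      have s5 : Summable fun l => k (l + n) := (summable_nat_add_iff n).2 hs
      calc ∑' l, k (l + n) / (NN (l + n) : ℝ) ≤ ∑' l, k (l + n) / NN n :=
            ((summable_nat_add_iff n).2 hs1).tsum_le_tsum h5 (s5.div_const _)
        _ = (∑' l, k (l + n)) / NN n := tsum_div_const
        _ ≤ (∑' l, k l) / NN n := by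
            refine div_le_div_of_nonneg_right ?_ hN.le
            have h6 := hs.sum_add_tsum_nat_add n
            have h7 : 0 ≤ ∑ l ∈ Finset.range n, k l := Finset.sum_nonneg fun l _ => hk l
            linarith
    calc |h1 χ k ω x - h1 χ k ω' x| ≤ C1 * ∑' l, k (l + n) / (NN (l + n) : ℝ) := H1 ω ω' n h x
      _ ≤ C1 * ((∑' l, k l) / NN n) := mul_le_mul_of_nonneg_left h4 hC1
      _ = (C1 * ∑' l, k l) / NN n := by ring
      _ ≤ (1 + C1 * (∑' l, k l) + C2) / NN n := div_le_div_of_nonneg_right (by linarith) hN.le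
  · have hT : 0 ≤ tl k n := tsum_nonneg fun l => hk _
    refine (H3 ω ω' n h x).trans ?_
    exact mul_le_mul_of_nonneg_right (by linarith) hT

/-! ### the tail of the amplitudes -/

private theorem summ83 {γ : ℝ} (hγ : 0 < γ) : Summable fun l : ℕ => Real.exp (-((l : ℝ) ^ γ / 2)) := by
  have h1 : Tendsto (fun l : ℕ => ((l : ℝ)) ^ γ) atTop atTop :=
    (tendsto_rpow_atTop hγ).comp tendsto_natCast_atTop_atTop
  have h2 := (isLittleO_exp_neg_mul_rpow_atTop (a := 1 / 2) (by norm_num) (-2 / γ)).comp_tendsto h1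
  refine summable_of_isBigO_nat (g := fun l : ℕ => ((l : ℝ)) ^ (-2 : ℝ)) ?_ ?_
  · exact Real.summable_nat_rpow.2 (by norm_num)
  · refine (h2.isBigO).congr (fun l => ?_) (fun l => ?_)
    · simp only [Function.comp_apply]
      congr 1
      ring
    · simp only [Function.comp_apply]
      rw [← Real.rpow_mul (Nat.cast_nonneg l)]
      congr 1
      field_simp

/-- the tail of the amplitudes -/
theorem tl_small {k : ℕ → ℝ} (hk : ∀ l, 0 ≤ k l) (hs : Summable k)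
    (h : ∃ γ : ℝ, 0 < γ ∧ ∀ᶠ l : ℕ in atTop, k l ≤ Real.exp (-(l : ℝ) ^ γ)) :
    ∃ Q : ℕ, 1 ≤ Q ∧ ∀ᶠ m : ℕ in atTop, tl k (m ^ Q) ≤ Real.exp (-(m : ℝ) ^ 2) := by
  obtain ⟨γ, hγ, hev⟩ := h
  obtain ⟨n₀, hn₀⟩ := eventually_atTop.1 hev
  obtain ⟨Q, hQ⟩ := exists_nat_ge (3 / γ)
  have hS := summ83 hγ
  obtain ⟨C, hC⟩ : ∃ C : ℝ, C = ∑' l : ℕ, Real.exp (-((l : ℝ) ^ γ / 2)) := ⟨_, rfl⟩
  have hC0 : 0 ≤ C := by
    rw [hC]
    exact tsum_nonneg fun l => (Real.exp_pos _).le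
  obtain ⟨M, hM⟩ := exists_nat_ge C
  refine ⟨Q + 1, by omega, ?_⟩
  filter_upwards [eventually_ge_atTop (max (max n₀ M) 4)] with m hm
  have hm1 : n₀ ≤ m := (le_max_left _ _).trans ((le_max_left _ _).trans hm)
  have hm2 : M ≤ m := (le_max_right _ _).trans ((le_max_left _ _).trans hm)
  have hm3 : 4 ≤ m := (le_max_right _ _).trans hm
  have hmR : (4 : ℝ) ≤ m := by exact_mod_cast hm3
  have hmC : C ≤ m := hM.trans (by exact_mod_cast hm2)
  have hn : n₀ ≤ m ^ (Q + 1) := hm1.trans (Nat.le_self_pow (by omega) m)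
  -- the exponent
  have hx : (m : ℝ) ^ 3 ≤ ((m ^ (Q + 1) : ℕ) : ℝ) ^ γ := by
    rw [Nat.cast_pow, ← Real.rpow_natCast (m : ℝ) (Q + 1), ← Real.rpow_mul (Nat.cast_nonneg m),
      ← Real.rpow_natCast (m : ℝ) 3]
    refine Real.rpow_le_rpow_of_exponent_le (by linarith) ?_
    push_cast
    have h3 : 3 ≤ (Q : ℝ) * γ := by
      rw [div_le_iff₀ hγ] at hQ
      exact hQ
    nlinarith
  have hb : ∀ l : ℕ, k (l + m ^ (Q + 1)) ≤
      Real.exp (-((m : ℝ) ^ 3 / 2)) * Real.exp (-((l : ℝ) ^ γ / 2)) := by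
    intro l
    refine (hn₀ (l + m ^ (Q + 1)) (by omega)).trans ?_
    rw [← Real.exp_add]
    refine Real.exp_le_exp.2 ?_
    have h4 : ((m ^ (Q + 1) : ℕ) : ℝ) ^ γ ≤ ((l + m ^ (Q + 1) : ℕ) : ℝ) ^ γ :=
      Real.rpow_le_rpow (Nat.cast_nonneg _) (by exact_mod_cast Nat.le_add_left _ _) hγ.le
    have h5 : (l : ℝ) ^ γ ≤ ((l + m ^ (Q + 1) : ℕ) : ℝ) ^ γ :=
      Real.rpow_le_rpow (Nat.cast_nonneg _) (by exact_mod_cast Nat.le_add_right _ _) hγ.le
    linarith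
  have h6 : tl k (m ^ (Q + 1)) ≤ Real.exp (-((m : ℝ) ^ 3 / 2)) * C := by
    unfold tl
    rw [hC, ← tsum_mul_left]
    exact ((summable_nat_add_iff _).2 hs).tsum_le_tsum hb (hS.mul_left _)
  refine h6.trans ?_
  have h7 : C ≤ Real.exp m := by
    have := Real.add_one_le_exp (m : ℝ)
    linarith
  calc Real.exp (-((m : ℝ) ^ 3 / 2)) * C ≤ Real.exp (-((m : ℝ) ^ 3 / 2)) * Real.exp m :=
        mul_le_mul_of_nonneg_left h7 (Real.exp_pos _).le
    _ = Real.exp (-((m : ℝ) ^ 3 / 2) + m) := (Real.exp_add _ _).symm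
    _ ≤ Real.exp (-(m : ℝ) ^ 2) := by
        refine Real.exp_le_exp.2 ?_
        nlinarith [mul_nonneg (show (0 : ℝ) ≤ m by linarith) (show (0 : ℝ) ≤ (m : ℝ) - 4 by linarith),
          mul_nonneg (mul_nonneg (show (0 : ℝ) ≤ m by linarith) (show (0 : ℝ) ≤ m by linarith))
            (show (0 : ℝ) ≤ (m : ℝ) - 4 by linarith)]

end Pool.Agent.Helper18.HA
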