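import Pool.Agent.Helper18.HA.Cont
import Pool.Agent.Helper18.HA.Fld

/-! Block HA-SMALL: for the times `m = 2^i`, precision `exp (-N)`, truncation at the level `N`, `N = m^(Q+1)`, the functionals change by at most `1 / (i + 1)`.

Let `m = 2^i`, `n = m^Q` (`Q` from `tl_small`, replaced by `max Q 2` if convenient), `N = m^(Q+1)`, `C` from `modul` and a bound `C` of `h1`, `h2` (`h_ok`), `D = |a| R + 1`. The differences of the forces are at most `ε = |a| ((1 + C) exp (-N) + C / NN N)`, `δ₀ = |a| ((1 + C) exp (-N) + C tl k N)`; the modulus `hh` with `ε (D+3)^(2m)`: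
`δ = |a| (L + C NN n) ε (D+3)^(2m) + |a| C tl k n + δ₀`; `tl k n ≤ exp (-m^2)`, `NN n (D+3)^(2m) ε ≤ exp (-m^2)` for large `i`. All bounds follow from `un_contL` for the times `m`, `2 m` and `gr_contL`. -/

set_option autoImplicit false
open MeasureTheory Real Set Filter Topology
open scoped ENNReal

namespace Pool.Agent.Helper18.HA

open Pool.Agent.Helper18.HY
open Pool.Agent.Helper72.AP (Rs mx Lc Kk Ent2)
open Pool.Agent.Helper18.UC (T2 rep toT nn)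
open Pool.Agent.Helper18.FD (NN rr pr cl uu lm Bump k1 k2 NN_pos NN_ge)
open Pool.Agent.Helper95.PV (Ix Om PP lv rp tc inn out cel upd mv mu Pt rv)

private theorem tl_anti56 {k : ℕ → ℝ} (hk : ∀ l, 0 ≤ k l) (hs : Summable k) {n N : ℕ} (h : n ≤ N) :
    tl k N ≤ tl k n := by
  obtain ⟨r, rfl⟩ := Nat.exists_eq_add_of_le h
  unfold tl
  have h1 := ((summable_nat_add_iff n).2 hs).sum_add_tsum_nat_add r
  have h2 : ∑' l : ℕ, k (l + (n + r)) = ∑' l : ℕ, k (l + r + n) :=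
    tsum_congr fun l => by rw [show l + (n + r) = l + r + n by ring]
  rw [h2, ← h1]
  exact le_add_of_nonneg_left (Finset.sum_nonneg fun i _ => hk _)

private theorem half_pow56 {m n N r : ℕ} (hm : 3 ≤ m) (hN : N = n + r) (hr : (m - 1) * m ^ 2 ≤ r) :
    (2 : ℝ) ^ n * (1 / 2 : ℝ) ^ N ≤ Real.exp (-(m : ℝ) ^ 2) := by
  have e : (2 : ℝ) ^ n * (1 / 2 : ℝ) ^ N = Real.exp (-(r * Real.log 2)) := by
    rw [hN, pow_add, ← mul_assoc, ← mul_pow, show (2 : ℝ) * (1 / 2) = 1 by norm_num, one_pow, one_mul,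
      Real.exp_neg, mul_comm, Real.exp_mul, Real.exp_log (by norm_num), Real.rpow_natCast, one_div, inv_pow]
  rw [e]
  apply Real.exp_le_exp.2
  rw [neg_le_neg_iff]
  have h1 : (1 : ℝ) / 2 ≤ Real.log 2 := by linarith [Real.log_two_gt_d9]
  have h2 : (((m - 1) * m ^ 2 : ℕ) : ℝ) ≤ r := by exact_mod_cast hr
  have h3 : (((m - 1) * m ^ 2 : ℕ) : ℝ) = ((m : ℝ) - 1) * (m : ℝ) ^ 2 := by
    rw [Nat.cast_mul, Nat.cast_pow, Nat.cast_sub (by omega), Nat.cast_one]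
  have h4 : (3 : ℝ) ≤ m := by exact_mod_cast hm
  rw [h3] at h2
  have h5 : (m : ℝ) ^ 2 ≤ ((m : ℝ) - 1) * (m : ℝ) ^ 2 * (1 / 2) := by
    nlinarith [sq_nonneg (m : ℝ)]
  have h6 : 0 ≤ ((m : ℝ) - 1) * (m : ℝ) ^ 2 := mul_nonneg (by linarith) (sq_nonneg _)
  calc (m : ℝ) ^ 2 ≤ ((m : ℝ) - 1) * (m : ℝ) ^ 2 * (1 / 2) := h5
    _ ≤ r * Real.log 2 := mul_le_mul h2 h1 (by norm_num) (Nat.cast_nonneg r)

/-- the numerical estimate -/
private theorem num56 {c C : ℝ} (hC : 0 < C) {m : ℕ} (h1 : c + 1 ≤ m) (h2 : Real.log C ≤ m) :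
    C * Real.exp (c * m) * Real.exp (-(m : ℝ) ^ 2) ≤ 1 := by
  rw [mul_assoc, ← Real.exp_add]
  nth_rewrite 1 [← Real.exp_log hC]
  rw [← Real.exp_add]
  apply Real.exp_le_one_iff.2
  nlinarith

theorem small {χ : ℝ → ℝ} {k : ℕ → ℝ} {a R κ₀ κ₁ : ℝ} {𝒢 : Set Kk} (hB : Box χ k a R κ₀ κ₁ 𝒢) :
    ∃ Q i₀ : ℕ, ∀ i ≥ i₀, ∀ N : ℕ, N = (2 ^ i) ^ (Q + 1) → ∀ (κ κ' : ℝ) (g g' : Kk) (ω ω' : Om),
      κ₀ ≤ κ → κ ≤ κ₁ → g ∈ 𝒢 → κ₀ ≤ κ' → κ' ≤ κ₁ → g' ∈ 𝒢 → |κ - κ'| ≤ Real.exp (-N) →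
      (∀ x, |g.1 x - g'.1 x| ≤ Real.exp (-N) ∧ |g.2 x - g'.2 x| ≤ Real.exp (-N)) →
      (∀ j : Ix, j.1 < N → j.2.1 < NN j.1 → ω j = ω' j) →
      |ff (dt R χ k a κ g) ω (2 ^ i) - ff (dt R χ k a κ' g') ω' (2 ^ i)| ≤ 1 ∧
      |gr (dt R χ k a κ g) ω i - gr (dt R χ k a κ' g') ω' i| ≤ 1 / ((i : ℝ) + 1) := by
  have hk0 : ∀ l, 0 ≤ k l := fun l => le_trans (one_div_nonneg.2 (NN_pos l).le) (hB.hk l)
  obtain ⟨C₁, hC₁, hm1, hm2⟩ := modul hB.hχ hk0 hB.hs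
  obtain ⟨C₂, hC₂, hok⟩ := h_ok hB.hχ hk0 hB.hs
  obtain ⟨L, γ, hL, hγ, hlip⟩ := hB.md
  obtain ⟨Q₁, hQ₁⟩ := exists_nat_ge (2 / γ)
  obtain ⟨Q₀, hQ₀, htl⟩ := tl_small hk0 hB.hs hB.up
  obtain ⟨m₁, hm₁⟩ := eventually_atTop.1 htl
  have ha0 : 0 ≤ |a| := abs_nonneg a
  have hR0 : 0 ≤ R := le_trans zero_le_one hB.hR
  obtain ⟨D, hD⟩ : ∃ D : ℝ, D = |a| * R + 1 := ⟨_, rfl⟩
  have hD1 : 1 ≤ D := by rw [hD]; linarith [mul_nonneg ha0 hR0]
  obtain ⟨C₃, hC₃⟩ : ∃ C₃ : ℝ, C₃ = |a| * (8 * (L + C₁)) * (|a| * (1 + C₂ + C₁)) + |a| * (L + C₁) +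
      |a| * (1 + C₂ + C₁) := ⟨_, rfl⟩
  have ha1 : 0 < |a| := lt_of_lt_of_le (by norm_num) hB.ha
  have hC₃0 : 0 < C₃ := by rw [hC₃]; positivity
  obtain ⟨c, hc⟩ : ∃ c : ℝ, c = 3 + 6 * Real.log (D + 4) := ⟨_, rfl⟩
  have hlogD : 0 ≤ Real.log (D + 4) := Real.log_nonneg (by linarith)
  have hc0 : 0 ≤ c := by rw [hc]; linarith
  obtain ⟨i₀, hi₀⟩ := exists_nat_ge (max (c + 1) (Real.log (8 * C₃)))
  refine ⟨Q₀ + Q₁ + 1, max i₀ (max m₁ 2), ?_⟩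
  intro i hi N hN κ κ' g g' ω ω' hκ hκ1 hg hκ' hκ1' hg' hκκ hgg hωω
  have hd := hB.ok κ g hκ hκ1 hg
  have hd' := hB.ok κ' g' hκ' hκ1' hg'
  have hi1 : i₀ ≤ i := le_trans (le_max_left _ _) hi
  have hi2 : m₁ ≤ i := le_trans (le_trans (le_max_left _ _) (le_max_right _ _)) hi
  have hi3 : 2 ≤ i := le_trans (le_trans (le_max_right _ _) (le_max_right _ _)) hi
  obtain ⟨m, hm⟩ : ∃ m : ℕ, m = 2 ^ i := ⟨_, rfl⟩
  have him : i + 1 ≤ m := by rw [hm]; exact Nat.lt_two_pow_self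
  have hm3 : 3 ≤ m := by omega
  have hmR : (2 : ℝ) ^ i = m := by rw [hm]; push_cast; rfl
  rw [← hm] at hN ⊢
  obtain ⟨n, hn⟩ : ∃ n : ℕ, n = m ^ (Q₀ + Q₁ + 1) := ⟨_, rfl⟩
  have hNn : N = n * m := by rw [hN, hn, pow_succ]
  have hm2' : m ^ 2 ≤ n := by
    rw [hn]
    exact Nat.pow_le_pow_right (by omega) (by omega)
  have hNn2 : N = n + (m - 1) * n := by
    rw [hNn]
    obtain ⟨t, rfl⟩ : ∃ t, m = t + 1 := ⟨m - 1, by omega⟩
    rw [Nat.add_sub_cancel]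
    ring
  have hrr : (m - 1) * m ^ 2 ≤ (m - 1) * n := Nat.mul_le_mul_left _ hm2'
  have hnN : n ≤ N := by rw [hNn2]; exact Nat.le_add_right _ _
  obtain ⟨e, he⟩ : ∃ e : ℝ, e = Real.exp (-(m : ℝ) ^ 2) := ⟨_, rfl⟩
  have he0 : 0 < e := by rw [he]; exact Real.exp_pos _
  -- the small quantities
  have hq : (2 : ℝ) ^ n * (1 / 2 : ℝ) ^ N ≤ e := by rw [he]; exact half_pow56 hm3 hNn2 hrr
  have htn : tl k n ≤ e := by
    rw [he]
    refine le_trans (tl_anti56 hk0 hB.hs (n := m ^ Q₀) ?_) (hm₁ m (by omega))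
    rw [hn]
    exact Nat.pow_le_pow_right (by omega) (by omega)
  have htN : tl k N ≤ e := (tl_anti56 hk0 hB.hs hnN).trans htn
  have hen : Real.exp (-(n : ℝ) ^ γ) ≤ e := by
    rw [he]
    apply Real.exp_le_exp.2
    rw [neg_le_neg_iff]
    have hm1 : (1 : ℝ) ≤ m := by exact_mod_cast (show 1 ≤ m by omega)
    have h1 : (n : ℝ) ^ γ = (m : ℝ) ^ (((Q₀ + Q₁ + 1 : ℕ) : ℝ) * γ) := by
      rw [hn, Nat.cast_pow, ← Real.rpow_natCast, ← Real.rpow_mul (by linarith)]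
    rw [h1, ← Real.rpow_natCast]
    apply Real.rpow_le_rpow_of_exponent_le hm1
    rw [div_le_iff₀ hγ] at hQ₁
    push_cast
    have h2 : (0 : ℝ) ≤ Q₀ * γ := mul_nonneg (Nat.cast_nonneg _) hγ.le
    nlinarith
  have hen0 : 0 ≤ Real.exp (-(n : ℝ) ^ γ) := (Real.exp_pos _).le
  have htn0 : 0 ≤ tl k n := tsum_nonneg fun l => hk0 _
  have htN0 : 0 ≤ tl k N := tsum_nonneg fun l => hk0 _
  have heN : Real.exp (-(N : ℝ)) ≤ e := by
    rw [he]
    apply Real.exp_le_exp.2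
    rw [neg_le_neg_iff]
    have : ((m ^ 2 : ℕ) : ℝ) ≤ N := by exact_mod_cast hm2'.trans hnN
    rwa [Nat.cast_pow] at this
  have heN2 : Real.exp (-(N : ℝ)) ≤ (1 / 2 : ℝ) ^ N := by
    have h1 : Real.exp (-(N : ℝ)) = (Real.exp (-1)) ^ N := by
      rw [← Real.exp_nat_mul]
      congr 1
      ring
    rw [h1]
    apply pow_le_pow_left₀ (Real.exp_pos _).le
    rw [Real.exp_neg, one_div]
    exact inv_anti₀ (by norm_num) (by linarith [Real.add_one_le_exp (1 : ℝ)])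
  have hNNN : 1 / (NN N : ℝ) ≤ (1 / 2 : ℝ) ^ N := by
    have h1 : (NN N : ℝ) = 2 ^ N * 8 := by
      unfold NN
      push_cast
      rw [pow_add]
      norm_num
    rw [h1, one_div_pow]
    apply one_div_le_one_div_of_le (by positivity)
    have : (0 : ℝ) < 2 ^ N := by positivity
    linarith
  obtain ⟨ε, hε⟩ : ∃ ε : ℝ, ε = |a| * ((1 + C₂) * Real.exp (-(N : ℝ)) + C₁ / NN N) := ⟨_, rfl⟩
  have hε0 : 0 ≤ ε := by
    rw [hε]
    have := NN_pos N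
    positivity
  have hεb : ε ≤ |a| * (1 + C₂ + C₁) * (1 / 2 : ℝ) ^ N := by
    rw [hε, mul_assoc]
    apply mul_le_mul_of_nonneg_left _ ha0
    have h1 : C₁ / NN N ≤ C₁ * (1 / 2 : ℝ) ^ N := by
      rw [div_eq_mul_one_div]
      exact mul_le_mul_of_nonneg_left hNNN (by linarith)
    have h2 : (1 + C₂) * Real.exp (-(N : ℝ)) ≤ (1 + C₂) * (1 / 2 : ℝ) ^ N :=
      mul_le_mul_of_nonneg_left heN2 (by linarith)
    linarith
  obtain ⟨δ, hδ⟩ : ∃ δ : ℝ, δ = |a| * ((L + C₁) * NN n) * (ε * (D + 3) ^ (2 * m)) +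
      |a| * (L * Real.exp (-(n : ℝ) ^ γ) + C₁ * tl k n) +
      |a| * ((1 + C₂) * Real.exp (-(N : ℝ)) + C₁ * tl k N) := ⟨_, rfl⟩
  have hNNn := NN_pos n
  have hT1 : 0 ≤ |a| * ((L + C₁) * NN n) * (ε * (D + 3) ^ (2 * m)) := by positivity
  have hT2 : 0 ≤ |a| * (L * Real.exp (-(n : ℝ) ^ γ) + C₁ * tl k n) := by positivity
  have hT3 : 0 ≤ |a| * ((1 + C₂) * Real.exp (-(N : ℝ)) + C₁ * tl k N) := by positivity
  have hδ0 : 0 ≤ δ := by rw [hδ]; linarith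
  have hpow1 : (1 : ℝ) ≤ (D + 3) ^ (2 * m) := one_le_pow₀ (by linarith)
  have hδb : δ ≤ C₃ * ((D + 3) ^ (2 * m) * e) := by
    have h1 : |a| * ((L + C₁) * NN n) * (ε * (D + 3) ^ (2 * m)) ≤
        |a| * (8 * (L + C₁)) * (|a| * (1 + C₂ + C₁)) * ((D + 3) ^ (2 * m) * e) := by
      have h3 : (NN n : ℝ) = 2 ^ n * 8 := by
        unfold NN
        push_cast
        rw [pow_add]
        norm_num
      calc |a| * ((L + C₁) * NN n) * (ε * (D + 3) ^ (2 * m))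
          ≤ |a| * ((L + C₁) * NN n) * ((|a| * (1 + C₂ + C₁) * (1 / 2 : ℝ) ^ N) * (D + 3) ^ (2 * m)) := by
            gcongr
        _ = |a| * (8 * (L + C₁)) * (|a| * (1 + C₂ + C₁)) * ((D + 3) ^ (2 * m) * ((2 : ℝ) ^ n * (1 / 2 : ℝ) ^ N)) := by
            rw [h3]
            ring
        _ ≤ |a| * (8 * (L + C₁)) * (|a| * (1 + C₂ + C₁)) * ((D + 3) ^ (2 * m) * e) := by
            gcongr
    have hee : e ≤ (D + 3) ^ (2 * m) * e := le_mul_of_one_le_left he0.le hpow1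
    have h5 : |a| * (L * Real.exp (-(n : ℝ) ^ γ) + C₁ * tl k n) ≤ |a| * (L + C₁) * ((D + 3) ^ (2 * m) * e) := by
      rw [mul_assoc]
      apply mul_le_mul_of_nonneg_left _ ha0
      have h7 : L * Real.exp (-(n : ℝ) ^ γ) ≤ L * ((D + 3) ^ (2 * m) * e) :=
        mul_le_mul_of_nonneg_left (hen.trans hee) hL
      have h8 : C₁ * tl k n ≤ C₁ * ((D + 3) ^ (2 * m) * e) :=
        mul_le_mul_of_nonneg_left (htn.trans hee) (by linarith)
      linarith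
    have h6 : |a| * ((1 + C₂) * Real.exp (-(N : ℝ)) + C₁ * tl k N) ≤
        |a| * (1 + C₂ + C₁) * ((D + 3) ^ (2 * m) * e) := by
      rw [mul_assoc]
      apply mul_le_mul_of_nonneg_left _ ha0
      have h7 : (1 + C₂) * Real.exp (-(N : ℝ)) ≤ (1 + C₂) * ((D + 3) ^ (2 * m) * e) :=
        mul_le_mul_of_nonneg_left (heN.trans hee) (by linarith)
      have h8 : C₁ * tl k N ≤ C₁ * ((D + 3) ^ (2 * m) * e) :=
        mul_le_mul_of_nonneg_left (htN.trans hee) (by linarith)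
      linarith
    rw [hδ, hC₃]
    linarith
  have hX : Real.exp ((2 : ℝ) ^ ((i : ℝ) / 2)) * (8 * m * δ * (D + 4) ^ (4 * m)) * ((i : ℝ) + 1) ≤ 1 := by
    have h1 : (2 : ℝ) ^ ((i : ℝ) / 2) ≤ m := by
      rw [← hmR, ← Real.rpow_natCast]
      apply Real.rpow_le_rpow_of_exponent_le (by norm_num)
      have : (0 : ℝ) ≤ i := Nat.cast_nonneg i
      linarith
    have h2 : (i : ℝ) + 1 ≤ Real.exp m := by
      have h3 : (i : ℝ) + 1 ≤ m := by exact_mod_cast him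
      linarith [Real.add_one_le_exp (m : ℝ)]
    have h4 : (m : ℝ) ≤ Real.exp m := by linarith [Real.add_one_le_exp (m : ℝ)]
    have h5 : (D + 3) ^ (2 * m) ≤ (D + 4) ^ (2 * m) :=
      pow_le_pow_left₀ (by linarith) (by linarith) _
    have h6 : Real.exp (c * m) = Real.exp m * Real.exp m * Real.exp m * ((D + 4) ^ (2 * m) * (D + 4) ^ (4 * m)) := by
      rw [← pow_add, ← Real.exp_add, ← Real.exp_add, hc]
      have h7 : (D + 4) ^ (2 * m + 4 * m) = Real.exp (((2 * m + 4 * m : ℕ) : ℝ) * Real.log (D + 4)) := by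
        rw [Real.exp_nat_mul, Real.exp_log (by linarith)]
      rw [h7, ← Real.exp_add]
      congr 1
      push_cast
      ring
    have hi4 : (i₀ : ℝ) ≤ m := by exact_mod_cast (show i₀ ≤ m by omega)
    have h8 := num56 (c := c) (C := 8 * C₃) (by linarith) (m := m)
      ((le_max_left _ _).trans (hi₀.trans hi4)) ((le_max_right _ _).trans (hi₀.trans hi4))
    rw [← he] at h8
    refine le_trans ?_ h8
    calc Real.exp ((2 : ℝ) ^ ((i : ℝ) / 2)) * (8 * m * δ * (D + 4) ^ (4 * m)) * ((i : ℝ) + 1)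
        ≤ Real.exp m * (8 * Real.exp m * (C₃ * ((D + 4) ^ (2 * m) * e)) * (D + 4) ^ (4 * m)) * Real.exp m := by
          gcongr
          exact hδb.trans (by gcongr)
      _ = 8 * C₃ * Real.exp (c * m) * e := by rw [h6]; ring
  -- the data
  have hκ'0 : 0 ≤ κ' := hB.κ0.le.trans hκ'
  have hκ0 : 0 ≤ κ := hB.κ0.le.trans hκ
  have hκ'1 : κ' ≤ 1 := hκ1'.trans hB.κ1
  have hκ1'' : κ ≤ 1 := hκ1.trans hB.κ1
  have b2 : ∀ x, |(dt R χ k a κ g).a * (dt R χ k a κ g).p2 ω x| ≤ D := by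
    intro x
    rw [abs_mul, hD]
    have h1 : |(dt R χ k a κ g).p2 ω x| ≤ R := hd.b2 ω x
    have h2 : |(dt R χ k a κ g).a| * |(dt R χ k a κ g).p2 ω x| ≤ |a| * R :=
      mul_le_mul_of_nonneg_left h1 ha0
    linarith
  have b2' : ∀ x, |(dt R χ k a κ' g').a * (dt R χ k a κ' g').p2 ω' x| ≤ D := by
    intro x
    rw [abs_mul, hD]
    have h1 : |(dt R χ k a κ' g').p2 ω' x| ≤ R := hd'.b2 ω' x
    have h2 : |(dt R χ k a κ' g').a| * |(dt R χ k a κ' g').p2 ω' x| ≤ |a| * R :=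
      mul_le_mul_of_nonneg_left h1 ha0
    linarith
  have hdiff : ∀ (u u' v v' : ℝ) {s : ℝ}, |u - u'| ≤ Real.exp (-(N : ℝ)) → |v| ≤ C₂ → |v - v'| ≤ s →
      |a * (u + κ * v) - a * (u' + κ' * v')| ≤ |a| * ((1 + C₂) * Real.exp (-(N : ℝ)) + s) := by
    intro u u' v v' s h1 h2 h3
    have e1 : a * (u + κ * v) - a * (u' + κ' * v') = a * ((u - u') + (κ - κ') * v + κ' * (v - v')) := by ring
    rw [e1, abs_mul]
    apply mul_le_mul_of_nonneg_left _ ha0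
    refine (abs_add_three _ _ _).trans ?_
    rw [abs_mul, abs_mul, abs_of_nonneg hκ'0]
    have h4 : |κ - κ'| * |v| ≤ Real.exp (-(N : ℝ)) * C₂ :=
      mul_le_mul hκκ h2 (abs_nonneg _) (Real.exp_pos _).le
    have h5 : κ' * |v - v'| ≤ s := by
      have h6 : κ' * |v - v'| ≤ 1 * |v - v'| := mul_le_mul_of_nonneg_right hκ'1 (abs_nonneg _)
      linarith
    linarith
  have e1 : ∀ x, |(dt R χ k a κ g).a * (dt R χ k a κ g).p1 ω x -
      (dt R χ k a κ' g').a * (dt R χ k a κ' g').p1 ω' x| ≤ ε := by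
    intro x
    rw [hε]
    obtain ⟨-, -, -, -, -, -, -, b1, -, -, -⟩ := hok ω
    exact hdiff (g.1 x) (g'.1 x) (h1 χ k ω x) (h1 χ k ω' x) (hgg x).1 (b1 x) (hm2 ω ω' N hωω x).1
  have e2 : ∀ x, |(dt R χ k a κ g).a * (dt R χ k a κ g).p2 ω x -
      (dt R χ k a κ' g').a * (dt R χ k a κ' g').p2 ω' x| ≤ δ := by
    intro x
    obtain ⟨-, -, -, -, -, -, -, -, b2, -, -⟩ := hok ω
    refine (hdiff (g.2 x) (g'.2 x) (h2 χ k ω x) (h2 χ k ω' x) (hgg x).2 (b2 x) (hm2 ω ω' N hωω x).2).trans ?_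
    rw [hδ]
    linarith
  have hmod : ∀ M : ℕ, M ≤ 2 * m → ∀ x y, |x - y| ≤ ε * (D + 3) ^ M →
      |(dt R χ k a κ g).a * (dt R χ k a κ g).p2 ω x - (dt R χ k a κ g).a * (dt R χ k a κ g).p2 ω y| ≤ δ := by
    intro M hM x y hxy
    show |a * (g.2 x + κ * h2 χ k ω x) - a * (g.2 y + κ * h2 χ k ω y)| ≤ δ
    have e3 : a * (g.2 x + κ * h2 χ k ω x) - a * (g.2 y + κ * h2 χ k ω y) =
        a * ((g.2 x - g.2 y) + κ * (h2 χ k ω x - h2 χ k ω y)) := by ring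
    rw [e3, abs_mul]
    have h3 : |x - y| ≤ ε * (D + 3) ^ (2 * m) := by
      refine hxy.trans ?_
      gcongr
      linarith
    have h4 := hlip g hg x y n
    have h5 := hm1 ω x y n
    have h6 : |(g.2 x - g.2 y) + κ * (h2 χ k ω x - h2 χ k ω y)| ≤
        ((L + C₁) * NN n) * (ε * (D + 3) ^ (2 * m)) + (L * Real.exp (-(n : ℝ) ^ γ) + C₁ * tl k n) := by
      refine (abs_add_le _ _).trans ?_
      rw [abs_mul, abs_of_nonneg hκ0]
      have h7 : κ * |h2 χ k ω x - h2 χ k ω y| ≤ C₁ * (NN n * |x - y| + tl k n) := by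
        have h8 : κ * |h2 χ k ω x - h2 χ k ω y| ≤ 1 * |h2 χ k ω x - h2 χ k ω y| :=
          mul_le_mul_of_nonneg_right hκ1'' (abs_nonneg _)
        linarith
      have h9 : ((L + C₁) * NN n) * |x - y| ≤ ((L + C₁) * NN n) * (ε * (D + 3) ^ (2 * m)) :=
        mul_le_mul_of_nonneg_left h3 (by positivity)
      calc |g.2 x - g.2 y| + κ * |h2 χ k ω x - h2 χ k ω y|
          ≤ L * (NN n * |x - y| + Real.exp (-(n : ℝ) ^ γ)) + C₁ * (NN n * |x - y| + tl k n) :=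
            add_le_add h4 h7
        _ = ((L + C₁) * NN n) * |x - y| + (L * Real.exp (-(n : ℝ) ^ γ) + C₁ * tl k n) := by ring
        _ ≤ _ := add_le_add h9 le_rfl
    calc |a| * |(g.2 x - g.2 y) + κ * (h2 χ k ω x - h2 χ k ω y)|
        ≤ |a| * (((L + C₁) * NN n) * (ε * (D + 3) ^ (2 * m)) + (L * Real.exp (-(n : ℝ) ^ γ) + C₁ * tl k n)) :=
          mul_le_mul_of_nonneg_left h6 ha0
      _ ≤ δ := by
          rw [hδ]
          have : |a| * (((L + C₁) * NN n) * (ε * (D + 3) ^ (2 * m)) +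
            (L * Real.exp (-(n : ℝ) ^ γ) + C₁ * tl k n)) =
            |a| * ((L + C₁) * NN n) * (ε * (D + 3) ^ (2 * m)) +
              |a| * (L * Real.exp (-(n : ℝ) ^ γ) + C₁ * tl k n) := by ring
          linarith
  have u1 := un_contL hd hd' hD1 hε0 hδ0 ω ω' b2 b2' m (hmod m (by omega)) e1 e2
  have u2 := un_contL hd hd' hD1 hε0 hδ0 ω ω' b2 b2' (2 * m) (hmod (2 * m) le_rfl) e1 e2
  have g1 := gr_contL hd hd' hD1 hε0 hδ0 ω ω' b2 b2' i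
    (by rw [← hm]; exact hmod m (by omega)) e1 e2
  rw [hmR, ← hm] at g1
  have hm0 : (0 : ℝ) ≤ m := Nat.cast_nonneg m
  have hp4 : (D + 4) ^ (2 * m) ≤ (D + 4) ^ (4 * m) :=
    pow_le_pow_right₀ (by linarith) (by omega)
  have hp40 : 0 ≤ (D + 4) ^ (4 * m) := by positivity
  have hi0 : (0 : ℝ) ≤ i := Nat.cast_nonneg i
  have hE1 : 1 ≤ Real.exp ((2 : ℝ) ^ ((i : ℝ) / 2)) := Real.one_le_exp (by positivity)
  have hY0 : 0 ≤ 8 * m * δ * (D + 4) ^ (4 * m) := by positivity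
  constructor
  · have h1 : |ff (dt R χ k a κ g) ω m - ff (dt R χ k a κ' g') ω' m| ≤
        2 * |un (dt R χ k a κ g) ω m - un (dt R χ k a κ' g') ω' m| +
          |un (dt R χ k a κ g) ω (2 * m) - un (dt R χ k a κ' g') ω' (2 * m)| := by
      unfold ff
      rw [show 2 * un (dt R χ k a κ g) ω m - un (dt R χ k a κ g) ω (2 * m) -
        (2 * un (dt R χ k a κ' g') ω' m - un (dt R χ k a κ' g') ω' (2 * m)) =
        2 * (un (dt R χ k a κ g) ω m - un (dt R χ k a κ' g') ω' m) -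
        (un (dt R χ k a κ g) ω (2 * m) - un (dt R χ k a κ' g') ω' (2 * m)) by ring]
      refine (abs_sub _ _).trans ?_
      rw [abs_mul, abs_of_pos (by norm_num : (0 : ℝ) < 2)]
    have h2 : 2 * (m : ℝ) * δ * (D + 4) ^ (2 * m) ≤ 2 * m * δ * (D + 4) ^ (4 * m) :=
      mul_le_mul_of_nonneg_left hp4 (by positivity)
    have h3 : 2 * ((2 * m : ℕ) : ℝ) * δ * (D + 4) ^ (2 * (2 * m)) = 4 * m * δ * (D + 4) ^ (4 * m) := by
      rw [show 2 * (2 * m) = 4 * m by ring]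
      push_cast
      ring
    rw [h3] at u2
    have h4 : 8 * m * δ * (D + 4) ^ (4 * m) ≤ 1 := by
      refine le_trans ?_ hX
      calc 8 * m * δ * (D + 4) ^ (4 * m) = 1 * (8 * m * δ * (D + 4) ^ (4 * m)) * 1 := by ring
        _ ≤ Real.exp ((2 : ℝ) ^ ((i : ℝ) / 2)) * (8 * m * δ * (D + 4) ^ (4 * m)) * ((i : ℝ) + 1) := by
          gcongr
          linarith
    linarith
  · rw [le_div_iff₀ (by linarith)]
    refine le_trans ?_ hX
    refine mul_le_mul_of_nonneg_right ?_ (by linarith)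
    refine g1.trans ?_
    apply mul_le_mul_of_nonneg_left _ (Real.exp_pos _).le
    have h2 : (m : ℝ) * δ * (D + 4) ^ (2 * m) ≤ m * δ * (D + 4) ^ (4 * m) :=
      mul_le_mul_of_nonneg_left hp4 (by positivity)
    have h3 : 0 ≤ (m : ℝ) * δ * (D + 4) ^ (4 * m) := by positivity
    linarith

end Pool.Agent.Helper18.HA
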