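import Pool.Agent.Helper18.HA.Law
import Pool.Agent.Helper18.HA.Small
import Pool.Agent.Helper18.HA.GrowB
import Pool.Agent.Helper18.HA.Dbl

/-! Block HA-EV: the bad event at the time `2^i` has probability at most `exp (-i)`, for all couplings and backgrounds of the box.

`Q` from `small`, `N = (2^i)^(Q+1)`, `Ent2 Q' j 𝒢`, `K = (Q+1)(j+1) + 10`, `lo = K (i+1)`, truncation at `hi = N`. Net: `grid` (`Helper72/AP/Net.lean`) for the coupling in `[κ₀, κ₁]` with precision `exp (-N)` and `Ent2` at `N`: at most `(exp N + 1) exp (Q' N^j)` points.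
For each point `conc` with `f = ff` (`c = 48 m^2 log |a|`, `E = 1`, `t = 1`) and `f = gr` (`c = 2 m`, `E = t = 1/(i+1)`); `hM` from `int_ff`, `dblL`, `sepL3` and `int_gr`, `growL` (`fr_Lc`, class `Cls k |a| κ₀`). `NN lo ≥ m^K`, so each probability is at most `exp (-m^(K-5))` for large `i`. -/

set_option autoImplicit false
open MeasureTheory Real Set Filter Topology
open scoped ENNReal

namespace Pool.Agent.Helper18.HA

open Pool.Agent.Helper18.HY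
open Pool.Agent.Helper72.AP (Rs mx Lc Kk Ent2)
open Pool.Agent.Helper18.UC (T2 rep toT nn)
open Pool.Agent.Helper18.FD (NN rr pr cl uu lm Bump k1 k2 NN_pos NN_ge)
open Pool.Agent.Helper95.PV (Ix Om PP lv rp tc inn out cel upd mv mu Pt rv)

/-- conditional mean of the doubling defect -/
theorem mean_ff {k : ℕ → ℝ} {A κ₀ : ℝ} (hκ : 0 < κ₀) (hk : ∀ l, 1 / (NN l : ℝ) ≤ k l) (hl : LowK k) (K : ℕ) :
    ∃ C : ℝ, 0 < C ∧ ∀ d : Dat, Cls k A κ₀ d → ∀ i lo : ℕ, 1 ≤ i → lo ≤ K * (i + 1) → ∀ ω : Om,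
      ∫ η, ff d (mx lo ω η) (2 ^ i) ∂PP ≤ C * ((i : ℝ) + 1) ^ 3 := by
  obtain ⟨C₁, hC₁, hsep⟩ := sepL3 (A := A) hκ hk hl K
  refine ⟨|Real.log (100 * A ^ 3)| + 3 * (10 + |Real.log (1 / κ₀)| + 2 * (K + 3) + 16 * C₁), by positivity, ?_⟩
  intro d hd i lo hi hlo ω
  have hS : 0 ≤ C₁ * ((((i + 1 : ℕ) : ℝ)) + 1) ^ 3 := by positivity
  have hm : 2 ≤ 2 ^ i := by
    calc 2 = 2 ^ 1 := rfl
      _ ≤ 2 ^ i := Nat.pow_le_pow_right (by norm_num) hi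
  have h1 := dblL (W := Lc lo ω) hd.ok (fr_Lc lo ω) hm hS (fun k n hkn hn =>
    hsep d hd (Lc lo ω) inferInstance (i + 1) lo (hlo.trans (Nat.mul_le_mul_left K (by omega))) (fr_Lc lo ω) k n hkn
      (by rw [pow_succ, mul_comm]; exact hn))
  rw [int_ff hd.ok]
  rw [hd.a] at h1
  have e1 : Real.log (1 / d.κ) ≤ |Real.log (1 / κ₀)| := by
    refine le_trans (Real.log_le_log (by have := hd.ok.hκ; positivity) ?_) (le_abs_self _)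
    exact one_div_le_one_div_of_le hκ hd.κ
  have e2 : Real.log (NN lo : ℝ) ≤ K * ((i : ℝ) + 1) + 3 := by
    unfold NN
    push_cast
    rw [Real.log_pow]
    have h2 : Real.log 2 ≤ 1 := by have := Real.log_two_lt_d9; linarith
    have h3 : (lo : ℝ) ≤ K * ((i : ℝ) + 1) := by exact_mod_cast hlo
    have h4 : 0 ≤ ((lo + 3 : ℕ) : ℝ) := Nat.cast_nonneg _
    calc ((lo + 3 : ℕ) : ℝ) * Real.log 2 ≤ ((lo + 3 : ℕ) : ℝ) * 1 := mul_le_mul_of_nonneg_left h2 h4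
      _ ≤ K * ((i : ℝ) + 1) + 3 := by push_cast; linarith
  have e3 := le_abs_self (Real.log (100 * A ^ 3))
  have hx0 : (0 : ℝ) ≤ i := Nat.cast_nonneg i
  have hx : (1 : ℝ) ≤ (i : ℝ) + 1 := by linarith
  have hX : (1 : ℝ) ≤ ((i : ℝ) + 1) ^ 3 := one_le_pow₀ hx
  have hX' : (i : ℝ) + 1 ≤ ((i : ℝ) + 1) ^ 3 := le_self_pow₀ hx (by norm_num)
  have e4 : (((i + 1 : ℕ) : ℝ) + 1) ^ 3 ≤ 8 * ((i : ℝ) + 1) ^ 3 := by
    have h5 : ((i + 1 : ℕ) : ℝ) + 1 ≤ 2 * ((i : ℝ) + 1) := by push_cast; linarith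
    calc (((i + 1 : ℕ) : ℝ) + 1) ^ 3 ≤ (2 * ((i : ℝ) + 1)) ^ 3 := pow_le_pow_left₀ (by positivity) h5 3
      _ = 8 * ((i : ℝ) + 1) ^ 3 := by ring
  have hK : (0 : ℝ) ≤ K := Nat.cast_nonneg K
  have g1 : |Real.log (100 * A ^ 3)| ≤ |Real.log (100 * A ^ 3)| * ((i : ℝ) + 1) ^ 3 :=
    le_mul_of_one_le_right (abs_nonneg _) hX
  have g2 : |Real.log (1 / κ₀)| ≤ |Real.log (1 / κ₀)| * ((i : ℝ) + 1) ^ 3 :=
    le_mul_of_one_le_right (abs_nonneg _) hX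
  have g3 : (K : ℝ) * ((i : ℝ) + 1) ≤ K * ((i : ℝ) + 1) ^ 3 := mul_le_mul_of_nonneg_left hX' hK
  have g4 : C₁ * (((i + 1 : ℕ) : ℝ) + 1) ^ 3 ≤ C₁ * (8 * ((i : ℝ) + 1) ^ 3) := mul_le_mul_of_nonneg_left e4 hC₁.le
  nlinarith

/-- the level `K (i+1)` -/
private theorem num_lo30 (K i : ℕ) : (NN (K * (i + 1)) : ℝ) = 8 * (2 * (2 : ℝ) ^ i) ^ K := by
  unfold NN
  push_cast
  have e : (2 : ℝ) * 2 ^ i = 2 ^ (i + 1) := by ring
  rw [e, ← pow_mul, pow_add, mul_comm (i + 1) K]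
  ring

/-- the probability of one net point, doubling defect -/
private theorem num_ff30 {x L : ℝ} (hx : 1 ≤ x) (hL : 0 < L) (hxL : 18432 * L ^ 2 ≤ x) (K : ℕ) :
    Real.exp (-(1 ^ 2 * (8 * (2 * x) ^ (K + 5)) / (8 * (48 * x ^ 2 * L) ^ 2))) ≤ Real.exp (-(x ^ K)) := by
  refine Real.exp_le_exp.2 (neg_le_neg ?_)
  have hx0 : 0 < x := by linarith
  rw [le_div_iff₀ (by positivity)]
  have h2 : (1 : ℝ) ≤ 2 ^ (K + 5) := one_le_pow₀ (by norm_num)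
  have h3 : 0 ≤ x ^ (K + 5) := by positivity
  calc x ^ K * (8 * (48 * x ^ 2 * L) ^ 2) = x ^ (K + 4) * (18432 * L ^ 2) := by ring
    _ ≤ x ^ (K + 4) * x := mul_le_mul_of_nonneg_left hxL (by positivity)
    _ = x ^ (K + 5) := by ring
    _ ≤ 2 ^ (K + 5) * x ^ (K + 5) := le_mul_of_one_le_left h3 h2
    _ ≤ 8 * (2 ^ (K + 5) * x ^ (K + 5)) := by nlinarith [mul_nonneg (by linarith : (0 : ℝ) ≤ 2 ^ (K + 5)) h3]
    _ = 1 ^ 2 * (8 * (2 * x) ^ (K + 5)) := by rw [mul_pow]; ring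

/-- the probability of one net point, growth functional -/
private theorem num_gr30 {x y : ℝ} (hx : 1 ≤ x) (hy : 0 < y) (hxy : y ≤ x) (K : ℕ) :
    Real.exp (-((1 / y) ^ 2 * (8 * (2 * x) ^ (K + 5)) / (8 * (2 * x) ^ 2))) ≤ Real.exp (-(x ^ K)) := by
  refine Real.exp_le_exp.2 (neg_le_neg ?_)
  have hx0 : 0 < x := by linarith
  rw [le_div_iff₀ (by positivity)]
  have h1 : y ^ 2 ≤ x ^ 2 := pow_le_pow_left₀ hy.le hxy 2
  have h2 : (32 : ℝ) ≤ 2 ^ (K + 5) := by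
    calc (32 : ℝ) = 2 ^ 5 := by norm_num
      _ ≤ 2 ^ (K + 5) := pow_le_pow_right₀ (by norm_num) (by omega)
  have h4 : y ^ 2 * (x ^ K * (8 * (2 * x) ^ 2)) ≤ 8 * (2 * x) ^ (K + 5) := by
    calc y ^ 2 * (x ^ K * (8 * (2 * x) ^ 2)) ≤ x ^ 2 * (x ^ K * (8 * (2 * x) ^ 2)) :=
          mul_le_mul_of_nonneg_right h1 (by positivity)
      _ = 32 * x ^ (K + 4) := by ring
      _ ≤ 2 ^ (K + 5) * x ^ (K + 5) := mul_le_mul h2 (pow_le_pow_right₀ hx (by omega)) (by positivity) (by positivity)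
      _ ≤ 8 * (2 ^ (K + 5) * x ^ (K + 5)) := by
          have : (0 : ℝ) ≤ 2 ^ (K + 5) * x ^ (K + 5) := by positivity
          linarith
      _ = 8 * (2 * x) ^ (K + 5) := by rw [mul_pow]
  have e : (1 / y) ^ 2 * (8 * (2 * x) ^ (K + 5)) = (8 * (2 * x) ^ (K + 5)) / y ^ 2 := by
    rw [div_pow, one_pow]
    ring
  rw [e, le_div_iff₀ (by positivity), mul_comm]
  exact h4

/-- the number of net points against the probability of one -/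
private theorem num_count30 {x P t : ℝ} (hx : 2 ≤ x) (hP : 3 + |P| ≤ x) (ht0 : 0 ≤ t) (ht : t ≤ x) (Q j : ℕ) :
    ((Real.exp (x ^ (Q + 1)) + 1) * Real.exp (P * (x ^ (Q + 1)) ^ j)) *
      (2 * Real.exp (-(x ^ ((Q + 1) * (j + 1) + 5)))) ≤ Real.exp (-t) := by
  obtain ⟨N, hN⟩ : ∃ N, N = x ^ (Q + 1) := ⟨_, rfl⟩
  have hx1 : 1 ≤ x := by linarith
  have hN1 : 1 ≤ N := by rw [hN]; exact one_le_pow₀ hx1
  have e1 : x ^ ((Q + 1) * (j + 1) + 5) = N ^ j * N * x ^ 5 := by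
    rw [hN]
    ring
  rw [e1, ← hN]
  have he1 : 1 ≤ Real.exp N := Real.one_le_exp (by linarith)
  have h4 : (4 : ℝ) ≤ Real.exp 2 := by
    have h1 : (2 : ℝ) ≤ Real.exp 1 := by
      have := Real.add_one_le_exp (1 : ℝ)
      linarith
    have h2 : Real.exp 2 = Real.exp 1 * Real.exp 1 := by rw [← Real.exp_add]; norm_num
    rw [h2]
    nlinarith
  have h5 : ((Real.exp N + 1) * Real.exp (P * N ^ j)) * (2 * Real.exp (-(N ^ j * N * x ^ 5))) ≤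
      ((2 * Real.exp N) * Real.exp (P * N ^ j)) * (2 * Real.exp (-(N ^ j * N * x ^ 5))) := by
    gcongr
    linarith
  refine h5.trans ?_
  have h6 : ((2 * Real.exp N) * Real.exp (P * N ^ j)) * (2 * Real.exp (-(N ^ j * N * x ^ 5))) =
      4 * Real.exp (N + P * N ^ j + -(N ^ j * N * x ^ 5)) := by
    rw [Real.exp_add, Real.exp_add]
    ring
  rw [h6]
  refine (mul_le_mul_of_nonneg_right h4 (Real.exp_pos _).le).trans ?_
  rw [← Real.exp_add]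
  refine Real.exp_le_exp.2 ?_
  obtain ⟨Z, hZ⟩ : ∃ Z, Z = N ^ j := ⟨_, rfl⟩
  have hZ1 : 1 ≤ Z := by rw [hZ]; exact one_le_pow₀ hN1
  rw [← hZ]
  have hZN : 1 ≤ Z * N := one_le_mul_of_one_le_of_one_le hZ1 hN1
  have g1 : N ≤ Z * N := le_mul_of_one_le_left (by linarith) hZ1
  have g2 : P * Z ≤ |P| * (Z * N) :=
    (mul_le_mul_of_nonneg_right (le_abs_self P) (by linarith)).trans
      (mul_le_mul_of_nonneg_left (le_mul_of_one_le_right (by linarith) hN1) (abs_nonneg _))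
  have g3 : t ≤ t * (Z * N) := le_mul_of_one_le_right ht0 hZN
  have g4 : 3 + |P| + t ≤ x ^ 5 := by
    calc 3 + |P| + t ≤ x + x := by linarith
      _ = 2 * x := by ring
      _ ≤ x * x := mul_le_mul_of_nonneg_right hx (by linarith)
      _ = x ^ 2 := by ring
      _ ≤ x ^ 5 := pow_le_pow_right₀ hx1 (by norm_num)
  have g5 : (3 + |P| + t) * (Z * N) ≤ x ^ 5 * (Z * N) := mul_le_mul_of_nonneg_right g4 (by linarith)
  nlinarith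

/-- the large times -/
private theorem large30 (K : ℕ) (c₁ c₂ : ℝ) : ∃ i₀ : ℕ, ∀ i ≥ i₀, K * (i + 1) < 2 ^ i ∧ c₁ ≤ (2 : ℝ) ^ i ∧ c₂ ≤ (2 : ℝ) ^ i := by
  have h1 : Tendsto (fun i : ℕ => (2 : ℝ) ^ i) atTop atTop := tendsto_pow_atTop_atTop_of_one_lt (by norm_num)
  have h2 := tendsto_pow_const_mul_const_pow_of_abs_lt_one 1 (r := (1 / 2 : ℝ)) (by rw [abs_of_pos] <;> norm_num)
  have h3 : ∀ᶠ i : ℕ in atTop, (i : ℝ) ^ 1 * (1 / 2 : ℝ) ^ i < 1 / (2 * K + 1) :=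
    h2.eventually (gt_mem_nhds (by positivity))
  have h4 := (h3.and ((eventually_ge_atTop 1).and ((h1.eventually_ge_atTop c₁).and (h1.eventually_ge_atTop c₂))))
  obtain ⟨i₀, hi₀⟩ := eventually_atTop.1 h4
  refine ⟨i₀, fun i hi => ?_⟩
  obtain ⟨g1, g2, g3, g4⟩ := hi₀ i hi
  refine ⟨?_, g3, g4⟩
  have h5 : (0 : ℝ) < 2 ^ i := by positivity
  have g2' : (1 : ℝ) ≤ i := by exact_mod_cast g2
  rw [pow_one, div_pow, one_pow, mul_one_div, div_lt_div_iff₀ h5 (by positivity), one_mul] at g1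
  have h6 : ((K * (i + 1) : ℕ) : ℝ) < ((2 ^ i : ℕ) : ℝ) := by
    push_cast
    have hK : (0 : ℝ) ≤ K := Nat.cast_nonneg K
    nlinarith
  exact_mod_cast h6

theorem event {χ : ℝ → ℝ} {k : ℕ → ℝ} {a R κ₀ κ₁ : ℝ} {𝒢 : Set Kk} (hB : Box χ k a R κ₀ κ₁ 𝒢) :
    ∃ (C : ℝ) (i₀ : ℕ), ∀ i ≥ i₀, PP {ω | ∃ (κ : ℝ) (g : Kk), κ₀ ≤ κ ∧ κ ≤ κ₁ ∧ g ∈ 𝒢 ∧
      (C * ((i : ℝ) + 1) ^ 3 < ff (dt R χ k a κ g) ω (2 ^ i) ∨
        2 * (2 : ℝ) ^ (-(i : ℝ)) + 3 / ((i : ℝ) + 1) < gr (dt R χ k a κ g) ω i)} ≤ ENNReal.ofReal (Real.exp (-(i : ℝ))) := by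
  classical
  rcases lt_or_ge κ₁ κ₀ with hlt | hle
  · refine ⟨0, 0, fun i _ => ?_⟩
    refine le_trans (le_of_eq ?_) zero_le
    have : {ω | ∃ (κ : ℝ) (g : Kk), κ₀ ≤ κ ∧ κ ≤ κ₁ ∧ g ∈ 𝒢 ∧
      (0 * ((i : ℝ) + 1) ^ 3 < ff (dt R χ k a κ g) ω (2 ^ i) ∨
        2 * (2 : ℝ) ^ (-(i : ℝ)) + 3 / ((i : ℝ) + 1) < gr (dt R χ k a κ g) ω i)} = ∅ := by
      rw [Set.eq_empty_iff_forall_notMem]
      rintro ω ⟨κ, g, h1, h2, -⟩
      linarith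
    rw [this, measure_empty]
  obtain ⟨Q, i₁, hsm⟩ := small hB
  obtain ⟨P, j, hE⟩ := hB.ent
  obtain ⟨K', hK'⟩ : ∃ K', K' = (Q + 1) * (j + 1) + 5 := ⟨_, rfl⟩
  obtain ⟨C₀, hC₀, hmean⟩ := mean_ff (A := |a|) hB.κ0 hB.hk hB.low (K' + 5)
  obtain ⟨i₂, hgrow⟩ := growL (A := |a|) hB.κ0 hB.hk hB.hs hB.low (K' + 5)
  obtain ⟨i₃, hi₃⟩ := large30 (K' + 5) (18432 * Real.log |a| ^ 2) (5 + |P|)
  refine ⟨C₀ + 3, i₁ + i₂ + i₃ + 1, fun i hi => ?_⟩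
  obtain ⟨q1, q2, q3⟩ := hi₃ i (by omega)
  have hL : 0 < Real.log |a| := Real.log_pos (by linarith [hB.ha])
  have hP0 := abs_nonneg P
  have hx2 : (2 : ℝ) ≤ 2 ^ i := by linarith
  have hx1 : (1 : ℝ) ≤ 2 ^ i := by linarith
  have hi0 : (0 : ℝ) ≤ i := Nat.cast_nonneg i
  have hi1 : (0 : ℝ) < (i : ℝ) + 1 := by linarith
  have hix : (i : ℝ) + 1 ≤ 2 ^ i := by
    have h1 : i + 1 ≤ 2 ^ i := Nat.lt_two_pow_self
    exact_mod_cast h1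
  obtain ⟨N, hN⟩ : ∃ N : ℕ, N = (2 ^ i) ^ (Q + 1) := ⟨_, rfl⟩
  obtain ⟨lo, hlo⟩ : ∃ lo : ℕ, lo = (K' + 5) * (i + 1) := ⟨_, rfl⟩
  have hNr : (N : ℝ) = ((2 : ℝ) ^ i) ^ (Q + 1) := by rw [hN]; push_cast; rfl
  have hN1 : 1 ≤ N := by rw [hN]; exact Nat.one_le_pow _ _ (by positivity)
  have hlN : lo < N := by
    rw [hlo, hN]
    refine q1.trans_le (le_self_pow₀ ?_ (by omega))
    exact Nat.one_le_two_pow
  have hNl : (NN lo : ℝ) = 8 * (2 * (2 : ℝ) ^ i) ^ (K' + 5) := by rw [hlo]; exact num_lo30 _ _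
  -- the net
  have he : 0 < Real.exp (-(N : ℝ)) := Real.exp_pos _
  obtain ⟨S₂, h21, h22, h23⟩ := Pool.Agent.Helper72.AP.grid hle he
  obtain ⟨S₃, h31, h32, h33⟩ := hE N hN1
  have hc2 : (S₂.card : ℝ) ≤ Real.exp N + 1 := by
    have h1 : (κ₁ - κ₀) / Real.exp (-(N : ℝ)) ≤ Real.exp N := by
      rw [Real.exp_neg, div_inv_eq_mul]
      have h2 : κ₁ - κ₀ ≤ 1 := by linarith [hB.κ0, hB.κ1]
      calc (κ₁ - κ₀) * Real.exp N ≤ 1 * Real.exp N := mul_le_mul_of_nonneg_right h2 (Real.exp_pos _).le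
        _ = Real.exp N := one_mul _
    linarith
  have hcard : (((S₂ ×ˢ S₃).card : ℕ) : ℝ) ≤ (Real.exp N + 1) * Real.exp (P * (N : ℝ) ^ j) := by
    rw [Finset.card_product]
    push_cast
    exact mul_le_mul hc2 h32 (Nat.cast_nonneg _) (by positivity)
  -- the class
  have hcls : ∀ (κ : ℝ) (g : Kk), κ₀ ≤ κ → κ ≤ κ₁ → g ∈ 𝒢 → Cls k |a| κ₀ (dt R χ k a κ g) := fun κ g h1 h2 h3 =>
    { ok := hB.ok κ g h1 h2 h3
      k := rfl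
      a := rfl
      κ := h1 }
  have hsub : {ω | ∃ (κ : ℝ) (g : Kk), κ₀ ≤ κ ∧ κ ≤ κ₁ ∧ g ∈ 𝒢 ∧
      ((C₀ + 3) * ((i : ℝ) + 1) ^ 3 < ff (dt R χ k a κ g) ω (2 ^ i) ∨
        2 * (2 : ℝ) ^ (-(i : ℝ)) + 3 / ((i : ℝ) + 1) < gr (dt R χ k a κ g) ω i)} ⊆
      ⋃ τ ∈ S₂ ×ˢ S₃, ({ω | C₀ * ((i : ℝ) + 1) ^ 3 + 1 + 1 ≤ ff (dt R χ k a τ.1 τ.2) ω (2 ^ i)} ∪
        {ω | 2 * (2 : ℝ) ^ (-(i : ℝ)) + 1 / ((i : ℝ) + 1) + 1 / ((i : ℝ) + 1) ≤ gr (dt R χ k a τ.1 τ.2) ω i}) := by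
    rintro ω ⟨κ, g, v1, v2, v3, v4⟩
    obtain ⟨κ', k1, k2⟩ := h23 κ ⟨v1, v2⟩
    obtain ⟨g', k3, k4⟩ := h33 g v3
    have k5 := h21 k1
    have k6 := h31 k3
    obtain ⟨s1, s2⟩ := hsm i (by omega) N hN κ κ' g g' ω ω v1 v2 v3 k5.1 k5.2 k6 k2 k4 (fun _ _ _ => rfl)
    simp only [mem_iUnion]
    refine ⟨(κ', g'), Finset.mem_product.2 ⟨k1, k3⟩, ?_⟩
    rcases v4 with v4 | v4
    · left
      show C₀ * ((i : ℝ) + 1) ^ 3 + 1 + 1 ≤ ff (dt R χ k a κ' g') ω (2 ^ i)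
      have h1 := (abs_le.1 s1).2
      have h2 : (1 : ℝ) ≤ ((i : ℝ) + 1) ^ 3 := one_le_pow₀ (by linarith)
      nlinarith
    · right
      show 2 * (2 : ℝ) ^ (-(i : ℝ)) + 1 / ((i : ℝ) + 1) + 1 / ((i : ℝ) + 1) ≤ gr (dt R χ k a κ' g') ω i
      have h1 := (abs_le.1 s2).2
      have h3 : 3 / ((i : ℝ) + 1) = 1 / ((i : ℝ) + 1) + 1 / ((i : ℝ) + 1) + 1 / ((i : ℝ) + 1) := by ring
      linarith
  have hone : ∀ τ ∈ S₂ ×ˢ S₃, PP ({ω | C₀ * ((i : ℝ) + 1) ^ 3 + 1 + 1 ≤ ff (dt R χ k a τ.1 τ.2) ω (2 ^ i)} ∪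
        {ω | 2 * (2 : ℝ) ^ (-(i : ℝ)) + 1 / ((i : ℝ) + 1) + 1 / ((i : ℝ) + 1) ≤ gr (dt R χ k a τ.1 τ.2) ω i}) ≤
      ENNReal.ofReal (2 * Real.exp (-(((2 : ℝ) ^ i) ^ K'))) := by
    rintro ⟨κ, g⟩ hτ
    obtain ⟨t1, t2⟩ := Finset.mem_product.1 hτ
    have k5 := h21 t1
    have k6 := h31 t2
    have hC := hcls κ g k5.1 k5.2 k6
    have hd : (dt R χ k a κ g).Ok := hC.ok
    have hz : ∀ ω ω' : Om, (∀ i : Ix, i.1 < N → i.2.1 < NN i.1 → ω i = ω' i) →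
        |ff (dt R χ k a κ g) ω (2 ^ i) - ff (dt R χ k a κ g) ω' (2 ^ i)| ≤ 1 ∧
        |gr (dt R χ k a κ g) ω i - gr (dt R χ k a κ g) ω' i| ≤ 1 / ((i : ℝ) + 1) := fun ω ω' h =>
      hsm i (by omega) N hN κ κ g g ω ω' k5.1 k5.2 k6 k5.1 k5.2 k6 (by rw [sub_self, abs_zero]; exact he.le)
        (fun x => by simp only [sub_self, abs_zero]; exact ⟨he.le, he.le⟩) h
    obtain ⟨B, hBd⟩ := ff_bd hd (2 ^ i)
    have p1 := conc (f := fun ω => ff (dt R χ k a κ g) ω (2 ^ i)) (meas_ff hd _) hBd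
      (c := 48 * ((2 : ℝ) ^ i) ^ 2 * Real.log |a|) (by positivity)
      (fun ω l c b u => by
        have h1 := ff_upd hd ω l c b u (m := 2 ^ i) Nat.one_le_two_pow
        push_cast at h1
        exact h1) hlN (E := 1) (M := C₀ * ((i : ℝ) + 1) ^ 3) (t := 1) zero_le_one
      (fun ω ω' h => (hz ω ω' h).1) (fun ω => hmean _ hC i lo (by omega) hlo.le ω)
    have p2 := conc (f := fun ω => gr (dt R χ k a κ g) ω i) (meas_gr hd _) (K := 1)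
      (fun ω => by
        have h1 := gr_bd hd ω i
        rw [abs_of_nonneg h1.1]
        exact h1.2)
      (c := 2 * (2 : ℝ) ^ i) (by positivity)
      (fun ω l c b u => gr_upd hd ω l c b u i) hlN (E := 1 / ((i : ℝ) + 1)) (M := 2 * (2 : ℝ) ^ (-(i : ℝ)))
      (t := 1 / ((i : ℝ) + 1)) (by positivity)
      (fun ω ω' h => (hz ω ω' h).2) (fun ω => by
        show ∫ η, gr (dt R χ k a κ g) (mx lo ω η) i ∂PP ≤ _
        rw [int_gr hd]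
        exact hgrow _ hC (Lc lo ω) inferInstance i lo (by omega) hlo.le (fr_Lc lo ω))
    rw [hNl] at p1 p2
    have e2 : ENNReal.ofReal (2 * Real.exp (-(((2 : ℝ) ^ i) ^ K'))) = ENNReal.ofReal (Real.exp (-(((2 : ℝ) ^ i) ^ K'))) +
        ENNReal.ofReal (Real.exp (-(((2 : ℝ) ^ i) ^ K'))) := by
      rw [two_mul, ENNReal.ofReal_add (Real.exp_pos _).le (Real.exp_pos _).le]
    rw [e2]
    refine (measure_union_le _ _).trans ?_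
    exact add_le_add (p1.trans (ENNReal.ofReal_le_ofReal (num_ff30 hx1 hL q2 K')))
      (p2.trans (ENNReal.ofReal_le_ofReal (num_gr30 hx1 hi1 hix K')))
  refine (measure_mono hsub).trans ((measure_biUnion_finset_le _ _).trans ((Finset.sum_le_sum hone).trans ?_))
  rw [Finset.sum_const, nsmul_eq_mul, ← ENNReal.ofReal_natCast, ← ENNReal.ofReal_mul (Nat.cast_nonneg _)]
  refine ENNReal.ofReal_le_ofReal ?_
  refine le_trans (mul_le_mul_of_nonneg_right hcard (by positivity)) ?_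
  rw [hNr, hK']
  exact num_count30 hx2 (by linarith) hi0 (by linarith) Q j

end Pool.Agent.Helper18.HA
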