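import Pool.Agent.Helper18.HA.Cls

/-! Block HA-GEV: the entropy of Gevrey balls is polynomial.

Elementary proof (no Fourier analysis): let `n` be the precision `exp (-n)`. Take `h = 1/M`, grid points `j h` (`j < M`), the jets `G^(i) (j h)` for `i < D`, rounded to multiples of `exp (-c n)`. If two functions of the ball have the same rounded jets then Taylor's formula at the nearest grid point (to the left) gives
`|(G-F)' x| + |(G-F)'' x| ≤ e^D-type factor * exp (-c n) + 2 R^(D+1) (D!)^s h^(D-2) / (D-2)!`. With `D = C n` and `M` a multiple of `R (D)^s` this is at most `exp (-n)`. The number of rounded jets is at most `(2 R^(D+1) (D!)^s exp (c n) + 2)^(M D) ≤ exp (Q n^j)`. One representative for every non-empty class (the centres must be in the set).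
By periodicity only `x ∈ [0, 1]` matters. -/

set_option autoImplicit false
open MeasureTheory Real Set Filter Topology
open scoped ENNReal

namespace Pool.Agent.Helper18.HA

open Pool.Agent.Helper72.AP (Kk Ent2)

/-- one-periodic functions of Gevrey class `s` with the constant `R` -/
structure Gev (s R : ℝ) (G : ℝ → ℝ) : Prop where
  smooth : ContDiff ℝ (⊤ : ℕ∞) G
  per : ∀ x, G (x + 1) = G x
  bd : ∀ (n : ℕ) (x : ℝ), |iteratedDeriv n G x| ≤ R ^ (n + 1) * (n.factorial : ℝ) ^ s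

/-! ### Taylor -/

private theorem sm_deriv {f : ℝ → ℝ} (hf : ContDiff ℝ (⊤ : ℕ∞) f) : ContDiff ℝ (⊤ : ℕ∞) (deriv f) := by
  exact (contDiff_infty_iff_deriv.1 hf).2

private theorem sm_diff {f : ℝ → ℝ} (hf : ContDiff ℝ (⊤ : ℕ∞) f) : Differentiable ℝ f :=
  (contDiff_infty_iff_deriv.1 hf).1

/-- Taylor's formula for two functions with close jets -/
private theorem tay {ε B h x0 : ℝ} (hε : 0 ≤ ε) (hB : 0 ≤ B) (h0 : 0 ≤ h) (h1 : h ≤ 1 / 2) (m : ℕ) :
    ∀ f g : ℝ → ℝ, ContDiff ℝ (⊤ : ℕ∞) f → ContDiff ℝ (⊤ : ℕ∞) g →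
      (∀ i < m, |iteratedDeriv i f x0 - iteratedDeriv i g x0| ≤ ε) →
      (∀ y, |iteratedDeriv m f y - iteratedDeriv m g y| ≤ B) →
      ∀ t, 0 ≤ t → t ≤ h → |f (x0 + t) - g (x0 + t)| ≤ 2 * ε + B * h ^ m := by
  induction m with
  | zero =>
    intro f g _ _ _ hb t _ _
    have := hb (x0 + t)
    simp only [iteratedDeriv_zero] at this
    simp only [pow_zero, mul_one]
    linarith
  | succ m ih =>
    intro f g hf hg hj hb t ht0 ht
    have hder : ∀ u, 0 ≤ u → u ≤ h → |deriv f (x0 + u) - deriv g (x0 + u)| ≤ 2 * ε + B * h ^ m := by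
      refine ih (deriv f) (deriv g) (sm_deriv hf) (sm_deriv hg) (fun i hi => ?_) (fun y => ?_)
      · rw [← iteratedDeriv_succ', ← iteratedDeriv_succ']
        exact hj (i + 1) (by omega)
      · rw [← iteratedDeriv_succ', ← iteratedDeriv_succ']
        exact hb y
    have h00 : |f x0 - g x0| ≤ ε := by
      have := hj 0 (by omega)
      simpa only [iteratedDeriv_zero] using this
    have hmv : ‖(f - g) (x0 + t) - (f - g) x0‖ ≤ (2 * ε + B * h ^ m) * ‖(x0 + t) - x0‖ := by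
      refine (convex_Icc x0 (x0 + h)).norm_image_sub_le_of_norm_deriv_le (f := f - g) (fun y _ => ?_) (fun y hy => ?_) ?_ ?_
      · exact (sm_diff hf y).sub (sm_diff hg y)
      · have hd : deriv (f - g) y = deriv f y - deriv g y := deriv_sub (sm_diff hf y) (sm_diff hg y)
        rw [hd, Real.norm_eq_abs]
        have := hder (y - x0) (by linarith [hy.1]) (by linarith [hy.2])
        rwa [add_sub_cancel] at this
      · exact ⟨le_refl _, by linarith⟩
      · exact ⟨by linarith, by linarith⟩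
    have h2 : ‖(x0 + t) - x0‖ ≤ h := by
      rw [add_sub_cancel_left, Real.norm_eq_abs, abs_of_nonneg ht0]; exact ht
    have hC : 0 ≤ 2 * ε + B * h ^ m := by positivity
    have h3 : |(f (x0 + t) - g (x0 + t)) - (f x0 - g x0)| ≤ (2 * ε + B * h ^ m) * h := by
      refine le_trans ?_ (mul_le_mul_of_nonneg_left h2 hC)
      simpa only [Pi.sub_apply, Real.norm_eq_abs] using hmv
    have h4 : |f (x0 + t) - g (x0 + t)| ≤ |(f (x0 + t) - g (x0 + t)) - (f x0 - g x0)| + |f x0 - g x0| := by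
      have := abs_add_le ((f (x0 + t) - g (x0 + t)) - (f x0 - g x0)) (f x0 - g x0)
      rwa [sub_add_cancel] at this
    have h5 : (2 * ε + B * h ^ m) * h ≤ ε + B * h ^ (m + 1) := by
      have : 2 * ε * h ≤ ε := by nlinarith
      calc (2 * ε + B * h ^ m) * h = 2 * ε * h + B * h ^ (m + 1) := by ring
        _ ≤ _ := by linarith
    linarith

/-! ### representatives -/

private theorem reps {α β : Type*} [Fintype β] (A : Set α) (c : α → β) :
    ∃ S : Finset α, (↑S : Set α) ⊆ A ∧ S.card ≤ Fintype.card β ∧ ∀ a ∈ A, ∃ b ∈ S, c a = c b := by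
  classical
  obtain ⟨s, hs, hb⟩ := Set.exists_subset_bijOn A c
  have hfin : s.Finite := by
    have : (c '' A).Finite := Set.toFinite _
    exact hb.finite_iff_finite.2 this
  refine ⟨hfin.toFinset, by simpa using hs, ?_, fun a ha => ?_⟩
  · refine Finset.card_le_card_of_injOn c (t := Finset.univ) (fun x _ => Finset.mem_univ _) ?_ |>.trans_eq Finset.card_univ
    intro x hx y hy hxy
    exact hb.injOn (by simpa using hx) (by simpa using hy) hxy
  · obtain ⟨b, hbs, hbc⟩ := hb.surjOn ⟨a, ha, rfl⟩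
    exact ⟨b, by simpa using hbs, hbc.symm⟩

/-! ### periodicity -/

private theorem per_deriv {f : ℝ → ℝ} (hf : ∀ x, f (x + 1) = f x) : ∀ x, deriv f (x + 1) = deriv f x := by
  intro x
  have h : (fun y => f (y + 1)) = f := funext hf
  have h2 := deriv_comp_add_const f 1 x
  rw [← h2, h]

private theorem per_fract {f : ℝ → ℝ} (hf : ∀ x, f (x + 1) = f x) (x : ℝ) : f (Int.fract x) = f x := by
  have h : Function.Periodic f 1 := hf
  have := h.sub_int_mul_eq (x := x) ⌊x⌋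
  rw [mul_one] at this
  exact this

/-! ### the numbers -/

private theorem fact_le (m : ℕ) : (m.factorial : ℝ) ≤ Real.exp ((m : ℝ) ^ 2) := by
  have h1 : (m.factorial : ℝ) ≤ (m : ℝ) ^ m := by exact_mod_cast Nat.factorial_le_pow m
  have h2 : (m : ℝ) ≤ Real.exp m := by linarith [Real.add_one_le_exp (m : ℝ)]
  calc (m.factorial : ℝ) ≤ (m : ℝ) ^ m := h1
    _ ≤ (Real.exp m) ^ m := pow_le_pow_left₀ (by positivity) h2 m
    _ = Real.exp ((m : ℝ) ^ 2) := by rw [← Real.exp_nat_mul]; congr 1; ring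

/-- the class with natural constants -/
private theorem nat_bd {s R : ℝ} (hR : 1 ≤ R) {ρ σ : ℕ} (hρ : R ≤ ρ) (hσ : s ≤ σ) {G : ℝ → ℝ} (hG : Gev s R G)
    (i : ℕ) (x : ℝ) : |iteratedDeriv i G x| ≤ ((ρ ^ (i + 1) * (i.factorial) ^ σ : ℕ) : ℝ) := by
  refine (hG.bd i x).trans ?_
  push_cast
  have h1 : (1 : ℝ) ≤ (i.factorial : ℝ) := by exact_mod_cast Nat.one_le_iff_ne_zero.2 (Nat.factorial_ne_zero i)
  have h2 : (i.factorial : ℝ) ^ s ≤ (i.factorial : ℝ) ^ (σ : ℝ) := Real.rpow_le_rpow_of_exponent_le h1 hσ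
  rw [Real.rpow_natCast] at h2
  have h3 : R ^ (i + 1) ≤ (ρ : ℝ) ^ (i + 1) := pow_le_pow_left₀ (by linarith) hρ _
  exact mul_le_mul h3 h2 (by positivity) (by positivity)

/-- the precision of the Taylor polynomial -/
private theorem prec (n ρ σ : ℕ) (hρ : 1 ≤ ρ) :
    4 * 3 ^ n * (ρ ^ (n + 3 + 3) * (n + 3 + 2).factorial ^ σ) ≤ (12 * ρ ^ 2 * (n + 3 + 2) ^ (2 * σ)) ^ (n + 3) := by
  have h1 : 4 * 3 ^ n ≤ 12 ^ (n + 3) := by
    calc 4 * 3 ^ n ≤ 4 ^ (n + 3) * 3 ^ (n + 3) := by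
          refine Nat.mul_le_mul ?_ ?_
          · calc 4 = 4 ^ 1 := rfl
              _ ≤ 4 ^ (n + 3) := Nat.pow_le_pow_right (by norm_num) (by omega)
          · exact Nat.pow_le_pow_right (by norm_num) (by omega)
      _ = 12 ^ (n + 3) := by rw [← Nat.mul_pow]
  have h2 : ρ ^ (n + 3 + 3) ≤ (ρ ^ 2) ^ (n + 3) := by
    rw [← pow_mul]; exact Nat.pow_le_pow_right hρ (by omega)
  have h3 : (n + 3 + 2).factorial ^ σ ≤ ((n + 3 + 2) ^ (2 * σ)) ^ (n + 3) := by
    calc (n + 3 + 2).factorial ^ σ ≤ ((n + 3 + 2) ^ (n + 3 + 2)) ^ σ := Nat.pow_le_pow_left (Nat.factorial_le_pow _) _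
      _ = (n + 3 + 2) ^ ((n + 3 + 2) * σ) := by rw [← pow_mul]
      _ ≤ (n + 3 + 2) ^ (2 * σ * (n + 3)) := Nat.pow_le_pow_right (by omega) (by nlinarith [Nat.zero_le (σ * n), Nat.zero_le σ])
      _ = ((n + 3 + 2) ^ (2 * σ)) ^ (n + 3) := by rw [← pow_mul]
  calc 4 * 3 ^ n * (ρ ^ (n + 3 + 3) * (n + 3 + 2).factorial ^ σ)
      ≤ 12 ^ (n + 3) * ((ρ ^ 2) ^ (n + 3) * ((n + 3 + 2) ^ (2 * σ)) ^ (n + 3)) := Nat.mul_le_mul h1 (Nat.mul_le_mul h2 h3)
    _ = _ := by rw [mul_pow, mul_pow]; ring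

/-- the number of codes -/
private theorem codes (n ρ σ : ℕ) (hn : 1 ≤ n) (hρ : 1 ≤ ρ) :
    (((2 * (ρ ^ (n + 3 + 3) * (n + 3 + 2).factorial ^ σ) * (4 * 3 ^ n) + 2) ^ ((n + 3 + 2) * (12 * ρ ^ 2 * (n + 3 + 2) ^ (2 * σ))) : ℕ) : ℝ)
      ≤ Real.exp ((12 * (ρ : ℝ) ^ 2 * (5 + ρ + σ) * 7 ^ (2 * σ + 3)) * (n : ℝ) ^ (2 * σ + 3)) := by
  set B0 : ℕ := ρ ^ (n + 3 + 3) * (n + 3 + 2).factorial ^ σ with hB0
  have hB1 : 1 ≤ B0 := by
    rw [hB0]; exact Nat.one_le_iff_ne_zero.2 (Nat.mul_ne_zero (pow_ne_zero _ (by omega)) (pow_ne_zero _ (Nat.factorial_ne_zero _)))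
  have hρ1 : (1 : ℝ) ≤ ρ := by exact_mod_cast hρ
  have hn1 : (1 : ℝ) ≤ n := by exact_mod_cast hn
  set N : ℝ := (n : ℝ) + 6 with hN
  have hB0r : (B0 : ℝ) ≤ Real.exp ((ρ : ℝ) * N + σ * N ^ 2) := by
    rw [hB0]; push_cast
    rw [Real.exp_add]
    refine mul_le_mul ?_ ?_ (by positivity) (by positivity)
    · have h1 : (ρ : ℝ) ≤ Real.exp ρ := by linarith [Real.add_one_le_exp (ρ : ℝ)]
      calc (ρ : ℝ) ^ (n + 3 + 3) ≤ (Real.exp ρ) ^ (n + 3 + 3) := pow_le_pow_left₀ (by positivity) h1 _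
        _ = Real.exp ((ρ : ℝ) * N) := by rw [← Real.exp_nat_mul]; congr 1; rw [hN]; push_cast; ring
    · calc ((n + 3 + 2).factorial : ℝ) ^ σ ≤ (Real.exp (((n + 3 + 2 : ℕ) : ℝ) ^ 2)) ^ σ := pow_le_pow_left₀ (by positivity) (fact_le _) _
        _ = Real.exp (σ * ((n + 3 + 2 : ℕ) : ℝ) ^ 2) := by rw [← Real.exp_nat_mul]
        _ ≤ Real.exp (σ * N ^ 2) := by
          refine Real.exp_le_exp.2 (mul_le_mul_of_nonneg_left ?_ (by positivity))
          refine pow_le_pow_left₀ (by positivity) ?_ 2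
          rw [hN]; push_cast; linarith
  have hL : ((2 * B0 * (4 * 3 ^ n) + 2 : ℕ) : ℝ) ≤ Real.exp ((5 + ρ + σ) * N ^ 2) := by
    have h1 : (2 * B0 * (4 * 3 ^ n) + 2 : ℕ) ≤ 16 * (3 ^ n * B0) := by
      have : 1 ≤ 3 ^ n * B0 := Nat.one_le_iff_ne_zero.2 (Nat.mul_ne_zero (pow_ne_zero _ (by norm_num)) (by omega))
      nlinarith
    have h2 : ((2 * B0 * (4 * 3 ^ n) + 2 : ℕ) : ℝ) ≤ 16 * ((3 : ℝ) ^ n * B0) := by exact_mod_cast h1
    have h3 : (16 : ℝ) ≤ Real.exp 3 := by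
      have := Real.exp_one_gt_d9
      have h : Real.exp 3 = (Real.exp 1) ^ 3 := by rw [← Real.exp_nat_mul]; norm_num
      rw [h]
      calc (16 : ℝ) ≤ 2.7 ^ 3 := by norm_num
        _ ≤ _ := pow_le_pow_left₀ (by norm_num) (by linarith) 3
    have h4 : (3 : ℝ) ^ n ≤ Real.exp (2 * n) := by
      have : (3 : ℝ) ≤ Real.exp 2 := by linarith [Real.add_one_le_exp (2 : ℝ)]
      calc (3 : ℝ) ^ n ≤ (Real.exp 2) ^ n := pow_le_pow_left₀ (by norm_num) this n
        _ = _ := by rw [← Real.exp_nat_mul]; congr 1; ring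
    calc ((2 * B0 * (4 * 3 ^ n) + 2 : ℕ) : ℝ) ≤ 16 * ((3 : ℝ) ^ n * B0) := h2
      _ ≤ Real.exp 3 * (Real.exp (2 * n) * Real.exp ((ρ : ℝ) * N + σ * N ^ 2)) := by
        refine mul_le_mul h3 (mul_le_mul h4 hB0r (by positivity) (by positivity)) (by positivity) (by positivity)
      _ = Real.exp (3 + (2 * n + ((ρ : ℝ) * N + σ * N ^ 2))) := by rw [← Real.exp_add, ← Real.exp_add]
      _ ≤ _ := by
        refine Real.exp_le_exp.2 ?_
        have hN1 : 1 ≤ N := by rw [hN]; linarith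
        have hNN : N ≤ N ^ 2 := by nlinarith
        have h1 : 1 ≤ N ^ 2 := by nlinarith
        have h2 : (n : ℝ) ≤ N ^ 2 := by linarith
        have h3 : (ρ : ℝ) * N ≤ ρ * N ^ 2 := mul_le_mul_of_nonneg_left hNN (by positivity)
        nlinarith
  push_cast at hL ⊢
  calc (2 * (B0 : ℝ) * (4 * 3 ^ n) + 2) ^ ((n + 3 + 2) * (12 * ρ ^ 2 * (n + 3 + 2) ^ (2 * σ)))
      ≤ (Real.exp ((5 + ρ + σ) * N ^ 2)) ^ ((n + 3 + 2) * (12 * ρ ^ 2 * (n + 3 + 2) ^ (2 * σ))) := pow_le_pow_left₀ (by positivity) hL _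
    _ = Real.exp ((((n + 3 + 2) * (12 * ρ ^ 2 * (n + 3 + 2) ^ (2 * σ)) : ℕ) : ℝ) * ((5 + ρ + σ) * N ^ 2)) := by rw [← Real.exp_nat_mul]
    _ ≤ _ := by
      refine Real.exp_le_exp.2 ?_
      have h1 : (((n + 3 + 2) * (12 * ρ ^ 2 * (n + 3 + 2) ^ (2 * σ)) : ℕ) : ℝ) ≤ N * (12 * (ρ : ℝ) ^ 2 * N ^ (2 * σ)) := by
        push_cast
        have ha : (n : ℝ) + 3 + 2 ≤ N := by rw [hN]; linarith
        refine mul_le_mul ha (mul_le_mul_of_nonneg_left (pow_le_pow_left₀ (by positivity) ha _) (by positivity)) (by positivity) (by positivity)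
      have h2 : N ≤ 7 * n := by rw [hN]; linarith
      have hN0 : 0 ≤ N := by positivity
      calc (((n + 3 + 2) * (12 * ρ ^ 2 * (n + 3 + 2) ^ (2 * σ)) : ℕ) : ℝ) * ((5 + ρ + σ) * N ^ 2)
          ≤ (N * (12 * (ρ : ℝ) ^ 2 * N ^ (2 * σ))) * ((5 + ρ + σ) * N ^ 2) := mul_le_mul_of_nonneg_right h1 (by positivity)
        _ = (12 * (ρ : ℝ) ^ 2 * (5 + ρ + σ)) * N ^ (2 * σ + 3) := by ring
        _ ≤ (12 * (ρ : ℝ) ^ 2 * (5 + ρ + σ)) * (7 * n) ^ (2 * σ + 3) := mul_le_mul_of_nonneg_left (pow_le_pow_left₀ hN0 h2 _) (by positivity)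
        _ = _ := by rw [mul_pow]; ring

/-- rounded jets -/
private noncomputable def code (m M B K : ℕ) (G : ℝ → ℝ) : Fin (m + 2) × Fin M → Fin (2 * B * K + 2) := fun p =>
  ⟨min (Int.toNat (⌊iteratedDeriv p.1 G ((p.2 : ℕ) / (M : ℝ)) * K⌋ + ((B * K : ℕ) : ℤ))) (2 * B * K + 1), by omega⟩

private theorem code_eq {m M B K : ℕ} (hK : 1 ≤ K) {G F : ℝ → ℝ} (hG : ∀ i ≤ m + 1, ∀ x, |iteratedDeriv i G x| ≤ B)
    (hF : ∀ i ≤ m + 1, ∀ x, |iteratedDeriv i F x| ≤ B) (h : code m M B K G = code m M B K F) {i j : ℕ} (hi : i ≤ m + 1) (hj : j < M) :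
    |iteratedDeriv i G (j / (M : ℝ)) - iteratedDeriv i F (j / (M : ℝ))| ≤ 1 / (K : ℝ) := by
  have hK0 : (0 : ℝ) < K := by exact_mod_cast hK
  have key : ∀ H : ℝ → ℝ, (∀ i ≤ m + 1, ∀ x, |iteratedDeriv i H x| ≤ B) →
      (((code m M B K H (⟨i, by omega⟩, ⟨j, hj⟩) : Fin _) : ℕ) : ℤ) = ⌊iteratedDeriv i H (j / (M : ℝ)) * K⌋ + ((B * K : ℕ) : ℤ) := by
    intro H hH
    have hb := abs_le.1 (hH i hi (j / (M : ℝ)))
    have h1 : iteratedDeriv i H (j / (M : ℝ)) * K ≤ ((B * K : ℕ) : ℤ) := by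
      push_cast; exact mul_le_mul_of_nonneg_right hb.2 hK0.le
    have h2 : (((-(B * K : ℕ) : ℤ)) : ℝ) ≤ iteratedDeriv i H (j / (M : ℝ)) * K := by
      push_cast
      have := mul_le_mul_of_nonneg_right hb.1 hK0.le
      linarith
    have h3 : ⌊iteratedDeriv i H (j / (M : ℝ)) * K⌋ ≤ ((B * K : ℕ) : ℤ) := by
      have := Int.floor_le (iteratedDeriv i H (j / (M : ℝ)) * K)
      exact_mod_cast this.trans h1
    have h4 : (-(B * K : ℕ) : ℤ) ≤ ⌊iteratedDeriv i H (j / (M : ℝ)) * K⌋ := Int.le_floor.2 h2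
    have h5 : Int.toNat (⌊iteratedDeriv i H (j / (M : ℝ)) * K⌋ + ((B * K : ℕ) : ℤ)) ≤ 2 * B * K + 1 := by
      rw [Int.toNat_le]
      push_cast at h3 ⊢
      nlinarith
    simp only [code]
    rw [min_eq_left h5]
    rw [Int.toNat_of_nonneg (by push_cast at h4 ⊢; linarith)]
  have e1 := key G hG
  have e2 := key F hF
  rw [h] at e1
  have e3 : ⌊iteratedDeriv i G (j / (M : ℝ)) * K⌋ = ⌊iteratedDeriv i F (j / (M : ℝ)) * K⌋ := by
    have := e1.symm.trans e2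
    linarith
  have e4 := Int.abs_sub_lt_one_of_floor_eq_floor e3
  rw [← sub_mul, abs_mul, abs_of_pos hK0] at e4
  rw [le_div_iff₀ hK0]
  exact e4.le

theorem gev_ent {s R : ℝ} (hs : 1 ≤ s) (hR : 1 ≤ R) :
    ∃ (Q : ℝ) (j : ℕ), Ent2 Q j ((fun G : ℝ → ℝ => ((deriv G, deriv (deriv G)) : Kk)) '' {G | Gev s R G}) := by
  classical
  set ρ : ℕ := ⌈R⌉₊ with hρdef
  set σ : ℕ := ⌈s⌉₊ with hσdef
  have hρR : R ≤ ρ := Nat.le_ceil R
  have hσs : s ≤ σ := Nat.le_ceil s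
  have hρ : 1 ≤ ρ := by
    have : (1 : ℝ) ≤ ρ := hR.trans hρR
    exact_mod_cast this
  refine ⟨12 * (ρ : ℝ) ^ 2 * (5 + ρ + σ) * 7 ^ (2 * σ + 3), 2 * σ + 3, fun n hn => ?_⟩
  set m : ℕ := n + 3 with hm
  set M : ℕ := 12 * ρ ^ 2 * (m + 2) ^ (2 * σ) with hM
  set B : ℕ := ρ ^ (m + 3) * (m + 2).factorial ^ σ with hB
  set K : ℕ := 4 * 3 ^ n with hK
  have hM2 : 2 ≤ M := by
    have h1 : 1 ≤ ρ ^ 2 := Nat.one_le_pow _ _ hρ
    have h2 : 1 ≤ (m + 2) ^ (2 * σ) := Nat.one_le_pow _ _ (by omega)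
    rw [hM]; nlinarith
  have hM0 : (0 : ℝ) < M := by exact_mod_cast (by omega : 0 < M)
  have hK1 : 1 ≤ K := by
    have : 1 ≤ 3 ^ n := Nat.one_le_pow _ _ (by norm_num)
    rw [hK]; omega
  have hK0 : (0 : ℝ) < K := by exact_mod_cast hK1
  have hbd : ∀ G : ℝ → ℝ, Gev s R G → ∀ i ≤ m + 2, ∀ x, |iteratedDeriv i G x| ≤ B := by
    intro G hG i hi x
    refine (nat_bd hR hρR hσs hG i x).trans ?_
    rw [hB]
    exact_mod_cast Nat.mul_le_mul (Nat.pow_le_pow_right hρ (by omega)) (Nat.pow_le_pow_left (Nat.factorial_le hi) _)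
  obtain ⟨S, hSA, hSc, hS⟩ := reps {G | Gev s R G} (code m M B K)
  refine ⟨S.image (fun G : ℝ → ℝ => ((deriv G, deriv (deriv G)) : Kk)), ?_, ?_, ?_⟩
  · rw [Finset.coe_image]; exact Set.image_mono hSA
  · have h1 : (S.image (fun G : ℝ → ℝ => ((deriv G, deriv (deriv G)) : Kk))).card ≤ (2 * B * K + 2) ^ ((m + 2) * M) := by
      refine Finset.card_image_le.trans (hSc.trans_eq ?_)
      simp [Fintype.card_pi, Fintype.card_prod]
    refine le_trans (Nat.cast_le.2 h1) ?_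
    exact codes n ρ σ hn hρ
  · rintro _ ⟨G, hG, rfl⟩
    obtain ⟨F, hFS, hc⟩ := hS G hG
    have hG : Gev s R G := hG
    have hF : Gev s R F := hSA hFS
    refine ⟨_, Finset.mem_image_of_mem _ hFS, fun x => ?_⟩
    have hcl : ∀ i ≤ m + 1, ∀ j < M, |iteratedDeriv i G (j / (M : ℝ)) - iteratedDeriv i F (j / (M : ℝ))| ≤ 1 / (K : ℝ) :=
      fun i hi j hj => code_eq hK1 (fun i hi x => hbd G hG i (by omega) x) (fun i hi x => hbd F hF i (by omega) x) hc hi hj
    -- reduction to the period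
    set y : ℝ := Int.fract x with hy
    have hy0 : 0 ≤ y := Int.fract_nonneg x
    have hy1 : y < 1 := Int.fract_lt_one x
    set j : ℕ := ⌊y * M⌋₊ with hj
    have hjM : j < M := by
      rw [hj, Nat.floor_lt (by positivity)]
      nlinarith
    have hj1 : (j : ℝ) ≤ y * M := Nat.floor_le (by positivity)
    have hj2 : y * M < j + 1 := Nat.lt_floor_add_one _
    have ht0 : 0 ≤ y - j / (M : ℝ) := by rw [sub_nonneg, div_le_iff₀ hM0]; exact hj1
    have ht1 : y - j / (M : ℝ) ≤ 1 / (M : ℝ) := by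
      rw [sub_le_iff_le_add, ← add_div, le_div_iff₀ hM0]; linarith
    have hh : 1 / (M : ℝ) ≤ 1 / 2 := by
      refine one_div_le_one_div_of_le (by norm_num) ?_
      exact_mod_cast hM2
    have hsum : 2 * (1 / (K : ℝ)) + (2 * (B : ℝ)) * (1 / (M : ℝ)) ^ m ≤ Real.exp (-n) := by
      have hp := prec n ρ σ hρ
      have hp' : (4 : ℝ) * 3 ^ n * B ≤ (M : ℝ) ^ m := by exact_mod_cast hp
      have he : Real.exp n ≤ 3 ^ n := by
        have : Real.exp 1 ≤ 3 := by linarith [Real.exp_one_lt_d9]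
        calc Real.exp n = (Real.exp 1) ^ n := by rw [← Real.exp_nat_mul]; simp
          _ ≤ 3 ^ n := pow_le_pow_left₀ (by positivity) this n
      have h1 : 2 * (1 / (K : ℝ)) ≤ Real.exp (-n) / 2 := by
        rw [Real.exp_neg, hK]; push_cast
        rw [show 2 * (1 / ((4 : ℝ) * 3 ^ n)) = (3 ^ n)⁻¹ / 2 by field_simp; ring]
        have := inv_anti₀ (Real.exp_pos n) he
        linarith
      have h2 : (2 * (B : ℝ)) * (1 / (M : ℝ)) ^ m ≤ Real.exp (-n) / 2 := by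
        rw [one_div, inv_pow, Real.exp_neg, ← div_eq_mul_inv, div_le_iff₀ (by positivity)]
        have h3 : (B : ℝ) * (4 * Real.exp n) ≤ (M : ℝ) ^ m := by
          refine le_trans ?_ hp'
          nlinarith [mul_le_mul_of_nonneg_left he (Nat.cast_nonneg (α := ℝ) B)]
        have h4 : (Real.exp n)⁻¹ / 2 * ((B : ℝ) * (4 * Real.exp n)) ≤ (Real.exp n)⁻¹ / 2 * (M : ℝ) ^ m :=
          mul_le_mul_of_nonneg_left h3 (by positivity)
        have h5 : (Real.exp n)⁻¹ / 2 * ((B : ℝ) * (4 * Real.exp n)) = 2 * B := by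
          have := (Real.exp_pos n).ne'
          field_simp
          ring
        linarith
      linarith
    have hres1 := tay (ε := 1 / (K : ℝ)) (B := 2 * (B : ℝ)) (h := 1 / (M : ℝ)) (x0 := j / (M : ℝ)) (by positivity) (by positivity)
      (by positivity) hh m (deriv G) (deriv F) (sm_deriv hG.smooth) (sm_deriv hF.smooth)
      (fun i hi => by
        rw [← iteratedDeriv_succ', ← iteratedDeriv_succ']; exact hcl (i + 1) (by omega) j hjM)
      (fun y => by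
        rw [← iteratedDeriv_succ', ← iteratedDeriv_succ']
        have a1 := hbd G hG (m + 1) (by omega) y
        have a2 := hbd F hF (m + 1) (by omega) y
        have a3 := abs_sub (iteratedDeriv (m + 1) G y) (iteratedDeriv (m + 1) F y)
        linarith) (y - j / (M : ℝ)) ht0 ht1
    have hres2 := tay (ε := 1 / (K : ℝ)) (B := 2 * (B : ℝ)) (h := 1 / (M : ℝ)) (x0 := j / (M : ℝ)) (by positivity) (by positivity)
      (by positivity) hh m (deriv (deriv G)) (deriv (deriv F)) (sm_deriv (sm_deriv hG.smooth)) (sm_deriv (sm_deriv hF.smooth))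
      (fun i hi => by
        rw [← iteratedDeriv_succ', ← iteratedDeriv_succ', ← iteratedDeriv_succ', ← iteratedDeriv_succ']
        exact hcl (i + 1 + 1) (by omega) j hjM)
      (fun y => by
        rw [← iteratedDeriv_succ', ← iteratedDeriv_succ', ← iteratedDeriv_succ', ← iteratedDeriv_succ']
        have a1 := hbd G hG (m + 1 + 1) (by omega) y
        have a2 := hbd F hF (m + 1 + 1) (by omega) y
        have a3 := abs_sub (iteratedDeriv (m + 1 + 1) G y) (iteratedDeriv (m + 1 + 1) F y)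
        linarith) (y - j / (M : ℝ)) ht0 ht1
    rw [add_sub_cancel] at hres1 hres2
    have p1 := per_deriv hG.per
    have p2 := per_deriv hF.per
    have q1 := per_deriv p1
    have q2 := per_deriv p2
    rw [hy, per_fract p1, per_fract p2] at hres1
    rw [hy, per_fract q1, per_fract q2] at hres2
    exact ⟨hres1.trans hsum, hres2.trans hsum⟩

end Pool.Agent.Helper18.HA
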