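import Pool.Agent.Helper18.HY.PDefs

/-!
# Hyperbolicity on the whole torus for all parameters (MP_9ee088_an): definitions for the final statement
-/

set_option autoImplicit false
open MeasureTheory Real Set Filter Topology
open scoped ENNReal

namespace Pool.Agent.Helper18.HA

/-- `G` is one-periodic of a Gevrey class: smooth with `|G^(n)| ≤ R^(n+1) (n!)^s` for some `R, s`
(for `s = 1` this means real analytic). -/
structure Gevrey (G : ℝ → ℝ) : Prop where
  smooth : ContDiff ℝ (⊤ : ℕ∞) G
  per : ∀ x, G (x + 1) = G x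
  bd : ∃ R s : ℝ, ∀ (n : ℕ) (x : ℝ), |iteratedDeriv n G x| ≤ R ^ (n + 1) * (n.factorial : ℝ) ^ s

/-- The ball of radius `C` of the Banach space `B_γ` of one-periodic functions `V` of class `C^2` whose second
derivative has a modulus of continuity `O(exp (-(log (1 / t))^γ))`. -/
structure InB (γ C : ℝ) (V : ℝ → ℝ) : Prop where
  smooth : ContDiff ℝ 2 V
  per : ∀ x, V (x + 1) = V x
  b0 : ∀ x, |V x| ≤ C
  b1 : ∀ x, |deriv V x| ≤ C
  b2 : ∀ x, |deriv (deriv V) x| ≤ C
  md : ∀ x y, 0 < |x - y| → |x - y| < 1 →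
    |deriv (deriv V) x - deriv (deriv V) y| ≤ C * Real.exp (-(Real.log (1 / |x - y|)) ^ γ)

end Pool.Agent.Helper18.HA
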