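import Pool.Agent.Helper18.HA.Main
import Pool.Agent.Helper18.HA.Gev
import Pool.Agent.Helper18.HA.PDefs
import Pool.Agent.Helper18.HY.Fin

/-! Project HA: the final theorem. -/

set_option autoImplicit false
open MeasureTheory Real Set Filter Topology
open scoped ENNReal

namespace Pool.Agent.Helper18.HA

open Pool.Agent.Helper18.HY
open Pool.Agent.Helper72.AP (Rs mx Lc Kk Ent2)
open Pool.Agent.Helper18.UC (T2 rep toT nn)
open Pool.Agent.Helper18.FD (NN rr pr cl uu lm Bump k1 k2 NN_pos NN_ge ae_plane)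
open Pool.Agent.Helper95.PV (Ix Om PP lv rp tc inn out cel upd mv mu Pt rv)
open Pool.Agent.Helper95.PF (law loc law_eq Cube ae_cube der1 der2 per_deriv)

/-! ### Gevrey functions -/

section gev

variable {s R : ℝ} {G : ℝ → ℝ}

theorem Gev.b1 (h : Gev s R G) (x : ℝ) : |deriv G x| ≤ R ^ 2 := by
  have := h.bd 1 x
  rw [iteratedDeriv_one] at this
  simpa using this

theorem Gev.b2 (h : Gev s R G) (x : ℝ) : |deriv (deriv G) x| ≤ R ^ 3 * 2 ^ s := by
  have := h.bd 2 x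
  rw [iteratedDeriv_succ, iteratedDeriv_one] at this
  simpa using this

theorem Gev.cd (h : Gev s R G) (n : ℕ) : ContDiff ℝ n G := h.smooth.of_le (by exact_mod_cast le_top)

theorem Gev.c1 (h : Gev s R G) : ContDiff ℝ 2 (deriv G) := by
  have h2 : ContDiff ℝ (2 + 1) G := by
    have := h.cd 3
    rw [show (2 : WithTop ℕ∞) + 1 = 3 by norm_num]
    exact_mod_cast this
  exact ((contDiff_succ_iff_deriv (n := 2)).1 h2).2.2

theorem Gev.c2 (h : Gev s R G) : ContDiff ℝ 1 (deriv (deriv G)) := by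
  have h2 : ContDiff ℝ (1 + 1) (deriv G) := by
    rw [show (1 : WithTop ℕ∞) + 1 = 2 by norm_num]
    exact h.c1
  exact ((contDiff_succ_iff_deriv (n := 1)).1 h2).2.2

theorem Gev.R0 (h : Gev s R G) : 0 ≤ R := by
  have := (abs_nonneg _).trans (h.bd 0 0)
  simpa using this

theorem Gev.lip (h : Gev s R G) (x y : ℝ) : |deriv (deriv G) x - deriv (deriv G) y| ≤ R ^ 4 * 6 ^ s * |x - y| := by
  have hb : ∀ x, |deriv (deriv (deriv G)) x| ≤ R ^ 4 * 6 ^ s := by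
    intro x
    have := h.bd 3 x
    rw [iteratedDeriv_succ, iteratedDeriv_succ, iteratedDeriv_one] at this
    have e : ((Nat.factorial 3 : ℕ) : ℝ) = 6 := by norm_num [Nat.factorial]
    rw [e] at this
    exact this
  have hder : ∀ x, HasDerivAt (deriv (deriv G)) (deriv (deriv (deriv G)) x) x := fun x =>
    ((contDiff_one_iff_deriv.1 h.c2).1 x).hasDerivAt
  have h2 := Convex.norm_image_sub_le_of_norm_hasDerivWithin_le (f := deriv (deriv G))
      (f' := deriv (deriv (deriv G))) (s := univ) (x := y) (y := x) (C := R ^ 4 * 6 ^ s)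
      (fun x _ => (hder x).hasDerivWithinAt) (fun x _ => hb x) convex_univ (mem_univ _) (mem_univ _)
  exact h2

theorem Gev.mono {s' R' : ℝ} (h : Gev s R G) (hR : R ≤ R') (hs : s ≤ s') : Gev s' R' G := by
  refine ⟨h.smooth, h.per, fun n x => (h.bd n x).trans ?_⟩
  have h0 := h.R0
  have h1 : (1 : ℝ) ≤ n.factorial := by exact_mod_cast Nat.one_le_iff_ne_zero.2 (Nat.factorial_ne_zero n)
  exact mul_le_mul (pow_le_pow_left₀ h0 hR _) (Real.rpow_le_rpow_of_exponent_le h1 hs)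
    (by positivity) (pow_nonneg (h0.trans hR) _)

theorem Gev.smul (h : Gev s R G) {c : ℝ} (hc : |c| ≤ 1) : Gev s R (fun x => c * G x) := by
  refine ⟨contDiff_const.mul h.smooth, fun x => by
    show c * G (x + 1) = c * G x
    rw [h.per], fun n x => ?_⟩
  have e : iteratedDeriv n (fun x => c * G x) x = c * iteratedDeriv n G x := by
    have h1 : ContDiffAt ℝ n G x := (h.cd n).contDiffAt
    exact iteratedDeriv_const_mul_field c G
  rw [e, abs_mul]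
  have h2 := h.bd n x
  calc |c| * |iteratedDeriv n G x| ≤ 1 * |iteratedDeriv n G x| := mul_le_mul_of_nonneg_right hc (abs_nonneg _)
    _ ≤ _ := by rw [one_mul]; exact h2

theorem Gevrey.gev (h : Gevrey G) : ∃ m : ℕ, ∀ n : ℕ, m ≤ n → Gev (n : ℝ) (n : ℝ) G := by
  obtain ⟨R, s, hb⟩ := h.bd
  obtain ⟨m, hm⟩ : ∃ m : ℕ, max R s ≤ m := exists_nat_ge _
  refine ⟨m, fun n hn => ?_⟩
  have h1 : Gev s R G := ⟨h.smooth, h.per, hb⟩
  have hn' : (m : ℝ) ≤ n := by exact_mod_cast hn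
  exact h1.mono (((le_max_left _ _).trans hm).trans hn') (((le_max_right _ _).trans hm).trans hn')

end gev

/-! ### amplitudes -/

theorem up_sum {k : ℕ → ℝ} (hk : ∀ l, 0 ≤ k l)
    (h : ∃ γ : ℝ, 0 < γ ∧ ∀ᶠ l : ℕ in atTop, k l ≤ Real.exp (-(l : ℝ) ^ γ)) : Summable k := by
  obtain ⟨γ, hγ, h⟩ := h
  have h1 : ∀ᶠ l : ℕ in atTop, (l : ℝ) ^ 2 ≤ Real.exp ((l : ℝ) ^ γ) := by
    obtain ⟨n, hn⟩ : ∃ n : ℕ, 2 / γ ≤ n := exists_nat_ge _
    rw [div_le_iff₀ hγ] at hn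
    have h2 : Tendsto (fun x : ℝ => x ^ n * Real.exp (-x)) atTop (𝓝 0) :=
      Real.tendsto_pow_mul_exp_neg_atTop_nhds_zero n
    have h3 : Tendsto (fun l : ℕ => (l : ℝ) ^ γ) atTop atTop := (tendsto_rpow_atTop hγ).comp tendsto_natCast_atTop_atTop
    filter_upwards [(h2.comp h3).eventually (ge_mem_nhds one_pos), eventually_ge_atTop 1] with l h4 h5
    have h5' : (1 : ℝ) ≤ l := by exact_mod_cast h5
    have h6 : ((l : ℝ) ^ γ) ^ n ≤ Real.exp ((l : ℝ) ^ γ) := by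
      have := h4
      simp only [Function.comp] at this
      rwa [Real.exp_neg, ← div_eq_mul_inv, div_le_one (Real.exp_pos _)] at this
    refine le_trans ?_ h6
    rw [← Real.rpow_natCast, ← Real.rpow_natCast, ← Real.rpow_mul (by linarith)]
    refine Real.rpow_le_rpow_of_exponent_le h5' ?_
    push_cast
    linarith
  have h2 : Summable fun l : ℕ => 1 / (l : ℝ) ^ 2 := Real.summable_one_div_nat_pow.2 (by norm_num)
  obtain ⟨l₀, hl₀⟩ := eventually_atTop.1 (h.and (h1.and (eventually_ge_atTop 1)))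
  refine (summable_nat_add_iff l₀).1 ?_
  refine Summable.of_nonneg_of_le (fun l => hk _) (fun l => ?_) ((summable_nat_add_iff l₀).2 h2)
  obtain ⟨g1, g2, g3⟩ := hl₀ (l + l₀) (by omega)
  refine g1.trans ?_
  have h3 : (0 : ℝ) < ((l + l₀ : ℕ) : ℝ) ^ 2 := by
    have : (1 : ℝ) ≤ ((l + l₀ : ℕ) : ℝ) := by exact_mod_cast g3
    positivity
  rw [Real.exp_neg, ← one_div]
  exact one_div_le_one_div_of_le h3 g2

theorem up_mul {k : ℕ → ℝ} (t : ℝ)
    (h : ∃ γ : ℝ, 0 < γ ∧ ∀ᶠ l : ℕ in atTop, k l ≤ Real.exp (-(l : ℝ) ^ γ)) (ht : 0 < t) :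
    ∃ γ : ℝ, 0 < γ ∧ ∀ᶠ l : ℕ in atTop, t * k l ≤ Real.exp (-(l : ℝ) ^ γ) := by
  obtain ⟨γ, hγ, h⟩ := h
  refine ⟨γ / 2, by positivity, ?_⟩
  have h3 : Tendsto (fun l : ℕ => (l : ℝ) ^ (γ / 2)) atTop atTop :=
    (tendsto_rpow_atTop (by positivity)).comp tendsto_natCast_atTop_atTop
  filter_upwards [h, h3.eventually (eventually_ge_atTop (1 + |Real.log t|)), eventually_ge_atTop 1] with l h1 h2 h4
  have h4' : (1 : ℝ) ≤ l := by exact_mod_cast h4
  have e : (l : ℝ) ^ γ = (l : ℝ) ^ (γ / 2) * (l : ℝ) ^ (γ / 2) := by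
    rw [← Real.rpow_add (by linarith)]
    congr 1
    ring
  have h5 := le_abs_self (Real.log t)
  have h6 := abs_nonneg (Real.log t)
  calc t * k l ≤ t * Real.exp (-(l : ℝ) ^ γ) := mul_le_mul_of_nonneg_left h1 ht.le
    _ = Real.exp (Real.log t - (l : ℝ) ^ γ) := by rw [sub_eq_add_neg, Real.exp_add, Real.exp_log ht]
    _ ≤ Real.exp (-(l : ℝ) ^ (γ / 2)) := by
        refine Real.exp_le_exp.2 ?_
        rw [e]
        nlinarith

/-- the dilation factor -/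
theorem dil {k : ℕ → ℝ} (hk : ∀ l, 0 < k l) (hl : LowK k) : ∃ t : ℝ, 1 ≤ t ∧ ∀ l, 1 / (NN l : ℝ) ≤ t * k l := by
  obtain ⟨l₀, hl₀⟩ := eventually_atTop.1 (hl 1 one_pos)
  have hnn : ∀ l, 0 ≤ 1 / ((NN l : ℝ) * k l) := fun l => by
    have := NN_pos l
    have := hk l
    positivity
  have hsum : 0 ≤ ∑ l ∈ Finset.range l₀, 1 / ((NN l : ℝ) * k l) := Finset.sum_nonneg fun l _ => hnn l
  refine ⟨1 + ∑ l ∈ Finset.range l₀, 1 / ((NN l : ℝ) * k l), by linarith, fun l => ?_⟩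
  have hkl := hk l
  have hNl := NN_pos l
  by_cases h : l < l₀
  · have h1 := Finset.single_le_sum (f := fun l => 1 / ((NN l : ℝ) * k l)) (fun i _ => hnn i)
      (Finset.mem_range.2 h)
    have h2 : 1 / (NN l : ℝ) = 1 / ((NN l : ℝ) * k l) * k l := by field_simp
    rw [h2]
    refine mul_le_mul_of_nonneg_right ?_ hkl.le
    have h3 : 1 / ((NN l : ℝ) * k l) ≤ ∑ l ∈ Finset.range l₀, 1 / ((NN l : ℝ) * k l) := h1
    linarith
  · have h1 := (inv_NN_le l).trans (hl₀ l (not_lt.1 h))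
    have h2 : k l ≤ (1 + ∑ l ∈ Finset.range l₀, 1 / ((NN l : ℝ) * k l)) * k l := by nlinarith
    exact h1.trans h2

/-! ### the box -/

/-- balanced sets of potentials with common bounds, modulus of continuity, polynomial entropy -/
structure Bal (𝒮 : Set (ℝ → ℝ)) : Prop where
  cd : ∀ G ∈ 𝒮, ContDiff ℝ 2 G
  per : ∀ G ∈ 𝒮, ∀ x, G (x + 1) = G x
  bd : ∃ M : ℝ, 0 ≤ M ∧ ∀ G ∈ 𝒮, ∀ x, |deriv G x| ≤ M ∧ |deriv (deriv G) x| ≤ M
  md : ∃ L γ : ℝ, 0 ≤ L ∧ 0 < γ ∧ ∀ G ∈ 𝒮, ∀ (x y : ℝ) (n : ℕ),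
    |deriv (deriv G) x - deriv (deriv G) y| ≤ L * ((NN n : ℝ) * |x - y| + Real.exp (-(n : ℝ) ^ γ))
  ent : ∃ (Q : ℝ) (j : ℕ), Ent2 Q j ((fun G : ℝ → ℝ => ((deriv G, deriv (deriv G)) : Kk)) '' 𝒮)
  sm : ∀ G ∈ 𝒮, ∀ c : ℝ, |c| ≤ 1 → (fun x => c * G x) ∈ 𝒮

/-- the set of backgrounds -/
def Gs (𝒮 : Set (ℝ → ℝ)) : Set Kk := (fun G : ℝ → ℝ => ((deriv G, deriv (deriv G)) : Kk)) '' 𝒮

theorem cd_der {G : ℝ → ℝ} (hG : ContDiff ℝ 2 G) : Continuous (deriv G) ∧ Continuous (deriv (deriv G)) := by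
  have h2 : ContDiff ℝ (1 + 1) G := by
    rw [show (1 : WithTop ℕ∞) + 1 = 2 by norm_num]
    exact hG
  have h1 : ContDiff ℝ 1 (deriv G) := ((contDiff_succ_iff_deriv (n := 1)).1 h2).2.2
  exact ⟨h1.continuous, (contDiff_one_iff_deriv.1 h1).2⟩

theorem box {χ : ℝ → ℝ} (hχ : Bump χ) {k : ℕ → ℝ} (hk : ∀ l, 0 < k l) (hl : LowK k)
    (hu : ∃ γ : ℝ, 0 < γ ∧ ∀ᶠ l : ℕ in atTop, k l ≤ Real.exp (-(l : ℝ) ^ γ)) {t : ℝ} (ht1 : 1 ≤ t)
    (ht : ∀ l, 1 / (NN l : ℝ) ≤ t * k l) {𝒮 : Set (ℝ → ℝ)} (hS : Bal 𝒮) {m : ℝ} (hm : 1 ≤ m) :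
    ∃ A R : ℝ, 0 < A ∧ m ≤ A ∧ ∀ a : ℝ, |a| = A →
      Box χ (fun l => t * k l) a R (1 / (m * (A * t))) (m ^ 2 / (A * t)) (Gs 𝒮) := by
  have hk' : ∀ l, 0 ≤ k l := fun l => (hk l).le
  have hs := up_sum hk' hu
  have ht0 : 0 < t := by linarith
  have hm0 : 0 < m := by linarith
  obtain ⟨C, hC, hh⟩ := h_ok hχ hk' hs
  obtain ⟨M, hM0, hM⟩ := hS.bd
  obtain ⟨K, hK⟩ : ∃ K, K = ∑' l, k l := ⟨_, rfl⟩
  have hKl : ∀ l, k l ≤ K := fun l => by rw [hK]; exact hs.le_tsum l fun i _ => hk' i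
  have hK0 : 0 < K := lt_of_lt_of_le (hk 0) (hKl 0)
  have hC0 : 0 < C := by linarith
  have htC : 0 < t * C := by positivity
  obtain ⟨R, hR⟩ : ∃ R, R = 1 + M + t * C := ⟨_, rfl⟩
  have hR1 : 1 ≤ R := by rw [hR]; linarith
  obtain ⟨A, hA⟩ : ∃ A, A = 100 + R + m + m ^ 2 * (1 + K) := ⟨_, rfl⟩
  have m2 : (0 : ℝ) ≤ m ^ 2 := by positivity
  have m2K : (0 : ℝ) ≤ m ^ 2 * K := by positivity
  have hA' : A = 100 + R + m + m ^ 2 + m ^ 2 * K := by rw [hA]; ring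
  have hA100 : 100 ≤ A := by linarith
  have hA0 : 0 < A := by linarith
  have hRA : R ≤ A := by linarith
  have hmA : m ≤ A := by linarith
  have hm2A : m ^ 2 ≤ A := by linarith
  have hm2K : m ^ 2 * K ≤ A := by linarith
  have hAt : 0 < A * t := by positivity
  have hAt1 : m ^ 2 ≤ A * t := by nlinarith
  have hκ1 : m ^ 2 / (A * t) ≤ 1 := by rw [div_le_one hAt]; exact hAt1
  refine ⟨A, R, hA0, hmA, fun a ha => ?_⟩
  have hlow : LowK fun l => t * k l := by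
    intro δ hδ
    filter_upwards [hl δ hδ] with l h
    have := hk l
    have : k l ≤ t * k l := by nlinarith
    exact h.trans this
  refine ⟨by positivity, hκ1, hχ, ht, hs.mul_left t, hlow, up_mul t hu ht0, by rw [ha]; exact hA100, hR1, ?_, ?_, ?_⟩
  · rintro κ g v1 v2 ⟨G, hG, rfl⟩
    have hκ0 : 0 < κ := lt_of_lt_of_le (by positivity) v1
    have hκ' : κ ≤ 1 := v2.trans hκ1
    have hb : ∀ (x y M : ℝ), |x| ≤ M → |y| ≤ C → |x + κ * (t * y)| ≤ M + t * C := by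
      intro x y M hx hy
      refine (abs_add_le _ _).trans (add_le_add hx ?_)
      rw [abs_mul, abs_mul, abs_of_pos hκ0, abs_of_pos ht0]
      have h1 : t * |y| ≤ t * C := mul_le_mul_of_nonneg_left hy ht0.le
      have h2 : 0 ≤ t * |y| := by positivity
      nlinarith
    exact
      { ha := by
          show 100 ≤ |a|
          rw [ha]; exact hA100
        hR := hR1
        hRa := by
          show R ≤ |a|
          rw [ha]; exact hRA
        hκ := hκ0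
        hκ1 := hκ'
        hk := ht
        hk1 := fun l => by
          show κ * (t * k l) ≤ 1
          have h1 : κ * (t * k l) ≤ m ^ 2 / (A * t) * (t * k l) :=
            mul_le_mul_of_nonneg_right v2 (by have := hk l; positivity)
          refine h1.trans ?_
          have h2 : m ^ 2 / (A * t) * (t * k l) = m ^ 2 * k l / A := by field_simp
          rw [h2, div_le_one hA0]
          exact (mul_le_mul_of_nonneg_left (hKl l) m2).trans hm2K
        hs := hs.mul_left t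
        hχ := hχ
        c1 := (cd_der (hS.cd G hG)).1
        c2 := (cd_der (hS.cd G hG)).2
        e1 := per_deriv (hS.per G hG)
        e2 := per_deriv (per_deriv (hS.per G hG))
        der := fun x => der2 (hS.cd G hG) x
        b1 := fun ω x => by
          show |deriv G x + κ * h1 χ (fun l => t * k l) ω x| ≤ R
          rw [h1_smul]
          obtain ⟨-, -, -, -, -, -, -, q1, -⟩ := hh ω
          refine (hb _ _ _ (hM G hG x).1 (q1 x)).trans ?_
          rw [hR]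
          linarith
        b2 := fun ω x => by
          show |deriv (deriv G) x + κ * h2 χ (fun l => t * k l) ω x| ≤ R
          rw [h2_smul]
          obtain ⟨-, -, -, -, -, -, -, -, q2, -⟩ := hh ω
          refine (hb _ _ _ (hM G hG x).2 (q2 x)).trans ?_
          rw [hR]
          linarith }
  · obtain ⟨L, γ, hL, hγ, h⟩ := hS.md
    refine ⟨L, γ, hL, hγ, ?_⟩
    rintro g ⟨G, hG, rfl⟩ x y n
    exact h G hG x y n
  · exact hS.ent

/-! ### the reduction -/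

/-- the scaled datum -/
theorem hyp_of {χ : ℝ → ℝ} (hχ : Bump χ) {k : ℕ → ℝ} (hk : ∀ l, 0 < k l) (hs : Summable k) {ω : Om} (hω : Cube ω)
    {a q : ℝ} {G : ℝ → ℝ} (hG : ContDiff ℝ 2 G) {d : Dat} (hd : d.Ok)
    (hp : ∀ x, d.a * d.p1 ω x = a * (deriv G x + q * h1 χ k ω x))
    {H : T2 → ℝ} (h0 : ∀ᵐ z, 0 < H z)
    (h : ∀ᵐ z, Tendsto (fun n : ℕ => Real.log (nn (Mm d n (ω, z))) / n) atTop (𝓝 (H z))) :
    Hyp a (fun x => G x + q * rough χ k ω x) := by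
  obtain ⟨C, -, hC⟩ := h_ok hχ (fun l => (hk l).le) hs
  obtain ⟨-, -, -, -, -, -, -, -, -, d0, -⟩ := hC ω
  have e1 : (deriv fun x => G x + q * rough χ k ω x) = fun x => deriv G x + q * h1 χ k ω x := by
    rw [rough_eq hω]
    funext x
    exact ((der1 hG x).add ((d0 x).const_mul q)).deriv
  have e2 : (fun r : ℝ × ℝ => (2 * r.1 - r.2 + a * deriv (fun x => G x + q * rough χ k ω x) r.1, r.1)) =
      Fl d ω := by
    funext r
    rw [e1]
    show (2 * r.1 - r.2 + a * (deriv G r.1 + q * h1 χ k ω r.1), r.1) = (2 * r.1 - r.2 + d.a * d.p1 ω r.1, r.1)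
    rw [hp]
  unfold Hyp
  rw [e2]
  have h3 : ∀ᵐ z : T2, 0 < H z ∧ Tendsto (fun n : ℕ => Real.log (nn (Mm d n (ω, z))) / n) atTop (𝓝 (H z)) := h0.and h
  filter_upwards [ae_plane h3] with r hr
  exact ⟨H (toT r), hr.1, lim_fderiv hd hr.2⟩

/-- almost every noise, all potentials of a balanced set, all couplings and parameters in a compact range -/
theorem allOf {χ : ℝ → ℝ} (hB : Bump χ) {k : ℕ → ℝ} (hk : ∀ l, 0 < k l) (hl : LowK k)
    (hu : ∃ γ : ℝ, 0 < γ ∧ ∀ᶠ l : ℕ in atTop, k l ≤ Real.exp (-(l : ℝ) ^ γ))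
    {𝒮 : Set (ℝ → ℝ)} (hS : Bal 𝒮) {M : ℝ} (hM1 : 1 ≤ M) :
    ∀ᵐ ω ∂PP, ∀ (a q : ℝ) (G : ℝ → ℝ), |a| ≤ M → |q| ≤ M → 1 / M ≤ |a * q| → G ∈ 𝒮 →
      Hyp a (fun x => G x + q * rough χ k ω x) := by
  have hk' : ∀ l, 0 ≤ k l := fun l => (hk l).le
  have hs := up_sum hk' hu
  have hM0 : 0 < M := by linarith
  obtain ⟨t, ht1, ht⟩ := dil hk hl
  have ht0 : 0 < t := by linarith
  obtain ⟨B, R, hB0, hMB, hbox⟩ := box hB hk hl hu ht1 ht hS hM1
  have b1 := mainA (hbox (1 * B) (by rw [one_mul]; exact abs_of_pos hB0))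
  have b2 := mainA (hbox ((-1) * B) (by rw [neg_one_mul, abs_neg]; exact abs_of_pos hB0))
  filter_upwards [ae_cube, b1, b2] with ω hω w1 w2
  intro a q G haM hqM haqM hG
  have haq : 0 < |a * q| := lt_of_lt_of_le (by positivity) haqM
  have hq0 : 0 < |q| := by
    rw [abs_mul] at haq
    exact pos_of_mul_pos_right haq (abs_nonneg a)
  have ha0 : 0 < |a| := by
    rw [abs_mul] at haq
    exact pos_of_mul_pos_left haq (abs_nonneg q)
  -- the sign
  have fin : ∀ s : ℝ, |s| = 1 → s * |a * q| = a * q →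
      (∀ (κ : ℝ) (g : Kk), 1 / (M * (B * t)) ≤ κ → κ ≤ M ^ 2 / (B * t) → g ∈ Gs 𝒮 →
        ∃ H : T2 → ℝ, Measurable H ∧ (∀ᵐ z, 0 < H z) ∧ ∀ᵐ z, Tendsto (fun n : ℕ =>
        Real.log (nn (Mm (dt R χ (fun l => t * k l) (s * B) κ g) n (ω, z))) / n) atTop (𝓝 (H z))) →
      Hyp a (fun x => G x + q * rough χ k ω x) := by
    intro s hs1 hs2 hH
    have hs3 : s ≠ 0 := by
      intro h0
      rw [h0, abs_zero] at hs1
      norm_num at hs1
    have hsB : |s * B| = B := by rw [abs_mul, hs1, one_mul, abs_of_pos hB0]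
    have hcle : |a / (s * B)| ≤ 1 := by
      rw [abs_div, hsB, div_le_one hB0]
      exact haM.trans hMB
    have hg := hS.sm G hG _ hcle
    have hcd := hS.cd G hG
    have d1 : deriv (fun x => a / (s * B) * G x) = fun x => a / (s * B) * deriv G x := by
      funext x
      exact ((der1 hcd x).const_mul _).deriv
    have hκ1 : 1 / (M * (B * t)) ≤ |a * q| / (B * t) := by
      rw [← div_div]
      exact div_le_div_of_nonneg_right haqM (by positivity)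
    have hκ2 : |a * q| / (B * t) ≤ M ^ 2 / (B * t) := by
      refine div_le_div_of_nonneg_right ?_ (by positivity)
      rw [abs_mul, sq]
      exact mul_le_mul haM hqM hq0.le hM0.le
    have hmem : ((deriv (fun x => a / (s * B) * G x), deriv (deriv (fun x => a / (s * B) * G x))) : Kk) ∈ Gs 𝒮 :=
      ⟨_, hg, rfl⟩
    obtain ⟨H, -, H1, H2⟩ := hH (|a * q| / (B * t)) _ hκ1 hκ2 hmem
    have hok := (hbox (s * B) hsB).ok (|a * q| / (B * t)) _ hκ1 hκ2 hmem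
    refine hyp_of hB hk hs hω hcd hok ?_ H1 H2
    intro x
    show s * B * (deriv (fun x => a / (s * B) * G x) x + |a * q| / (B * t) * h1 χ (fun l => t * k l) ω x) = _
    rw [d1, h1_smul]
    have e : |a * q| / (B * t) * (t * h1 χ k ω x) = a * q / (s * B) * h1 χ k ω x := by
      have e1 : a * q / (s * B) = |a * q| / B := by
        have e2 : a * q / (s * B) = s * |a * q| / (s * B) := congrArg (fun z => z / (s * B)) hs2.symm
        rw [e2]
        exact mul_div_mul_left _ _ hs3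
      rw [e1]
      field_simp
    rw [e]
    field_simp
  rcases le_total 0 (a * q) with h0 | h0
  · exact fin 1 (by norm_num) (by rw [abs_of_nonneg h0, one_mul]) w1
  · exact fin (-1) (by norm_num) (by rw [abs_of_nonpos h0]; ring) w2

/-- all couplings and parameters -/
theorem allOf' {χ : ℝ → ℝ} (hB : Bump χ) {k : ℕ → ℝ} (hk : ∀ l, 0 < k l) (hl : LowK k)
    (hu : ∃ γ : ℝ, 0 < γ ∧ ∀ᶠ l : ℕ in atTop, k l ≤ Real.exp (-(l : ℝ) ^ γ))
    {𝒮 : ℕ → Set (ℝ → ℝ)} (hS : ∀ m, Bal (𝒮 m)) :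
    ∀ᵐ ω ∂PP, ∀ (a q : ℝ) (G : ℝ → ℝ), a ≠ 0 → q ≠ 0 → (∃ m₀ : ℕ, ∀ m, m₀ ≤ m → G ∈ 𝒮 m) →
      Hyp a (fun x => G x + q * rough χ k ω x) := by
  have hm : ∀ m : ℕ, (1 : ℝ) ≤ (m : ℝ) + 1 := fun m => by
    have : (0 : ℝ) ≤ m := Nat.cast_nonneg m
    linarith
  have key : ∀ m : ℕ, ∀ᵐ ω ∂PP, ∀ (a q : ℝ) (G : ℝ → ℝ), |a| ≤ (m : ℝ) + 1 → |q| ≤ (m : ℝ) + 1 →
      1 / ((m : ℝ) + 1) ≤ |a * q| → G ∈ 𝒮 m → Hyp a (fun x => G x + q * rough χ k ω x) :=
    fun m => allOf hB hk hl hu (hS m) (hm m)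
  rw [← ae_all_iff] at key
  filter_upwards [key] with ω h
  intro a q G ha hq hG
  obtain ⟨m₀, hm₀⟩ := hG
  obtain ⟨m₁, hm₁⟩ : ∃ m₁ : ℕ, max |a| |q| ≤ m₁ := exists_nat_ge _
  have haq : 0 < |a * q| := abs_pos.2 (mul_ne_zero ha hq)
  obtain ⟨m₂, hm₂⟩ : ∃ m₂ : ℕ, 1 / |a * q| ≤ m₂ := exists_nat_ge _
  have c0 : (0 : ℝ) ≤ m₀ := Nat.cast_nonneg _
  have c1 : (0 : ℝ) ≤ m₁ := Nat.cast_nonneg _
  have c2 : (0 : ℝ) ≤ m₂ := Nat.cast_nonneg _
  have hMm : ((m₀ + m₁ + m₂ : ℕ) : ℝ) + 1 = m₀ + m₁ + m₂ + 1 := by push_cast; ring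
  refine h (m₀ + m₁ + m₂) a q G ?_ ?_ ?_ (hm₀ _ (by omega))
  · rw [hMm]
    have := (le_max_left |a| |q|).trans hm₁
    linarith
  · rw [hMm]
    have := (le_max_right |a| |q|).trans hm₁
    linarith
  · rw [hMm]
    have h1 : 1 / |a * q| ≤ (m₀ : ℝ) + m₁ + m₂ + 1 := by linarith
    rw [div_le_iff₀ haq] at h1
    rw [div_le_iff₀ (by linarith)]
    linarith

/-! ### the two classes -/

theorem bal_gev {m : ℝ} (hm : 1 ≤ m) : Bal {G | Gev m m G} := by
  have hm0 : 0 < m := by linarith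
  refine ⟨fun G hG => by exact_mod_cast hG.cd 2, fun G hG => hG.per, ⟨m ^ 2 + m ^ 3 * 2 ^ m, by positivity, fun G hG x => ?_⟩,
    ⟨m ^ 4 * 6 ^ m, 1, by positivity, one_pos, fun G hG x y n => ?_⟩, gev_ent hm hm, fun G hG c hc => Gev.smul hG hc⟩
  · have h1 : 0 ≤ m ^ 2 := by positivity
    have h2 : 0 ≤ m ^ 3 * 2 ^ m := by positivity
    exact ⟨(Gev.b1 hG x).trans (by linarith), (Gev.b2 hG x).trans (by linarith)⟩
  · refine (Gev.lip hG x y).trans (mul_le_mul_of_nonneg_left ?_ (by positivity))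
    have h1 := NN_ge n
    have h2 := abs_nonneg (x - y)
    have h3 := Real.exp_pos (-(n : ℝ) ^ (1 : ℝ))
    nlinarith

end Pool.Agent.Helper18.HA
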