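import Pool.Agent.Helper18.HA.Upd
import Pool.Agent.Helper18.HY.Soft
import Pool.Agent.Helper18.HY.Main

/-! Block HA-FIX: the soft end for a fixed noise.

`soft` (`HY/Soft.lean`) for `X = T2`, `μ = volume`, `T = Tw d ω` (`Tw_mp`), `g n z = if n = 0 then 0 else log (nn (Mm d n (ω, z)))` (as in `HY/Main.lean`; `sk_iter`, `Mm_add`, `nn` is submultiplicative), `e z = g m z + g m (T^m z) - g (2m) z ≥ 0` with `m = 2^i`, `∫ e = ff d ω m`. For the finitely many `i < i₀` increase the constant (`ff_bd`).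
`{z | g (2^i) z < 2^(i/2)} ⊆ {gi d i (ω, z) = 1}`, so the volume is at most `gr d ω i` (Markov). -/

set_option autoImplicit false
open MeasureTheory Real Set Filter Topology
open scoped ENNReal

namespace Pool.Agent.Helper18.HA

open Pool.Agent.Helper18.HY
open Pool.Agent.Helper72.AP (Rs mx Lc Kk Ent2)
open Pool.Agent.Helper18.UC (T2 rep toT nn)
open Pool.Agent.Helper18.FD (NN rr pr cl uu lm Bump k1 k2 NN_pos NN_ge)
open Pool.Agent.Helper95.PV (Ix Om PP lv rp tc inn out cel upd mv mu Pt rv)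

private theorem pos_h4 (d : Dat) (n : ℕ) (p : Pt) : 0 < nn (Mm d n p) := by
  have := Pool.Agent.Helper95.PV.nn_ge_two (det_Mm (d := d) n p)
  linarith

/-- the cocycle for a fixed noise -/
private noncomputable def gg_h4 (d : Dat) (ω : Om) (n : ℕ) (z : T2) : ℝ :=
  if n = 0 then 0 else Real.log (nn (Mm d n (ω, z)))

private theorem gg_zero_h4 (d : Dat) (ω : Om) (z : T2) : gg_h4 d ω 0 z = 0 := by
  simp [gg_h4]

private theorem gg_ne_h4 (d : Dat) (ω : Om) {n : ℕ} (hn : n ≠ 0) (z : T2) :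
    gg_h4 d ω n z = Real.log (nn (Mm d n (ω, z))) := by
  simp [gg_h4, hn]

private theorem gg_meas_h4 {d : Dat} (hd : d.Ok) (ω : Om) (n : ℕ) : Measurable (gg_h4 d ω n) := by
  rcases Nat.eq_zero_or_pos n with hn | hn
  · subst hn
    have : gg_h4 d ω 0 = fun _ => (0 : ℝ) := by
      funext z; exact gg_zero_h4 d ω z
    rw [this]
    exact measurable_const
  · have h0 : gg_h4 d ω n = fun z => Real.log (nn (Mm d n (ω, z))) := by
      funext z; exact gg_ne_h4 d ω hn.ne' z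
    rw [h0]
    have h1 : Measurable fun z : T2 => ((ω, z) : Pt) := measurable_const.prodMk measurable_id
    exact ((meas_nn hd n).comp h1).log

private theorem gg_bd_h4 {d : Dat} (hd : d.Ok) (ω : Om) (n : ℕ) (z : T2) :
    0 ≤ gg_h4 d ω n z ∧ |gg_h4 d ω n z| ≤ (Real.log 2 + 3 * Real.log |d.a|) * n := by
  have hl2 : 0 ≤ Real.log 2 := Real.log_nonneg (by norm_num)
  rcases Nat.eq_zero_or_pos n with hn | hn
  · subst hn
    simp [gg_zero_h4]
  · rw [gg_ne_h4 d ω hn.ne']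
    obtain ⟨h1, h2⟩ := log_nn_bd hd n (ω, z)
    refine ⟨h1, ?_⟩
    rw [abs_of_nonneg h1]
    have h3 : (1 : ℝ) ≤ (n : ℝ) := by exact_mod_cast hn
    have h4 : Real.log 2 * 1 ≤ Real.log 2 * n := mul_le_mul_of_nonneg_left h3 hl2
    linarith

private theorem gg_sub_h4 (d : Dat) (ω : Om) (n m : ℕ) (z : T2) :
    gg_h4 d ω (n + m) z ≤ gg_h4 d ω n z + gg_h4 d ω m ((Tw d ω)^[n] z) := by
  rcases Nat.eq_zero_or_pos n with hn | hn
  · subst hn
    simp [gg_zero_h4]
  · rcases Nat.eq_zero_or_pos m with hm | hm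
    · subst hm
      simp [gg_zero_h4]
    · have h1 : n + m ≠ 0 := by omega
      rw [gg_ne_h4 d ω h1, gg_ne_h4 d ω hn.ne', gg_ne_h4 d ω hm.ne']
      have e1 : Mm d (n + m) (ω, z) = Mm d m (ω, (Tw d ω)^[n] z) * Mm d n (ω, z) := by
        rw [add_comm, Mm_add, sk_iter]
      rw [add_comm (Real.log (nn (Mm d n (ω, z)))),
        ← Real.log_mul (pos_h4 _ _ _).ne' (pos_h4 _ _ _).ne']
      refine Real.log_le_log (pos_h4 _ _ _) ?_
      rw [e1]
      exact Pool.Agent.Helper18.UC.nn_mul _ _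

private theorem gg_int_h4 {d : Dat} (hd : d.Ok) (ω : Om) (n : ℕ) :
    Integrable (gg_h4 d ω n) (volume : Measure T2) := by
  refine Integrable.mono' (integrable_const ((Real.log 2 + 3 * Real.log |d.a|) * n))
    (gg_meas_h4 hd ω n).aestronglyMeasurable (Filter.Eventually.of_forall fun z => ?_)
  rw [Real.norm_eq_abs]
  exact (gg_bd_h4 hd ω n z).2

private theorem un_gg_h4 (d : Dat) (ω : Om) {n : ℕ} (hn : n ≠ 0) :
    ∫ z : T2, gg_h4 d ω n z = un d ω n := by
  unfold un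
  exact integral_congr_ae (Filter.Eventually.of_forall fun z => gg_ne_h4 d ω hn z)

private theorem defect_h4 {d : Dat} (hd : d.Ok) (ω : Om) {m : ℕ} (hm : m ≠ 0) :
    Integrable (fun z => gg_h4 d ω m z + gg_h4 d ω m ((Tw d ω)^[m] z) - gg_h4 d ω (2 * m) z)
      (volume : Measure T2) ∧
    ∫ z : T2, (gg_h4 d ω m z + gg_h4 d ω m ((Tw d ω)^[m] z) - gg_h4 d ω (2 * m) z) = ff d ω m := by
  have hT : MeasurePreserving ((Tw d ω)^[m]) (volume : Measure T2) volume := (Tw_mp hd ω).iterate m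
  have i1 := gg_int_h4 hd ω m
  have i2 : Integrable (fun z => gg_h4 d ω m ((Tw d ω)^[m] z)) (volume : Measure T2) :=
    hT.integrable_comp_of_integrable i1
  have i3 := gg_int_h4 hd ω (2 * m)
  refine ⟨(i1.add i2).sub i3, ?_⟩
  have e1 : ∫ z : T2, gg_h4 d ω m ((Tw d ω)^[m] z) = ∫ z : T2, gg_h4 d ω m z := by
    have h := hT.map_eq
    calc ∫ z : T2, gg_h4 d ω m ((Tw d ω)^[m] z)
        = ∫ y : T2, gg_h4 d ω m y ∂(Measure.map ((Tw d ω)^[m]) volume) :=
          (integral_map hT.measurable.aemeasurable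
            (gg_meas_h4 hd ω m).aestronglyMeasurable).symm
      _ = ∫ z : T2, gg_h4 d ω m z := by rw [h]
  have h2m : 2 * m ≠ 0 := by omega
  have s1 : ∫ z : T2, (gg_h4 d ω m z + gg_h4 d ω m ((Tw d ω)^[m] z) - gg_h4 d ω (2 * m) z) =
      (∫ z : T2, (gg_h4 d ω m z + gg_h4 d ω m ((Tw d ω)^[m] z))) - ∫ z : T2, gg_h4 d ω (2 * m) z :=
    integral_sub (i1.add i2) i3
  have s2 : ∫ z : T2, (gg_h4 d ω m z + gg_h4 d ω m ((Tw d ω)^[m] z)) =
      (∫ z : T2, gg_h4 d ω m z) + ∫ z : T2, gg_h4 d ω m ((Tw d ω)^[m] z) :=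
    integral_add i1 i2
  rw [s1, s2, e1, un_gg_h4 d ω hm, un_gg_h4 d ω h2m]
  unfold ff
  ring

theorem fix {d : Dat} (hd : d.Ok) (ω : Om) {C : ℝ} {i₀ : ℕ} (h1 : ∀ i ≥ i₀, ff d ω (2 ^ i) ≤ C * ((i : ℝ) + 1) ^ 3)
    (h2 : ∀ ε : ℝ, 0 < ε → ∃ i₁ : ℕ, ∀ i ≥ i₁, gr d ω i ≤ ε) :
    ∃ G : T2 → ℝ, Measurable G ∧ (∀ᵐ z, 0 < G z) ∧
      ∀ᵐ z, Tendsto (fun n : ℕ => Real.log (nn (Mm d n (ω, z))) / n) atTop (𝓝 (G z)) := by
  obtain ⟨G, hG1, hG2, hG3⟩ := soft (μ := (volume : Measure T2)) (T := Tw d ω) (Tw_mp hd ω)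
    (g := gg_h4 d ω)
    (C := Real.log 2 + 3 * Real.log |d.a|)
    (C1 := |C| + ∑ j ∈ Finset.range i₀, |ff d ω (2 ^ j)|)
    (gg_meas_h4 hd ω) (fun n z => (gg_bd_h4 hd ω n z).2) (fun n z => (gg_bd_h4 hd ω n z).1)
    (gg_sub_h4 d ω)
    (fun i _ => by
      have hm : (2 : ℕ) ^ i ≠ 0 := pow_ne_zero _ (by norm_num)
      obtain ⟨k1, k2⟩ := defect_h4 hd ω hm
      refine ⟨_, k1, fun z => ?_, ?_, fun z => ?_⟩
      · have := gg_sub_h4 d ω (2 ^ i) (2 ^ i) z
        rw [← two_mul] at this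
        linarith
      · rw [k2]
        have hi : (0 : ℝ) ≤ (i : ℝ) := Nat.cast_nonneg i
        have h3 : (1 : ℝ) ≤ ((i : ℝ) + 1) ^ 3 := one_le_pow₀ (by linarith)
        have hS : 0 ≤ ∑ j ∈ Finset.range i₀, |ff d ω (2 ^ j)| :=
          Finset.sum_nonneg fun j _ => abs_nonneg _
        rcases lt_or_ge i i₀ with hlt | hge
        · have h4 : |ff d ω (2 ^ i)| ≤ ∑ j ∈ Finset.range i₀, |ff d ω (2 ^ j)| :=
            Finset.single_le_sum (f := fun j => |ff d ω (2 ^ j)|)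
              (fun j _ => abs_nonneg _) (Finset.mem_range.2 hlt)
          have h5 := le_abs_self (ff d ω (2 ^ i))
          have h6 : (|C| + ∑ j ∈ Finset.range i₀, |ff d ω (2 ^ j)|) * 1 ≤
              (|C| + ∑ j ∈ Finset.range i₀, |ff d ω (2 ^ j)|) * ((i : ℝ) + 1) ^ 3 :=
            mul_le_mul_of_nonneg_left h3 (by positivity)
          have h7 := abs_nonneg C
          linarith
        · refine (h1 i hge).trans ?_
          refine mul_le_mul_of_nonneg_right ?_ (by positivity)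
          have := le_abs_self C
          linarith
      · have e1 : 2 ^ (i + 1) = 2 * 2 ^ i := by rw [pow_succ]; ring
        rw [e1]
        linarith)
    (fun ε hε => by
      obtain ⟨i₁, hi₁⟩ := h2 ε hε
      refine ⟨i₁, fun i hi => le_trans ?_ (hi₁ i hi)⟩
      have hm : (2 : ℕ) ^ i ≠ 0 := pow_ne_zero _ (by norm_num)
      have hms : MeasurableSet {z : T2 | gg_h4 d ω (2 ^ i) z < (2 : ℝ) ^ ((i : ℝ) / 2)} :=
        measurableSet_lt (gg_meas_h4 hd ω _) measurable_const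
      have hgm : Measurable fun z : T2 => gi d i (ω, z) :=
        (meas_gi hd i).comp (measurable_const.prodMk measurable_id)
      have hgi : Integrable (fun z : T2 => gi d i (ω, z)) (volume : Measure T2) := by
        refine Integrable.mono' (integrable_const (1 : ℝ)) hgm.aestronglyMeasurable
          (Filter.Eventually.of_forall fun z => ?_)
        obtain ⟨a1, a2⟩ := gi_bd (d := d) i (ω, z)
        rw [Real.norm_eq_abs, abs_of_nonneg a1]
        exact a2
      have key : ∀ z ∈ {z : T2 | gg_h4 d ω (2 ^ i) z < (2 : ℝ) ^ ((i : ℝ) / 2)},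
          (1 : ℝ) ≤ gi d i (ω, z) := by
        intro z hz
        rw [Set.mem_ofPred_eq, gg_ne_h4 d ω hm] at hz
        have hp := pos_h4 d (2 ^ i) (ω, z)
        have h3 : nn (Mm d (2 ^ i) (ω, z)) ≤ Real.exp ((2 : ℝ) ^ ((i : ℝ) / 2)) := by
          rw [← Real.log_le_iff_le_exp hp]
          exact hz.le
        unfold gi
        refine le_min le_rfl ?_
        rw [← div_eq_mul_inv, le_div_iff₀ hp, one_mul]
        exact h3
      calc (volume : Measure T2).real {z : T2 | gg_h4 d ω (2 ^ i) z < (2 : ℝ) ^ ((i : ℝ) / 2)}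
          = ∫ _ in {z : T2 | gg_h4 d ω (2 ^ i) z < (2 : ℝ) ^ ((i : ℝ) / 2)}, (1 : ℝ) := by
            simp
        _ ≤ ∫ z in {z : T2 | gg_h4 d ω (2 ^ i) z < (2 : ℝ) ^ ((i : ℝ) / 2)}, gi d i (ω, z) :=
            setIntegral_mono_on (integrable_const _).integrableOn hgi.integrableOn hms key
        _ ≤ ∫ z : T2, gi d i (ω, z) :=
            setIntegral_le_integral hgi (Filter.Eventually.of_forall fun z =>
              (gi_bd (d := d) i (ω, z)).1)
        _ = gr d ω i := rfl)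
  refine ⟨G, hG1, hG2, ?_⟩
  filter_upwards [hG3] with z hz
  refine hz.congr' ?_
  filter_upwards [eventually_ge_atTop 1] with n hn
  have h1 : n ≠ 0 := by omega
  rw [gg_ne_h4 d ω h1]

end Pool.Agent.Helper18.HA
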