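import Pool.Agent.Helper18.HA.Cls
import Pool.Agent.Helper18.HY.FlipB

/-! Block HA-FLIPB: the flip preserves the measure on the good event, for a law under which the level `l` can be resampled. Port of `HY/FlipB.lean` (`res2L` instead of `res2`, `W.prod volume` instead of `mu`). -/

set_option autoImplicit false
open MeasureTheory Real Set Filter Topology
open scoped ENNReal

namespace Pool.Agent.Helper18.HA

open Pool.Agent.Helper18.HY
open Pool.Agent.Helper72.AP (Rs mx Lc Kk Ent2)
open Pool.Agent.Helper18.UC (T2 rep toT nn)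
open Pool.Agent.Helper18.FD (NN rr pr cl uu lm Bump k1 k2 NN_pos NN_ge)
open Pool.Agent.Helper95.PV (Ix Om PP lv rp tc inn out cel upd mv mu Pt rv)

section

open Pool.Agent.Helper18.FD (cl_of_mem)
open Pool.Agent.Helper95.PV (cel_lt inn_cel measurable_upd meas_cel)

variable {d : Dat}

private theorem upd_false63 (l : ℕ) (c : ℕ) (u v : ℝ) (ω : Om) :
    upd l c u v ω (l, c, false) = u := by
  unfold upd
  rw [Function.update_of_ne (by simp), Function.update_self]

private theorem upd_true63 (l : ℕ) (c : ℕ) (u v : ℝ) (ω : Om) :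
    upd l c u v ω (l, c, true) = v := by
  unfold upd
  rw [Function.update_self]

private theorem upd_upd63 (l : ℕ) (c : ℕ) (u v u' v' : ℝ) (ω : Om) :
    upd l c u v (upd l c u' v' ω) = upd l c u v ω := by
  funext i
  unfold upd
  by_cases h1 : i = (l, c, true)
  · rw [h1, Function.update_self, Function.update_self]
  · rw [Function.update_of_ne h1, Function.update_of_ne h1]
    by_cases h2 : i = (l, c, false)
    · rw [h2, Function.update_self, Function.update_self]
    · rw [Function.update_of_ne h2, Function.update_of_ne h2, Function.update_of_ne h1,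
        Function.update_of_ne h2]

private theorem fl_mem63 {v : ℝ} (hv : v ∈ Ico (-1 : ℝ) 1) : fl v ∈ Ico (-1 : ℝ) 1 ∧ fl (fl v) = v := by
  unfold fl
  obtain ⟨h1, h2⟩ := hv
  by_cases h : 0 ≤ v
  · rw [if_pos h, if_neg (by linarith)]
    exact ⟨⟨by linarith, by linarith⟩, by ring⟩
  · rw [if_neg h, if_pos (by linarith)]
    exact ⟨⟨by linarith, by linarith⟩, by ring⟩

private theorem ae_u63 : ∀ᵐ u ∂uu, u ∈ Icc (-1 : ℝ) 1 := by
  unfold uu
  exact Measure.ae_smul_measure (ae_restrict_mem measurableSet_Icc) _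

private theorem ae_v63 : ∀ᵐ v ∂uu, v ∈ Ico (-1 : ℝ) 1 := by
  have h1 : ∀ᵐ v ∂uu, v ≠ (1 : ℝ) := by
    unfold uu
    refine Measure.ae_smul_measure ?_ _
    exact ae_restrict_of_ae (by simp [ae_iff])
  filter_upwards [ae_u63, h1] with v h2 h3
  exact ⟨h2.1, lt_of_le_of_ne h2.2 h3⟩

private theorem congr63 {f g : ℝ → ℝ → ℝ≥0∞}
    (h : ∀ u ∈ Icc (-1 : ℝ) 1, ∀ v ∈ Ico (-1 : ℝ) 1, f u v = g u v) :
    ∫⁻ u, ∫⁻ v, f u v ∂uu ∂uu = ∫⁻ u, ∫⁻ v, g u v ∂uu ∂uu := by
  refine lintegral_congr_ae ?_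
  filter_upwards [ae_u63] with u hu
  refine lintegral_congr_ae ?_
  filter_upwards [ae_v63] with v hv
  exact h u hu v hv

/-- the event, for a fixed point of the torus and a fixed cell -/
private def Es63 (d : Dat) (l j n : ℕ) (z : T2) (c : ℕ) : Set Om :=
  {ω | (iso d l n (ω, z) ∧ good d l j (ω, z)) ∧ cj d l j (ω, z) = c}

private theorem Es63_meas (hd : d.Ok) (l j n : ℕ) (z : T2) (c : ℕ) :
    MeasurableSet (Es63 d l j n z c) := by
  have hz : Measurable fun ω : Om => ((ω, z) : Pt) := measurable_id.prodMk measurable_const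
  have h1 : MeasurableSet {ω : Om | iso d l n (ω, z) ∧ good d l j (ω, z)} :=
    hz ((meas_iso hd l n).inter (meas_good hd l j))
  have h2 : MeasurableSet {ω : Om | cj d l j (ω, z) = c} :=
    ((meas_cel l).comp ((meas_px hd j).comp hz)) (measurableSet_singleton c)
  exact h1.inter h2

private theorem fiber63 (hd : d.Ok) {l j n : ℕ} (hj : j < n) {F : Pt → ℝ≥0∞} (hF : Measurable F)
    (z : T2) (c : ℕ) (ω : Om) :
    ∫⁻ u, ∫⁻ v, (Es63 d l j n z c).indicator (fun ω => F (Fp d l j (ω, z))) (upd l c u v ω) ∂uu ∂uu =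
      ∫⁻ u, ∫⁻ v, (Es63 d l j n z c).indicator (fun ω => F (ω, z)) (upd l c u v ω) ∂uu ∂uu := by
  classical
  by_cases hex : ∃ u' v', upd l c u' v' ω ∈ Es63 d l j n z c
  · obtain ⟨u', v', hH⟩ := hex
    have hw : ∀ u v, upd l c u v ω = upd l c u v (upd l c u' v' ω) := fun u v =>
      (upd_upd63 l c u v u' v' ω).symm
    generalize hω' : upd l c u' v' ω = ω' at hH hw
    have hiso : iso d l (j + 1) (ω', z) := fun i hi k hk hik =>
      hH.1.1 i (by omega) k (by omega) hik
    have hpx : ∀ u v, px d j (upd l c u v ω, z) = px d j (ω', z) := by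
      intro u v
      have h1 := (upd_congr hd hiso u v).1 j le_rfl
      rw [hH.2] at h1
      rw [hw]
      exact h1
    have hcj : ∀ u v, cj d l j (upd l c u v ω, z) = c := by
      intro u v
      unfold cj
      rw [hpx]
      exact hH.2
    set t : ℝ := tc l c (px d j (ω', z)) with ht_def
    have htj : ∀ u v, tj d l j (upd l c u v ω, z) = t := by
      intro u v
      unfold tj
      rw [hcj, hpx]
    have ht : |t| ≤ 1 / 2 := by
      have := inn_cel l (px d j (ω', z))
      have h2 : cel l (px d j (ω', z)) = c := hH.2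
      rw [h2] at this
      exact this
    have huj : ∀ u v, uj d l j (upd l c u v ω, z) = cl u := by
      intro u v
      unfold uj
      rw [hcj]
      show cl (upd l c u v ω (l, c, false)) = cl u
      rw [upd_false63]
    have hwj : ∀ u v, wj d l j (upd l c u v ω, z) = cl v := by
      intro u v
      unfold wj
      rw [hcj]
      show cl (upd l c u v ω (l, c, true)) = cl v
      rw [upd_true63]
    -- the flipped point
    have hFp : ∀ u ∈ Icc (-1 : ℝ) 1, ∀ v ∈ Ico (-1 : ℝ) 1, Fp d l j (upd l c u v ω, z) =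
        (upd l c (u + (v - fl v) * t) (fl v) ω, z) := by
      intro u hu v hv
      unfold Fp
      rw [huj, hwj, htj, hcj, cl_of_mem hu, cl_of_mem ⟨hv.1, hv.2.le⟩]
      show (upd l c _ _ (upd l c u v ω), z) = _
      rw [upd_upd63]
    -- the kick
    have hkick : ∀ u ∈ Icc (-1 : ℝ) 1, ∀ v ∈ Ico (-1 : ℝ) 1,
        upd l c u v ω ∈ Es63 d l j n z c → |u + v * t| ≤ 1 / 2 := by
      intro u hu v hv h
      have h1 := h.1.2.1
      rw [huj, hwj, htj, cl_of_mem hu, cl_of_mem ⟨hv.1, hv.2.le⟩] at h1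
      exact h1
    -- the flip keeps the event
    have hflip : ∀ u ∈ Icc (-1 : ℝ) 1, ∀ v ∈ Ico (-1 : ℝ) 1, upd l c u v ω ∈ Es63 d l j n z c →
        upd l c (u + (v - fl v) * t) (fl v) ω ∈ Es63 d l j n z c := by
      intro u hu v hv h
      obtain ⟨g1, g2, -⟩ := flip_pt hd hj h.1.1 h.1.2
      rw [hFp u hu v hv] at g1
      have g3 := (g2 j hj).2 h.1.2
      rw [hFp u hu v hv] at g3
      exact ⟨⟨g1, g3⟩, hcj _ _⟩
    have hmem : ∀ u ∈ Icc (-1 : ℝ) 1, ∀ v ∈ Ico (-1 : ℝ) 1, |u + v * t| ≤ 1 / 2 →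
        u + (v - fl v) * t ∈ Icc (-1 : ℝ) 1 := by
      intro u _ v hv hk
      have h1 := (fl_mem63 hv).1
      have h2 : |fl v * t| ≤ 1 / 2 := by
        rw [abs_mul]
        have h3 : |fl v| ≤ 1 := abs_le.2 ⟨h1.1, h1.2.le⟩
        nlinarith [abs_nonneg (fl v), abs_nonneg t]
      have h3 : u + (v - fl v) * t = (u + v * t) - fl v * t := by ring
      rw [h3]
      have h4 := abs_le.1 hk
      have h5 := abs_le.1 h2
      exact ⟨by linarith, by linarith⟩
    let A : Set (ℝ × ℝ) := {q | (q.1 ∈ Icc (-1 : ℝ) 1 ∧ q.2 ∈ Ico (-1 : ℝ) 1) ∧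
      upd l c q.1 q.2 ω ∈ Es63 d l j n z c}
    have hupd : Measurable fun q : ℝ × ℝ => upd l c q.1 q.2 ω :=
      (measurable_upd l c).comp (measurable_const.prodMk measurable_id)
    have hA : MeasurableSet A := by
      refine MeasurableSet.inter ?_ (hupd (Es63_meas hd l j n z c))
      exact (measurable_fst measurableSet_Icc).inter (measurable_snd measurableSet_Ico)
    let H : ℝ → ℝ → ℝ≥0∞ := fun u v => A.indicator (fun q => F (upd l c q.1 q.2 ω, z)) (u, v)
    have hH' : Measurable fun q : ℝ × ℝ => H q.1 q.2 :=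
      (hF.comp (hupd.prodMk measurable_const)).indicator hA
    have h0 : ∀ u v : ℝ, ¬ (|u + v * t| ≤ 1 / 2 ∧ u ∈ Icc (-1 : ℝ) 1 ∧ v ∈ Ico (-1 : ℝ) 1) →
        H u v = 0 := by
      intro u v h
      refine Set.indicator_of_notMem ?_ _
      rintro ⟨⟨hu, hv⟩, hE⟩
      exact h ⟨hkick u hu v hv hE, hu, hv⟩
    have key := flip2 ht hH' h0
    have e1 : ∫⁻ u, ∫⁻ v, (Es63 d l j n z c).indicator (fun ω => F (Fp d l j (ω, z)))
        (upd l c u v ω) ∂uu ∂uu = ∫⁻ u, ∫⁻ v, H (u + (v - fl v) * t) (fl v) ∂uu ∂uu := by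
      refine congr63 fun u hu v hv => ?_
      have hfl := fl_mem63 hv
      by_cases hE : upd l c u v ω ∈ Es63 d l j n z c
      · rw [Set.indicator_of_mem hE, hFp u hu v hv]
        have hA' : ((u + (v - fl v) * t, fl v) : ℝ × ℝ) ∈ A :=
          ⟨⟨hmem u hu v hv (hkick u hu v hv hE), hfl.1⟩, hflip u hu v hv hE⟩
        exact (Set.indicator_of_mem hA' (fun q : ℝ × ℝ => F (upd l c q.1 q.2 ω, z))).symm
      · rw [Set.indicator_of_notMem hE]
        symm
        refine Set.indicator_of_notMem (s := A) (f := fun q : ℝ × ℝ => F (upd l c q.1 q.2 ω, z)) ?_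
        rintro ⟨⟨hu', hv'⟩, hE'⟩
        have h2 := hflip _ hu' _ hv' hE'
        simp only [hfl.2] at h2
        have h3 : u + (v - fl v) * t + (fl v - v) * t = u := by ring
        rw [h3] at h2
        exact hE h2
    have e2 : ∫⁻ u, ∫⁻ v, (Es63 d l j n z c).indicator (fun ω => F (ω, z))
        (upd l c u v ω) ∂uu ∂uu = ∫⁻ u, ∫⁻ v, H u v ∂uu ∂uu := by
      refine congr63 fun u hu v hv => ?_
      by_cases hE : upd l c u v ω ∈ Es63 d l j n z c
      · rw [Set.indicator_of_mem hE]
        have hA' : ((u, v) : ℝ × ℝ) ∈ A := ⟨⟨hu, hv⟩, hE⟩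
        exact (Set.indicator_of_mem hA' (fun q : ℝ × ℝ => F (upd l c q.1 q.2 ω, z))).symm
      · rw [Set.indicator_of_notMem hE]
        symm
        refine Set.indicator_of_notMem (s := A) (f := fun q : ℝ × ℝ => F (upd l c q.1 q.2 ω, z)) ?_
        rintro ⟨-, hE'⟩
        exact hE hE'
    rw [e1, e2, key]
  · push Not at hex
    have e1 : ∀ (G : Om → ℝ≥0∞) (u v : ℝ), (Es63 d l j n z c).indicator G (upd l c u v ω) = 0 :=
      fun G u v => Set.indicator_of_notMem (hex u v) _
    simp only [e1]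

private theorem split63 (W : Measure Om) [IsProbabilityMeasure W] (hd : d.Ok) (l j n : ℕ) {G : Pt → ℝ≥0∞} (hG : Measurable G) :
    ∫⁻ p, {p | iso d l n p ∧ good d l j p}.indicator G p ∂(W.prod (volume : Measure T2)) =
      ∫⁻ z, ∑ c ∈ Finset.range (NN l), ∫⁻ ω, (Es63 d l j n z c).indicator (fun ω => G (ω, z)) ω ∂W := by
  have hE : MeasurableSet {p | iso d l n p ∧ good d l j p} := (meas_iso hd l n).inter (meas_good hd l j)
  rw [lintegral_prod_symm _ (hG.indicator hE).aemeasurable]
  refine lintegral_congr fun z => ?_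
  have hz : Measurable fun ω : Om => ((ω, z) : Pt) := measurable_id.prodMk measurable_const
  have hm : ∀ c ∈ Finset.range (NN l),
      Measurable ((Es63 d l j n z c).indicator (fun ω => G (ω, z))) :=
    fun c _ => (hG.comp hz).indicator (Es63_meas hd l j n z c)
  rw [← lintegral_finsetSum _ hm]
  refine lintegral_congr fun ω => ?_
  by_cases hp : iso d l n (ω, z) ∧ good d l j (ω, z)
  · have h1 : ((ω, z) : Pt) ∈ {p | iso d l n p ∧ good d l j p} := hp
    rw [Set.indicator_of_mem h1, Finset.sum_eq_single (cj d l j (ω, z))]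
    · have h2 : ω ∈ Es63 d l j n z (cj d l j (ω, z)) := ⟨hp, rfl⟩
      rw [Set.indicator_of_mem h2]
    · intro c _ hc
      refine Set.indicator_of_notMem ?_ _
      rintro ⟨-, h⟩
      exact hc h.symm
    · intro h
      exact absurd (Finset.mem_range.2 (cel_lt l _)) h
  · have h1 : ((ω, z) : Pt) ∉ {p | iso d l n p ∧ good d l j p} := hp
    rw [Set.indicator_of_notMem h1]
    symm
    refine Finset.sum_eq_zero fun c _ => Set.indicator_of_notMem ?_ _
    rintro ⟨h, -⟩
    exact hp h

end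

variable {d : Dat} {W : Measure Om} [IsProbabilityMeasure W]

theorem flip_mpL (hd : d.Ok) {l : ℕ} (hR : ∀ (c : ℕ) (b : Bool), Rs W (l, c, b)) {j n : ℕ} (hj : j < n)
    {F : Pt → ℝ≥0∞} (hF : Measurable F) :
    ∫⁻ p, {p | iso d l n p ∧ good d l j p}.indicator (fun p => F (Fp d l j p)) p ∂(W.prod (volume : Measure T2)) =
      ∫⁻ p, {p | iso d l n p ∧ good d l j p}.indicator F p ∂(W.prod (volume : Measure T2)) := by
  have h1 : Measurable fun p => F (Fp d l j p) := hF.comp (meas_Fp hd l j)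
  rw [split63 W hd l j n h1, split63 W hd l j n hF]
  refine lintegral_congr fun z => Finset.sum_congr rfl fun c _ => ?_
  have hz : Measurable fun ω : Om => ((ω, z) : Pt) := measurable_id.prodMk measurable_const
  have m1 : Measurable ((Es63 d l j n z c).indicator (fun ω => F (Fp d l j (ω, z)))) :=
    (h1.comp hz).indicator (Es63_meas hd l j n z c)
  have m2 : Measurable ((Es63 d l j n z c).indicator (fun ω => F (ω, z))) :=
    (hF.comp hz).indicator (Es63_meas hd l j n z c)
  rw [res2L l c (hR c false) (hR c true) m1, res2L l c (hR c false) (hR c true) m2]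
  exact lintegral_congr fun ω => fiber63 hd hj hF z c ω

end Pool.Agent.Helper18.HA
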