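import Pool.Agent.Helper18.HA.FlipB
import Pool.Agent.Helper18.HY.FlipC

/-! Block HA-FLIPC: averaging over all flips for the law `W`. Port of `HY/FlipC.lean` (`flip_mpL` instead of `flip_mp`). -/

set_option autoImplicit false
open MeasureTheory Real Set Filter Topology
open scoped ENNReal

namespace Pool.Agent.Helper18.HA

open Pool.Agent.Helper18.HY
open Pool.Agent.Helper72.AP (Rs mx Lc Kk Ent2)
open Pool.Agent.Helper18.UC (T2 rep toT nn)
open Pool.Agent.Helper18.FD (NN rr pr cl uu lm Bump k1 k2 NN_pos NN_ge)
open Pool.Agent.Helper95.PV (Ix Om PP lv rp tc inn out cel upd mv mu Pt rv)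

variable {d : Dat} {W : Measure Om} [IsProbabilityMeasure W]

private lemma Av_congr67 {p q p' q' : ℕ → ℝ} (n : ℕ) (h : ∀ i < n, p i = p' i ∧ q i = q' i) :
    ∀ M : Matrix (Fin 2) (Fin 2) ℝ, Av p q n M = Av p' q' n M := by
  induction n with
  | zero => intro M; rfl
  | succ n ih =>
    intro M
    have h0 := h n (Nat.lt_succ_self n)
    simp only [Av]
    rw [h0.1, h0.2, ih (fun i hi => h i (hi.trans (Nat.lt_succ_self n))),
      ih (fun i hi => h i (hi.trans (Nat.lt_succ_self n)))]

/-- the average is affine in each pair -/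
private lemma Av_split67 {p q p1 q1 p2 q2 : ℕ → ℝ} {m : ℕ} (h1 : ∀ i, i ≠ m → p1 i = p i ∧ q1 i = q i)
    (h2 : ∀ i, i ≠ m → p2 i = p i ∧ q2 i = q i) (a1 : p1 m = p m) (a2 : q1 m = p m) (a3 : p2 m = q m)
    (a4 : q2 m = q m) (n : ℕ) : m < n → ∀ M : Matrix (Fin 2) (Fin 2) ℝ,
      Av p q n M = (Av p1 q1 n M + Av p2 q2 n M) / 2 := by
  induction n with
  | zero => intro h; omega
  | succ n ih =>
    intro hm M
    by_cases hmn : m = n
    · subst hmn
      have c1 : ∀ N, Av p1 q1 m N = Av p q m N := Av_congr67 m fun i hi => h1 i hi.ne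
      have c2 : ∀ N, Av p2 q2 m N = Av p q m N := Av_congr67 m fun i hi => h2 i hi.ne
      simp only [Av]
      rw [c1, c1, c2, c2, a1, a2, a3, a4]
      ring
    · have hmn' : m < n := by omega
      have hn : n ≠ m := fun h => hmn h.symm
      simp only [Av]
      rw [ih hmn', ih hmn', (h1 n hn).1, (h1 n hn).2, (h2 n hn).1, (h2 n hn).2]
      ring

/-- the second member of the pairs: flipped for `i < m` -/
private noncomputable def Q67 (d : Dat) (l m i : ℕ) (p : Pt) : ℝ := if i < m then vs d l i p else vj d i p

private noncomputable def A67 (d : Dat) (l n m : ℕ) (p : Pt) : ℝ :=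
  Av (fun j => vj d j p) (fun j => Q67 d l m j p) n 1

private lemma meas_A67 (hd : d.Ok) (l n m : ℕ) : Measurable (A67 d l n m) := by
  refine Av_meas (p := fun j p => vj d j p) (q := fun j p => Q67 d l m j p) (fun i => meas_vj hd i) (fun i => ?_) n
  by_cases h : i < m
  · have : Q67 d l m i = vs d l i := by funext p; simp [Q67, h]
    show Measurable (Q67 d l m i)
    rw [this]
    exact meas_vs hd l i
  · have : Q67 d l m i = vj d i := by funext p; simp [Q67, h]
    show Measurable (Q67 d l m i)
    rw [this]
    exact meas_vj hd i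

private lemma A67_step_bad {l n m : ℕ} {p : Pt} (hg : ¬ good d l m p) : A67 d l n (m + 1) p = A67 d l n m p := by
  unfold A67
  refine Av_congr67 n (fun i _ => ⟨rfl, ?_⟩) 1
  show Q67 d l (m + 1) i p = Q67 d l m i p
  unfold Q67
  by_cases h : i < m
  · rw [if_pos h, if_pos (by omega)]
  · by_cases h' : i = m
    · subst h'
      rw [if_pos (by omega), if_neg (by omega)]
      simp only [vs, if_neg hg]
    · rw [if_neg h, if_neg (by omega)]

private lemma A67_step_good (hd : d.Ok) {l n m : ℕ} (hm : m < n) {p : Pt} (hi : iso d l n p) (hg : good d l m p) :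
    A67 d l n (m + 1) p = (A67 d l n m p + A67 d l n m (Fp d l m p)) / 2 := by
  obtain ⟨-, -, -, h4, h5⟩ := flip_pt hd hm hi hg
  have e : A67 d l n m (Fp d l m p) =
      Av (fun j => if j = m then vs d l m p else vj d j p)
        (fun j => if j = m then vs d l m p else Q67 d l m j p) n 1 := by
    unfold A67
    refine Av_congr67 n (fun i hin => ?_) 1
    by_cases h : i = m
    · subst h
      refine ⟨by simpa using h5, ?_⟩
      show Q67 d l i i (Fp d l i p) = if i = i then vs d l i p else _
      rw [if_pos rfl]
      unfold Q67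
      rw [if_neg (lt_irrefl i)]
      exact h5
    · obtain ⟨h6, h7⟩ := h4 i hin h
      refine ⟨by simpa [h] using h6, ?_⟩
      show Q67 d l m i (Fp d l m p) = if i = m then vs d l m p else Q67 d l m i p
      rw [if_neg h]
      unfold Q67
      rw [h6, h7]
  rw [e]
  unfold A67
  refine Av_split67 (m := m) (fun i h => ⟨rfl, ?_⟩) (fun i h => ⟨?_, ?_⟩) rfl ?_ ?_ ?_ n hm 1
  · show Q67 d l m i p = Q67 d l (m + 1) i p
    unfold Q67
    by_cases h' : i < m
    · rw [if_pos h', if_pos (by omega)]
    · rw [if_neg h', if_neg (by omega)]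
  · simp [h]
  · show (if i = m then vs d l m p else Q67 d l m i p) = Q67 d l (m + 1) i p
    rw [if_neg h]
    unfold Q67
    by_cases h' : i < m
    · rw [if_pos h', if_pos (by omega)]
    · rw [if_neg h', if_neg (by omega)]
  · show Q67 d l m m p = vj d m p
    unfold Q67
    rw [if_neg (lt_irrefl m)]
  · show (if m = m then vs d l m p else vj d m p) = Q67 d l (m + 1) m p
    unfold Q67
    rw [if_pos rfl, if_pos (Nat.lt_succ_self m)]
  · show (if m = m then vs d l m p else Q67 d l m m p) = Q67 d l (m + 1) m p
    unfold Q67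
    rw [if_pos rfl, if_pos (Nat.lt_succ_self m)]

private lemma A67_bd (l n m : ℕ) (p : Pt) : 0 ≤ A67 d l n m p ∧ A67 d l n m p ≤ 1 / 2 := Av_bd _ _ n

private lemma int_ind67 {f : Pt → ℝ} (hf : Measurable f) (h0 : ∀ p, 0 ≤ f p ∧ f p ≤ 1 / 2) {E : Set Pt}
    (hE : MeasurableSet E) : Integrable (E.indicator f) (W.prod (volume : Measure T2)) := by
  refine Integrable.of_bound (hf.indicator hE).aestronglyMeasurable (1 / 2) (Filter.Eventually.of_forall fun p => ?_)
  rw [Real.norm_eq_abs]
  by_cases h : p ∈ E
  · rw [Set.indicator_of_mem h, abs_of_nonneg (h0 p).1]; exact (h0 p).2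
  · rw [Set.indicator_of_notMem h, abs_zero]; norm_num

private lemma step67 (hd : d.Ok) {l n m : ℕ} (hR : ∀ (c : ℕ) (b : Bool), Rs W (l, c, b)) (hm : m < n) :
    ∫ p, {p | iso d l n p}.indicator (A67 d l n (m + 1)) p ∂(W.prod (volume : Measure T2)) =
      ∫ p, {p | iso d l n p}.indicator (A67 d l n m) p ∂(W.prod (volume : Measure T2)) := by
  classical
  have mI := meas_iso hd l n
  have mG := meas_good hd l m
  have mIG : MeasurableSet {p | iso d l n p ∧ good d l m p} := mI.inter mG
  have mA := meas_A67 hd l n m
  have mAF : Measurable fun p => A67 d l n m (Fp d l m p) := mA.comp (meas_Fp hd l m)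
  have hb := fun p => A67_bd (d := d) l n m p
  -- the key: on the good part the average of the flipped point has the same integral
  have key : ∫ p, {p | iso d l n p ∧ good d l m p}.indicator (fun p => A67 d l n m (Fp d l m p)) p ∂(W.prod (volume : Measure T2)) =
      ∫ p, {p | iso d l n p ∧ good d l m p}.indicator (A67 d l n m) p ∂(W.prod (volume : Measure T2)) := by
    rw [integral_eq_lintegral_of_nonneg_ae, integral_eq_lintegral_of_nonneg_ae]
    · congr 1
      have e := flip_mpL (W := W) hd hR hm (F := fun p => ENNReal.ofReal (A67 d l n m p)) mA.ennreal_ofReal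
      have e1 : ∀ p, ENNReal.ofReal ({p | iso d l n p ∧ good d l m p}.indicator (fun p => A67 d l n m (Fp d l m p)) p) =
          {p | iso d l n p ∧ good d l m p}.indicator (fun p => ENNReal.ofReal (A67 d l n m (Fp d l m p))) p := by
        intro p
        by_cases h : p ∈ {p | iso d l n p ∧ good d l m p}
        · rw [Set.indicator_of_mem h, Set.indicator_of_mem h]
        · rw [Set.indicator_of_notMem h, Set.indicator_of_notMem h, ENNReal.ofReal_zero]
      have e2 : ∀ p, ENNReal.ofReal ({p | iso d l n p ∧ good d l m p}.indicator (A67 d l n m) p) =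
          {p | iso d l n p ∧ good d l m p}.indicator (fun p => ENNReal.ofReal (A67 d l n m p)) p := by
        intro p
        by_cases h : p ∈ {p | iso d l n p ∧ good d l m p}
        · rw [Set.indicator_of_mem h, Set.indicator_of_mem h]
        · rw [Set.indicator_of_notMem h, Set.indicator_of_notMem h, ENNReal.ofReal_zero]
      rw [lintegral_congr e1, lintegral_congr e2]
      exact e
    · exact Filter.Eventually.of_forall fun p => Set.indicator_nonneg (fun q _ => (hb q).1) p
    · exact (mA.indicator mIG).aestronglyMeasurable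
    · exact Filter.Eventually.of_forall fun p => Set.indicator_nonneg (fun q _ => (hb _).1) p
    · exact (mAF.indicator mIG).aestronglyMeasurable
  -- pointwise decomposition
  have dec : ∀ p, {p | iso d l n p}.indicator (A67 d l n (m + 1)) p =
      {p | iso d l n p}.indicator (A67 d l n m) p +
        ({p | iso d l n p ∧ good d l m p}.indicator (fun p => A67 d l n m (Fp d l m p)) p -
          {p | iso d l n p ∧ good d l m p}.indicator (A67 d l n m) p) / 2 := by
    intro p
    by_cases h : iso d l n p
    · have h' : p ∈ {p | iso d l n p} := h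
      rw [Set.indicator_of_mem h', Set.indicator_of_mem h']
      by_cases hg : good d l m p
      · have h'' : p ∈ {p | iso d l n p ∧ good d l m p} := ⟨h, hg⟩
        rw [Set.indicator_of_mem h'', Set.indicator_of_mem h'', A67_step_good hd hm h hg]
        ring
      · have h'' : p ∉ {p | iso d l n p ∧ good d l m p} := fun hh => hg hh.2
        rw [Set.indicator_of_notMem h'', Set.indicator_of_notMem h'', A67_step_bad hg]
        ring
    · have h' : p ∉ {p | iso d l n p} := h
      have h'' : p ∉ {p | iso d l n p ∧ good d l m p} := fun hh => h hh.1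
      rw [Set.indicator_of_notMem h', Set.indicator_of_notMem h', Set.indicator_of_notMem h'',
        Set.indicator_of_notMem h'']
      ring
  have i1 := int_ind67 (W := W) mA hb mI
  have i2 := int_ind67 (W := W) mA hb mIG
  have i3 := int_ind67 (W := W) mAF (fun p => hb _) mIG
  have i4 : Integrable (fun p => ({p | iso d l n p ∧ good d l m p}.indicator (fun p => A67 d l n m (Fp d l m p)) p -
      {p | iso d l n p ∧ good d l m p}.indicator (A67 d l n m) p) / 2) (W.prod (volume : Measure T2)) := (i3.sub i2).div_const 2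
  rw [integral_congr_ae (Filter.Eventually.of_forall dec), integral_add i1 i4,
    integral_div, integral_sub i3 i2, key, sub_self, zero_div, add_zero]

open Classical in
theorem flip_allL (hd : d.Ok) {l : ℕ} (hR : ∀ (c : ℕ) (b : Bool), Rs W (l, c, b)) (n : ℕ) :
    ∫ p, (if iso d l n p then (nn (Mm d n p))⁻¹ else 0) ∂(W.prod (volume : Measure T2)) =
      ∫ p, (if iso d l n p then Av (fun j => vj d j p) (fun j => vs d l j p) n 1 else 0) ∂(W.prod (volume : Measure T2)) := by
  have h : ∀ m ≤ n, ∫ p, {p | iso d l n p}.indicator (A67 d l n m) p ∂(W.prod (volume : Measure T2)) =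
      ∫ p, {p | iso d l n p}.indicator (A67 d l n 0) p ∂(W.prod (volume : Measure T2)) := by
    intro m
    induction m with
    | zero => intro _; rfl
    | succ m ih => intro hm; rw [step67 hd hR (by omega), ih (by omega)]
  have e1 : ∀ p, (if iso d l n p then (nn (Mm d n p))⁻¹ else 0) =
      {p | iso d l n p}.indicator (A67 d l n 0) p := by
    intro p
    by_cases hp : iso d l n p
    · have hp' : p ∈ {p | iso d l n p} := hp
      rw [if_pos hp, Set.indicator_of_mem hp', ← Av_vj]
      unfold A67
      refine Av_congr67 n (fun i _ => ⟨rfl, ?_⟩) 1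
      simp [Q67]
    · have hp' : p ∉ {p | iso d l n p} := hp
      rw [if_neg hp, Set.indicator_of_notMem hp']
  have e2 : ∀ p, (if iso d l n p then Av (fun j => vj d j p) (fun j => vs d l j p) n 1 else 0) =
      {p | iso d l n p}.indicator (A67 d l n n) p := by
    intro p
    by_cases hp : iso d l n p
    · have hp' : p ∈ {p | iso d l n p} := hp
      rw [if_pos hp, Set.indicator_of_mem hp']
      unfold A67
      refine Av_congr67 n (fun i hi => ⟨rfl, ?_⟩) 1
      simp [Q67, hi]
    · have hp' : p ∉ {p | iso d l n p} := hp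
      rw [if_neg hp, Set.indicator_of_notMem hp']
  rw [integral_congr_ae (Filter.Eventually.of_forall e1), integral_congr_ae (Filter.Eventually.of_forall e2)]
  exact (h n le_rfl).symm

end Pool.Agent.Helper18.HA
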