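import Pool.Agent.Helper18.HA.Cls
import Pool.Agent.Helper18.HY.GoodA

/-! Block HA-GOODA: given the past, a site is good with probability one half, for the law `W`. Port of `HY/GoodA.lean` (`res2L` instead of `res2`). -/

set_option autoImplicit false
open MeasureTheory Real Set Filter Topology
open scoped ENNReal

namespace Pool.Agent.Helper18.HA

open Pool.Agent.Helper18.HY
open Pool.Agent.Helper72.AP (Rs mx Lc Kk Ent2)
open Pool.Agent.Helper18.UC (T2 rep toT nn)
open Pool.Agent.Helper18.FD (NN rr pr cl uu lm Bump k1 k2 NN_pos NN_ge)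
open Pool.Agent.Helper95.PV (Ix Om PP lv rp tc inn out cel upd mv mu Pt rv)

variable {d : Dat} {W : Measure Om} [IsProbabilityMeasure W]

private theorem upd_false38 (l : ℕ) (c : ℕ) (u v : ℝ) (ω : Om) :
    upd l c u v ω (l, c, false) = u := by
  unfold upd
  rw [Function.update_of_ne (by simp), Function.update_self]

private theorem upd_true38 (l : ℕ) (c : ℕ) (u v : ℝ) (ω : Om) :
    upd l c u v ω (l, c, true) = v := by
  unfold upd
  rw [Function.update_self]

private theorem upd_upd38 (l : ℕ) (c : ℕ) (u v u' v' : ℝ) (ω : Om) :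
    upd l c u v (upd l c u' v' ω) = upd l c u v ω := by
  funext i
  unfold upd
  by_cases h1 : i = (l, c, true)
  · rw [h1, Function.update_self, Function.update_self]
  · rw [Function.update_of_ne h1, Function.update_of_ne h1]
    by_cases h2 : i = (l, c, false)
    · rw [h2, Function.update_self, Function.update_self]
    · rw [Function.update_of_ne h2, Function.update_of_ne h2, Function.update_of_ne h1,
        Function.update_of_ne h2]

/-- the cell at time `k` is `c`, and the point is in `A` -/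
private def AA38 (d : Dat) (l k : ℕ) (A : Set Pt) (z : T2) (c : ℕ) : Set Om :=
  {ω | (ω, z) ∈ A ∧ cj d l k (ω, z) = c}

private theorem AA_meas38 (hd : d.Ok) (l k : ℕ) {A : Set Pt} (hA : MeasurableSet A) (z : T2)
    (c : ℕ) : MeasurableSet (AA38 d l k A z c) := by
  have hz : Measurable fun ω : Om => ((ω, z) : Pt) := measurable_id.prodMk measurable_const
  have h1 : MeasurableSet {ω : Om | cj d l k (ω, z) = c} :=
    ((Pool.Agent.Helper95.PV.meas_cel l).comp ((meas_px hd k).comp hz))
      (measurableSet_singleton c)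
  exact (hz hA).inter h1

/-- the sum over the cells -/
private theorem dec38 (hd : d.Ok) {l : ℕ} (hR : ∀ (c : ℕ) (b : Bool), Rs W (l, c, b)) (k : ℕ) {A : Set Pt} (hA : MeasurableSet A)
    {Y : Pt → ℝ≥0∞} (hY : Measurable Y) (z : T2) :
    ∫⁻ ω, A.indicator Y (ω, z) ∂W = ∑ c ∈ Finset.range (NN l), ∫⁻ ω, ∫⁻ u, ∫⁻ v,
      (AA38 d l k A z c).indicator (fun ω => Y (ω, z)) (upd l c u v ω) ∂uu ∂uu ∂W := by
  have hz : Measurable fun ω : Om => ((ω, z) : Pt) := measurable_id.prodMk measurable_const
  have hm : ∀ c, Measurable ((AA38 d l k A z c).indicator (fun ω => Y (ω, z))) := fun c =>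
    (hY.comp hz).indicator (AA_meas38 hd l k hA z c)
  have h1 : ∀ ω, A.indicator Y (ω, z) = ∑ c ∈ Finset.range (NN l),
      (AA38 d l k A z c).indicator (fun ω => Y (ω, z)) ω := by
    intro ω
    rw [Finset.sum_eq_single (cj d l k (ω, z))]
    · by_cases hω : ((ω, z) : Pt) ∈ A
      · have h2 : ω ∈ AA38 d l k A z (cj d l k (ω, z)) := ⟨hω, rfl⟩
        rw [Set.indicator_of_mem hω, Set.indicator_of_mem h2]
      · have h2 : ω ∉ AA38 d l k A z (cj d l k (ω, z)) := fun h => hω h.1
        rw [Set.indicator_of_notMem hω, Set.indicator_of_notMem h2]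
    · intro c _ hc
      have h2 : ω ∉ AA38 d l k A z c := fun h => hc h.2.symm
      exact Set.indicator_of_notMem h2 _
    · intro h
      exact absurd (Finset.mem_range.2 (Pool.Agent.Helper95.PV.cel_lt l _)) h
  rw [lintegral_congr h1, lintegral_finsetSum _ fun c _ => hm c]
  exact Finset.sum_congr rfl fun c _ => res2L l c (hR c false) (hR c true) (hm c)

private theorem fiber38 (hd : d.Ok) {l k : ℕ} {Y : Pt → ℝ≥0∞}
    (h : ∀ (p : Pt) (u v : ℝ), iso d l (k + 1) p → Y (upd l (cj d l k p) u v p.1, p.2) = Y p)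
    (z : T2) (c : ℕ) (ω : Om) :
    ∫⁻ u, ∫⁻ v, (AA38 d l k {p | iso d l (k + 1) p ∧ good d l k p} z c).indicator
        (fun ω => Y (ω, z)) (upd l c u v ω) ∂uu ∂uu =
      2⁻¹ * ∫⁻ u, ∫⁻ v, (AA38 d l k {p | iso d l (k + 1) p} z c).indicator
        (fun ω => Y (ω, z)) (upd l c u v ω) ∂uu ∂uu := by
  by_cases hex : ∃ u' v', upd l c u' v' ω ∈ AA38 d l k {p | iso d l (k + 1) p} z c
  · obtain ⟨u', v', hH⟩ := hex
    have hw : ∀ u v, upd l c u v ω = upd l c u v (upd l c u' v' ω) := fun u v =>
      (upd_upd38 l c u v u' v' ω).symm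
    generalize hω' : upd l c u' v' ω = ω' at hH hw
    obtain ⟨hi, hc⟩ := hH
    change iso d l (k + 1) (ω', z) at hi
    have hpx : ∀ u v, ∀ i ≤ k, px d i (upd l c u v ω, z) = px d i (ω', z) := by
      intro u v i hik
      have := (upd_congr hd hi u v).1 i hik
      rw [hc] at this
      rw [hw]
      exact this
    have hiso : ∀ u v, iso d l (k + 1) (upd l c u v ω, z) := by
      intro u v i hi' j hj' hij
      rw [hpx u v i (by omega), hpx u v j (by omega)]
      exact hi i hi' j hj' hij
    have hcj : ∀ u v, cj d l k (upd l c u v ω, z) = c := by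
      intro u v
      unfold cj
      rw [hpx u v k le_rfl]
      exact hc
    have hYc : ∀ u v, Y (upd l c u v ω, z) = Y (ω', z) := by
      intro u v
      have := h (ω', z) u v hi
      rw [hc] at this
      rw [hw]
      exact this
    set t : ℝ := tc l c (px d k (ω', z)) with ht
    have ht2 : |t| ≤ 1 / 2 := by
      have h1 := Pool.Agent.Helper95.PV.inn_cel l (px d k (ω', z))
      have h2 : cel l (px d k (ω', z)) = c := hc
      rw [h2] at h1
      exact h1
    have hgood : ∀ u v, good d l k (upd l c u v ω, z) ↔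
        |cl u + cl v * t| ≤ 1 / 2 ∧ cl v < 1 := by
      intro u v
      have e1 : uj d l k (upd l c u v ω, z) = cl u := by
        unfold uj
        rw [hcj]
        exact congrArg cl (upd_false38 l c u v ω)
      have e2 : wj d l k (upd l c u v ω, z) = cl v := by
        unfold wj
        rw [hcj]
        exact congrArg cl (upd_true38 l c u v ω)
      have e3 : tj d l k (upd l c u v ω, z) = t := by
        unfold tj
        rw [hcj, hpx u v k le_rfl]
      unfold good
      rw [e1, e2, e3]
    have e1 : ∀ u v, (AA38 d l k {p | iso d l (k + 1) p ∧ good d l k p} z c).indicator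
        (fun ω => Y (ω, z)) (upd l c u v ω) = Y (ω', z) *
          {q : ℝ × ℝ | |cl q.1 + cl q.2 * t| ≤ 1 / 2 ∧ cl q.2 < 1}.indicator
            (fun _ => (1 : ℝ≥0∞)) (u, v) := by
      intro u v
      by_cases hg : good d l k (upd l c u v ω, z)
      · have h1 : upd l c u v ω ∈ AA38 d l k {p | iso d l (k + 1) p ∧ good d l k p} z c :=
          ⟨⟨hiso u v, hg⟩, hcj u v⟩
        have h2 : ((u, v) : ℝ × ℝ) ∈
            {q : ℝ × ℝ | |cl q.1 + cl q.2 * t| ≤ 1 / 2 ∧ cl q.2 < 1} := (hgood u v).1 hg
        rw [Set.indicator_of_mem h1, Set.indicator_of_mem h2, mul_one, hYc]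
      · have h1 : upd l c u v ω ∉ AA38 d l k {p | iso d l (k + 1) p ∧ good d l k p} z c :=
          fun hh => hg hh.1.2
        have h2 : ((u, v) : ℝ × ℝ) ∉
            {q : ℝ × ℝ | |cl q.1 + cl q.2 * t| ≤ 1 / 2 ∧ cl q.2 < 1} :=
          fun hh => hg ((hgood u v).2 hh)
        rw [Set.indicator_of_notMem h1, Set.indicator_of_notMem h2, mul_zero]
    have e2 : ∀ u v, (AA38 d l k {p | iso d l (k + 1) p} z c).indicator
        (fun ω => Y (ω, z)) (upd l c u v ω) = Y (ω', z) := by
      intro u v
      have h1 : upd l c u v ω ∈ AA38 d l k {p | iso d l (k + 1) p} z c :=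
        ⟨hiso u v, hcj u v⟩
      rw [Set.indicator_of_mem h1, hYc]
    have hcl : Measurable cl := measurable_const.max (measurable_const.min measurable_id)
    have hS : MeasurableSet
        {q : ℝ × ℝ | |cl q.1 + cl q.2 * t| ≤ 1 / 2 ∧ cl q.2 < 1} := by
      have m1 : Measurable fun q : ℝ × ℝ => |cl q.1 + cl q.2 * t| :=
        ((hcl.comp measurable_fst).add ((hcl.comp measurable_snd).mul_const t)).abs
      have m2 : Measurable fun q : ℝ × ℝ => cl q.2 := hcl.comp measurable_snd
      exact (measurableSet_le m1 measurable_const).inter (measurableSet_lt m2 measurable_const)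
    have hI : Measurable fun q : ℝ × ℝ =>
        {q : ℝ × ℝ | |cl q.1 + cl q.2 * t| ≤ 1 / 2 ∧ cl q.2 < 1}.indicator
            (fun _ => (1 : ℝ≥0∞)) (q.1, q.2) := measurable_const.indicator hS
    simp only [e1, e2]
    have h1 : ∀ u : ℝ, ∫⁻ v, Y (ω', z) *
          {q : ℝ × ℝ | |cl q.1 + cl q.2 * t| ≤ 1 / 2 ∧ cl q.2 < 1}.indicator
            (fun _ => (1 : ℝ≥0∞)) (u, v) ∂uu = Y (ω', z) * ∫⁻ v,
          {q : ℝ × ℝ | |cl q.1 + cl q.2 * t| ≤ 1 / 2 ∧ cl q.2 < 1}.indicator
            (fun _ => (1 : ℝ≥0∞)) (u, v) ∂uu := fun u =>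
      lintegral_const_mul _ (hI.comp (measurable_const.prodMk measurable_id))
    rw [lintegral_congr h1, lintegral_const_mul _ hI.lintegral_prod_right', half2 ht2,
      lintegral_const, measure_univ, mul_one, lintegral_const, measure_univ, mul_one, mul_comm]
  · push Not at hex
    have e1 : ∀ u v, (AA38 d l k {p | iso d l (k + 1) p ∧ good d l k p} z c).indicator
        (fun ω => Y (ω, z)) (upd l c u v ω) = 0 := by
      intro u v
      apply Set.indicator_of_notMem
      exact fun hh => hex u v ⟨hh.1.1, hh.2⟩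
    have e2 : ∀ u v, (AA38 d l k {p | iso d l (k + 1) p} z c).indicator
        (fun ω => Y (ω, z)) (upd l c u v ω) = 0 := fun u v =>
      Set.indicator_of_notMem (hex u v) _
    simp only [e1, e2, lintegral_zero, mul_zero]

theorem halfL (hd : d.Ok) {l : ℕ} (hR : ∀ (c : ℕ) (b : Bool), Rs W (l, c, b)) {k : ℕ} {Y : Pt → ℝ≥0∞} (hY : Measurable Y)
    (h : ∀ (p : Pt) (u v : ℝ), iso d l (k + 1) p → Y (upd l (cj d l k p) u v p.1, p.2) = Y p) :
    ∫⁻ p, {p | iso d l (k + 1) p ∧ good d l k p}.indicator Y p ∂(W.prod (volume : Measure T2)) =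
      2⁻¹ * ∫⁻ p, {p | iso d l (k + 1) p}.indicator Y p ∂(W.prod (volume : Measure T2)) := by
  have hB : MeasurableSet {p : Pt | iso d l (k + 1) p} := meas_iso hd l (k + 1)
  have hA : MeasurableSet {p : Pt | iso d l (k + 1) p ∧ good d l k p} :=
    hB.inter (meas_good hd l k)
  rw [lintegral_prod_symm _ (hY.indicator hA).aemeasurable,
    lintegral_prod_symm _ (hY.indicator hB).aemeasurable,
    ← lintegral_const_mul _ (hY.indicator hB).lintegral_prod_left']
  apply lintegral_congr
  intro z
  rw [dec38 hd hR k hA hY z, dec38 hd hR k hB hY z, Finset.mul_sum]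
  apply Finset.sum_congr rfl
  intro c _
  rw [← lintegral_const_mul' _ _ (by simp)]
  apply lintegral_congr
  intro ω
  exact fiber38 hd h z c ω

end Pool.Agent.Helper18.HA
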