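import Pool.Agent.Helper18.HA.GoodA
import Pool.Agent.Helper18.HY.GoodB

/-! Block HA-GOODB: exponential moment of the number of good pairs for the law `W`. Port of `HY/GoodB.lean` (`halfL` instead of `half`). -/

set_option autoImplicit false
open MeasureTheory Real Set Filter Topology
open scoped ENNReal

namespace Pool.Agent.Helper18.HA

open Pool.Agent.Helper18.HY
open Pool.Agent.Helper72.AP (Rs mx Lc Kk Ent2)
open Pool.Agent.Helper18.UC (T2 rep toT nn)
open Pool.Agent.Helper18.FD (NN rr pr cl uu lm Bump k1 k2 NN_pos NN_ge)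
open Pool.Agent.Helper95.PV (Ix Om PP lv rp tc inn out cel upd mv mu Pt rv)

variable {d : Dat} {W : Measure Om} [IsProbabilityMeasure W]

open Classical in
private noncomputable def W38 (d : Dat) (l : ℕ) (η : ℝ) (n : ℕ) (p : Pt) : ℝ :=
  ∏ i ∈ Finset.range n, (if good d l (2 * i) p ∧ good d l (2 * i + 1) p then η else 1)

private theorem W_zero38 (d : Dat) (l : ℕ) (η : ℝ) (p : Pt) : W38 d l η 0 p = 1 := by
  unfold W38
  rw [Finset.range_zero, Finset.prod_empty]

open Classical in
private theorem W_succ38 (d : Dat) (l : ℕ) (η : ℝ) (n : ℕ) (p : Pt) :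
    W38 d l η (n + 1) p = W38 d l η n p *
      (if good d l (2 * n) p ∧ good d l (2 * n + 1) p then η else 1) := by
  unfold W38
  rw [Finset.prod_range_succ]

private theorem W_nonneg38 (d : Dat) (l : ℕ) {η : ℝ} (h0 : 0 ≤ η) (n : ℕ) (p : Pt) :
    0 ≤ W38 d l η n p := by
  unfold W38
  refine Finset.prod_nonneg fun i _ => ?_
  split_ifs
  · exact h0
  · exact zero_le_one

private theorem meas_W38 (hd : d.Ok) (l : ℕ) (η : ℝ) (n : ℕ) : Measurable (W38 d l η n) := by
  unfold W38
  refine Finset.measurable_prod _ fun i _ => ?_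
  exact Measurable.ite ((meas_good hd l (2 * i)).inter (meas_good hd l (2 * i + 1)))
    measurable_const measurable_const

private theorem W_congr38 (hd : d.Ok) (l : ℕ) (η : ℝ) {n k : ℕ} (hk : 2 * n ≤ k) (p : Pt) (u v : ℝ)
    (hi : iso d l (k + 1) p) :
    W38 d l η n (upd l (cj d l k p) u v p.1, p.2) = W38 d l η n p := by
  unfold W38
  refine Finset.prod_congr rfl fun i hi2 => ?_
  have h1 := Finset.mem_range.1 hi2
  have h2 := (upd_congr hd hi u v).2
  rw [h2 (2 * i) (by omega), h2 (2 * i + 1) (by omega)]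

private theorem iso_mono38 {l m n : ℕ} (h : m ≤ n) {p : Pt} (hi : iso d l n p) : iso d l m p :=
  fun i h1 j h2 h3 => hi i (h1.trans_le h) j (h2.trans_le h) h3

/-- `half` and its complement -/
private theorem halves38 (hd : d.Ok) {l : ℕ} (hR : ∀ (c : ℕ) (b : Bool), Rs W (l, c, b)) {k : ℕ} {Y : Pt → ℝ≥0∞} (hY : Measurable Y)
    (h : ∀ (p : Pt) (u v : ℝ), iso d l (k + 1) p → Y (upd l (cj d l k p) u v p.1, p.2) = Y p)
    (hfin : ∫⁻ p, {p | iso d l (k + 1) p}.indicator Y p ∂(W.prod (volume : Measure T2)) ≠ ⊤) :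
    ∫⁻ p, {p | iso d l (k + 1) p ∧ ¬ good d l k p}.indicator Y p ∂(W.prod (volume : Measure T2)) =
      2⁻¹ * ∫⁻ p, {p | iso d l (k + 1) p}.indicator Y p ∂(W.prod (volume : Measure T2)) := by
  have h1 := halfL hd hR hY h
  have hm : MeasurableSet {p | iso d l (k + 1) p ∧ good d l k p} :=
    (meas_iso hd l (k + 1)).inter (meas_good hd l k)
  have h2 : ∫⁻ p, {p | iso d l (k + 1) p}.indicator Y p ∂(W.prod (volume : Measure T2)) =
      ∫⁻ p, {p | iso d l (k + 1) p ∧ good d l k p}.indicator Y p ∂(W.prod (volume : Measure T2)) +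
      ∫⁻ p, {p | iso d l (k + 1) p ∧ ¬ good d l k p}.indicator Y p ∂(W.prod (volume : Measure T2)) := by
    rw [← lintegral_add_left (hY.indicator hm)]
    refine lintegral_congr fun p => ?_
    by_cases hp : iso d l (k + 1) p
    · by_cases hg : good d l k p
      · simp [Set.indicator, hp, hg]
      · simp [Set.indicator, hp, hg]
    · simp [Set.indicator, hp]
  set A := ∫⁻ p, {p | iso d l (k + 1) p}.indicator Y p ∂(W.prod (volume : Measure T2)) with hA
  set B := ∫⁻ p, {p | iso d l (k + 1) p ∧ ¬ good d l k p}.indicator Y p ∂(W.prod (volume : Measure T2)) with hB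
  rw [h1] at h2
  have h3 : (2⁻¹ : ℝ≥0∞) * A + 2⁻¹ * A = A := by
    rw [← add_mul, ENNReal.inv_two_add_inv_two, one_mul]
  have h4 : (2⁻¹ : ℝ≥0∞) * A ≠ ⊤ := ENNReal.mul_ne_top (by norm_num) hfin
  have h5 : (2⁻¹ : ℝ≥0∞) * A + B = 2⁻¹ * A + 2⁻¹ * A := by rw [← h2, h3]
  exact (ENNReal.add_right_inj h4).1 h5

private noncomputable def A38 (W : Measure Om) (d : Dat) (l : ℕ) (η : ℝ) (n m : ℕ) : ℝ≥0∞ :=
  ∫⁻ p, {p | iso d l m p}.indicator (fun p => ENNReal.ofReal (W38 d l η n p)) p ∂(W.prod (volume : Measure T2))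

private theorem W_le38 (d : Dat) (l : ℕ) {η : ℝ} (h0 : 0 ≤ η) (h1 : η ≤ 1) (n : ℕ) (p : Pt) :
    W38 d l η n p ≤ 1 := by
  unfold W38
  refine Finset.prod_le_one (fun i _ => ?_) fun i _ => ?_
  · split_ifs
    · exact h0
    · exact zero_le_one
  · split_ifs
    · exact h1
    · exact le_rfl

private theorem ind_le38 (W : Measure Om) [IsProbabilityMeasure W] (S : Set Pt) {Y : Pt → ℝ≥0∞} (hY : ∀ p, Y p ≤ 1) :
    ∫⁻ p, S.indicator Y p ∂(W.prod (volume : Measure T2)) ≤ 1 := by
  calc ∫⁻ p, S.indicator Y p ∂(W.prod (volume : Measure T2)) ≤ ∫⁻ _, 1 ∂(W.prod (volume : Measure T2)) := lintegral_mono fun p => by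
        by_cases h : p ∈ S
        · rw [Set.indicator_of_mem h]
          exact hY p
        · rw [Set.indicator_of_notMem h]
          exact zero_le_one
    _ = 1 := by rw [lintegral_one, measure_univ]

private theorem step38 (hd : d.Ok) {l : ℕ} (hR : ∀ (c : ℕ) (b : Bool), Rs W (l, c, b)) (n : ℕ) {η : ℝ} (h0 : 0 ≤ η) (h1 : η ≤ 1) :
    A38 W d l η (n + 1) (2 * (n + 1)) ≤ ENNReal.ofReal (1 - (1 - η) / 4) * A38 W d l η n (2 * n) := by
  classical
  have hYm : Measurable fun p => ENNReal.ofReal (W38 d l η n p) :=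
    ENNReal.measurable_ofReal.comp (meas_W38 hd l η n)
  have hY1 : ∀ p, ENNReal.ofReal (W38 d l η n p) ≤ 1 := fun p => by
    rw [← ENNReal.ofReal_one]
    exact ENNReal.ofReal_le_ofReal (W_le38 d l h0 h1 n p)
  set Y : Pt → ℝ≥0∞ := fun p => ENNReal.ofReal (W38 d l η n p) with hY
  set G : Set Pt := {p | good d l (2 * n) p} with hG
  have hGm : MeasurableSet G := meas_good hd l (2 * n)
  set Z : Pt → ℝ≥0∞ := G.indicator Y with hZ
  have hZm : Measurable Z := hYm.indicator hGm
  have hZ1 : ∀ p, Z p ≤ 1 := fun p => by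
    rw [hZ]
    by_cases h : p ∈ G
    · rw [Set.indicator_of_mem h]
      exact hY1 p
    · rw [Set.indicator_of_notMem h]
      exact zero_le_one
  have cY : ∀ (p : Pt) (u v : ℝ), iso d l (2 * n + 1) p →
      Y (upd l (cj d l (2 * n) p) u v p.1, p.2) = Y p := by
    intro p u v hi
    show ENNReal.ofReal _ = ENNReal.ofReal _
    rw [W_congr38 hd l η le_rfl p u v hi]
  have cZ : ∀ (p : Pt) (u v : ℝ), iso d l (2 * n + 1 + 1) p →
      Z (upd l (cj d l (2 * n + 1) p) u v p.1, p.2) = Z p := by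
    intro p u v hi
    have e1 : Y (upd l (cj d l (2 * n + 1) p) u v p.1, p.2) = Y p := by
      show ENNReal.ofReal _ = ENNReal.ofReal _
      rw [W_congr38 hd l η (by omega) p u v hi]
    have e2 := (upd_congr hd hi u v).2 (2 * n) (by omega)
    by_cases hg : good d l (2 * n) p
    · have m1 : p ∈ G := hg
      have m2 : (upd l (cj d l (2 * n + 1) p) u v p.1, p.2) ∈ G := e2.2 hg
      rw [hZ, Set.indicator_of_mem m1, Set.indicator_of_mem m2, e1]
    · have m1 : p ∉ G := hg
      have m2 : (upd l (cj d l (2 * n + 1) p) u v p.1, p.2) ∉ G := fun h => hg (e2.1 h)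
      rw [hZ, Set.indicator_of_notMem m1, Set.indicator_of_notMem m2]
  -- the four integrals
  have f1 := halfL hd hR hZm cZ
  have f2 := halves38 hd hR hZm cZ ((ind_le38 W _ hZ1).trans_lt ENNReal.one_lt_top).ne
  have f3 := halfL hd hR hYm cY
  have f4 := halves38 hd hR hYm cY ((ind_le38 W _ hY1).trans_lt ENNReal.one_lt_top).ne
  set b := ∫⁻ p, {p | iso d l (2 * n + 1 + 1) p}.indicator Z p ∂(W.prod (volume : Measure T2)) with hb
  set A := ∫⁻ p, {p | iso d l (2 * n + 1) p}.indicator Y p ∂(W.prod (volume : Measure T2)) with hA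
  have mI : MeasurableSet {p | iso d l (2 * n + 1 + 1) p} := meas_iso hd l _
  have mG1 : MeasurableSet {p | good d l (2 * n + 1) p} := meas_good hd l _
  have mI1 : MeasurableSet {p | iso d l (2 * n + 1) p} := meas_iso hd l _
  -- splitting of the new integral
  have s1 : A38 W d l η (n + 1) (2 * (n + 1)) =
      ENNReal.ofReal η * ∫⁻ p, {p | iso d l (2 * n + 1 + 1) p ∧ good d l (2 * n + 1) p}.indicator Z p ∂(W.prod (volume : Measure T2)) +
      (∫⁻ p, {p | iso d l (2 * n + 1 + 1) p ∧ ¬ good d l (2 * n + 1) p}.indicator Z p ∂(W.prod (volume : Measure T2)) +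
      ∫⁻ p, {p | iso d l (2 * n + 1 + 1) p ∧ ¬ good d l (2 * n) p}.indicator Y p ∂(W.prod (volume : Measure T2))) := by
    have k1 : Measurable fun p => {p | iso d l (2 * n + 1 + 1) p ∧ good d l (2 * n + 1) p}.indicator Z p :=
      hZm.indicator (mI.inter mG1)
    have k2 : Measurable fun p => {p | iso d l (2 * n + 1 + 1) p ∧ ¬ good d l (2 * n + 1) p}.indicator Z p :=
      hZm.indicator (mI.inter mG1.compl)
    rw [← lintegral_const_mul _ k1, ← lintegral_add_left k2, ← lintegral_add_left (k1.const_mul _)]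
    unfold A38
    refine lintegral_congr fun p => ?_
    rw [show 2 * (n + 1) = 2 * n + 1 + 1 by ring]
    by_cases hp : iso d l (2 * n + 1 + 1) p
    · by_cases hg0 : good d l (2 * n) p
      · by_cases hg1 : good d l (2 * n + 1) p
        · simp only [Set.indicator, Set.mem_ofPred_eq, hp, hg0, hg1, W_succ38, hZ, hG, hY, and_self,
            not_true_eq_false, and_false, if_true, if_false, add_zero]
          rw [mul_comm, ENNReal.ofReal_mul h0]
        · simp [Set.indicator, hp, hg0, hg1, W_succ38, hZ, hG, hY]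
      · simp [Set.indicator, hp, hg0, W_succ38, hZ, hG, hY]
    · simp [Set.indicator, hp]
  have s2 : ∫⁻ p, {p | iso d l (2 * n + 1 + 1) p ∧ ¬ good d l (2 * n) p}.indicator Y p ∂(W.prod (volume : Measure T2)) ≤ 2⁻¹ * A := by
    rw [← f4]
    refine lintegral_mono fun p => ?_
    refine Set.indicator_le_indicator_of_subset ?_ (fun _ => zero_le) p
    intro q hq
    exact ⟨iso_mono38 (by omega) hq.1, hq.2⟩
  have s3 : b ≤ 2⁻¹ * A := by
    rw [← f3, hb]
    refine lintegral_mono fun p => ?_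
    by_cases hp : iso d l (2 * n + 1 + 1) p
    · by_cases hg : good d l (2 * n) p
      · have hp1 := iso_mono38 (l := l) (d := d) (show 2 * n + 1 ≤ 2 * n + 1 + 1 by omega) hp
        simp [Set.indicator, hp, hg, hp1, hZ, hG]
      · simp [Set.indicator, hg, hZ, hG]
    · simp [Set.indicator, hp]
  have s4 : A ≤ A38 W d l η n (2 * n) := by
    rw [hA]
    unfold A38
    refine lintegral_mono fun p => ?_
    refine Set.indicator_le_indicator_of_subset ?_ (fun _ => zero_le) p
    intro q hq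
    exact iso_mono38 (by omega) hq
  rw [s1, f1, f2]
  calc ENNReal.ofReal η * (2⁻¹ * b) + (2⁻¹ * b +
        ∫⁻ p, {p | iso d l (2 * n + 1 + 1) p ∧ ¬ good d l (2 * n) p}.indicator Y p ∂(W.prod (volume : Measure T2)))
      ≤ ENNReal.ofReal η * (2⁻¹ * (2⁻¹ * A)) + (2⁻¹ * (2⁻¹ * A) + 2⁻¹ * A) := by
        gcongr
    _ = ENNReal.ofReal (1 - (1 - η) / 4) * A := by
        have e2 : (2⁻¹ : ℝ≥0∞) = ENNReal.ofReal (1 / 2) := by
          rw [one_div, ENNReal.ofReal_inv_of_pos (by norm_num), ENNReal.ofReal_ofNat]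
        rw [e2, ← mul_assoc (ENNReal.ofReal (1 / 2)) _ A, ← mul_assoc, ← add_mul, ← add_mul,
          ← ENNReal.ofReal_mul (by norm_num), ← ENNReal.ofReal_mul h0,
          ← ENNReal.ofReal_add (by norm_num) (by norm_num), ← ENNReal.ofReal_add (by positivity) (by norm_num)]
        congr 2
        ring
    _ ≤ ENNReal.ofReal (1 - (1 - η) / 4) * A38 W d l η n (2 * n) := by gcongr

private theorem bound38 (hd : d.Ok) {l : ℕ} (hR : ∀ (c : ℕ) (b : Bool), Rs W (l, c, b)) (n : ℕ) {η : ℝ} (h0 : 0 ≤ η) (h1 : η ≤ 1) :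
    A38 W d l η n (2 * n) ≤ ENNReal.ofReal ((1 - (1 - η) / 4) ^ n) := by
  have hc : 0 ≤ 1 - (1 - η) / 4 := by linarith
  induction n with
  | zero =>
    rw [pow_zero, ENNReal.ofReal_one]
    exact ind_le38 W _ fun p => by rw [W_zero38, ENNReal.ofReal_one]
  | succ n ih =>
    refine (step38 hd hR n h0 h1).trans ?_
    rw [pow_succ', ENNReal.ofReal_mul hc]
    gcongr

open Classical in
theorem good_allL (hd : d.Ok) {l : ℕ} (hR : ∀ (c : ℕ) (b : Bool), Rs W (l, c, b)) (n : ℕ) {η : ℝ} (h0 : 0 ≤ η) (h1 : η ≤ 1) :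
    ∫ p, (if iso d l (2 * n) p then ∏ i ∈ Finset.range n,
      (if good d l (2 * i) p ∧ good d l (2 * i + 1) p then η else 1) else 0) ∂(W.prod (volume : Measure T2)) ≤
      (1 - (1 - η) / 4) ^ n := by
  have hc : 0 ≤ 1 - (1 - η) / 4 := by linarith
  have e1 : (fun p : Pt => (if iso d l (2 * n) p then ∏ i ∈ Finset.range n,
      (if good d l (2 * i) p ∧ good d l (2 * i + 1) p then η else 1) else 0)) =
      fun p => if iso d l (2 * n) p then W38 d l η n p else 0 := by
    funext p
    unfold W38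
    rfl
  rw [e1]
  have hn : ∀ p : Pt, 0 ≤ (if iso d l (2 * n) p then W38 d l η n p else 0) := by
    intro p
    split_ifs
    · exact W_nonneg38 d l h0 n p
    · exact le_rfl
  have hm : Measurable fun p : Pt => (if iso d l (2 * n) p then W38 d l η n p else 0) :=
    Measurable.ite (meas_iso hd l (2 * n)) (meas_W38 hd l η n) measurable_const
  rw [integral_eq_lintegral_of_nonneg_ae (Filter.Eventually.of_forall hn) hm.aestronglyMeasurable]
  refine ENNReal.toReal_le_of_le_ofReal (pow_nonneg hc n) ?_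
  refine le_trans (le_of_eq ?_) (bound38 hd hR n h0 h1)
  unfold A38
  refine lintegral_congr fun p => ?_
  by_cases hp : iso d l (2 * n) p
  · simp [Set.indicator, hp]
  · simp [Set.indicator, hp]

end Pool.Agent.Helper18.HA
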