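import Pool.Agent.Helper18.HA.GoodB
import Pool.Agent.Helper18.HA.FlipC
import Pool.Agent.Helper18.HY.GrowA

/-! Block HA-GROWA: the mean of `1/|product|` on the isolated event for the law `W`. Port of `HY/GrowA.lean`. -/

set_option autoImplicit false
open MeasureTheory Real Set Filter Topology
open scoped ENNReal

namespace Pool.Agent.Helper18.HA

open Pool.Agent.Helper18.HY
open Pool.Agent.Helper72.AP (Rs mx Lc Kk Ent2)
open Pool.Agent.Helper18.UC (T2 rep toT nn)
open Pool.Agent.Helper18.FD (NN rr pr cl uu lm Bump k1 k2 NN_pos NN_ge)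
open Pool.Agent.Helper95.PV (Ix Om PP lv rp tc inn out cel upd mv mu Pt rv)

variable {d : Dat} {W : Measure Om} [IsProbabilityMeasure W]

open Classical in
theorem grow_intL (hd : d.Ok) {l : ℕ} (hR : ∀ (c : ℕ) (b : Bool), Rs W (l, c, b)) (n : ℕ) (hσ : sg d l ≤ 1) :
    ∫ p, (if iso d l (2 * n) p then (nn (Mm d (2 * n) p))⁻¹ else 0) ∂(W.prod (volume : Measure T2)) ≤
      (1 - sg d l ^ 2 / 200000) ^ n := by
  have hs := sg_pos hd l
  obtain ⟨η, hη⟩ : ∃ η, η = 1 - sg d l ^ 2 / 50000 := ⟨_, rfl⟩
  have hs2 : sg d l ^ 2 ≤ 1 := pow_le_one₀ hs.le hσ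
  have h0 : 0 ≤ η := by rw [hη]; linarith
  have h1 : η ≤ 1 := by rw [hη]; linarith [sq_nonneg (sg d l)]
  have e : 1 - sg d l ^ 2 / 200000 = 1 - (1 - η) / 4 := by rw [hη]; ring
  rw [e, flip_allL hd hR (2 * n)]
  refine le_trans ?_ (good_allL hd hR n h0 h1)
  have hpb : ∀ p, 0 ≤ (∏ i ∈ Finset.range n,
      (if good d l (2 * i) p ∧ good d l (2 * i + 1) p then η else 1) : ℝ) ∧
      (∏ i ∈ Finset.range n,
      (if good d l (2 * i) p ∧ good d l (2 * i + 1) p then η else 1) : ℝ) ≤ 1 := by
    intro p
    constructor
    · apply Finset.prod_nonneg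
      intro i _
      split_ifs
      · exact h0
      · exact zero_le_one
    · apply Finset.prod_le_one
      · intro i _
        split_ifs
        · exact h0
        · exact zero_le_one
      · intro i _
        split_ifs
        · exact h1
        · exact le_rfl
  apply integral_mono_of_nonneg
  · refine Filter.Eventually.of_forall fun p => ?_
    simp only [Pi.zero_apply]
    split_ifs
    · exact (Av_bd _ _ _).1
    · exact le_rfl
  · refine Integrable.mono' (g := fun _ => (1 : ℝ)) (integrable_const _) ?_ ?_
    · apply Measurable.aestronglyMeasurable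
      refine Measurable.ite (meas_iso hd l (2 * n)) ?_ measurable_const
      refine Finset.measurable_prod _ fun i _ => ?_
      exact Measurable.ite ((meas_good hd l (2 * i)).inter (meas_good hd l (2 * i + 1)))
        measurable_const measurable_const
    · refine Filter.Eventually.of_forall fun p => ?_
      rw [Real.norm_eq_abs]
      split_ifs
      · rw [abs_of_nonneg (hpb p).1]
        exact (hpb p).2
      · rw [abs_zero]
        exact zero_le_one
  · refine Filter.Eventually.of_forall fun p => ?_
    show (if iso d l (2 * n) p then Av (fun j => vj d j p) (fun j => vs d l j p) (2 * n) 1 else 0) ≤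
      (if iso d l (2 * n) p then ∏ i ∈ Finset.range n,
      (if good d l (2 * i) p ∧ good d l (2 * i + 1) p then η else 1) else 0)
    split_ifs with hi
    · refine (av_le hs hσ _ _ n).trans (le_of_eq ?_)
      apply Finset.prod_congr rfl
      intro i _
      simp only [vs_iff hd]
      rw [hη]
    · exact le_rfl

end Pool.Agent.Helper18.HA
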