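import Pool.Agent.Helper18.HA.Upd
import Pool.Agent.Helper72.AP.Net

/-! Block HA-LAW: concentration for one datum. Port of `single` in `Helper72/AP/Law.lean` for `f = ff` and `f = gr`: first the common lemma `conc` for a measurable bounded function `f` with influences `c / NN l`. -/

set_option autoImplicit false
open MeasureTheory Real Set Filter Topology
open scoped ENNReal

namespace Pool.Agent.Helper18.HA

open Pool.Agent.Helper18.HY
open Pool.Agent.Helper72.AP (Rs mx Lc Kk Ent2)
open Pool.Agent.Helper18.UC (T2 rep toT nn)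
open Pool.Agent.Helper18.FD (NN rr pr cl uu lm Bump k1 k2 NN_pos NN_ge)
open Pool.Agent.Helper95.PV (Ix Om PP lv rp tc inn out cel upd mv mu Pt rv)

theorem fr_Lc (lo : ℕ) (ω : Om) : Fr (Lc lo ω) lo :=
  fun _ h => Pool.Agent.Helper72.AP.rs_Lc h ω

theorem conc {f : Om → ℝ} (hf : Measurable f) {K : ℝ} (hK : ∀ ω, |f ω| ≤ K) {c : ℝ} (hc : 0 < c)
    (hu : ∀ (ω : Om) (l j : ℕ) (b : Bool) (u : ℝ), |f (Function.update ω (l, j, b) u) - f ω| ≤ c / NN l)
    {lo hi : ℕ} (hlh : lo < hi) {E M t : ℝ} (ht : 0 ≤ t)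
    (hE : ∀ ω ω' : Om, (∀ i : Ix, i.1 < hi → i.2.1 < NN i.1 → ω i = ω' i) → |f ω - f ω'| ≤ E)
    (hM : ∀ ω : Om, ∫ η, f (mx lo ω η) ∂PP ≤ M) :
    PP {ω | M + E + t ≤ f ω} ≤ ENNReal.ofReal (Real.exp (-(t ^ 2 * NN lo / (8 * c ^ 2)))) := by
  have hmean : ∀ ω : Om, ∫ η : Om, f (fun i => if i ∈ Pool.Agent.Helper72.AP.SS lo hi then η i else ω i) ∂PP ≤
      M + E := by
    intro ω
    have hm1 : Measurable fun η : Om =>
        (fun i : Ix => if i ∈ Pool.Agent.Helper72.AP.SS lo hi then η i else ω i) := by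
      rw [measurable_pi_iff]
      intro i
      by_cases h : i ∈ Pool.Agent.Helper72.AP.SS lo hi
      · simp only [h, if_true]
        exact measurable_pi_apply i
      · simp only [h, if_false]
        exact measurable_const
    have i1 : Integrable (fun η : Om =>
        f (fun i => if i ∈ Pool.Agent.Helper72.AP.SS lo hi then η i else ω i)) PP :=
      Integrable.of_bound (hf.comp hm1).aestronglyMeasurable K (Eventually.of_forall fun η => hK _)
    have i2 : Integrable (fun η : Om => f (mx lo ω η)) PP :=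
      Integrable.of_bound (hf.comp (Pool.Agent.Helper72.AP.meas_mx lo ω)).aestronglyMeasurable K
        (Eventually.of_forall fun η => hK _)
    have h1 : ∫ η : Om, f (fun i => if i ∈ Pool.Agent.Helper72.AP.SS lo hi then η i else ω i) ∂PP ≤
        ∫ η : Om, (f (mx lo ω η) + E) ∂PP := by
      refine integral_mono i1 (i2.add (integrable_const E)) fun η => ?_
      have h2 := hE (fun i => if i ∈ Pool.Agent.Helper72.AP.SS lo hi then η i else ω i) (mx lo ω η) (by
        intro i hi1 hi2
        unfold mx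
        by_cases hl : lo ≤ i.1
        · rw [if_pos (Pool.Agent.Helper72.AP.mem_SS.2 ⟨hl, hi1, hi2⟩), if_pos hl]
        · rw [if_neg (fun h => hl (Pool.Agent.Helper72.AP.mem_SS.1 h).1), if_neg hl])
      rw [abs_le] at h2
      show f (fun i => if i ∈ Pool.Agent.Helper72.AP.SS lo hi then η i else ω i) ≤ f (mx lo ω η) + E
      linarith [h2.2]
    rw [integral_add i2 (integrable_const E), integral_const, probReal_univ, one_smul] at h1
    linarith [hM ω]
  have h := Pool.Agent.Helper72.AP.mcd (L := PP) inferInstance (S := Pool.Agent.Helper72.AP.SS lo hi)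
    (fun i _ => Pool.Agent.Helper72.AP.rs_PP i) hf hK (c := fun i => c / NN i.1)
    (fun i _ ω u => hu ω i.1 i.2.1 i.2.2 u) ht hmean
  refine h.trans (ENNReal.ofReal_le_ofReal (Real.exp_le_exp.2 (neg_le_neg ?_)))
  have hs := Pool.Agent.Helper72.AP.sum_SS lo hi c
  have hN0 : (0 : ℝ) < NN lo := NN_pos lo
  have h0 : 0 < ∑ i ∈ Pool.Agent.Helper72.AP.SS lo hi, (c / (NN i.1 : ℝ)) ^ 2 := by
    have hmem : ((lo, 0, false) : Ix) ∈ Pool.Agent.Helper72.AP.SS lo hi :=
      Pool.Agent.Helper72.AP.mem_SS.2 ⟨le_rfl, hlh, by unfold NN; positivity⟩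
    refine lt_of_lt_of_le ?_ (Finset.single_le_sum (fun i _ => sq_nonneg (c / (NN i.1 : ℝ))) hmem)
    show 0 < (c / (NN lo : ℝ)) ^ 2
    positivity
  have h1 : t ^ 2 * NN lo / (8 * c ^ 2) = t ^ 2 / (2 * (4 * c ^ 2 / NN lo)) := by
    field_simp
    ring
  rw [h1]
  exact div_le_div_of_nonneg_left (sq_nonneg t) (by linarith) (by linarith)

end Pool.Agent.Helper18.HA
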