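import Pool.Agent.Helper18.HA.Ev
import Pool.Agent.Helper18.HA.Fix

/-! HA-MAIN: almost every noise, all couplings and backgrounds of the box. -/

set_option autoImplicit false
open MeasureTheory Real Set Filter Topology
open scoped ENNReal

namespace Pool.Agent.Helper18.HA

open Pool.Agent.Helper18.HY
open Pool.Agent.Helper72.AP (Rs mx Lc Kk Ent2)
open Pool.Agent.Helper18.UC (T2 rep toT nn)
open Pool.Agent.Helper18.FD (NN rr pr cl uu lm Bump k1 k2 NN_pos NN_ge)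
open Pool.Agent.Helper95.PV (Ix Om PP lv rp tc inn out cel upd mv mu Pt rv)

private theorem lim18 : Tendsto (fun i : ℕ => 2 * (2 : ℝ) ^ (-(i : ℝ)) + 3 / ((i : ℝ) + 1)) atTop (𝓝 0) := by
  have h1 : Tendsto (fun i : ℕ => (2 : ℝ) ^ (-(i : ℝ))) atTop (𝓝 0) := by
    have h2 : Tendsto (fun i : ℕ => (1 / 2 : ℝ) ^ i) atTop (𝓝 0) :=
      tendsto_pow_atTop_nhds_zero_of_lt_one (by norm_num) (by norm_num)
    refine h2.congr fun i => ?_
    rw [Real.rpow_neg (by norm_num), Real.rpow_natCast, one_div, inv_pow]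
  have h2 : Tendsto (fun i : ℕ => 3 / ((i : ℝ) + 1)) atTop (𝓝 0) := by
    have h3 := (tendsto_one_div_add_atTop_nhds_zero_nat (𝕜 := ℝ)).const_mul 3
    rw [mul_zero] at h3
    refine h3.congr fun i => ?_
    ring
  have h3 := (h1.const_mul 2).add h2
  rw [mul_zero, add_zero] at h3
  exact h3

theorem mainA {χ : ℝ → ℝ} {k : ℕ → ℝ} {a R κ₀ κ₁ : ℝ} {𝒢 : Set Kk} (hB : Box χ k a R κ₀ κ₁ 𝒢) :
    ∀ᵐ ω ∂PP, ∀ (κ : ℝ) (g : Kk), κ₀ ≤ κ → κ ≤ κ₁ → g ∈ 𝒢 →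
      ∃ G : T2 → ℝ, Measurable G ∧ (∀ᵐ z, 0 < G z) ∧
        ∀ᵐ z, Tendsto (fun n : ℕ => Real.log (nn (Mm (dt R χ k a κ g) n (ω, z))) / n) atTop (𝓝 (G z)) := by
  obtain ⟨C, i₀, h⟩ := event hB
  obtain ⟨B, hBd⟩ : ∃ B : ℕ → Set Om, ∀ i, B i = {ω | ∃ (κ : ℝ) (g : Kk), κ₀ ≤ κ ∧ κ ≤ κ₁ ∧ g ∈ 𝒢 ∧
      (C * ((i : ℝ) + 1) ^ 3 < ff (dt R χ k a κ g) ω (2 ^ i) ∨
        2 * (2 : ℝ) ^ (-(i : ℝ)) + 3 / ((i : ℝ) + 1) < gr (dt R χ k a κ g) ω i)} := ⟨_, fun _ => rfl⟩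
  have h1 : ∑' i, PP (B (i + i₀)) ≠ ⊤ := by
    have h2 : ∀ i, PP (B (i + i₀)) ≤ ENNReal.ofReal (Real.exp (-(i : ℝ))) := by
      intro i
      rw [hBd]
      refine (h (i + i₀) (by omega)).trans (ENNReal.ofReal_le_ofReal (Real.exp_le_exp.2 (neg_le_neg ?_)))
      push_cast
      have : (0 : ℝ) ≤ i₀ := Nat.cast_nonneg i₀
      linarith
    refine ne_top_of_le_ne_top ?_ (ENNReal.tsum_le_tsum h2)
    exact (Real.summable_exp_neg_nat).tsum_ofReal_ne_top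
  filter_upwards [ae_eventually_notMem h1] with ω hω
  intro κ g v1 v2 v3
  obtain ⟨i₁, hi₁⟩ := eventually_atTop.1 hω
  have key : ∀ i, i₀ + i₁ ≤ i → ω ∉ B i := by
    intro i hi
    have := hi₁ (i - i₀) (by omega)
    rwa [Nat.sub_add_cancel (by omega)] at this
  refine fix (hB.ok κ g v1 v2 v3) ω (C := C) (i₀ := i₀ + i₁) ?_ ?_
  · intro i hi
    by_contra hcon
    refine key i hi ?_
    rw [hBd]
    exact ⟨κ, g, v1, v2, v3, Or.inl (not_le.1 hcon)⟩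
  · intro ε hε
    obtain ⟨i₂, hi₂⟩ := eventually_atTop.1 (lim18.eventually (ge_mem_nhds hε))
    refine ⟨max (i₀ + i₁) i₂, fun i hi => ?_⟩
    refine le_trans ?_ (hi₂ i ((le_max_right _ _).trans hi))
    by_contra hcon
    refine key i ((le_max_left _ _).trans hi) ?_
    rw [hBd]
    exact ⟨κ, g, v1, v2, v3, Or.inr (not_le.1 hcon)⟩

end Pool.Agent.Helper18.HA
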