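import Pool.Agent.Helper18.HY.Dbl
import Pool.Agent.Helper18.HY.Qrec
import Pool.Agent.Helper72.AP.Defs
import Pool.Agent.Helper18.AL.Kick

/-! Project HA (all parameters at once): the random standard map for any law `W` of the noise: the skew product preserves `W.prod volume`, resampling of a cell. Port of `Helper18/AM/Meas.lean`. -/

set_option autoImplicit false
open MeasureTheory Real Set
open scoped ENNReal

namespace Pool.Agent.Helper18.HA

open Pool.Agent.Helper18.HY
open Pool.Agent.Helper72.AP (Rs mx Lc)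
open Pool.Agent.Helper18.UC (T2 rep toT nn nn_nonneg nn_mul nn_one)
open Pool.Agent.Helper18.FD (NN rr pr cl uu lm Bump k1 k2 NN_pos NN_ge)
open Pool.Agent.Helper95.PV (Ix Om PP lv rp tc inn out cel upd mv mu Pt rv)

variable {d : Dat} {W : Measure Om} [IsProbabilityMeasure W]

instance instProbT : IsProbabilityMeasure (volume : Measure T2) := Pool.Agent.Helper18.PV.instProbT2

theorem sk_mpL (hd : d.Ok) : MeasurePreserving (sk d) (W.prod (volume : Measure T2)) (W.prod (volume : Measure T2)) := by
  have hm : Measurable (Function.uncurry fun (ω : Om) (z : T2) => Tw d ω z) :=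
    measurable_snd.comp (meas_sk hd)
  have h := (MeasurePreserving.id W).skew_product (μc := (volume : Measure T2)) (μd := (volume : Measure T2))
    (g := fun ω z => Tw d ω z) hm
    (Filter.Eventually.of_forall fun ω => (Tw_mp hd ω).map_eq)
  unfold sk
  exact h

theorem sk_iter_mpL (hd : d.Ok) (n : ℕ) :
    MeasurePreserving ((sk d)^[n]) (W.prod (volume : Measure T2)) (W.prod (volume : Measure T2)) :=
  (sk_mpL hd).iterate n

theorem int_log_nnL (hd : d.Ok) (n : ℕ) :
    Integrable (fun p => Real.log (nn (Mm d n p))) (W.prod (volume : Measure T2)) := by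
  refine Integrable.of_bound (Real.measurable_log.comp (meas_nn hd n)).aestronglyMeasurable
    (Real.log 2 + n * (3 * Real.log |d.a|)) (Filter.Eventually.of_forall fun p => ?_)
  obtain ⟨h1, h2⟩ := log_nn_bd hd n p
  rw [Real.norm_eq_abs, abs_of_nonneg h1]
  exact h2

/-- the mean growth for the law `L` -/
noncomputable def EmL (L : Measure Om) (d : Dat) (m : ℕ) : ℝ :=
  ∫ p, Real.log (nn (Mm d m p)) ∂(L.prod (volume : Measure T2))

theorem Em_skL (hd : d.Ok) (n i : ℕ) :
    ∫ p, Real.log (nn (Mm d n ((sk d)^[i] p))) ∂(W.prod (volume : Measure T2)) = EmL W d n := by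
  have h := sk_iter_mpL (W := W) hd i
  have h1 : Measurable fun p => Real.log (nn (Mm d n p)) := Real.measurable_log.comp (meas_nn hd n)
  have h2 := integral_map (μ := W.prod (volume : Measure T2)) (φ := (sk d)^[i]) h.measurable.aemeasurable
    (f := fun p => Real.log (nn (Mm d n p))) h1.aestronglyMeasurable
  rw [h.map_eq] at h2
  exact h2.symm

/-- resampling of the two coordinates of a cell -/
theorem res2L (l i : ℕ) (h0 : Rs W (l, i, false)) (h1 : Rs W (l, i, true)) {F : Om → ℝ≥0∞} (hF : Measurable F) :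
    ∫⁻ ω, F ω ∂W = ∫⁻ ω, ∫⁻ u, ∫⁻ v, F (upd l i u v ω) ∂uu ∂uu ∂W :=
  Pool.Agent.Helper18.AL.res2 (W := W) (i := ((l, i, false) : Ix)) (j := ((l, i, true) : Ix)) h0 h1 hF

end Pool.Agent.Helper18.HA
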