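import Pool.Agent.Helper18.HA.Fin

/-! Project HA: the spaces `B_γ`: the noise is in `B_γ` for a small `γ`; single potentials in `B_γ` as backgrounds. -/

set_option autoImplicit false
open MeasureTheory Real Set Filter Topology
open scoped ENNReal

namespace Pool.Agent.Helper18.HA

open Pool.Agent.Helper18.HY
open Pool.Agent.Helper72.AP (Rs mx Lc Kk Ent2 grid)
open Pool.Agent.Helper18.UC (T2 rep toT nn)
open Pool.Agent.Helper18.FD (NN rr pr cl uu lm Bump k1 k2 NN_pos NN_ge ae_plane)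
open Pool.Agent.Helper95.PV (Ix Om PP lv rp tc inn out cel upd mv mu Pt rv)
open Pool.Agent.Helper95.PF (law loc law_eq Cube ae_cube der1 der2 per_deriv)

/-- the tail of the amplitudes -/
theorem tl_all {k : ℕ → ℝ} (hk : ∀ l, 0 ≤ k l)
    (h : ∃ γ : ℝ, 0 < γ ∧ ∀ᶠ l : ℕ in atTop, k l ≤ Real.exp (-(l : ℝ) ^ γ)) :
    ∃ C γ : ℝ, 0 ≤ C ∧ 0 < γ ∧ γ ≤ 1 ∧ ∀ n : ℕ, tl k n ≤ C * Real.exp (-(n : ℝ) ^ γ) := by
  have hs := up_sum hk h
  obtain ⟨γ, hγ, hev⟩ := h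
  obtain ⟨l₀, hl₀⟩ := eventually_atTop.1 hev
  -- a common constant
  obtain ⟨B, hB0, hB⟩ : ∃ B : ℝ, 0 ≤ B ∧ ∀ l, k l ≤ B * Real.exp (-(l : ℝ) ^ γ) := by
    refine ⟨1 + ∑ l ∈ Finset.range l₀, k l * Real.exp ((l : ℝ) ^ γ), ?_, fun l => ?_⟩
    · have : 0 ≤ ∑ l ∈ Finset.range l₀, k l * Real.exp ((l : ℝ) ^ γ) :=
        Finset.sum_nonneg fun l _ => mul_nonneg (hk l) (Real.exp_pos _).le
      linarith
    · have h0 : 0 ≤ ∑ l ∈ Finset.range l₀, k l * Real.exp ((l : ℝ) ^ γ) :=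
        Finset.sum_nonneg fun l _ => mul_nonneg (hk l) (Real.exp_pos _).le
      have he := Real.exp_pos (-(l : ℝ) ^ γ)
      by_cases hl : l < l₀
      · have h1 := Finset.single_le_sum (f := fun l : ℕ => k l * Real.exp ((l : ℝ) ^ γ))
          (fun i _ => mul_nonneg (hk i) (Real.exp_pos _).le) (Finset.mem_range.2 hl)
        have h2 : k l = k l * Real.exp ((l : ℝ) ^ γ) * Real.exp (-(l : ℝ) ^ γ) := by
          rw [mul_assoc, ← Real.exp_add, add_neg_cancel, Real.exp_zero, mul_one]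
        calc k l = k l * Real.exp ((l : ℝ) ^ γ) * Real.exp (-(l : ℝ) ^ γ) := h2
          _ ≤ _ := mul_le_mul_of_nonneg_right (h1.trans (by linarith)) he.le
      · refine (hl₀ l (not_lt.1 hl)).trans ?_
        nlinarith
  have hS : Summable fun l : ℕ => Real.exp (-((l : ℝ) ^ γ / 2)) := by
    refine up_sum (fun l => (Real.exp_pos _).le) ⟨γ / 2, by positivity, ?_⟩
    have h3 : Tendsto (fun l : ℕ => (l : ℝ) ^ (γ / 2)) atTop atTop :=
      (tendsto_rpow_atTop (by positivity)).comp tendsto_natCast_atTop_atTop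
    filter_upwards [h3.eventually (eventually_ge_atTop 2), eventually_ge_atTop 1] with l h2 h4
    have h4' : (1 : ℝ) ≤ l := by exact_mod_cast h4
    have e : (l : ℝ) ^ γ = (l : ℝ) ^ (γ / 2) * (l : ℝ) ^ (γ / 2) := by
      rw [← Real.rpow_add (by linarith)]
      congr 1
      ring
    refine Real.exp_le_exp.2 ?_
    rw [e]
    nlinarith
  obtain ⟨D, hD⟩ : ∃ D : ℝ, D = ∑' l : ℕ, Real.exp (-((l : ℝ) ^ γ / 2)) := ⟨_, rfl⟩
  have hD0 : 0 ≤ D := by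
    rw [hD]
    exact tsum_nonneg fun l => (Real.exp_pos _).le
  have h1 : ∀ n : ℕ, tl k n ≤ B * D * Real.exp (-((n : ℝ) ^ γ / 2)) := by
    intro n
    unfold tl
    have h2 : ∀ l : ℕ, k (l + n) ≤ B * Real.exp (-((n : ℝ) ^ γ / 2)) * Real.exp (-((l : ℝ) ^ γ / 2)) := by
      intro l
      refine (hB (l + n)).trans ?_
      rw [mul_assoc, ← Real.exp_add]
      refine mul_le_mul_of_nonneg_left (Real.exp_le_exp.2 ?_) hB0
      have h4 : (n : ℝ) ^ γ ≤ ((l + n : ℕ) : ℝ) ^ γ :=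
        Real.rpow_le_rpow (Nat.cast_nonneg _) (by exact_mod_cast Nat.le_add_left _ _) hγ.le
      have h5 : (l : ℝ) ^ γ ≤ ((l + n : ℕ) : ℝ) ^ γ :=
        Real.rpow_le_rpow (Nat.cast_nonneg _) (by exact_mod_cast Nat.le_add_right _ _) hγ.le
      linarith
    have h3 := ((summable_nat_add_iff n).2 hs).tsum_le_tsum h2 (hS.mul_left _)
    rw [tsum_mul_left, ← hD] at h3
    refine h3.trans (le_of_eq ?_)
    ring
  refine ⟨B * D * Real.exp 1, min (γ / 2) 1, by positivity, lt_min (by positivity) one_pos, min_le_right _ _, fun n => ?_⟩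
  refine (h1 n).trans ?_
  rw [mul_assoc (B * D), ← Real.exp_add]
  refine mul_le_mul_of_nonneg_left (Real.exp_le_exp.2 ?_) (by positivity)
  rcases Nat.eq_zero_or_pos n with hn | hn
  · subst hn
    rw [Nat.cast_zero, Real.zero_rpow hγ.ne', Real.zero_rpow (lt_min (by positivity) one_pos).ne']
    norm_num
  · have hn' : (1 : ℝ) ≤ n := by exact_mod_cast hn
    have e : (n : ℝ) ^ γ = (n : ℝ) ^ (γ / 2) * (n : ℝ) ^ (γ / 2) := by
      rw [← Real.rpow_add (by linarith)]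
      congr 1
      ring
    have h5 : (n : ℝ) ^ min (γ / 2) 1 ≤ (n : ℝ) ^ (γ / 2) := Real.rpow_le_rpow_of_exponent_le hn' (min_le_left _ _)
    rw [e]
    nlinarith [sq_nonneg ((n : ℝ) ^ (γ / 2) - 1)]

/-- from the two-term modulus to the modulus `exp (-(log (1/t))^γ)` -/
theorem one_of_two {F : ℝ → ℝ} {C C₁ γ : ℝ} (hC : 0 ≤ C) (hC1 : 0 ≤ C₁) (hγ : 0 < γ) (hγ1 : γ ≤ 1)
    (h : ∀ (x y : ℝ) (n : ℕ), |F x - F y| ≤ C * ((NN n : ℝ) * |x - y| + C₁ * Real.exp (-(n : ℝ) ^ γ)))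
    {x y : ℝ} (h0 : 0 < |x - y|) (h1 : |x - y| < 1) :
    |F x - F y| ≤ C * (8 * Real.exp 1 + C₁ * Real.exp 3) * Real.exp (-(Real.log (1 / |x - y|)) ^ (γ / 2)) := by
  obtain ⟨t, ht⟩ : ∃ t, t = |x - y| := ⟨_, rfl⟩
  obtain ⟨u, hu⟩ : ∃ u, u = Real.log (1 / t) := ⟨_, rfl⟩
  have h' := h x y
  rw [← ht] at h0 h1 h' ⊢
  rw [← hu]
  have hu0 : 0 < u := by
    rw [hu]
    apply Real.log_pos
    rw [lt_div_iff₀ h0]
    linarith
  have htu : t = Real.exp (-u) := by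
    rw [hu, one_div, Real.log_inv, neg_neg, Real.exp_log h0]
  have hl2 := Real.log_two_gt_d9
  have hl2' := Real.log_two_lt_d9
  obtain ⟨n, hn⟩ : ∃ n : ℕ, n = ⌊u / (2 * Real.log 2)⌋₊ := ⟨_, rfl⟩
  have hn1 : (n : ℝ) ≤ u / (2 * Real.log 2) := by rw [hn]; exact Nat.floor_le (by positivity)
  have hn2 : u / (2 * Real.log 2) < n + 1 := by rw [hn]; exact Nat.lt_floor_add_one _
  rw [le_div_iff₀ (by positivity)] at hn1
  rw [div_lt_iff₀ (by positivity)] at hn2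
  have hn3 : u ≤ 2 * ((n : ℝ) + 1) := by
    have : (0 : ℝ) ≤ (n : ℝ) + 1 := by positivity
    nlinarith
  have g1 : (NN n : ℝ) * t ≤ 8 * Real.exp (-(u / 2)) := by
    have e1 : (NN n : ℝ) = 8 * Real.exp (n * Real.log 2) := by
      unfold NN
      rw [mul_comm (n : ℝ), Real.exp_mul, Real.exp_log (by norm_num), Real.rpow_natCast]
      push_cast
      rw [pow_add]
      ring
    rw [e1, htu, mul_assoc, ← Real.exp_add]
    refine mul_le_mul_of_nonneg_left (Real.exp_le_exp.2 ?_) (by norm_num)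
    nlinarith
  have g2 : u ^ (γ / 2) ≤ 1 + u / 2 := by
    rcases le_total u 1 with h | h
    · have := Real.rpow_le_one hu0.le h (show 0 ≤ γ / 2 by positivity)
      linarith
    · have h2 : u ^ (γ / 2) ≤ u ^ (1 / 2 : ℝ) := Real.rpow_le_rpow_of_exponent_le h (by linarith)
      have h3 : u ^ (1 / 2 : ℝ) = Real.sqrt u := (Real.sqrt_eq_rpow u).symm
      have h4 : Real.sqrt u ≤ (u + 1) / 2 := by
        rw [Real.sqrt_le_left (by positivity)]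
        nlinarith [sq_nonneg (u - 1)]
      linarith
  have g3 : u ^ (γ / 2) ≤ 3 + (n : ℝ) ^ γ := by
    have a1 : u ^ (γ / 2) ≤ (2 * ((n : ℝ) + 1)) ^ (γ / 2) := Real.rpow_le_rpow hu0.le hn3 (by positivity)
    have a2 : (2 * ((n : ℝ) + 1)) ^ (γ / 2) = 2 ^ (γ / 2) * ((n : ℝ) + 1) ^ (γ / 2) :=
      Real.mul_rpow (by norm_num) (by positivity)
    have a3 : (2 : ℝ) ^ (γ / 2) ≤ 2 := by
      calc (2 : ℝ) ^ (γ / 2) ≤ 2 ^ (1 : ℝ) := Real.rpow_le_rpow_of_exponent_le (by norm_num) (by linarith)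
        _ = 2 := Real.rpow_one 2
    have a4 : ((n : ℝ) + 1) ^ (γ / 2) ≤ (n : ℝ) ^ (γ / 2) + 1 := by
      have := Real.rpow_add_le_add_rpow (p := γ / 2) (Nat.cast_nonneg n : (0 : ℝ) ≤ n) (zero_le_one) (by positivity) (by linarith)
      rwa [Real.one_rpow] at this
    have a5 : (n : ℝ) ^ γ = (n : ℝ) ^ (γ / 2) * (n : ℝ) ^ (γ / 2) := by
      rcases Nat.eq_zero_or_pos n with hn0 | hn0
      · rw [hn0, Nat.cast_zero, Real.zero_rpow hγ.ne', Real.zero_rpow (by positivity)]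
        ring
      · rw [← Real.rpow_add (by exact_mod_cast hn0)]
        congr 1
        ring
    have a6 : 0 ≤ ((n : ℝ) + 1) ^ (γ / 2) := by positivity
    rw [a2] at a1
    have a7 : 2 ^ (γ / 2) * ((n : ℝ) + 1) ^ (γ / 2) ≤ 2 * ((n : ℝ) ^ (γ / 2) + 1) :=
      mul_le_mul a3 a4 a6 (by norm_num)
    rw [a5]
    nlinarith [sq_nonneg ((n : ℝ) ^ (γ / 2) - 1)]
  have g4 : Real.exp (-(u / 2)) ≤ Real.exp 1 * Real.exp (-u ^ (γ / 2)) := by
    rw [← Real.exp_add]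
    exact Real.exp_le_exp.2 (by linarith)
  have g5 : Real.exp (-(n : ℝ) ^ γ) ≤ Real.exp 3 * Real.exp (-u ^ (γ / 2)) := by
    rw [← Real.exp_add]
    exact Real.exp_le_exp.2 (by linarith)
  refine (h' n).trans ?_
  rw [mul_assoc]
  refine mul_le_mul_of_nonneg_left ?_ hC
  have g6 : C₁ * Real.exp (-(n : ℝ) ^ γ) ≤ C₁ * (Real.exp 3 * Real.exp (-u ^ (γ / 2))) :=
    mul_le_mul_of_nonneg_left g5 hC1
  have g7 : (NN n : ℝ) * t ≤ 8 * (Real.exp 1 * Real.exp (-u ^ (γ / 2))) := g1.trans (by linarith)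
  linarith

/-- the noise is in the space `B_γ` -/
theorem rough_inB {χ : ℝ → ℝ} (hχ : Bump χ) {k : ℕ → ℝ} (hk : ∀ l, 0 ≤ k l)
    (hu : ∃ γ : ℝ, 0 < γ ∧ ∀ᶠ l : ℕ in atTop, k l ≤ Real.exp (-(l : ℝ) ^ γ)) :
    ∃ γ C : ℝ, 0 < γ ∧ ∀ ω : Om, Cube ω → InB γ C (rough χ k ω) := by
  have hs := up_sum hk hu
  obtain ⟨C, hC⟩ := rough_ok hχ hk hs
  obtain ⟨C₁, hC₁, hm, -⟩ := modul hχ hk hs
  obtain ⟨C₂, γ, hC₂, hγ, hγ1, ht⟩ := tl_all hk hu
  obtain ⟨_, -, hh⟩ := h_ok hχ hk hs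
  obtain ⟨D, hD⟩ : ∃ D, D = C₁ * (8 * Real.exp 1 + C₂ * Real.exp 3) := ⟨_, rfl⟩
  have hD0 : 0 ≤ D := by rw [hD]; positivity
  refine ⟨γ / 2, max C D, by positivity, fun ω hω => ?_⟩
  have h := hC ω hω
  refine ⟨h.smooth, h.per, fun x => (h.b0 x).trans (le_max_left _ _), fun x => (h.b1 x).trans (le_max_left _ _),
    fun x => (h.b2 x).trans (le_max_left _ _), fun x y v0 v1 => ?_⟩
  have e1 : deriv (rough χ k ω) = h1 χ k ω := by
    rw [rough_eq hω]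
    obtain ⟨-, -, -, -, -, -, -, -, -, d0, -⟩ := hh ω
    exact funext fun x => (d0 x).deriv
  have e2 : deriv (deriv (rough χ k ω)) = h2 χ k ω := by
    rw [e1]
    obtain ⟨-, -, -, -, -, -, -, -, -, -, d1⟩ := hh ω
    exact funext fun x => (d1 x).deriv
  rw [e2]
  have h3 := one_of_two (F := h2 χ k ω) (C := C₁) (C₁ := C₂) (γ := γ) (by linarith) hC₂ hγ hγ1 (fun x y n =>
    (hm ω x y n).trans (mul_le_mul_of_nonneg_left (by linarith [ht n]) (by linarith))) v0 v1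
  rw [← hD] at h3
  exact h3.trans (mul_le_mul_of_nonneg_right (le_max_right _ _) (Real.exp_pos _).le)

/-- from the modulus to the two-term modulus -/
theorem two_of_one {γ C : ℝ} (hγ : 0 < γ) {G : ℝ → ℝ} (hG : InB γ C G) (x y : ℝ) (n : ℕ) :
    |deriv (deriv G) x - deriv (deriv G) y| ≤
      (2 * C + C * Real.exp (2 ^ γ / 4)) * ((NN n : ℝ) * |x - y| + Real.exp (-(n : ℝ) ^ (γ / 2))) := by
  have hC0 : 0 ≤ C := (abs_nonneg _).trans (hG.b0 0)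
  have hb : |deriv (deriv G) x - deriv (deriv G) y| ≤ 2 * C := by
    refine (abs_sub _ _).trans ?_
    have := hG.b2 x
    have := hG.b2 y
    linarith
  obtain ⟨t, ht⟩ : ∃ t, t = |x - y| := ⟨_, rfl⟩
  have ht0 : 0 ≤ t := by rw [ht]; exact abs_nonneg _
  rw [← ht]
  have hE : 0 < Real.exp (2 ^ γ / 4) := Real.exp_pos _
  have hE' : 0 < Real.exp (-(n : ℝ) ^ (γ / 2)) := Real.exp_pos _
  have hCE : 0 ≤ C * Real.exp (2 ^ γ / 4) := by positivity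
  rcases le_or_gt 1 ((NN n : ℝ) * t) with h | h
  · refine hb.trans ?_
    have h1 : (1 : ℝ) ≤ (NN n : ℝ) * t + Real.exp (-(n : ℝ) ^ (γ / 2)) := by linarith
    nlinarith
  · rcases ht0.eq_or_lt with h0 | h0
    · have hxy : x = y := by
        rw [ht] at h0
        have := abs_eq_zero.1 h0.symm
        linarith
      rw [hxy, sub_self, abs_zero]
      have : 0 ≤ (NN n : ℝ) * t + Real.exp (-(n : ℝ) ^ (γ / 2)) := by positivity
      positivity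
    · have hN := NN_ge n
      have ht1 : t < 1 := by nlinarith
      have h1 := hG.md x y (by rw [← ht]; exact h0) (by rw [← ht]; exact ht1)
      rw [← ht] at h1
      refine h1.trans ?_
      have hlog : (n : ℝ) / 2 ≤ Real.log (1 / t) := by
        have h2 : (NN n : ℝ) ≤ 1 / t := by
          rw [le_div_iff₀ h0]
          exact h.le
        have h3 := Real.log_le_log (by linarith) h2
        have h4 : Real.log (NN n : ℝ) = ((n : ℝ) + 3) * Real.log 2 := by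
          unfold NN
          push_cast
          rw [Real.log_pow]
          push_cast
          ring
        rw [h4] at h3
        have h5 := Real.log_two_gt_d9
        have h6 : (0 : ℝ) ≤ n := Nat.cast_nonneg n
        nlinarith
      have h2 : ((n : ℝ) / 2) ^ γ ≤ (Real.log (1 / t)) ^ γ := Real.rpow_le_rpow (by positivity) hlog hγ.le
      have h3 : (n : ℝ) ^ (γ / 2) ≤ ((n : ℝ) / 2) ^ γ + 2 ^ γ / 4 := by
        rw [Real.div_rpow (Nat.cast_nonneg n) (by norm_num)]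
        obtain ⟨w, hw⟩ : ∃ w, w = (n : ℝ) ^ (γ / 2) := ⟨_, rfl⟩
        have e : (n : ℝ) ^ γ = w * w := by
          rw [hw]
          rcases Nat.eq_zero_or_pos n with hn0 | hn0
          · rw [hn0, Nat.cast_zero, Real.zero_rpow hγ.ne', Real.zero_rpow (by positivity)]
            ring
          · rw [← Real.rpow_add (by exact_mod_cast hn0)]
            congr 1
            ring
        rw [e, ← hw]
        have hp : (0 : ℝ) < 2 ^ γ := by positivity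
        rw [← sub_nonneg]
        have e2 : w * w / 2 ^ γ + 2 ^ γ / 4 - w = (w - 2 ^ γ / 2) ^ 2 / 2 ^ γ := by
          field_simp
          ring
        rw [e2]
        positivity
      have h4 : Real.exp (-(Real.log (1 / t)) ^ γ) ≤ Real.exp (2 ^ γ / 4) * Real.exp (-(n : ℝ) ^ (γ / 2)) := by
        rw [← Real.exp_add]
        exact Real.exp_le_exp.2 (by linarith)
      calc C * Real.exp (-(Real.log (1 / t)) ^ γ) ≤ C * (Real.exp (2 ^ γ / 4) * Real.exp (-(n : ℝ) ^ (γ / 2))) :=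
            mul_le_mul_of_nonneg_left h4 hC0
        _ = C * Real.exp (2 ^ γ / 4) * Real.exp (-(n : ℝ) ^ (γ / 2)) := by ring
        _ ≤ _ := by
            refine mul_le_mul (by linarith) ?_ hE'.le (by positivity)
            have : 0 ≤ (NN n : ℝ) * t := by positivity
            linarith

/-- multiples of one potential -/
theorem bal_pt {γ C : ℝ} (hγ : 0 < γ) {G : ℝ → ℝ} (hG : InB γ C G) :
    Bal {F | ∃ c : ℝ, |c| ≤ 1 ∧ F = fun x => c * G x} := by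
  classical
  have hC0 : 0 ≤ C := (abs_nonneg _).trans (hG.b0 0)
  have e1 : ∀ c : ℝ, deriv (fun x => c * G x) = fun x => c * deriv G x := by
    intro c
    funext x
    exact ((der1 hG.smooth x).const_mul c).deriv
  have e2 : ∀ c : ℝ, deriv (deriv (fun x => c * G x)) = fun x => c * deriv (deriv G) x := by
    intro c
    rw [e1]
    funext x
    exact ((der2 hG.smooth x).const_mul c).deriv
  refine ⟨?_, ?_, ⟨C, hC0, ?_⟩, ⟨2 * C + C * Real.exp (2 ^ γ / 4), γ / 2, by positivity, by positivity, ?_⟩, ?_, ?_⟩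
  · rintro F ⟨c, hc, rfl⟩
    exact contDiff_const.mul hG.smooth
  · rintro F ⟨c, hc, rfl⟩ x
    show c * G (x + 1) = c * G x
    rw [hG.per]
  · rintro F ⟨c, hc, rfl⟩ x
    rw [e2, e1]
    have key : ∀ y : ℝ, |y| ≤ C → |c * y| ≤ C := by
      intro y hy
      rw [abs_mul]
      have := abs_nonneg y
      have := abs_nonneg c
      nlinarith
    exact ⟨key _ (hG.b1 x), key _ (hG.b2 x)⟩
  · rintro F ⟨c, hc, rfl⟩ x y n
    rw [e2]
    have h := two_of_one hγ hG x y n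
    show |c * deriv (deriv G) x - c * deriv (deriv G) y| ≤ _
    rw [← mul_sub, abs_mul]
    have h1 := abs_nonneg (deriv (deriv G) x - deriv (deriv G) y)
    have h2 := abs_nonneg c
    nlinarith
  · refine ⟨1 + Real.log (2 * C + 3), 1, fun n hn => ?_⟩
    obtain ⟨ε, hε⟩ : ∃ ε, ε = Real.exp (-(n : ℝ)) / (C + 1) := ⟨_, rfl⟩
    have hε0 : 0 < ε := by rw [hε]; positivity
    obtain ⟨S, hS1, hS2, hS3⟩ := grid (u := -1) (v := 1) (by norm_num) hε0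
    refine ⟨S.image fun c => (deriv (fun x => c * G x), deriv (deriv (fun x => c * G x))), ?_, ?_, ?_⟩
    · intro g hg
      rw [Finset.mem_coe, Finset.mem_image] at hg
      obtain ⟨c, hc, rfl⟩ := hg
      have := hS1 hc
      exact ⟨_, ⟨c, abs_le.2 ⟨this.1, this.2⟩, rfl⟩, rfl⟩
    · have h1 : ((S.image fun c => ((deriv (fun x => c * G x), deriv (deriv (fun x => c * G x))) : Kk)).card : ℝ) ≤ S.card := by
        exact_mod_cast Finset.card_image_le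
      refine (h1.trans hS2).trans ?_
      have h2 : (1 - -1) / ε + 1 ≤ (2 * C + 3) * Real.exp n := by
        have h3 : (1 - -1) / ε = 2 * (C + 1) * Real.exp n := by
          rw [hε, Real.exp_neg]
          field_simp
          ring
        rw [h3]
        have h4 : 1 ≤ Real.exp (n : ℝ) := Real.one_le_exp (Nat.cast_nonneg n)
        linarith
      refine h2.trans ?_
      have hn' : (1 : ℝ) ≤ n := by exact_mod_cast hn
      have h5 : 0 ≤ Real.log (2 * C + 3) := Real.log_nonneg (by linarith)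
      have h6 : (2 * C + 3) * Real.exp n = Real.exp (Real.log (2 * C + 3) + n) := by
        rw [Real.exp_add, Real.exp_log (by linarith)]
      rw [h6, pow_one]
      exact Real.exp_le_exp.2 (by nlinarith)
    · rintro g ⟨F, ⟨c, hc, rfl⟩, rfl⟩
      obtain ⟨c', hc', h⟩ := hS3 c (by rw [mem_Icc]; exact abs_le.1 hc)
      refine ⟨_, Finset.mem_image_of_mem _ hc', fun x => ?_⟩
      have key : ∀ y : ℝ, |y| ≤ C → |c * y - c' * y| ≤ Real.exp (-(n : ℝ)) := by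
        intro y hy
        rw [← sub_mul, abs_mul]
        have h1 : |c - c'| * |y| ≤ ε * C := mul_le_mul h hy (abs_nonneg _) hε0.le
        refine h1.trans ?_
        rw [hε, div_mul_eq_mul_div, div_le_iff₀ (by linarith)]
        have := Real.exp_pos (-(n : ℝ))
        nlinarith
      simp only [e2]
      simp only [e1]
      exact ⟨key _ (hG.b1 x), key _ (hG.b2 x)⟩
  · rintro F ⟨c, hc, rfl⟩ b hb
    refine ⟨b * c, ?_, ?_⟩
    · rw [abs_mul]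
      have := abs_nonneg b
      have := abs_nonneg c
      nlinarith
    · funext x
      ring

/-! ### sums -/

theorem exp_rpow_mono {γ γ' : ℝ} (hγ : 0 < γ) (h : γ ≤ γ') (n : ℕ) :
    Real.exp (-(n : ℝ) ^ γ') ≤ Real.exp (-(n : ℝ) ^ γ) := by
  refine Real.exp_le_exp.2 (neg_le_neg ?_)
  rcases Nat.eq_zero_or_pos n with hn | hn
  · rw [hn, Nat.cast_zero, Real.zero_rpow hγ.ne', Real.zero_rpow (by linarith)]
  · exact Real.rpow_le_rpow_of_exponent_le (by exact_mod_cast hn) h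

theorem Bal.add {𝒮₁ 𝒮₂ : Set (ℝ → ℝ)} (h₁ : Bal 𝒮₁) (h₂ : Bal 𝒮₂) :
    Bal {F | ∃ G₁ ∈ 𝒮₁, ∃ G₂ ∈ 𝒮₂, F = fun x => G₁ x + G₂ x} := by
  classical
  have e1 : ∀ G₁ ∈ 𝒮₁, ∀ G₂ ∈ 𝒮₂, deriv (fun x => G₁ x + G₂ x) = fun x => deriv G₁ x + deriv G₂ x := by
    intro G₁ g₁ G₂ g₂
    funext x
    exact ((der1 (h₁.cd _ g₁) x).add (der1 (h₂.cd _ g₂) x)).deriv
  have e2 : ∀ G₁ ∈ 𝒮₁, ∀ G₂ ∈ 𝒮₂, deriv (deriv (fun x => G₁ x + G₂ x)) =
      fun x => deriv (deriv G₁) x + deriv (deriv G₂) x := by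
    intro G₁ g₁ G₂ g₂
    rw [e1 _ g₁ _ g₂]
    funext x
    exact ((der2 (h₁.cd _ g₁) x).add (der2 (h₂.cd _ g₂) x)).deriv
  refine ⟨?_, ?_, ?_, ?_, ?_, ?_⟩
  · rintro F ⟨G₁, g₁, G₂, g₂, rfl⟩
    exact (h₁.cd _ g₁).add (h₂.cd _ g₂)
  · rintro F ⟨G₁, g₁, G₂, g₂, rfl⟩ x
    show G₁ (x + 1) + G₂ (x + 1) = G₁ x + G₂ x
    rw [h₁.per _ g₁, h₂.per _ g₂]
  · obtain ⟨M₁, m₁, b₁⟩ := h₁.bd
    obtain ⟨M₂, m₂, b₂⟩ := h₂.bd
    refine ⟨M₁ + M₂, by linarith, ?_⟩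
    rintro F ⟨G₁, g₁, G₂, g₂, rfl⟩ x
    rw [e2 _ g₁ _ g₂, e1 _ g₁ _ g₂]
    exact ⟨(abs_add_le _ _).trans (add_le_add (b₁ _ g₁ x).1 (b₂ _ g₂ x).1),
      (abs_add_le _ _).trans (add_le_add (b₁ _ g₁ x).2 (b₂ _ g₂ x).2)⟩
  · obtain ⟨L₁, γ₁, l₁, c₁, b₁⟩ := h₁.md
    obtain ⟨L₂, γ₂, l₂, c₂, b₂⟩ := h₂.md
    refine ⟨L₁ + L₂, min γ₁ γ₂, by linarith, lt_min c₁ c₂, ?_⟩
    rintro F ⟨G₁, g₁, G₂, g₂, rfl⟩ x y n
    rw [e2 _ g₁ _ g₂]
    show |(deriv (deriv G₁) x + deriv (deriv G₂) x) - (deriv (deriv G₁) y + deriv (deriv G₂) y)| ≤ _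
    have e : (deriv (deriv G₁) x + deriv (deriv G₂) x) - (deriv (deriv G₁) y + deriv (deriv G₂) y) =
      (deriv (deriv G₁) x - deriv (deriv G₁) y) + (deriv (deriv G₂) x - deriv (deriv G₂) y) := by ring
    rw [e]
    have k1 := b₁ _ g₁ x y n
    have k2 := b₂ _ g₂ x y n
    have k3 := exp_rpow_mono (lt_min c₁ c₂) (min_le_left γ₁ γ₂) n
    have k4 := exp_rpow_mono (lt_min c₁ c₂) (min_le_right γ₁ γ₂) n
    have k5 : L₁ * ((NN n : ℝ) * |x - y| + Real.exp (-(n : ℝ) ^ γ₁)) ≤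
      L₁ * ((NN n : ℝ) * |x - y| + Real.exp (-(n : ℝ) ^ min γ₁ γ₂)) :=
      mul_le_mul_of_nonneg_left (by linarith) l₁
    have k6 : L₂ * ((NN n : ℝ) * |x - y| + Real.exp (-(n : ℝ) ^ γ₂)) ≤
      L₂ * ((NN n : ℝ) * |x - y| + Real.exp (-(n : ℝ) ^ min γ₁ γ₂)) :=
      mul_le_mul_of_nonneg_left (by linarith) l₂
    refine (abs_add_le _ _).trans ?_
    rw [add_mul]
    linarith
  · obtain ⟨Q₁, j₁, n₁⟩ := h₁.ent
    obtain ⟨Q₂, j₂, n₂⟩ := h₂.ent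
    refine ⟨|Q₁| * 2 ^ j₁ + |Q₂| * 2 ^ j₂, max j₁ j₂, fun n hn => ?_⟩
    obtain ⟨S₁, s₁, t₁, u₁⟩ := n₁ (n + 1) (by omega)
    obtain ⟨S₂, s₂, t₂, u₂⟩ := n₂ (n + 1) (by omega)
    refine ⟨(S₁ ×ˢ S₂).image fun p => ((fun x => p.1.1 x + p.2.1 x, fun x => p.1.2 x + p.2.2 x) : Kk), ?_, ?_, ?_⟩
    · intro g hg
      rw [Finset.mem_coe, Finset.mem_image] at hg
      obtain ⟨p, hp, rfl⟩ := hg
      rw [Finset.mem_product] at hp
      obtain ⟨G₁, g₁, q₁⟩ := s₁ hp.1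
      obtain ⟨G₂, g₂, q₂⟩ := s₂ hp.2
      refine ⟨_, ⟨G₁, g₁, G₂, g₂, rfl⟩, ?_⟩
      show ((deriv (fun x => G₁ x + G₂ x), deriv (deriv (fun x => G₁ x + G₂ x))) : Kk) = _
      rw [e2 _ g₁ _ g₂, e1 _ g₁ _ g₂, ← q₁, ← q₂]
    · have c1 : (((S₁ ×ˢ S₂).image fun p => ((fun x => p.1.1 x + p.2.1 x, fun x => p.1.2 x + p.2.2 x) : Kk)).card : ℝ) ≤
          (S₁.card : ℝ) * S₂.card := by
        have := Finset.card_image_le (s := S₁ ×ˢ S₂)
          (f := fun p => ((fun x => p.1.1 x + p.2.1 x, fun x => p.1.2 x + p.2.2 x) : Kk))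
        rw [Finset.card_product] at this
        exact_mod_cast this
      refine c1.trans ((mul_le_mul t₁ t₂ (Nat.cast_nonneg _) (Real.exp_pos _).le).trans ?_)
      rw [← Real.exp_add]
      refine Real.exp_le_exp.2 ?_
      have hn' : (1 : ℝ) ≤ n := by exact_mod_cast hn
      have key : ∀ (Q : ℝ) (j : ℕ), j ≤ max j₁ j₂ → Q * ((n + 1 : ℕ) : ℝ) ^ j ≤ |Q| * 2 ^ j * (n : ℝ) ^ max j₁ j₂ := by
        intro Q j hj
        have a1 : ((n + 1 : ℕ) : ℝ) ^ j ≤ (2 * (n : ℝ)) ^ j := by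
          refine pow_le_pow_left₀ (Nat.cast_nonneg _) ?_ j
          push_cast
          linarith
        rw [mul_pow] at a1
        have a2 : (n : ℝ) ^ j ≤ (n : ℝ) ^ max j₁ j₂ := pow_le_pow_right₀ hn' hj
        have a3 : (2 : ℝ) ^ j * (n : ℝ) ^ j ≤ 2 ^ j * (n : ℝ) ^ max j₁ j₂ := mul_le_mul_of_nonneg_left a2 (by positivity)
        calc Q * ((n + 1 : ℕ) : ℝ) ^ j ≤ |Q| * ((n + 1 : ℕ) : ℝ) ^ j :=
              mul_le_mul_of_nonneg_right (le_abs_self Q) (by positivity)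
          _ ≤ |Q| * (2 ^ j * (n : ℝ) ^ max j₁ j₂) := mul_le_mul_of_nonneg_left (a1.trans a3) (abs_nonneg _)
          _ = _ := by ring
      have := key Q₁ j₁ (le_max_left _ _)
      have := key Q₂ j₂ (le_max_right _ _)
      linarith
    · rintro g ⟨F, ⟨G₁, g₁, G₂, g₂, rfl⟩, rfl⟩
      obtain ⟨f₁, v₁, w₁⟩ := u₁ _ ⟨G₁, g₁, rfl⟩
      obtain ⟨f₂, v₂, w₂⟩ := u₂ _ ⟨G₂, g₂, rfl⟩
      refine ⟨_, Finset.mem_image_of_mem _ (Finset.mem_product.2 ⟨v₁, v₂⟩ : (f₁, f₂) ∈ S₁ ×ˢ S₂), fun x => ?_⟩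
      have he : 2 * Real.exp (-((n + 1 : ℕ) : ℝ)) ≤ Real.exp (-(n : ℝ)) := by
        have h1 : Real.exp (-(n : ℝ)) = Real.exp 1 * Real.exp (-((n + 1 : ℕ) : ℝ)) := by
          rw [← Real.exp_add]
          congr 1
          push_cast
          ring
        have h2 := Real.add_one_le_exp (1 : ℝ)
        rw [h1]
        exact mul_le_mul_of_nonneg_right (by linarith) (Real.exp_pos _).le
      have key : ∀ x₁ x₂ y₁ y₂ : ℝ, |x₁ - y₁| ≤ Real.exp (-((n + 1 : ℕ) : ℝ)) → |x₂ - y₂| ≤ Real.exp (-((n + 1 : ℕ) : ℝ)) →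
          |(x₁ + x₂) - (y₁ + y₂)| ≤ Real.exp (-(n : ℝ)) := by
        intro x₁ x₂ y₁ y₂ k1 k2
        have e : (x₁ + x₂) - (y₁ + y₂) = (x₁ - y₁) + (x₂ - y₂) := by ring
        rw [e]
        exact (abs_add_le _ _).trans (by linarith)
      simp only [e2 _ g₁ _ g₂]
      simp only [e1 _ g₁ _ g₂]
      exact ⟨key _ _ _ _ (w₁ x).1 (w₂ x).1, key _ _ _ _ (w₁ x).2 (w₂ x).2⟩
  · rintro F ⟨G₁, g₁, G₂, g₂, rfl⟩ c hc
    refine ⟨_, h₁.sm _ g₁ c hc, _, h₂.sm _ g₂ c hc, ?_⟩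
    funext x
    ring

/-! ### the final theorem -/

theorem final {χ : ℝ → ℝ} (hχ : ContDiff ℝ 3 χ) (hχ1 : ∀ t, |t| ≤ 1 / 2 → χ t = 1)
    (hχ0 : ∀ t, 1 ≤ |t| → χ t = 0) {k : ℕ → ℝ} (hk : ∀ l, 0 < k l)
    (hl : ∀ δ : ℝ, 0 < δ → ∀ᶠ l : ℕ in atTop, Real.exp (-(δ * (l : ℝ) ^ (1 / 3 : ℝ))) ≤ k l)
    (hu : ∃ γ : ℝ, 0 < γ ∧ ∀ᶠ l : ℕ in atTop, k l ≤ Real.exp (-(l : ℝ) ^ γ)) :
    ∃ γ₁ C₁ : ℝ, 0 < γ₁ ∧ ∀ (γ C : ℝ) (V₀ : ℝ → ℝ), 0 < γ → InB γ C V₀ →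
      ∀ᵐ ω ∂law, InB γ₁ C₁ (rough χ k ω) ∧
        ∀ (a q : ℝ) (G : ℝ → ℝ), a ≠ 0 → q ≠ 0 → Gevrey G →
          Hyp a (fun x => V₀ x + G x + q * rough χ k ω x) := by
  have hB : Bump χ := ⟨hχ, hχ1, hχ0⟩
  have hk' : ∀ l, 0 ≤ k l := fun l => (hk l).le
  obtain ⟨γ₁, C₁, hγ₁, h₁⟩ := rough_inB hB hk' hu
  refine ⟨γ₁, C₁, hγ₁, ?_⟩
  intro γ C V₀ hγ hV
  rw [law_eq]
  have hm : ∀ m : ℕ, (1 : ℝ) ≤ (m : ℝ) + 1 := fun m => by
    have : (0 : ℝ) ≤ m := Nat.cast_nonneg m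
    linarith
  filter_upwards [ae_cube, allOf' hB hk hl hu (𝒮 := fun m => {F | ∃ G₁ ∈ {F | ∃ c : ℝ, |c| ≤ 1 ∧ F = fun x => c * V₀ x},
    ∃ G₂ ∈ {G | Gev ((m : ℝ) + 1) ((m : ℝ) + 1) G}, F = fun x => G₁ x + G₂ x})
    fun m => (bal_pt hγ hV).add (bal_gev (hm m))] with ω hω h
  refine ⟨h₁ ω hω, ?_⟩
  intro a q G ha hq hG
  obtain ⟨m₀, hm₀⟩ := hG.gev
  refine h a q (fun x => V₀ x + G x) ha hq ⟨m₀, fun m hmm => ⟨V₀, ⟨1, by norm_num, by funext x; ring⟩, G, ?_, rfl⟩⟩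
  have := hm₀ (m + 1) (by omega)
  exact_mod_cast this

end Pool.Agent.Helper18.HA
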