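import Pool.Agent.Helper18.HA.Cls
import Pool.Agent.Helper18.AN.Upd

/-! Block HA-UPD: measurability and bounds of `un`, `gr`, `ff`; influence of one noise coordinate. Port of `AN/Upd.lean` and of the beginning of `Helper72/AP/Law.lean`.

`gr_upd`: `gi ∈ [0, 1]`; the points `z` for which one of the positions `px d j (ω, z)`, `j < 2^i`, is in the cell `(l, c)` have measure at most `2^i * 2 / NN l` (`vol_visit`), for the others the orbits up to the time `2^i` and the matrices do not change (`iter_out`). If `NN l ≤ c` the noise coordinate does not influence anything. -/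

set_option autoImplicit false
open MeasureTheory Real Set Filter Topology
open scoped ENNReal

namespace Pool.Agent.Helper18.HA

open Pool.Agent.Helper18.HY
open Pool.Agent.Helper72.AP (Rs mx Lc Kk Ent2)
open Pool.Agent.Helper18.UC (T2 rep toT nn)
open Pool.Agent.Helper18.FD (NN rr pr cl uu lm Bump k1 k2 NN_pos NN_ge)
open Pool.Agent.Helper95.PV (Ix Om PP lv rp tc inn out cel upd mv mu Pt rv)

variable {d : Dat}

private theorem lv_far45 (g₁ g₂ : ℝ → ℝ) {l c : ℕ} (hc : NN l ≤ c) (b : Bool) (u : ℝ) (ω : Om) (l' : ℕ) (x : ℝ) :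
    lv g₁ g₂ (Function.update ω (l, c, b) u) l' x = lv g₁ g₂ ω l' x := by
  unfold lv
  refine Finset.sum_congr rfl fun i hi => ?_
  have hi' := Finset.mem_range.1 hi
  have h : ∀ b' : Bool, Function.update ω (l, c, b) u (l', i, b') = ω (l', i, b') := by
    intro b'
    rw [Function.update_of_ne]
    intro h
    have h1 : l' = l := congrArg (fun i : Ix => i.1) h
    have h2 : i = c := congrArg (fun i : Ix => i.2.1) h
    subst h1 h2
    omega
  rw [h false, h true]

private theorem h_far45 (χ : ℝ → ℝ) (k : ℕ → ℝ) {l c : ℕ} (hc : NN l ≤ c) (b : Bool) (u : ℝ) (ω : Om) (x : ℝ) :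
    h1 χ k (Function.update ω (l, c, b) u) x = h1 χ k ω x ∧
      h2 χ k (Function.update ω (l, c, b) u) x = h2 χ k ω x := by
  constructor
  · unfold h1 fs
    exact tsum_congr fun l' => by rw [lv_far45 _ _ hc]
  · unfold h2 fs
    exact tsum_congr fun l' => by rw [lv_far45 _ _ hc]

private theorem meas_out45 (l c : ℕ) : MeasurableSet {x : UnitAddCircle | ¬ out l c x} :=
  (measurableSet_le measurable_const (Pool.Agent.Helper95.PV.meas_tc l c).abs).compl

/-- the visit of a cell -/
theorem vol_visit (hd : d.Ok) (ω : Om) (l c j : ℕ) :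
    volume {z : T2 | ¬ out l c (px d j (ω, z))} ≤ ENNReal.ofReal (2 / NN l) := by
  have hp : IsProbabilityMeasure (volume : Measure UnitAddCircle) := by
    constructor
    rw [UnitAddCircle.measure_univ]
  have h0 : MeasurePreserving (Prod.fst : T2 → UnitAddCircle) volume volume :=
    measurePreserving_fst (μ := (volume : Measure UnitAddCircle)) (ν := (volume : Measure UnitAddCircle))
  have h1 := h0.comp ((Tw_mp hd ω).iterate j)
  have e1 : {z : T2 | ¬ out l c (px d j (ω, z))} = (Prod.fst ∘ (Tw d ω)^[j]) ⁻¹' {x | ¬ out l c x} := by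
    ext z
    show (¬ out l c (((sk d)^[j] (ω, z)).2.1)) ↔ ¬ out l c (((Tw d ω)^[j] z).1)
    rw [sk_iter]
  rw [e1, h1.measure_preimage (meas_out45 l c).nullMeasurableSet]
  exact Pool.Agent.Helper18.AN.vol_cell l c

/-- influence of one coordinate on the mean of a bounded function of the matrix at the time `m` -/
private theorem infl45 (hd : d.Ok) (ω : Om) (l c : ℕ) (b : Bool) (u : ℝ) (m : ℕ) {F : Pt → ℝ} (hF : Measurable F)
    {K B : ℝ} (hK : ∀ p, |F p| ≤ K) (hB : ∀ p p', |F p' - F p| ≤ B) (hB0 : 0 ≤ B)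
    (hc : ∀ p p' : Pt, Mm d m p' = Mm d m p → F p' = F p) :
    |(∫ z : T2, F (Function.update ω (l, c, b) u, z)) - ∫ z : T2, F (ω, z)| ≤ (m * (2 / NN l)) * B := by
  have hN := NN_pos l
  obtain ⟨ω', hω'⟩ : ∃ ω', ω' = Function.update ω (l, c, b) u := ⟨_, rfl⟩
  rw [← hω']
  rcases le_or_gt (NN l) c with hlc | hlc
  · have h1 : d.p1 ω' = d.p1 ω ∧ d.p2 ω' = d.p2 ω := by
      constructor
      · funext x
        unfold Dat.p1
        rw [hω', (h_far45 d.χ d.k hlc b u ω x).1]
      · funext x
        unfold Dat.p2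
        rw [hω', (h_far45 d.χ d.k hlc b u ω x).2]
    have h2 : Tw d ω' = Tw d ω := by
      unfold Tw cc
      rw [h1.1]
    have h3 : va d ω' = va d ω := by
      unfold va
      rw [h1.2]
    have h4 : ∀ z, F (ω', z) = F (ω, z) := by
      intro z
      refine hc _ _ (Mm_congr fun j _ => ?_)
      rw [sk_iter, sk_iter, h2]
      unfold vv
      rw [h3]
    simp only [h4, sub_self, abs_zero]
    positivity
  · obtain ⟨u', v', huv⟩ := Pool.Agent.Helper18.AN.upd_one l c b u ω
    rw [← hω'] at huv
    obtain ⟨Z, hZ⟩ : ∃ Z : Set T2, Z = ⋃ j ∈ Finset.range m, {z : T2 | ¬ out l c (px d j (ω, z))} := ⟨_, rfl⟩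
    have hZm : MeasurableSet Z := by
      rw [hZ]
      refine Finset.measurableSet_biUnion _ fun j _ => ?_
      exact ((meas_px hd j).comp measurable_prodMk_left) (meas_out45 l c)
    have hZv : volume Z ≤ ENNReal.ofReal (m * (2 / NN l)) := by
      calc volume Z ≤ ∑ j ∈ Finset.range m, volume {z : T2 | ¬ out l c (px d j (ω, z))} := by
            rw [hZ]
            exact measure_biUnion_finset_le _ _
        _ ≤ ∑ _j ∈ Finset.range m, ENNReal.ofReal (2 / NN l) :=
            Finset.sum_le_sum fun j _ => vol_visit hd ω l c j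
        _ = ENNReal.ofReal (m * (2 / NN l)) := by
            rw [Finset.sum_const, Finset.card_range, nsmul_eq_mul, ENNReal.ofReal_mul (Nat.cast_nonneg m),
              ENNReal.ofReal_natCast]
    have hpt : ∀ z : T2, |F (ω', z) - F (ω, z)| ≤ Z.indicator (fun _ => B) z := by
      intro z
      by_cases hz : z ∈ Z
      · rw [indicator_of_mem hz]
        exact hB _ _
      · rw [indicator_of_notMem hz]
        have h6 : ∀ j < m, out l c (px d j (ω, z)) := by
          intro j hj
          by_contra h7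
          apply hz
          rw [hZ]
          simp only [mem_iUnion]
          exact ⟨j, Finset.mem_range.2 hj, h7⟩
        have h7 := (iter_out hd hlc u' v' h6).2.2
        rw [← huv] at h7
        rw [hc _ _ (Mm_congr h7), sub_self, abs_zero]
    have hin : ∀ ω₁ : Om, Integrable (fun z : T2 => F (ω₁, z)) volume := fun ω₁ =>
      Integrable.of_bound (hF.comp measurable_prodMk_left).aestronglyMeasurable K
        (Filter.Eventually.of_forall fun z => by rw [Real.norm_eq_abs]; exact hK _)
    have hint := (hin ω').sub (hin ω)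
    have hI : Integrable (Z.indicator fun _ : T2 => B) volume :=
      (integrable_const _).indicator hZm
    rw [← integral_sub (hin ω') (hin ω)]
    calc |∫ z : T2, (F (ω', z) - F (ω, z))|
        ≤ ∫ z : T2, |F (ω', z) - F (ω, z)| := abs_integral_le_integral_abs
      _ ≤ ∫ z : T2, Z.indicator (fun _ => B) z := integral_mono hint.abs hI hpt
      _ = volume.real Z * B := by
          rw [integral_indicator_const _ hZm, smul_eq_mul]
      _ ≤ (m * (2 / NN l)) * B := by
          refine mul_le_mul_of_nonneg_right ?_ hB0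
          exact ENNReal.toReal_le_of_le_ofReal (by positivity) hZv

private theorem pos45 (hd : d.Ok) : Real.log 2 ≤ Real.log |d.a| ∧ 0 < Real.log |d.a| := by
  have ha := hd.ha
  have hla : Real.log 2 ≤ Real.log |d.a| := Real.log_le_log (by norm_num) (by linarith)
  exact ⟨hla, lt_of_lt_of_le (Real.log_pos (by norm_num)) hla⟩

private theorem abs_log45 (hd : d.Ok) (m : ℕ) (p : Pt) :
    |Real.log (nn (Mm d m p))| ≤ Real.log 2 + m * (3 * Real.log |d.a|) := by
  obtain ⟨h1, h2⟩ := log_nn_bd hd m p
  rw [abs_of_nonneg h1]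
  exact h2

theorem meas_un (hd : d.Ok) (m : ℕ) : Measurable fun ω => un d ω m := by
  have h := ((meas_nn hd m).log.stronglyMeasurable).integral_prod_right' (ν := (volume : Measure T2))
  exact h.measurable

theorem un_bd (hd : d.Ok) (ω : Om) (m : ℕ) : 0 ≤ un d ω m ∧ un d ω m ≤ Real.log 2 + m * (3 * Real.log |d.a|) := by
  constructor
  · exact integral_nonneg fun z => (log_nn_bd hd m (ω, z)).1
  · have hin : Integrable (fun z : T2 => Real.log (nn (Mm d m (ω, z)))) volume :=
      Integrable.of_bound ((meas_nn hd m).comp measurable_prodMk_left).log.aestronglyMeasurable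
        (Real.log 2 + m * (3 * Real.log |d.a|))
        (Filter.Eventually.of_forall fun z => by rw [Real.norm_eq_abs]; exact abs_log45 hd m _)
    calc un d ω m ≤ ∫ _z : T2, (Real.log 2 + m * (3 * Real.log |d.a|)) :=
          integral_mono hin (integrable_const _) fun z => (log_nn_bd hd m (ω, z)).2
      _ = Real.log 2 + m * (3 * Real.log |d.a|) := by
          rw [integral_const, probReal_univ, one_smul]

theorem meas_gi (hd : d.Ok) (i : ℕ) : Measurable (gi d i) := by
  unfold gi
  exact measurable_const.min ((meas_nn hd (2 ^ i)).inv.const_mul _)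

theorem gi_bd (i : ℕ) (p : Pt) : 0 ≤ gi d i p ∧ gi d i p ≤ 1 := by
  unfold gi
  refine ⟨le_min zero_le_one ?_, min_le_left _ _⟩
  have := Pool.Agent.Helper18.UC.nn_nonneg (Mm d (2 ^ i) p)
  positivity

theorem meas_gr (hd : d.Ok) (i : ℕ) : Measurable fun ω => gr d ω i := by
  have h := ((meas_gi hd i).stronglyMeasurable).integral_prod_right' (ν := (volume : Measure T2))
  exact h.measurable

theorem gr_bd (hd : d.Ok) (ω : Om) (i : ℕ) : 0 ≤ gr d ω i ∧ gr d ω i ≤ 1 := by
  constructor
  · exact integral_nonneg fun z => (gi_bd i (ω, z)).1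
  · have hin : Integrable (fun z : T2 => gi d i (ω, z)) volume :=
      Integrable.of_bound ((meas_gi hd i).comp measurable_prodMk_left).aestronglyMeasurable 1
        (Filter.Eventually.of_forall fun z => by
          rw [Real.norm_eq_abs, abs_of_nonneg (gi_bd i (ω, z)).1]
          exact (gi_bd i (ω, z)).2)
    calc gr d ω i ≤ ∫ _z : T2, (1 : ℝ) :=
          integral_mono hin (integrable_const _) fun z => (gi_bd i (ω, z)).2
      _ = 1 := by rw [integral_const, probReal_univ, one_smul]

theorem meas_ff (hd : d.Ok) (m : ℕ) : Measurable fun ω => ff d ω m :=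
  ((meas_un hd m).const_mul 2).sub (meas_un hd (2 * m))

theorem ff_bd (hd : d.Ok) (m : ℕ) : ∃ K : ℝ, ∀ ω, |ff d ω m| ≤ K := by
  refine ⟨2 * (Real.log 2 + m * (3 * Real.log |d.a|)) + (Real.log 2 + (2 * m : ℕ) * (3 * Real.log |d.a|)), fun ω => ?_⟩
  obtain ⟨h1, h2⟩ := un_bd hd ω m
  obtain ⟨h3, h4⟩ := un_bd hd ω (2 * m)
  unfold ff
  rw [abs_le]
  constructor <;> linarith

/-- influence of one coordinate on the mean growth -/
theorem un_upd (hd : d.Ok) (ω : Om) (l c : ℕ) (b : Bool) (u : ℝ) {m : ℕ} (hm : 1 ≤ m) :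
    |un d (Function.update ω (l, c, b) u) m - un d ω m| ≤ 8 * (m : ℝ) ^ 2 * Real.log |d.a| / NN l := by
  obtain ⟨hla, hla0⟩ := pos45 hd
  have hm1 : (1 : ℝ) ≤ m := by exact_mod_cast hm
  have h6 : Real.log 2 + m * (3 * Real.log |d.a|) ≤ 4 * (m : ℝ) * Real.log |d.a| := by nlinarith
  have h := infl45 hd ω l c b u m (F := fun p => Real.log (nn (Mm d m p))) (meas_nn hd m).log
    (K := Real.log 2 + m * (3 * Real.log |d.a|)) (B := 4 * (m : ℝ) * Real.log |d.a|) (abs_log45 hd m)
    (fun p p' => by
      obtain ⟨a1, a2⟩ := log_nn_bd hd m p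
      obtain ⟨b1, b2⟩ := log_nn_bd hd m p'
      rw [abs_le]
      constructor <;> linarith) (by positivity) (fun p p' h => by simp only [h])
  unfold un
  refine h.trans (le_of_eq ?_)
  ring

theorem ff_upd (hd : d.Ok) (ω : Om) (l c : ℕ) (b : Bool) (u : ℝ) {m : ℕ} (hm : 1 ≤ m) :
    |ff d (Function.update ω (l, c, b) u) m - ff d ω m| ≤ 48 * (m : ℝ) ^ 2 * Real.log |d.a| / NN l := by
  have h1 := un_upd hd ω l c b u hm
  have h2 := un_upd hd ω l c b u (show 1 ≤ 2 * m by omega)
  unfold ff
  have e : 2 * un d (Function.update ω (l, c, b) u) m - un d (Function.update ω (l, c, b) u) (2 * m) -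
      (2 * un d ω m - un d ω (2 * m)) = 2 * (un d (Function.update ω (l, c, b) u) m - un d ω m) -
      (un d (Function.update ω (l, c, b) u) (2 * m) - un d ω (2 * m)) := by ring
  rw [e]
  have h3 := abs_sub (2 * (un d (Function.update ω (l, c, b) u) m - un d ω m))
    (un d (Function.update ω (l, c, b) u) (2 * m) - un d ω (2 * m))
  rw [abs_mul, abs_two] at h3
  push_cast at h2
  have e2 : 48 * (m : ℝ) ^ 2 * Real.log |d.a| / NN l = 2 * (8 * (m : ℝ) ^ 2 * Real.log |d.a| / NN l) +
      8 * (2 * (m : ℝ)) ^ 2 * Real.log |d.a| / NN l := by ring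
  rw [e2]
  linarith

/-- influence of one coordinate on the growth functional -/
theorem gr_upd (hd : d.Ok) (ω : Om) (l c : ℕ) (b : Bool) (u : ℝ) (i : ℕ) :
    |gr d (Function.update ω (l, c, b) u) i - gr d ω i| ≤ 2 * 2 ^ i / NN l := by
  have h := infl45 hd ω l c b u (2 ^ i) (F := gi d i) (meas_gi hd i) (K := 1) (B := 1)
    (fun p => by
      rw [abs_of_nonneg (gi_bd i p).1]
      exact (gi_bd i p).2)
    (fun p p' => by
      obtain ⟨a1, a2⟩ := gi_bd (d := d) i p
      obtain ⟨b1, b2⟩ := gi_bd (d := d) i p'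
      rw [abs_le]
      constructor <;> linarith) zero_le_one (fun p p' h => by unfold gi; rw [h])
  unfold gr
  refine h.trans (le_of_eq ?_)
  push_cast
  ring

/-! ### the law of the noise with the levels below `lo` frozen -/

private theorem meas_mx45 (lo : ℕ) (ω : Om) : Measurable (mx lo ω) := by
  rw [measurable_pi_iff]
  intro i
  unfold mx
  by_cases h : lo ≤ i.1
  · simp only [h, if_true]
    exact measurable_pi_apply i
  · simp only [h, if_false]
    exact measurable_const

private theorem int45 (lo : ℕ) (ω : Om) {F : Pt → ℝ} (hF : Measurable F) {K : ℝ} (hK : ∀ p, |F p| ≤ K) :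
    ∫ p, F p ∂((Lc lo ω).prod (volume : Measure T2)) = ∫ η, (∫ z : T2, F (mx lo ω η, z)) ∂PP := by
  have hpr : IsProbabilityMeasure (Lc lo ω) := Measure.isProbabilityMeasure_map (meas_mx45 lo ω).aemeasurable
  have hi : Integrable F ((Lc lo ω).prod (volume : Measure T2)) :=
    Integrable.of_bound hF.aestronglyMeasurable K (Eventually.of_forall fun p => by
        rw [Real.norm_eq_abs]; exact hK p)
  rw [integral_prod _ hi]
  have h1 : ∫ η, (∫ z : T2, F (η, z)) ∂(Lc lo ω) = ∫ η, (∫ z : T2, F (mx lo ω η, z)) ∂PP := by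
    unfold Lc
    exact integral_map (meas_mx45 lo ω).aemeasurable
      (hF.stronglyMeasurable.integral_prod_right' (ν := (volume : Measure T2))).aestronglyMeasurable
  exact h1

theorem int_ff (hd : d.Ok) (lo m : ℕ) (ω : Om) :
    ∫ η, ff d (mx lo ω η) m ∂PP = 2 * EmL (Lc lo ω) d m - EmL (Lc lo ω) d (2 * m) := by
  have hi : ∀ m, Integrable (fun η => un d (mx lo ω η) m) PP := by
    intro m
    refine Integrable.of_bound ((meas_un hd m).comp (meas_mx45 lo ω)).aestronglyMeasurable
      (Real.log 2 + m * (3 * Real.log |d.a|)) (Eventually.of_forall fun η => ?_)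
    obtain ⟨h1, h2⟩ := un_bd hd (mx lo ω η) m
    rw [Real.norm_eq_abs, abs_of_nonneg h1]
    exact h2
  have hE : ∀ m, EmL (Lc lo ω) d m = ∫ η, un d (mx lo ω η) m ∂PP := fun m =>
    int45 lo ω (meas_nn hd m).log (abs_log45 hd m)
  unfold ff
  rw [integral_sub ((hi m).const_mul 2) (hi (2 * m)), integral_const_mul, hE, hE]

theorem int_gr (hd : d.Ok) (lo i : ℕ) (ω : Om) :
    ∫ η, gr d (mx lo ω η) i ∂PP = ∫ p, gi d i p ∂((Lc lo ω).prod (volume : Measure T2)) :=
  (int45 lo ω (meas_gi hd i) (K := 1) fun p => by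
    rw [abs_of_nonneg (gi_bd i p).1]
    exact (gi_bd i p).2).symm

end Pool.Agent.Helper18.HA
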